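import Pool.Agent.W217.RS.Stm3

set_option autoImplicit false

/-!
# The probability that a random matrix with two-valued entries is badly invertible
-/

open scoped BigOperators

noncomputable section

namespace Pool.Agent.W217.RS

namespace DISCMaux

theorem pr_def {Ω : Type} [Fintype Ω] (p : Ω → Prop) [DecidablePred p] :
    pr p = ((Finset.univ.filter p).card : ℝ) / Fintype.card Ω := by
  unfold pr
  congr

theorem pr_mono {Ω : Type} [Fintype Ω] {p q : Ω → Prop} (h : ∀ x, p x → q x) : pr p ≤ pr q := by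
  classical
  unfold pr
  refine div_le_div_of_nonneg_right ?_ (Nat.cast_nonneg _)
  refine Nat.cast_le.2 (Finset.card_le_card fun x hx => ?_)
  rw [Finset.mem_filter] at hx ⊢
  exact ⟨hx.1, h x hx.2⟩

theorem pr_or {Ω : Type} [Fintype Ω] (p q : Ω → Prop) :
    pr (fun x => p x ∨ q x) ≤ pr p + pr q := by
  classical
  rw [pr_def, pr_def, pr_def]
  rw [← add_div]
  refine div_le_div_of_nonneg_right ?_ (Nat.cast_nonneg _)
  rw [← Nat.cast_add]
  refine Nat.cast_le.2 ?_
  refine le_trans (Finset.card_le_card fun x hx => ?_) (Finset.card_union_le _ _)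
  rw [Finset.mem_filter] at hx
  rw [Finset.mem_union, Finset.mem_filter, Finset.mem_filter]
  rcases hx.2 with h | h
  · exact Or.inl ⟨hx.1, h⟩
  · exact Or.inr ⟨hx.1, h⟩

theorem pr_exists {Ω : Type} [Fintype Ω] {n : ℕ} (p : Fin n → Ω → Prop) :
    pr (fun x => ∃ k, p k x) ≤ ∑ k, pr (p k) := by
  classical
  simp only [pr_def]
  rw [← Finset.sum_div]
  refine div_le_div_of_nonneg_right ?_ (Nat.cast_nonneg _)
  rw [← Nat.cast_sum]
  refine Nat.cast_le.2 ?_
  refine le_trans (Finset.card_le_card (t := Finset.univ.biUnion fun k =>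
    Finset.univ.filter (p k)) fun x hx => ?_) Finset.card_biUnion_le
  rw [Finset.mem_filter] at hx
  obtain ⟨k, hk⟩ := hx.2
  rw [Finset.mem_biUnion]
  exact ⟨k, Finset.mem_univ _, Finset.mem_filter.2 ⟨Finset.mem_univ _, hk⟩⟩

theorem pr_equiv {Ω : Type} [Fintype Ω] (e : Ω ≃ Ω) (p : Ω → Prop) :
    pr (fun x => p (e x)) = pr p := by
  classical
  unfold pr
  congr 2
  refine Finset.card_bij (fun x _ => e x) ?_ ?_ ?_
  · intro x hx
    rw [Finset.mem_filter] at hx ⊢
    exact ⟨Finset.mem_univ _, hx.2⟩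
  · intro x _ y _ h
    exact e.injective h
  · intro y hy
    rw [Finset.mem_filter] at hy
    refine ⟨e.symm y, ?_, e.apply_symm_apply y⟩
    rw [Finset.mem_filter]
    refine ⟨Finset.mem_univ _, ?_⟩
    rw [e.apply_symm_apply]
    exact hy.2

open Classical in
theorem pr_markov {Ω : Type} [Fintype Ω] {n : ℕ} (p : Fin n → Ω → Prop) (m : ℕ) (hm : 1 ≤ m) :
    pr (fun x => m ≤ (Finset.univ.filter fun k => p k x).card) ≤ (∑ k, pr (p k)) / m := by
  have hm' : (0 : ℝ) < m := by exact_mod_cast hm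
  rw [le_div_iff₀ hm']
  simp only [pr_def]
  rw [← Finset.sum_div, div_mul_eq_mul_div]
  refine div_le_div_of_nonneg_right ?_ (Nat.cast_nonneg _)
  rw [← Nat.cast_sum, ← Nat.cast_mul]
  refine Nat.cast_le.2 ?_
  have h1 : ∑ k, (Finset.univ.filter (p k)).card =
      ∑ x : Ω, (Finset.univ.filter fun k => p k x).card := by
    simp only [Finset.card_filter]
    exact Finset.sum_comm
  rw [h1]
  calc (Finset.univ.filter fun x => m ≤ (Finset.univ.filter fun k => p k x).card).card * m
      = ∑ x ∈ Finset.univ.filter (fun x => m ≤ (Finset.univ.filter fun k => p k x).card), m := by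
        rw [Finset.sum_const, smul_eq_mul]
    _ ≤ ∑ x ∈ Finset.univ.filter (fun x => m ≤ (Finset.univ.filter fun k => p k x).card),
        (Finset.univ.filter fun k => p k x).card :=
        Finset.sum_le_sum fun x hx => (Finset.mem_filter.1 hx).2
    _ ≤ ∑ x : Ω, (Finset.univ.filter fun k => p k x).card :=
        Finset.sum_le_sum_of_subset (Finset.filter_subset _ _)

theorem nrm_nonneg {n : ℕ} (v : Fin n → ℝ) : 0 ≤ nrm v := Real.sqrt_nonneg _

theorem nrm_smul {n : ℕ} (r : ℝ) (v : Fin n → ℝ) : nrm (r • v) = |r| * nrm v := by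
  unfold nrm
  rw [← Real.sqrt_sq_eq_abs, ← Real.sqrt_mul (sq_nonneg r), Finset.mul_sum]
  congr 1
  refine Finset.sum_congr rfl fun i _ => ?_
  rw [Pi.smul_apply, smul_eq_mul, mul_pow]

theorem nrm_ne {n : ℕ} (v : Fin n → ℝ) (h : v ≠ 0) : 0 < nrm v := by
  refine lt_of_le_of_ne (nrm_nonneg v) fun h0 => h ?_
  have h1 : ∑ i, v i ^ 2 = 0 := by
    unfold nrm at h0
    exact (Real.sqrt_eq_zero (Finset.sum_nonneg fun i _ => sq_nonneg _)).1 h0.symm
  funext i
  have h2 := (Finset.sum_eq_zero_iff_of_nonneg (fun i _ => sq_nonneg (v i))).1 h1 i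
    (Finset.mem_univ i)
  exact pow_eq_zero_iff (two_ne_zero) |>.1 h2

theorem abs_le_nrm {n : ℕ} (v : Fin n → ℝ) (j : Fin n) : |v j| ≤ nrm v := by
  unfold nrm
  refine Real.abs_le_sqrt ?_
  exact Finset.single_le_sum (f := fun i => v i ^ 2) (fun i _ => sq_nonneg _) (Finset.mem_univ j)

theorem abs_dot_le {n : ℕ} (u v : Fin n → ℝ) : |∑ i, u i * v i| ≤ nrm u * nrm v := by
  rw [abs_le]
  constructor
  · have h := Real.sum_mul_le_sqrt_mul_sqrt Finset.univ (fun i => - u i) v
    have h2 : ∑ i, (- u i) * v i = - ∑ i, u i * v i := by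
      rw [← Finset.sum_neg_distrib]
      exact Finset.sum_congr rfl fun i _ => by ring
    have h3 : ∑ i, (- u i) ^ 2 = ∑ i, u i ^ 2 := Finset.sum_congr rfl fun i _ => by ring
    rw [h2, h3] at h
    unfold nrm
    linarith
  · exact Real.sum_mul_le_sqrt_mul_sqrt Finset.univ u v

theorem exists_unit {n : ℕ} (A : Matrix (Fin n) (Fin n) ℝ) (k : Fin n) :
    ∃ u : Fin n → ℝ, nrm u = 1 ∧ ∀ i, i ≠ k → ∑ j, A i j * u j = 0 := by
  classical
  have h0 : (A.updateRow k 0).det = 0 := by
    refine Matrix.det_eq_zero_of_row_eq_zero k fun j => ?_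
    rw [Matrix.updateRow_self]
    rfl
  obtain ⟨v, hv, h1⟩ := Matrix.exists_mulVec_eq_zero_iff.2 h0
  have h2 : ∀ i, i ≠ k → ∑ j, A i j * v j = 0 := by
    intro i hi
    have h3 : ∑ j, A.updateRow k 0 i j * v j = 0 := congrFun h1 i
    refine Eq.trans ?_ h3
    refine Finset.sum_congr rfl fun j _ => ?_
    rw [Matrix.updateRow_ne hi]
  have h4 := nrm_ne v hv
  refine ⟨(nrm v)⁻¹ • v, ?_, ?_⟩
  · rw [nrm_smul, abs_of_pos (inv_pos.2 h4), inv_mul_cancel₀ h4.ne']
  · intro i hi
    have h5 : ∑ j, A i j * ((nrm v)⁻¹ • v) j = (nrm v)⁻¹ * ∑ j, A i j * v j := by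
      rw [Finset.mul_sum]
      refine Finset.sum_congr rfl fun j _ => ?_
      rw [Pi.smul_apply, smul_eq_mul]
      ring
    rw [h5, h2 i hi, mul_zero]

/-- The unit vector orthogonal to all rows except the row `k`. -/
def gv {n : ℕ} (c d : ℝ) (k : Fin n) (s : Fin n → Fin n → Bool) : Fin n → ℝ :=
  (exists_unit (two c d (Function.update s k fun _ => false)) k).choose

theorem gv_nrm {n : ℕ} (c d : ℝ) (k : Fin n) (s : Fin n → Fin n → Bool) :
    nrm (gv c d k s) = 1 :=
  (exists_unit (two c d (Function.update s k fun _ => false)) k).choose_spec.1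

theorem gv_orth {n : ℕ} (c d : ℝ) (k : Fin n) (s : Fin n → Fin n → Bool) (i : Fin n)
    (hi : i ≠ k) : ∑ j, (c + d * sg (s i j)) * gv c d k s j = 0 := by
  have h := (exists_unit (two c d (Function.update s k fun _ => false)) k).choose_spec.2 i hi
  refine Eq.trans ?_ h
  refine Finset.sum_congr rfl fun j _ => ?_
  unfold two gv
  rw [Function.update_of_ne hi]
  rfl

theorem gv_update {n : ℕ} (c d : ℝ) (k : Fin n) (s : Fin n → Fin n → Bool) (t : Fin n → Bool) :
    gv c d k (Function.update s k t) = gv c d k s := by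
  unfold gv
  simp only [Function.update_idem]

theorem pE1 (hN : NOSP) (c d : ℝ) (n m : ℕ) (hd : 0 < d) (hc : |c| + d ≤ 1)
    (hn : 24 ≤ d * n ^ 2) :
    pr (fun s : Fin n → Fin n → Bool => ∃ v : Fin n → ℝ, nrm v = 1 ∧ ¬ Spr n m v ∧
      ∀ j, |∑ i, (c + d * sg (s i j)) * v i| ≤ 1 / (n : ℝ) ^ 2) ≤
    ((n : ℝ) * (2 * n ^ 3 + 1)) ^ m * (13 / 16) ^ n := by
  have h := hN c d n n m Finset.univ hd hc hn
  rw [Finset.card_univ, Fintype.card_fin] at h
  refine le_trans (le_of_eq ?_) h
  rw [← pr_equiv (Equiv.piComm fun _ _ => Bool)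
    (fun s : Fin n → Fin n → Bool => ∃ v : Fin n → ℝ, nrm v = 1 ∧ ¬ Spr n m v ∧
      ∀ i ∈ Finset.univ, |∑ j, (c + d * sg (s i j)) * v j| ≤ 1 / (n : ℝ) ^ 2)]
  congr 1
  funext s
  simp [Equiv.piComm]

theorem pE2 (hN : NOSP) (c d : ℝ) (n m : ℕ) (hd : 0 < d) (hc : |c| + d ≤ 1)
    (hn : 24 ≤ d * n ^ 2) (k : Fin n) :
    pr (fun s : Fin n → Fin n → Bool => ¬ Spr n m (gv c d k s)) ≤
    ((n : ℝ) * (2 * n ^ 3 + 1)) ^ m * (13 / 16) ^ (n - 1) := by
  have h := hN c d n n m (Finset.univ.erase k) hd hc hn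
  rw [Finset.card_erase_of_mem (Finset.mem_univ k), Finset.card_univ, Fintype.card_fin] at h
  refine le_trans (pr_mono ?_) h
  intro s hs
  refine ⟨gv c d k s, gv_nrm c d k s, hs, fun i hi => ?_⟩
  rw [gv_orth c d k s i (Finset.ne_of_mem_erase hi), abs_zero]
  positivity

/-- The vector `gv c d k s` has many entries that are not very small, and its scalar product with
the row `k` is small. -/
def E3 {n : ℕ} (c d : ℝ) (m : ℕ) (k : Fin n) (s : Fin n → Fin n → Bool) : Prop :=
  Spr n m (gv c d k s) ∧ |∑ j, (c + d * sg (s k j)) * gv c d k s j| < d / (n : ℝ) ^ 3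

theorem pE3 (hE : ELO) (hR : RESA) (c d : ℝ) (n m : ℕ) (hd : 0 < d) (hm : 1 ≤ m) (k : Fin n) :
    pr (E3 c d m k) ≤ 1 / Real.sqrt m := by
  have hn : 0 < n := Fin.pos k
  have hn' : (0 : ℝ) < n := by exact_mod_cast hn
  refine hR n k _ _ fun s => ?_
  by_cases hs : Spr n m (gv c d k s)
  · refine le_trans (pr_mono ?_) (hE n m (gv c d k s) (-(c / d) * ∑ j, gv c d k s j)
      (1 / (n : ℝ) ^ 3) (by positivity) hm hs)
    intro t ht
    unfold E3 at ht
    rw [gv_update] at ht
    have h1 : ∑ j, (c + d * sg (Function.update s k t k j)) * gv c d k s j =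
        d * (∑ j, gv c d k s j * sg (t j) - -(c / d) * ∑ j, gv c d k s j) := by
      rw [Function.update_self]
      have h2 : ∑ j, (c + d * sg (t j)) * gv c d k s j =
          c * (∑ j, gv c d k s j) + d * ∑ j, gv c d k s j * sg (t j) := by
        rw [Finset.mul_sum, Finset.mul_sum, ← Finset.sum_add_distrib]
        exact Finset.sum_congr rfl fun j _ => by ring
      rw [h2]
      field_simp
      ring
    have h3 := ht.2
    rw [h1, abs_mul, abs_of_pos hd] at h3
    have h4 : d / (n : ℝ) ^ 3 = d * (1 / (n : ℝ) ^ 3) := by ring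
    rw [h4] at h3
    exact lt_of_mul_lt_mul_left h3 hd.le
  · have h1 : (fun t : Fin n → Bool => E3 c d m k (Function.update s k t)) =
        fun _ => False := by
      funext t
      unfold E3
      rw [gv_update]
      exact propext ⟨fun h => hs h.1, fun h => h.elim⟩
    rw [h1]
    unfold pr
    simp

open Classical in
theorem key (c d : ℝ) (n m : ℕ) (hd : 0 < d) (hc : |c| + d ≤ 1) (h1 : 1 < d ^ 2 * n)
    (hL : LOWT) (s : Fin n → Fin n → Bool) (hs : ¬ Low (two c d s) (1 / (n : ℝ) ^ 7)) :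
    (∃ v : Fin n → ℝ, nrm v = 1 ∧ ¬ Spr n m v ∧
      ∀ j, |∑ i, (c + d * sg (s i j)) * v i| ≤ 1 / (n : ℝ) ^ 2) ∨
    (∃ k, ¬ Spr n m (gv c d k s)) ∨
    m ≤ (Finset.univ.filter fun k => E3 c d m k s).card := by
  have hd1 : d ≤ 1 := by
    have := abs_nonneg c
    linarith
  have hn : 0 < n := by
    rcases Nat.eq_zero_or_pos n with h | h
    · subst h
      norm_num at h1
    · exact h
  have hn' : (0 : ℝ) < n := by exact_mod_cast hn
  have hn1 : (1 : ℝ) ≤ n := by exact_mod_cast hn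
  have hdn : 1 < d * n := by
    have : d ^ 2 * n ≤ d * n := by
      refine mul_le_mul_of_nonneg_right ?_ hn'.le
      nlinarith
    linarith
  have h2 : ¬ Low (two c d s).transpose (1 / (n : ℝ) ^ 7) := by
    intro h
    have h3 := (hL n (two c d s).transpose (1 / (n : ℝ) ^ 7) (by positivity) h).2.1
    rw [Matrix.transpose_transpose] at h3
    exact hs h3
  unfold Low at h2
  push Not at h2
  obtain ⟨v0, hv0⟩ := h2
  have h3 : 0 < nrm v0 := by
    by_contra h
    have h4 : nrm v0 = 0 := le_antisymm (not_lt.1 h) (nrm_nonneg v0)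
    rw [h4, mul_zero] at hv0
    exact absurd hv0 (not_lt.2 (nrm_nonneg _))
  obtain ⟨v, hv1, hv2⟩ : ∃ v : Fin n → ℝ, nrm v = 1 ∧
      nrm ((two c d s).transpose.mulVec v) < 1 / (n : ℝ) ^ 7 := by
    refine ⟨(nrm v0)⁻¹ • v0, ?_, ?_⟩
    · rw [nrm_smul, abs_of_pos (inv_pos.2 h3), inv_mul_cancel₀ h3.ne']
    · rw [Matrix.mulVec_smul, nrm_smul, abs_of_pos (inv_pos.2 h3)]
      rw [inv_mul_lt_iff₀ h3, mul_comm]
      exact hv0
  have hcomp : ∀ j, (two c d s).transpose.mulVec v j = ∑ i, (c + d * sg (s i j)) * v i := by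
    intro j
    rfl
  by_cases hspr : Spr n m v
  swap
  · left
    refine ⟨v, hv1, hspr, fun j => ?_⟩
    rw [← hcomp]
    refine (abs_le_nrm _ j).trans (hv2.le.trans ?_)
    refine one_div_le_one_div_of_le (by positivity) ?_
    exact pow_le_pow_right₀ hn1 (by norm_num)
  · right
    by_cases hE : ∃ k, ¬ Spr n m (gv c d k s)
    · exact Or.inl hE
    · right
      push Not at hE
      unfold Spr at hspr
      refine hspr.trans (Finset.card_le_card fun k hk => ?_)
      rw [Finset.mem_filter] at hk ⊢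
      refine ⟨hk.1, hE k, ?_⟩
      have h5 := abs_dot_le (gv c d k s) ((two c d s).transpose.mulVec v)
      rw [gv_nrm, one_mul] at h5
      have h6 : ∑ j, gv c d k s j * (two c d s).transpose.mulVec v j =
          v k * ∑ j, (c + d * sg (s k j)) * gv c d k s j := by
        have h7 : ∑ j, gv c d k s j * (two c d s).transpose.mulVec v j =
            ∑ i, v i * ∑ j, (c + d * sg (s i j)) * gv c d k s j := by
          simp only [hcomp, Finset.mul_sum]
          rw [Finset.sum_comm]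
          refine Finset.sum_congr rfl fun i _ => Finset.sum_congr rfl fun j _ => by ring
        rw [h7]
        refine Finset.sum_eq_single k (fun i _ hi => ?_) (fun h => absurd (Finset.mem_univ k) h)
        rw [gv_orth c d k s i hi, mul_zero]
      rw [h6, abs_mul] at h5
      have h8 := h5.trans_lt hv2
      have h9 : 1 / (n : ℝ) ^ 3 * |∑ j, (c + d * sg (s k j)) * gv c d k s j| <
          1 / (n : ℝ) ^ 7 := lt_of_le_of_lt (mul_le_mul_of_nonneg_right hk.2 (abs_nonneg _)) h8
      rw [one_div_mul_eq_div, div_lt_iff₀ (by positivity)] at h9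
      refine h9.trans_le ?_
      rw [le_div_iff₀ (by positivity)]
      have h10 : 1 / (n : ℝ) ^ 7 * (n : ℝ) ^ 3 * (n : ℝ) ^ 3 = 1 / n := by
        field_simp
      rw [h10, div_le_iff₀ hn']
      exact hdn.le

end DISCMaux

open DISCMaux in
open Classical in
theorem pDISCM : NOSP → ELO → RESA → LOWT → DISCM := by
  intro hN hE hR hL c d n m hd hc hn hm h1
  have hm' : (0 : ℝ) < m := by exact_mod_cast hm
  have hB : (0 : ℝ) ≤ ((n : ℝ) * (2 * n ^ 3 + 1)) ^ m := by positivity
  have h2 := pr_mono (key c d n m hd hc h1 hL)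
  refine h2.trans ?_
  refine (pr_or _ _).trans ?_
  have h3 := pE1 hN c d n m hd hc hn
  have h4 : pr (fun s : Fin n → Fin n → Bool => (∃ k, ¬ Spr n m (gv c d k s)) ∨
    m ≤ (Finset.univ.filter fun k => E3 c d m k s).card) ≤
      n * (((n : ℝ) * (2 * n ^ 3 + 1)) ^ m * (13 / 16) ^ (n - 1)) + n / (m * Real.sqrt m) := by
    refine (pr_or _ _).trans (add_le_add ?_ ?_)
    · refine (pr_exists _).trans ?_
      refine (Finset.sum_le_sum fun k _ => pE2 hN c d n m hd hc hn k).trans ?_
      rw [Finset.sum_const, Finset.card_univ, Fintype.card_fin, nsmul_eq_mul]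
    · refine (pr_markov _ m hm).trans ?_
      rw [div_le_iff₀ hm']
      refine (Finset.sum_le_sum fun k _ => pE3 hE hR c d n m hd hm k).trans ?_
      rw [Finset.sum_const, Finset.card_univ, Fintype.card_fin, nsmul_eq_mul]
      have : 0 < Real.sqrt m := Real.sqrt_pos.2 hm'
      rw [show (n : ℝ) / (m * Real.sqrt m) * m = n * (1 / Real.sqrt m) by field_simp]
  have h5 : (13 / 16 : ℝ) ^ n ≤ (13 / 16) ^ (n - 1) :=
    pow_le_pow_of_le_one (by norm_num) (by norm_num) (Nat.sub_le _ _)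
  have h6 := mul_le_mul_of_nonneg_left h5 hB
  have h7 := add_le_add (h3.trans h6) h4
  refine h7.trans (le_of_eq ?_)
  ring

end Pool.Agent.W217.RS
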