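import Pool.Agent.W217.RS.Stm3

set_option autoImplicit false

open scoped BigOperators

noncomputable section

namespace Pool.Agent.W217.RS.ELOaux

open Finset Pool.Agent.W217.RS

theorem central_sq (k : ℕ) : (Nat.centralBinom k) ^ 2 * (2 * k + 1) ≤ 16 ^ k := by
  induction k with
  | zero => simp
  | succ k ih =>
    have h := Nat.succ_mul_centralBinom_succ k
    have h2 : ((k + 1) * Nat.centralBinom (k + 1)) ^ 2 * (2 * k + 3) ≤
        (k + 1) ^ 2 * 16 ^ (k + 1) := by
      rw [h]
      calc (2 * (2 * k + 1) * Nat.centralBinom k) ^ 2 * (2 * k + 3)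
          = (Nat.centralBinom k ^ 2 * (2 * k + 1)) * (4 * (2 * k + 1) * (2 * k + 3)) := by ring
        _ ≤ 16 ^ k * (4 * (2 * k + 1) * (2 * k + 3)) := Nat.mul_le_mul_right _ ih
        _ ≤ 16 ^ k * (16 * (k + 1) ^ 2) := Nat.mul_le_mul_left _ (by nlinarith)
        _ = (k + 1) ^ 2 * 16 ^ (k + 1) := by ring
    have h3 : (k + 1) ^ 2 * (Nat.centralBinom (k + 1) ^ 2 * (2 * (k + 1) + 1)) ≤
        (k + 1) ^ 2 * 16 ^ (k + 1) := by
      calc (k + 1) ^ 2 * (Nat.centralBinom (k + 1) ^ 2 * (2 * (k + 1) + 1))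
          = ((k + 1) * Nat.centralBinom (k + 1)) ^ 2 * (2 * k + 3) := by ring
        _ ≤ _ := h2
    exact Nat.le_of_mul_le_mul_left h3 (by positivity)

theorem choose_half_sq (n : ℕ) : (n.choose (n / 2)) ^ 2 * n ≤ 4 ^ n := by
  rcases Nat.even_or_odd' n with ⟨k, rfl | rfl⟩
  · have h := central_sq k
    rw [Nat.centralBinom_eq_two_mul_choose] at h
    rw [Nat.mul_div_cancel_left k (by norm_num), pow_mul]
    calc (2 * k).choose k ^ 2 * (2 * k) ≤ (2 * k).choose k ^ 2 * (2 * k + 1) :=
          Nat.mul_le_mul_left _ (by omega)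
      _ ≤ 16 ^ k := h
      _ = (4 ^ 2) ^ k := by norm_num
  · have h := central_sq (k + 1)
    have h1 : (2 * k + 1) / 2 = k := by omega
    have h2 : Nat.centralBinom (k + 1) = 2 * (2 * k + 1).choose k := by
      rw [Nat.centralBinom_eq_two_mul_choose, show 2 * (k + 1) = (2 * k + 1) + 1 by ring,
        Nat.choose_succ_succ, show (2 * k + 1).choose (k + 1) = (2 * k + 1).choose k by
          rw [Nat.choose_symm_half]]
      ring
    rw [h2] at h
    rw [h1]
    have h4 : 4 * ((2 * k + 1).choose k ^ 2 * (2 * k + 1)) ≤ 4 * 4 ^ (2 * k + 1) := by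
      calc 4 * ((2 * k + 1).choose k ^ 2 * (2 * k + 1))
          ≤ (2 * (2 * k + 1).choose k) ^ 2 * (2 * (k + 1) + 1) := by
            rw [show (2 * (2 * k + 1).choose k) ^ 2 * (2 * (k + 1) + 1) =
              4 * ((2 * k + 1).choose k ^ 2 * (2 * k + 3)) by ring]
            exact Nat.mul_le_mul_left _ (Nat.mul_le_mul_left _ (by omega))
        _ ≤ 16 ^ (k + 1) := h
        _ = 4 * 4 ^ (2 * k + 1) := by
          rw [show (16 : ℕ) = 4 ^ 2 by norm_num, ← pow_mul, show 2 * (k + 1) = (2 * k + 1) + 1 by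
            ring, pow_succ]
          ring
    exact Nat.le_of_mul_le_mul_left h4 (by norm_num)

/-- all coefficients are large -/
theorem lo_core {ι : Type} [Fintype ι] [DecidableEq ι] (w : ι → ℝ) (a r : ℝ)
    (hr : 0 < r) (hw : ∀ k, r ≤ |w k|) :
    (univ.filter fun x : ι → Bool => |∑ k, w k * sg (x k) - a| < r).card ≤
      (Fintype.card ι).choose (Fintype.card ι / 2) := by
  classical
  let A : (ι → Bool) → Finset ι := fun x => univ.filter fun k => x k = decide (0 < w k)
  have hA : Function.Injective A := by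
    intro x y h
    funext k
    have h1 : k ∈ A x ↔ k ∈ A y := by rw [h]
    simp only [A, mem_filter, mem_univ, true_and] at h1
    cases hx : x k <;> cases hy : y k <;> cases hd : decide (0 < w k) <;> simp_all
  have hw0 : ∀ k, w k ≠ 0 := by
    intro k h
    have := hw k
    rw [h, abs_zero] at this
    linarith
  have hsum : ∀ x, ∑ k, w k * sg (x k) = ∑ k, (if k ∈ A x then |w k| else -|w k|) := by
    intro x
    refine sum_congr rfl fun k _ => ?_
    simp only [A, mem_filter, mem_univ, true_and]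
    rcases lt_or_gt_of_ne (hw0 k) with h | h
    · have h1 : decide (0 < w k) = false := by simp; exact h.le
      rw [h1, abs_of_neg h]
      cases x k <;> simp [sg]
    · have h1 : decide (0 < w k) = true := by simp; exact h
      rw [h1, abs_of_pos h]
      cases x k <;> simp [sg]
  have hmono : ∀ x y, A x ⊆ A y → A x ≠ A y →
      ∑ k, w k * sg (x k) + 2 * r ≤ ∑ k, w k * sg (y k) := by
    intro x y hxy hne
    rw [hsum, hsum]
    obtain ⟨k, hk1, hk2⟩ := exists_of_ssubset (hxy.ssubset_of_ne hne)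
    have h1 : ∀ l, (0 : ℝ) ≤ (if l ∈ A y then |w l| else -|w l|) -
        (if l ∈ A x then |w l| else -|w l|) := by
      intro l
      have h0 : 0 ≤ |w l| := abs_nonneg _
      by_cases h1 : l ∈ A x
      · rw [if_pos h1, if_pos (hxy h1)]; simp
      · rw [if_neg h1]
        split_ifs <;> linarith
    have h2 : (if k ∈ A y then |w k| else -|w k|) - (if k ∈ A x then |w k| else -|w k|) ≤
        ∑ l, ((if l ∈ A y then |w l| else -|w l|) - (if l ∈ A x then |w l| else -|w l|)) :=
      single_le_sum (f := fun l => (if l ∈ A y then |w l| else -|w l|) -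
        (if l ∈ A x then |w l| else -|w l|)) (fun l _ => h1 l) (mem_univ k)
    rw [sum_sub_distrib, if_pos hk1, if_neg hk2] at h2
    have := hw k
    linarith
  set S := univ.filter fun x : ι → Bool => |∑ k, w k * sg (x k) - a| < r with hS
  have hanti : IsAntichain (· ⊆ ·) (SetLike.coe (S.image A)) := by
    intro s hs t ht hst hsub
    rw [SetLike.mem_coe, mem_image] at hs ht
    obtain ⟨x, hx, rfl⟩ := hs
    obtain ⟨y, hy, rfl⟩ := ht
    have h1 := hmono x y hsub hst
    rw [hS, mem_filter] at hx hy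
    have h2 := (abs_lt.1 hx.2).1
    have h3 := (abs_lt.1 hy.2).2
    linarith
  have h2 := hanti.sperner
  rw [card_image_of_injective S hA] at h2
  exact h2

theorem choose_sqrt (s : ℕ) : ((s.choose (s / 2) : ℕ) : ℝ) * Real.sqrt s ≤ 2 ^ s := by
  have h9 : (((s.choose (s / 2)) ^ 2 * s : ℕ) : ℝ) ≤ ((4 ^ s : ℕ) : ℝ) :=
    Nat.cast_le.2 (choose_half_sq s)
  push_cast at h9
  refine abs_le_of_sq_le_sq' ?_ (by positivity) |>.2
  rw [mul_pow, Real.sq_sqrt (by positivity), ← pow_mul, mul_comm s 2, pow_mul]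
  norm_num
  exact h9

theorem count_prod {Ω X Y : Type} [Fintype Ω] [Fintype X] [Fintype Y] (e : Ω ≃ X × Y)
    (p : Ω → Prop) [DecidablePred p] (P : X → Y → Prop) [∀ y, DecidablePred fun x => P x y]
    (h : ∀ x, p x ↔ P (e x).1 (e x).2) (B : ℕ)
    (hB : ∀ y, (univ.filter fun x => P x y).card ≤ B) :
    (univ.filter p).card ≤ Fintype.card Y * B := by
  classical
  have h1 : (univ.filter p).card = (univ.filter fun z : X × Y => P z.1 z.2).card := by
    refine card_equiv e ?_
    intro x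
    simp only [mem_filter, mem_univ, true_and]
    exact h x
  have h2 : (univ.filter fun z : X × Y => P z.1 z.2).card =
      ∑ y : Y, (univ.filter fun x : X => P x y).card := by
    simp_rw [card_filter]
    rw [Fintype.sum_prod_type, sum_comm]
  rw [h1, h2]
  calc _ ≤ ∑ y : Y, B := sum_le_sum (fun y _ => by convert hB y)
    _ = _ := by rw [sum_const, card_univ, smul_eq_mul]

end Pool.Agent.W217.RS.ELOaux

namespace Pool.Agent.W217.RS

open ELOaux Finset

theorem pELO : ELO := by
  classical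
  intro n m w a r hr hm hcard
  obtain ⟨M, hM⟩ : ∃ M : ℕ, M = Fintype.card {k // r ≤ |w k|} := ⟨_, rfl⟩
  have h3 : (univ.filter fun x : Fin n → Bool => |∑ k, w k * sg (x k) - a| < r).card ≤
      Fintype.card ({k // ¬ r ≤ |w k|} → Bool) * M.choose (M / 2) := by
    refine count_prod (Equiv.piEquivPiSubtypeProd (fun k : Fin n => r ≤ |w k|)
      (fun _ : Fin n => Bool)) _ (fun (x : {k // r ≤ |w k|} → Bool)
        (y : {k // ¬ r ≤ |w k|} → Bool) => |∑ k : {k // r ≤ |w k|}, w k * sg (x k) -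
          (a - ∑ k : {k // ¬ r ≤ |w k|}, w k * sg (y k))| < r) ?_ _ ?_
    · intro x
      have h2 : ∑ k, w k * sg (x k) =
          ∑ k : {k // r ≤ |w k|}, w k * sg (x k) + ∑ k : {k // ¬ r ≤ |w k|}, w k * sg (x k) :=
        (Fintype.sum_subtype_add_sum_subtype (fun k => r ≤ |w k|) (fun k => w k * sg (x k))).symm
      rw [h2]
      have h4 : ∑ k : {k // r ≤ |w k|}, w k * sg (x k) +
          ∑ k : {k // ¬ r ≤ |w k|}, w k * sg (x k) - a =
          ∑ k : {k // r ≤ |w k|}, w k * sg (x k) -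
          (a - ∑ k : {k // ¬ r ≤ |w k|}, w k * sg (x k)) := by ring
      rw [h4]
      exact Iff.rfl
    · intro q
      rw [hM]
      exact lo_core (fun k : {k // r ≤ |w k|} => w k) _ r hr (fun k => k.2)
  have h5 : (univ.filter fun k => r ≤ |w k|).card = M := by
    rw [hM]; exact (Fintype.card_subtype _).symm
  obtain ⟨M', hM'⟩ : ∃ M' : ℕ, M' = Fintype.card {k // ¬ r ≤ |w k|} := ⟨_, rfl⟩
  have h6 : n = M + M' := by
    rw [hM, hM']
    have := Fintype.card_subtype_compl (fun k => r ≤ |w k|)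
    have h7 := Fintype.card_subtype_le (fun k => r ≤ |w k|)
    rw [Fintype.card_fin] at this h7
    omega
  rw [Fintype.card_fun, Fintype.card_bool, ← hM'] at h3
  have hmM : m ≤ M := by
    rw [← h5]; convert hcard
  unfold pr
  rw [Fintype.card_fun, Fintype.card_bool, Fintype.card_fin]
  have hsm : 0 < Real.sqrt m := Real.sqrt_pos.2 (by exact_mod_cast hm)
  rw [div_le_div_iff₀ (by positivity) hsm, one_mul]
  have h8 := choose_sqrt M
  have h9 : Real.sqrt m ≤ Real.sqrt M := Real.sqrt_le_sqrt (by exact_mod_cast hmM)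
  obtain ⟨c, hc⟩ : ∃ c : ℕ, c = (univ.filter fun x : Fin n → Bool =>
    |∑ k, w k * sg (x k) - a| < r).card := ⟨_, rfl⟩
  have h10 : (c : ℝ) ≤ 2 ^ M' * (M.choose (M / 2) : ℕ) := by
    rw [← hc] at h3
    exact_mod_cast h3
  have h11 : (c : ℝ) * Real.sqrt m ≤ 2 ^ n := by
    calc (c : ℝ) * Real.sqrt m ≤ (2 ^ M' * (M.choose (M / 2) : ℕ)) * Real.sqrt M :=
          mul_le_mul h10 h9 hsm.le (by positivity)
      _ = 2 ^ M' * ((M.choose (M / 2) : ℕ) * Real.sqrt M) := by ring
      _ ≤ 2 ^ M' * 2 ^ M := by gcongr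
      _ = 2 ^ n := by rw [← pow_add, h6, add_comm]
  rw [hc] at h11
  push_cast
  convert h11

end Pool.Agent.W217.RS
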