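import Pool.Agent.W217.RS.Stm3

set_option autoImplicit false

open scoped BigOperators
open Filter Topology

noncomputable section

namespace Pool.Agent.W217.RS

namespace FINDaux

theorem main_bound (n S ε : ℝ) (hn : 2 ≤ n) (hS0 : 0 ≤ S) (hS : S ≤ n ^ 2) (hε : 0 < ε)
    (hε1 : ε < 1) :
    0 ≤ 1 + Real.log (n * (1 + S / (1 / n ^ 7)) / ε) ∧
    1 + Real.log (n * (1 + S / (1 / n ^ 7)) / ε) ≤ 13 * Real.log (n / ε) := by
  have hn0 : 0 < n := by linarith
  have e1 : S / (1 / n ^ 7) = S * n ^ 7 := by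
    field_simp
  rw [e1]
  have h1 : S * n ^ 7 ≤ n ^ 9 := by
    calc S * n ^ 7 ≤ n ^ 2 * n ^ 7 := mul_le_mul_of_nonneg_right hS (by positivity)
      _ = n ^ 9 := by ring
  have h0 : 0 ≤ S * n ^ 7 := by positivity
  have h2 : 1 + S * n ^ 7 ≤ n ^ 10 := by
    have : 1 ≤ n ^ 9 := one_le_pow₀ (by linarith)
    calc 1 + S * n ^ 7 ≤ n ^ 9 + n ^ 9 := add_le_add this h1
      _ = 2 * n ^ 9 := by ring
      _ ≤ n * n ^ 9 := mul_le_mul_of_nonneg_right hn (by positivity)
      _ = n ^ 10 := by ring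
  have h3 : n * (1 + S * n ^ 7) / ε ≤ (n / ε) ^ 11 := by
    rw [div_pow, div_le_div_iff₀ hε (by positivity)]
    have h4 : ε ^ 11 ≤ ε := by
      have : ε ^ 11 ≤ ε ^ 1 := pow_le_pow_of_le_one hε.le hε1.le (by norm_num)
      simpa using this
    calc n * (1 + S * n ^ 7) * ε ^ 11 ≤ n * n ^ 10 * ε := by
          apply mul_le_mul _ h4 (by positivity) (by positivity)
          exact mul_le_mul_of_nonneg_left h2 hn0.le
      _ = n ^ 11 * ε := by ring
  have h5 : 1 ≤ n * (1 + S * n ^ 7) / ε := by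
    rw [le_div_iff₀ hε]
    nlinarith
  have h6 : Real.log (n * (1 + S * n ^ 7) / ε) ≤ 11 * Real.log (n / ε) := by
    have := Real.log_le_log (by linarith) h3
    rw [Real.log_pow] at this
    exact_mod_cast this
  have h7 : 0 ≤ Real.log (n * (1 + S * n ^ 7) / ε) := Real.log_nonneg h5
  have h8 : 2 ≤ n / ε := by
    rw [le_div_iff₀ hε]; nlinarith
  have h9 : Real.log 2 ≤ Real.log (n / ε) := Real.log_le_log (by norm_num) h8
  have h10 := Real.log_two_gt_d9
  constructor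
  · linarith
  · linarith

theorem pr_le_one {Ω : Type} [Fintype Ω] (p : Ω → Prop) : pr p ≤ 1 := by
  classical
  unfold pr
  apply div_le_one_of_le₀ _ (Nat.cast_nonneg _)
  exact_mod_cast Finset.card_le_univ _

theorem pr_not {Ω : Type} [Fintype Ω] [Nonempty Ω] (p : Ω → Prop) :
    pr p = 1 - pr (fun s => ¬ p s) := by
  classical
  have hc : (Fintype.card Ω : ℝ) ≠ 0 := by
    have : Fintype.card Ω ≠ 0 := Fintype.card_ne_zero
    exact_mod_cast this
  unfold pr
  rw [eq_sub_iff_add_eq, ← add_div, div_eq_one_iff_eq hc]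
  have h1 : ∀ (i1 : DecidablePred p) (i2 : DecidablePred fun s => ¬ p s),
      (@Finset.filter Ω p i1 Finset.univ).card +
        (@Finset.filter Ω (fun s => ¬ p s) i2 Finset.univ).card = Fintype.card Ω := by
    intro i1 i2
    rw [← Finset.card_univ, ← Finset.card_union_of_disjoint]
    · congr 1
      ext x
      simp [em]
    · rw [Finset.disjoint_left]
      intro x hx hx'
      rw [Finset.mem_filter] at hx hx'
      exact hx'.2 hx.2
  exact_mod_cast h1 _ _

/-- The good sizes. -/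
def ok (d : ℝ) (n : ℕ) : Prop := 2 ≤ n ∧ 24 ≤ d * n ^ 2 ∧ 1 < d ^ 2 * n

theorem ev_ok (d : ℝ) (hd : 0 < d) : ∀ᶠ n : ℕ in atTop, ok d n := by
  have h1 : ∀ᶠ n : ℕ in atTop, 24 / d ≤ (n : ℝ) := by
    filter_upwards [eventually_ge_atTop ⌈24 / d⌉₊] with n hn
    exact (Nat.le_ceil _).trans (by exact_mod_cast hn)
  have h2 : ∀ᶠ n : ℕ in atTop, 1 / d ^ 2 + 1 ≤ (n : ℝ) := by
    filter_upwards [eventually_ge_atTop ⌈1 / d ^ 2 + 1⌉₊] with n hn
    exact (Nat.le_ceil _).trans (by exact_mod_cast hn)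
  filter_upwards [h1, h2, eventually_ge_atTop 2] with n h3 h4 h5
  have h6 : (2 : ℝ) ≤ n := by exact_mod_cast h5
  refine ⟨h5, ?_, ?_⟩
  · rw [div_le_iff₀ hd] at h3
    nlinarith [mul_pos hd (show (0 : ℝ) < n by linarith)]
  · have h7 : 0 < d ^ 2 := by positivity
    have h8 : 1 / d ^ 2 * d ^ 2 = 1 := by field_simp
    nlinarith [mul_le_mul_of_nonneg_left h4 h7.le]

end FINDaux

open FINDaux in
theorem pFIND : SOLVE → DISCM → LIMD → FIND := by
  classical
  intro hS hD hl c d hd hcd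
  obtain ⟨C, hC⟩ := hS
  refine ⟨fun n => if ok d n then {s | Low (two c d s) (1 / (n : ℝ) ^ 7)} else ∅, C * 2197, 3,
    ?_, ?_⟩
  · have hl' := hl.const_sub 1
    rw [sub_zero] at hl'
    refine tendsto_of_tendsto_of_tendsto_of_le_of_le' hl' tendsto_const_nhds ?_
      (Filter.Eventually.of_forall fun n => pr_le_one _)
    filter_upwards [ev_ok d hd] with n hn
    rw [if_pos hn, pr_not]
    refine sub_le_sub_left ?_ _
    have hm : 1 ≤ ⌈(n : ℝ) ^ (3 / 4 : ℝ)⌉₊ := by
      have h1 : (0 : ℝ) < (n : ℝ) ^ (3 / 4 : ℝ) := by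
        apply Real.rpow_pos_of_pos
        have := hn.1
        have h2 : 0 < n := by omega
        exact_mod_cast h2
      exact Nat.one_le_iff_ne_zero.2 (Nat.ceil_pos.2 h1).ne'
    exact hD c d n _ hd hcd hn.2.1 hm hn.2.2
  · intro n s hs b ε hε hε1
    by_cases h : ok d n
    swap
    · simp only [if_neg h] at hs
      exact absurd hs (Set.notMem_empty _)
    simp only [if_pos h] at hs
    have hn2 : (2 : ℝ) ≤ n := by exact_mod_cast h.1
    have hn0 : (0 : ℝ) < n := by linarith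
    have hlow : Low (two c d s) (1 / (n : ℝ) ^ 7) := hs
    have hn1 : 1 ≤ n := by have := h.1; omega
    obtain ⟨t, m, h1, h2, h3, h4⟩ := hC n (two c d s) b ε _ hn1 hε hε1 (by positivity) hlow
    refine ⟨t, m, h1, ?_, h3⟩
    have hent : ∀ i j, |two c d s i j| ≤ 1 := by
      intro i j
      unfold two sg
      refine (abs_add_le _ _).trans (le_trans ?_ hcd)
      rw [abs_mul, abs_of_pos hd]
      split_ifs <;> simp
    have hS2 : ∑ i, ∑ j, |two c d s i j| ≤ (n : ℝ) ^ 2 := by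
      calc ∑ i, ∑ j, |two c d s i j| ≤ ∑ i : Fin n, ∑ j : Fin n, (1 : ℝ) :=
            Finset.sum_le_sum fun i _ => Finset.sum_le_sum fun j _ => hent i j
        _ = (n : ℝ) ^ 2 := by
            simp only [Finset.sum_const, Finset.card_univ, Fintype.card_fin, nsmul_eq_mul]
            ring
    have hS0 : 0 ≤ ∑ i, ∑ j, |two c d s i j| :=
      Finset.sum_nonneg fun i _ => Finset.sum_nonneg fun j _ => abs_nonneg _
    obtain ⟨b0, b1⟩ := main_bound n _ ε hn2 hS0 hS2 hε hε1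
    have b2 := pow_le_pow_left₀ b0 b1 3
    calc (m : ℝ) ≤ C * (n : ℝ) ^ 2 *
          (1 + Real.log (n * (1 + (∑ i, ∑ j, |two c d s i j|) / (1 / (n : ℝ) ^ 7)) / ε)) ^ 3 := h2
      _ ≤ C * (n : ℝ) ^ 2 * (13 * Real.log (n / ε)) ^ 3 :=
          mul_le_mul_of_nonneg_left b2 (by positivity)
      _ = C * 2197 * (n : ℝ) ^ 2 * Real.log (n / ε) ^ 3 := by ring

end Pool.Agent.W217.RS
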