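import Pool.Agent.W217.RS.Stm3

set_option autoImplicit false

open scoped BigOperators
open Filter Topology

noncomputable section

namespace Pool.Agent.W217.RS

namespace LIMDaux

theorem Hlim (L : ℝ) : Tendsto (fun x : ℝ => (Real.log 2 - L) * x⁻¹ + Real.log x / x +
    2 * Real.log 3 * x ^ (-(1 / 4 : ℝ)) + 8 * (Real.log x / x ^ (1 / 4 : ℝ))) atTop (𝓝 0) := by
  have h1 : Tendsto (fun x : ℝ => x⁻¹) atTop (𝓝 0) := tendsto_inv_atTop_zero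
  have h2 : Tendsto (fun x : ℝ => Real.log x / x) atTop (𝓝 0) :=
    Real.isLittleO_log_id_atTop.tendsto_div_nhds_zero
  have h3 : Tendsto (fun x : ℝ => x ^ (-(1 / 4 : ℝ))) atTop (𝓝 0) :=
    tendsto_rpow_neg_atTop (by norm_num)
  have h4 : Tendsto (fun x : ℝ => Real.log x / x ^ (1 / 4 : ℝ)) atTop (𝓝 0) :=
    (isLittleO_log_rpow_atTop (by norm_num)).tendsto_div_nhds_zero
  have h5 := (((h1.const_mul (Real.log 2 - L)).add h2).add
    (h3.const_mul (2 * Real.log 3))).add (h4.const_mul 8)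
  simpa using h5

theorem bnd (n : ℕ) (hn : 1 ≤ n) (L : ℝ) (hL : L = Real.log (13 / 16)) :
    ((n : ℝ) + 1) * ((n : ℝ) * (2 * n ^ 3 + 1)) ^ ⌈(n : ℝ) ^ (3 / 4 : ℝ)⌉₊ * (13 / 16) ^ (n - 1) ≤
    Real.exp (n * (L + ((Real.log 2 - L) * (n : ℝ)⁻¹ + Real.log n / n +
      2 * Real.log 3 * (n : ℝ) ^ (-(1 / 4 : ℝ)) +
      8 * (Real.log n / (n : ℝ) ^ (1 / 4 : ℝ))))) := by
  have hx : (1 : ℝ) ≤ n := by exact_mod_cast hn
  have hx0 : (0 : ℝ) < n := by linarith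
  have hp : 1 ≤ (n : ℝ) ^ (3 / 4 : ℝ) := Real.one_le_rpow hx (by norm_num)
  have hm2 : (⌈(n : ℝ) ^ (3 / 4 : ℝ)⌉₊ : ℝ) ≤ 2 * (n : ℝ) ^ (3 / 4 : ℝ) := by
    have := Nat.ceil_lt_add_one (a := (n : ℝ) ^ (3 / 4 : ℝ)) (by positivity)
    linarith
  generalize ⌈(n : ℝ) ^ (3 / 4 : ℝ)⌉₊ = m at hm2 ⊢
  have hn3 : (1 : ℝ) ≤ (n : ℝ) ^ 3 := one_le_pow₀ hx
  have hA1 : (1 : ℝ) ≤ (n : ℝ) * (2 * n ^ 3 + 1) := by nlinarith
  have hA : (n : ℝ) * (2 * n ^ 3 + 1) ≤ 3 * (n : ℝ) ^ 4 := by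
    have h1 : (n : ℝ) ≤ (n : ℝ) ^ 4 := le_self_pow₀ hx (by norm_num)
    nlinarith
  have hA0 : 0 < (n : ℝ) * (2 * n ^ 3 + 1) := by linarith
  have hlA : Real.log ((n : ℝ) * (2 * n ^ 3 + 1)) ≤ Real.log 3 + 4 * Real.log n := by
    have h1 := Real.log_le_log hA0 hA
    have h2 : Real.log (3 * (n : ℝ) ^ 4) = Real.log 3 + 4 * Real.log n := by
      rw [Real.log_mul (by norm_num) (by positivity), Real.log_pow]
      norm_num
    rw [h2] at h1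
    exact h1
  have hlA0 : 0 ≤ Real.log ((n : ℝ) * (2 * n ^ 3 + 1)) := Real.log_nonneg hA1
  have e1 : (n : ℝ) + 1 ≤ Real.exp (Real.log 2 + Real.log n) := by
    rw [Real.exp_add, Real.exp_log (by norm_num), Real.exp_log hx0]
    linarith
  have e2 : ((n : ℝ) * (2 * n ^ 3 + 1)) ^ m ≤
      Real.exp (2 * (n : ℝ) ^ (3 / 4 : ℝ) * (Real.log 3 + 4 * Real.log n)) := by
    have h1 : ((n : ℝ) * (2 * n ^ 3 + 1)) ^ m =
        Real.exp ((m : ℝ) * Real.log ((n : ℝ) * (2 * n ^ 3 + 1))) := by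
      rw [Real.exp_nat_mul, Real.exp_log hA0]
    rw [h1]
    apply Real.exp_le_exp.2
    exact (mul_le_mul_of_nonneg_right hm2 hlA0).trans
      (mul_le_mul_of_nonneg_left hlA (by positivity))
  have e3 : ((13 : ℝ) / 16) ^ (n - 1) = Real.exp (((n : ℝ) - 1) * L) := by
    have h1 : Real.exp (((n - 1 : ℕ) : ℝ) * Real.log (13 / 16)) = (13 / 16 : ℝ) ^ (n - 1) := by
      rw [Real.exp_nat_mul, Real.exp_log (by norm_num)]
    rw [← h1, hL, Nat.cast_sub hn, Nat.cast_one]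
  have q1 : (n : ℝ) * (n : ℝ) ^ (-(1 / 4 : ℝ)) = (n : ℝ) ^ (3 / 4 : ℝ) := by
    nth_rewrite 1 [← Real.rpow_one (n : ℝ)]
    rw [← Real.rpow_add hx0]
    norm_num
  have q2 : (n : ℝ) * (Real.log n / (n : ℝ) ^ (1 / 4 : ℝ)) =
      Real.log n * (n : ℝ) ^ (3 / 4 : ℝ) := by
    rw [← q1, Real.rpow_neg hx0.le]
    ring
  rw [e3]
  calc ((n : ℝ) + 1) * ((n : ℝ) * (2 * n ^ 3 + 1)) ^ m * Real.exp (((n : ℝ) - 1) * L)
      ≤ Real.exp (Real.log 2 + Real.log n) *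
        Real.exp (2 * (n : ℝ) ^ (3 / 4 : ℝ) * (Real.log 3 + 4 * Real.log n)) *
        Real.exp (((n : ℝ) - 1) * L) := by
        refine mul_le_mul_of_nonneg_right ?_ (Real.exp_pos _).le
        exact mul_le_mul e1 e2 (by positivity) (Real.exp_pos _).le
    _ = _ := by
        rw [← Real.exp_add, ← Real.exp_add]
        congr 1
        have h1 : (n : ℝ) * (L + ((Real.log 2 - L) * (n : ℝ)⁻¹ + Real.log n / n +
            2 * Real.log 3 * (n : ℝ) ^ (-(1 / 4 : ℝ)) +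
            8 * (Real.log n / (n : ℝ) ^ (1 / 4 : ℝ)))) =
            n * L + (Real.log 2 - L) * ((n : ℝ) * (n : ℝ)⁻¹) + (n : ℝ) * (Real.log n / n) +
            2 * Real.log 3 * ((n : ℝ) * (n : ℝ) ^ (-(1 / 4 : ℝ))) +
            8 * ((n : ℝ) * (Real.log n / (n : ℝ) ^ (1 / 4 : ℝ))) := by ring
        rw [h1, q1, q2, mul_inv_cancel₀ hx0.ne', mul_div_cancel₀ _ hx0.ne']
        ring

theorem t1 : Tendsto (fun n : ℕ => ((n : ℝ) + 1) *
    ((n : ℝ) * (2 * n ^ 3 + 1)) ^ ⌈(n : ℝ) ^ (3 / 4 : ℝ)⌉₊ * (13 / 16) ^ (n - 1)) atTop (𝓝 0) := by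
  have hL : Real.log (13 / 16) < 0 := Real.log_neg (by norm_num) (by norm_num)
  have hH := (Hlim (Real.log (13 / 16))).comp (tendsto_natCast_atTop_atTop (R := ℝ))
  have hev := hH.eventually (gt_mem_nhds (show (0 : ℝ) < -Real.log (13 / 16) / 2 by linarith))
  refine squeeze_zero' (g := fun n : ℕ => (Real.exp (Real.log (13 / 16) / 2)) ^ n)
    (Filter.Eventually.of_forall fun n => by positivity) ?_ ?_
  · filter_upwards [hev, eventually_ge_atTop 1] with n h1 h2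
    refine (bnd n h2 _ rfl).trans ?_
    rw [← Real.exp_nat_mul]
    apply Real.exp_le_exp.2
    refine mul_le_mul_of_nonneg_left ?_ (Nat.cast_nonneg n)
    simp only [Function.comp] at h1
    linarith
  · apply tendsto_pow_atTop_nhds_zero_of_lt_one (Real.exp_pos _).le
    rw [Real.exp_lt_one_iff]
    linarith

theorem t2 : Tendsto (fun n : ℕ =>
    (n : ℝ) / ((⌈(n : ℝ) ^ (3 / 4 : ℝ)⌉₊ : ℝ) * Real.sqrt ⌈(n : ℝ) ^ (3 / 4 : ℝ)⌉₊))
    atTop (𝓝 0) := by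
  have h3 : Tendsto (fun x : ℝ => x ^ (-(1 / 8 : ℝ))) atTop (𝓝 0) :=
    tendsto_rpow_neg_atTop (by norm_num)
  have h4 := h3.comp (tendsto_natCast_atTop_atTop (R := ℝ))
  refine squeeze_zero' (Filter.Eventually.of_forall fun n => by positivity) ?_ h4
  filter_upwards [eventually_ge_atTop 1] with n hn
  have hx : (1 : ℝ) ≤ n := by exact_mod_cast hn
  have hx0 : (0 : ℝ) < n := by linarith
  have hm := Nat.le_ceil ((n : ℝ) ^ (3 / 4 : ℝ))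
  have hs : (n : ℝ) ^ (3 / 8 : ℝ) ≤ Real.sqrt ⌈(n : ℝ) ^ (3 / 4 : ℝ)⌉₊ := by
    apply Real.le_sqrt_of_sq_le
    refine le_trans (le_of_eq ?_) hm
    rw [← Real.rpow_natCast, ← Real.rpow_mul hx0.le]
    norm_num
  have h5 : (n : ℝ) ^ (9 / 8 : ℝ) ≤
      (⌈(n : ℝ) ^ (3 / 4 : ℝ)⌉₊ : ℝ) * Real.sqrt ⌈(n : ℝ) ^ (3 / 4 : ℝ)⌉₊ := by
    have h6 : (n : ℝ) ^ (9 / 8 : ℝ) = (n : ℝ) ^ (3 / 4 : ℝ) * (n : ℝ) ^ (3 / 8 : ℝ) := by
      rw [← Real.rpow_add hx0]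
      norm_num
    rw [h6]
    exact mul_le_mul hm hs (by positivity) (by positivity)
  have h7 : (n : ℝ) / (n : ℝ) ^ (9 / 8 : ℝ) = (n : ℝ) ^ (-(1 / 8 : ℝ)) := by
    rw [div_eq_iff (by positivity), ← Real.rpow_add hx0]
    norm_num
  change _ ≤ (n : ℝ) ^ (-(1 / 8 : ℝ))
  rw [← h7]
  exact div_le_div_of_nonneg_left hx0.le (by positivity) h5

end LIMDaux

open LIMDaux in
theorem pLIMD : LIMD := by
  have h := t1.add t2
  rw [add_zero] at h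
  exact h

end Pool.Agent.W217.RS
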