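import Pool.Agent.W217.RS.Stm3

set_option autoImplicit false

/-!
# No unit vector with few large entries is almost in the kernel of many rows
-/

open scoped BigOperators

noncomputable section

namespace Pool.Agent.W217.RS.NOSPaux

open Classical in
theorem pr_mono {Ω : Type} [Fintype Ω] {p q : Ω → Prop} (h : ∀ x, p x → q x) : pr p ≤ pr q := by
  unfold pr
  apply div_le_div_of_nonneg_right _ (Nat.cast_nonneg _)
  apply Nat.cast_le.2
  apply Finset.card_le_card
  intro x hx
  rw [Finset.mem_filter] at hx ⊢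
  exact ⟨hx.1, h x hx.2⟩

open Classical in
theorem pr_union {Ω ι : Type} [Fintype Ω] [Fintype ι] (q : ι → Ω → Prop) :
    pr (fun x => ∃ i, q i x) ≤ ∑ i, pr (q i) := by
  unfold pr
  rw [← Finset.sum_div]
  apply div_le_div_of_nonneg_right _ (Nat.cast_nonneg _)
  rw [← Nat.cast_sum]
  apply Nat.cast_le.2
  refine le_trans (Finset.card_le_card ?_) Finset.card_biUnion_le
  intro x hx
  replace hx := (@Finset.mem_filter _ _ (_) _ _).1 hx
  obtain ⟨i, hi⟩ := hx.2
  rw [Finset.mem_biUnion]
  exact ⟨i, Finset.mem_univ _, Finset.mem_filter.2 ⟨Finset.mem_univ _, hi⟩⟩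

theorem pr_false {Ω : Type} [Fintype Ω] : pr (fun _ : Ω => False) = 0 := by
  unfold pr; simp

open Classical in
theorem pr_nonneg {Ω : Type} [Fintype Ω] (p : Ω → Prop) : 0 ≤ pr p := by
  unfold pr; positivity

open Classical in
/-- independent rows -/
theorem pr_rows {N : ℕ} {T : Type} [Fintype T] [Nonempty T] (I : Finset (Fin N)) (P : T → Prop)
    (τ : ℝ) (h : pr P ≤ τ) : pr (fun s : Fin N → T => ∀ i ∈ I, P (s i)) ≤ τ ^ I.card := by
  have hT : (0 : ℝ) < Fintype.card T := by exact_mod_cast Fintype.card_pos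
  have h1 : ∀ D : DecidablePred (fun s : Fin N → T => ∀ i ∈ I, P (s i)),
      @Finset.filter _ (fun s : Fin N → T => ∀ i ∈ I, P (s i)) D Finset.univ =
      Fintype.piFinset (fun i => if i ∈ I then Finset.univ.filter P else Finset.univ) := by
    intro D
    ext s
    rw [Finset.mem_filter, Fintype.mem_piFinset]
    constructor
    · rintro ⟨_, hs⟩ i
      by_cases hi : i ∈ I
      · rw [if_pos hi, Finset.mem_filter]
        exact ⟨Finset.mem_univ _, hs i hi⟩
      · rw [if_neg hi]; exact Finset.mem_univ _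
    · intro hs
      refine ⟨Finset.mem_univ _, fun i hi => ?_⟩
      have := hs i
      rw [if_pos hi, Finset.mem_filter] at this
      exact this.2
  have h2 : pr (fun s : Fin N → T => ∀ i ∈ I, P (s i)) = pr P ^ I.card := by
    unfold pr
    rw [h1, Fintype.card_piFinset, Fintype.card_fun, Fintype.card_fin]
    push_cast
    have h3 : (Fintype.card T : ℝ) ^ N = ∏ _i : Fin N, (Fintype.card T : ℝ) := by
      rw [Finset.prod_const, Finset.card_univ, Fintype.card_fin]
    rw [h3, ← Finset.prod_div_distrib]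
    have h4 : ∀ i : Fin N, (((if i ∈ I then Finset.univ.filter P else Finset.univ).card : ℕ) : ℝ) /
        Fintype.card T = if i ∈ I then ((Finset.univ.filter P).card : ℝ) / Fintype.card T else 1 := by
      intro i
      by_cases hi : i ∈ I
      · rw [if_pos hi, if_pos hi]
      · rw [if_neg hi, if_neg hi, Finset.card_univ, div_self hT.ne']
    rw [Finset.prod_congr rfl fun i _ => h4 i, Finset.prod_ite_mem, Finset.univ_inter,
      Finset.prod_const]
  rw [h2]
  exact pow_le_pow_left₀ (pr_nonneg P) h _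

/-- coding of integer vectors with few nonzero entries -/
theorem code {n : ℕ} (B : ℕ) (k₀ : Fin n) (m : ℕ) : ∀ z : Fin n → ℤ, (∀ k, |z k| ≤ B) →
    (Finset.univ.filter fun k => z k ≠ 0).card ≤ m →
    ∃ p : Fin m → Fin n × Fin (2 * B + 1), ∀ k,
      z k = ∑ t, if (p t).1 = k then (((p t).2 : ℕ) : ℤ) - B else 0 := by
  classical
  induction m with
  | zero =>
    intro z _ hc
    refine ⟨fun t => t.elim0, fun k => ?_⟩
    have h1 : (Finset.univ.filter fun k => z k ≠ 0) = ∅ :=
      Finset.card_eq_zero.1 (Nat.le_zero.1 hc)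
    have h2 : k ∉ (Finset.univ.filter fun k => z k ≠ 0) := by rw [h1]; simp
    rw [Finset.mem_filter] at h2
    push Not at h2
    rw [h2 (Finset.mem_univ _)]
    simp
  | succ m ih =>
    intro z hz hc
    by_cases h0 : ∃ k₁, z k₁ ≠ 0
    · obtain ⟨k₁, hk₁⟩ := h0
      have hb := abs_le.1 (hz k₁)
      obtain ⟨p, hp⟩ := ih (Function.update z k₁ 0)
        (by
          intro k
          by_cases h : k = k₁
          · subst h; simp
          · rw [Function.update_of_ne h]; exact hz k)
        (by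
          have h1 : (Finset.univ.filter fun k => Function.update z k₁ 0 k ≠ 0) =
              (Finset.univ.filter fun k => z k ≠ 0).erase k₁ := by
            ext k
            rw [Finset.mem_erase, Finset.mem_filter, Finset.mem_filter]
            by_cases h : k = k₁
            · subst h; simp
            · rw [Function.update_of_ne h]; simp [h]
          have h2 : k₁ ∈ Finset.univ.filter fun k => z k ≠ 0 :=
            Finset.mem_filter.2 ⟨Finset.mem_univ _, hk₁⟩
          rw [h1, Finset.card_erase_of_mem h2]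
          omega)
      have hlt : (z k₁ + B).toNat < 2 * B + 1 := by omega
      refine ⟨Fin.cons (k₁, ⟨(z k₁ + B).toNat, hlt⟩) p, fun k => ?_⟩
      rw [Fin.sum_univ_succ]
      simp only [Fin.cons_zero, Fin.cons_succ]
      rw [← hp k]
      have h3 : (((z k₁ + B).toNat : ℕ) : ℤ) = z k₁ + B := by
        rw [Int.toNat_of_nonneg]; omega
      rw [h3]
      by_cases h : k = k₁
      · subst h; simp
      · rw [Function.update_of_ne h, if_neg (fun h' => h h'.symm), zero_add]
    · push Not at h0
      refine ⟨fun _ => (k₀, ⟨B, by omega⟩), fun k => ?_⟩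
      rw [h0 k]
      simp

end Pool.Agent.W217.RS.NOSPaux

namespace Pool.Agent.W217.RS

open NOSPaux

theorem pNOSP : SBALL → NOSP := by
  classical
  intro hS c d N n m I hd hcd hn
  have hd1 : d ≤ 1 := by have := abs_nonneg c; linarith
  have hn2 : (24 : ℝ) ≤ (n : ℝ) ^ 2 := by
    have : d * (n : ℝ) ^ 2 ≤ 1 * (n : ℝ) ^ 2 := mul_le_mul_of_nonneg_right hd1 (by positivity)
    linarith
  have hn4 : 4 ≤ n := by
    by_contra h
    have h1 : (n : ℝ) ≤ 3 := by exact_mod_cast (by omega : n ≤ 3)
    nlinarith [(Nat.cast_nonneg n : (0 : ℝ) ≤ n)]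
  have hn0 : (0 : ℝ) < n := by exact_mod_cast (by omega : 0 < n)
  have hn4' : (4 : ℝ) ≤ n := by exact_mod_cast hn4
  set B : ℕ := n ^ 3 with hB
  have hBR : (B : ℝ) = (n : ℝ) ^ 3 := by rw [hB]; push_cast; ring
  have hB0 : (0 : ℝ) < B := by rw [hBR]; positivity
  set δ : ℝ := 3 / (d * (n : ℝ) ^ 2) with hδ
  have hδ0 : 0 < δ := by positivity
  have hδ4 : 4 * δ ≤ 1 / 2 := by
    rw [hδ]
    rw [show 4 * (3 / (d * (n : ℝ) ^ 2)) = 12 / (d * (n : ℝ) ^ 2) by ring]
    rw [div_le_iff₀ (by positivity)]
    linarith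
  set w : (Fin m → Fin n × Fin (2 * B + 1)) → Fin n → ℝ := fun p k =>
    (∑ t, if (p t).1 = k then (((p t).2 : ℕ) : ℝ) - B else 0) / B with hw
  set Q : (Fin m → Fin n × Fin (2 * B + 1)) → (Fin N → Fin n → Bool) → Prop := fun p s =>
    1 / 2 ≤ nrm (w p) ∧ ∀ i ∈ I, |∑ k, w p k * sg (s i k) - (-(c / d) * ∑ k, w p k)| < δ with hQ
  have hcover : ∀ s : Fin N → Fin n → Bool, (∃ v : Fin n → ℝ, nrm v = 1 ∧ ¬ Spr n m v ∧
      ∀ i ∈ I, |∑ j, (c + d * sg (s i j)) * v j| ≤ 1 / (n : ℝ) ^ 2) → ∃ p, Q p s := by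
    rintro s ⟨v, hv, hsp, hr⟩
    have hsum : ∑ k, v k ^ 2 = 1 := by
      unfold nrm at hv
      rw [Real.sqrt_eq_one] at hv
      exact hv
    have hv1 : ∀ k, |v k| ≤ 1 := by
      intro k
      rw [← sq_le_one_iff_abs_le_one, ← hsum]
      exact Finset.single_le_sum (f := fun k => v k ^ 2) (fun i _ => sq_nonneg _)
        (Finset.mem_univ k)
    set z : Fin n → ℤ := fun k => if |v k| < 1 / (n : ℝ) ^ 3 then 0 else ⌊(B : ℝ) * v k⌋ with hz
    have hz1 : ∀ k, |z k| ≤ B := by
      intro k
      simp only [hz]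
      split_ifs
      · simp
      · have h1 := abs_le.1 (hv1 k)
        rw [abs_le]
        constructor
        · rw [Int.le_floor]
          push_cast
          nlinarith
        · have h2 : (⌊(B : ℝ) * v k⌋ : ℝ) ≤ B := (Int.floor_le _).trans (by nlinarith)
          exact_mod_cast h2
    have hz2 : ∀ k, |v k - (z k : ℝ) / B| ≤ 1 / (n : ℝ) ^ 3 := by
      intro k
      simp only [hz]
      split_ifs with h
      · simp only [Int.cast_zero, zero_div, sub_zero]; exact h.le
      · have h1 := Int.floor_le ((B : ℝ) * v k)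
        have h2 := Int.lt_floor_add_one ((B : ℝ) * v k)
        have h3 : v k - (⌊(B : ℝ) * v k⌋ : ℝ) / B = (B * v k - ⌊(B : ℝ) * v k⌋) / B := by
          field_simp
        rw [h3, abs_div, abs_of_pos hB0, ← hBR]
        gcongr
        rw [abs_le]
        constructor <;> linarith
    have hz3 : (Finset.univ.filter fun k => z k ≠ 0).card ≤ m := by
      unfold Spr at hsp
      push Not at hsp
      refine le_trans (Finset.card_le_card ?_) hsp.le
      intro k hk
      rw [Finset.mem_filter] at hk ⊢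
      refine ⟨Finset.mem_univ _, ?_⟩
      by_contra h
      apply hk.2
      simp only [hz]
      rw [if_pos (not_le.1 h)]
    obtain ⟨p, hp⟩ := code B ⟨0, by omega⟩ m z hz1 hz3
    have hwp : ∀ k, w p k = (z k : ℝ) / B := by
      intro k
      simp only [hw]
      rw [hp k]
      push_cast
      rfl
    have hvw : ∀ k, |v k - w p k| ≤ 1 / (n : ℝ) ^ 3 := fun k => by rw [hwp]; exact hz2 k
    refine ⟨p, ?_, ?_⟩
    · have h1 : ∀ k, v k ^ 2 ≤ 2 * w p k ^ 2 + 2 * (1 / (n : ℝ) ^ 3) ^ 2 := by
        intro k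
        have h2 : (v k - w p k) ^ 2 ≤ (1 / (n : ℝ) ^ 3) ^ 2 := sq_le_sq' (abs_le.1 (hvw k)).1
          (abs_le.1 (hvw k)).2
        nlinarith [sq_nonneg (v k - 2 * w p k)]
      have h3 : (1 : ℝ) ≤ 2 * ∑ k, w p k ^ 2 + n * (2 * (1 / (n : ℝ) ^ 3) ^ 2) := by
        calc (1 : ℝ) = ∑ k, v k ^ 2 := hsum.symm
          _ ≤ ∑ k : Fin n, (2 * w p k ^ 2 + 2 * (1 / (n : ℝ) ^ 3) ^ 2) :=
              Finset.sum_le_sum fun k _ => h1 k
          _ = _ := by
            rw [Finset.sum_add_distrib, ← Finset.mul_sum, Finset.sum_const, Finset.card_univ,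
              Fintype.card_fin, nsmul_eq_mul]
      have h4 : (n : ℝ) * (2 * (1 / (n : ℝ) ^ 3) ^ 2) ≤ 1 / 2 := by
        rw [show (n : ℝ) * (2 * (1 / (n : ℝ) ^ 3) ^ 2) = 2 / (n : ℝ) ^ 5 by field_simp]
        rw [div_le_iff₀ (by positivity)]
        have : (4 : ℝ) ^ 5 ≤ (n : ℝ) ^ 5 := pow_le_pow_left₀ (by norm_num) hn4' 5
        norm_num at this
        linarith
      unfold nrm
      rw [show (1 / 2 : ℝ) = Real.sqrt (1 / 4) by
        rw [show (1 / 4 : ℝ) = (1 / 2) ^ 2 by norm_num, Real.sqrt_sq (by norm_num)]]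
      apply Real.sqrt_le_sqrt
      linarith
    · intro i hi
      have h1 := hr i hi
      have h2 : |∑ j, (c + d * sg (s i j)) * w p j| ≤ 2 / (n : ℝ) ^ 2 := by
        have h3 : ∑ j, (c + d * sg (s i j)) * w p j = ∑ j, (c + d * sg (s i j)) * v j -
            ∑ j, (c + d * sg (s i j)) * (v j - w p j) := by
          rw [← Finset.sum_sub_distrib]
          apply Finset.sum_congr rfl
          intro j _
          ring
        have h4 : |∑ j, (c + d * sg (s i j)) * (v j - w p j)| ≤ 1 / (n : ℝ) ^ 2 := by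
          calc |∑ j, (c + d * sg (s i j)) * (v j - w p j)|
              ≤ ∑ j, |(c + d * sg (s i j)) * (v j - w p j)| := Finset.abs_sum_le_sum_abs _ _
            _ ≤ ∑ _j : Fin n, 1 / (n : ℝ) ^ 3 := by
                apply Finset.sum_le_sum
                intro j _
                rw [abs_mul]
                have h5 : |c + d * sg (s i j)| ≤ 1 := by
                  refine (abs_add_le _ _).trans ?_
                  rw [abs_mul, abs_of_pos hd]
                  have : |sg (s i j)| = 1 := by unfold sg; split_ifs <;> simp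
                  rw [this, mul_one]
                  exact hcd
                calc |c + d * sg (s i j)| * |v j - w p j| ≤ 1 * (1 / (n : ℝ) ^ 3) :=
                      mul_le_mul h5 (hvw j) (abs_nonneg _) (by norm_num)
                  _ = _ := one_mul _
            _ = 1 / (n : ℝ) ^ 2 := by
                rw [Finset.sum_const, Finset.card_univ, Fintype.card_fin, nsmul_eq_mul]
                field_simp
        rw [h3]
        calc |∑ j, (c + d * sg (s i j)) * v j - ∑ j, (c + d * sg (s i j)) * (v j - w p j)|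
            ≤ |∑ j, (c + d * sg (s i j)) * v j| + |∑ j, (c + d * sg (s i j)) * (v j - w p j)| :=
              abs_sub _ _
          _ ≤ 1 / (n : ℝ) ^ 2 + 1 / (n : ℝ) ^ 2 := add_le_add h1 h4
          _ = 2 / (n : ℝ) ^ 2 := by ring
      have h6 : ∑ k, w p k * sg (s i k) - (-(c / d) * ∑ k, w p k) =
          (∑ j, (c + d * sg (s i j)) * w p j) / d := by
        have h7 : ∑ j, (c + d * sg (s i j)) * w p j =
            c * ∑ j, w p j + d * ∑ j, w p j * sg (s i j) := by
          rw [Finset.mul_sum, Finset.mul_sum, ← Finset.sum_add_distrib]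
          apply Finset.sum_congr rfl
          intro j _
          ring
        rw [h7]
        field_simp
        ring
      rw [h6, abs_div, abs_of_pos hd, hδ, div_lt_div_iff₀ hd (by positivity)]
      have h8 : |∑ j, (c + d * sg (s i j)) * w p j| * (d * (n : ℝ) ^ 2) ≤ 2 * d := by
        calc |∑ j, (c + d * sg (s i j)) * w p j| * (d * (n : ℝ) ^ 2)
            ≤ 2 / (n : ℝ) ^ 2 * (d * (n : ℝ) ^ 2) := by gcongr
          _ = 2 * d := by field_simp
      linarith
  refine (pr_mono hcover).trans ((pr_union Q).trans ?_)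
  have hQp : ∀ p, pr (Q p) ≤ (13 / 16) ^ I.card := by
    intro p
    by_cases hp : 1 / 2 ≤ nrm (w p)
    · refine le_trans (pr_mono (fun s hs => hs.2)) ?_
      exact pr_rows I (fun r : Fin n → Bool =>
        |∑ k, w p k * sg (r k) - (-(c / d) * ∑ k, w p k)| < δ) _
        (hS n (w p) _ δ hδ0 (hδ4.trans hp))
    · refine le_trans (pr_mono (q := fun _ => False) (fun s hs => hp hs.1)) ?_
      rw [pr_false]
      positivity
  calc ∑ p, pr (Q p) ≤ ∑ _p : Fin m → Fin n × Fin (2 * B + 1), (13 / 16 : ℝ) ^ I.card :=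
        Finset.sum_le_sum fun p _ => hQp p
    _ = ((n : ℝ) * (2 * n ^ 3 + 1)) ^ m * (13 / 16) ^ I.card := by
        rw [Finset.sum_const, Finset.card_univ, Fintype.card_fun, Fintype.card_prod,
          Fintype.card_fin, Fintype.card_fin, Fintype.card_fin, nsmul_eq_mul]
        push_cast
        rw [hBR]

end Pool.Agent.W217.RS
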