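import Pool.Agent.W217.RS.Stm3

set_option autoImplicit false

/-!
# Changing one row at random
-/

open scoped BigOperators

noncomputable section

namespace Pool.Agent.W217.RS.RESAaux

variable {n : ℕ}

/-- exchange of the row `k` with a given row -/
def ex (k : Fin n) : ((Fin n → Fin n → Bool) × (Fin n → Bool)) ≃
    ((Fin n → Fin n → Bool) × (Fin n → Bool)) where
  toFun x := (Function.update x.1 k x.2, x.1 k)
  invFun x := (Function.update x.1 k x.2, x.1 k)
  left_inv x := by
    obtain ⟨s, t⟩ := x
    simp
  right_inv x := by
    obtain ⟨s, t⟩ := x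
    simp

open Classical in
theorem count (k : Fin n) (p : (Fin n → Fin n → Bool) → Prop) :
    ∑ s : Fin n → Fin n → Bool,
      (Finset.univ.filter fun t : Fin n → Bool => p (Function.update s k t)).card =
      (Finset.univ.filter p).card * Fintype.card (Fin n → Bool) := by
  have h1 : ∑ s : Fin n → Fin n → Bool,
      (Finset.univ.filter fun t : Fin n → Bool => p (Function.update s k t)).card =
      ∑ x : (Fin n → Fin n → Bool) × (Fin n → Bool), if p (ex k x).1 then 1 else 0 := by
    rw [Fintype.sum_prod_type]
    refine Finset.sum_congr rfl fun s _ => ?_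
    rw [Finset.card_filter]
    rfl
  have h2 : ∑ x : (Fin n → Fin n → Bool) × (Fin n → Bool), (if p (ex k x).1 then 1 else 0) =
      ∑ x : (Fin n → Fin n → Bool) × (Fin n → Bool), if p x.1 then 1 else 0 :=
    Equiv.sum_comp (ex k) fun x => if p x.1 then 1 else 0
  rw [h1, h2, Fintype.sum_prod_type, Finset.card_filter, Finset.sum_mul]
  refine Finset.sum_congr rfl fun s _ => ?_
  show (∑ _y : Fin n → Bool, if p s then 1 else 0) = _
  rw [Finset.sum_const, Finset.card_univ, smul_eq_mul, mul_comm]

end Pool.Agent.W217.RS.RESAaux

namespace Pool.Agent.W217.RS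

open RESAaux

theorem pRESA : RESA := by
  classical
  intro n k τ p h
  unfold pr at h ⊢
  have hT : (0 : ℝ) < Fintype.card (Fin n → Bool) := by exact_mod_cast Fintype.card_pos
  have hO : (0 : ℝ) < Fintype.card (Fin n → Fin n → Bool) := by exact_mod_cast Fintype.card_pos
  rw [div_le_iff₀ hO]
  have h1 : ∀ s : Fin n → Fin n → Bool,
      ((Finset.univ.filter fun t : Fin n → Bool => p (Function.update s k t)).card : ℝ) ≤
        τ * Fintype.card (Fin n → Bool) := by
    intro s
    have h2 := h s
    rw [div_le_iff₀ hT] at h2
    convert h2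
  have h3 : ((Finset.univ.filter p).card : ℝ) * Fintype.card (Fin n → Bool) ≤
      τ * Fintype.card (Fin n → Fin n → Bool) * Fintype.card (Fin n → Bool) := by
    have h4 := count k p
    have h5 : ((∑ s : Fin n → Fin n → Bool,
      (Finset.univ.filter fun t : Fin n → Bool => p (Function.update s k t)).card : ℕ) : ℝ) =
      (Finset.univ.filter p).card * Fintype.card (Fin n → Bool) := by
      rw [h4]
      push_cast
      rfl
    rw [← h5]
    push_cast
    calc ∑ s : Fin n → Fin n → Bool,
          ((Finset.univ.filter fun t : Fin n → Bool => p (Function.update s k t)).card : ℝ)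
        ≤ ∑ _s : Fin n → Fin n → Bool, τ * Fintype.card (Fin n → Bool) :=
          Finset.sum_le_sum fun s _ => h1 s
      _ = τ * Fintype.card (Fin n → Fin n → Bool) * Fintype.card (Fin n → Bool) := by
          rw [Finset.sum_const, Finset.card_univ, nsmul_eq_mul]
          ring
  exact le_of_mul_le_mul_right h3 hT

end Pool.Agent.W217.RS
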