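import Pool.Agent.W217.RS.Stm3

set_option autoImplicit false

open scoped BigOperators

noncomputable section

namespace Pool.Agent.W217.RS.SBALLaux

open Finset Pool.Agent.W217.RS

/-- the sum -/
def SS {n : ℕ} (w : Fin n → ℝ) (s : Fin n → Bool) : ℝ := ∑ k, w k * sg (s k)

theorem sum_cons {n : ℕ} (f : (Fin (n + 1) → Bool) → ℝ) :
    ∑ s, f s = ∑ s' : Fin n → Bool, (f (Fin.cons true s') + f (Fin.cons false s')) := by
  rw [← (Fin.consEquiv (fun _ : Fin (n + 1) => Bool)).sum_comp f, Fintype.sum_prod_type]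
  rw [Fintype.sum_bool, ← sum_add_distrib]
  rfl

theorem SS_cons {n : ℕ} (w : Fin (n + 1) → ℝ) (b : Bool) (s : Fin n → Bool) :
    SS w (Fin.cons b s) = w 0 * sg b + SS (fun k => w k.succ) s := by
  unfold SS
  rw [Fin.sum_univ_succ]
  simp

theorem m2 : ∀ (n : ℕ) (w : Fin n → ℝ), ∑ s, SS w s ^ 2 = 2 ^ n * ∑ k, w k ^ 2 := by
  intro n
  induction n with
  | zero => intro w; simp [SS]
  | succ n ih =>
    intro w
    rw [sum_cons]
    have h : ∀ s' : Fin n → Bool, SS w (Fin.cons true s') ^ 2 + SS w (Fin.cons false s') ^ 2 =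
        2 * SS (fun k => w k.succ) s' ^ 2 + 2 * w 0 ^ 2 := by
      intro s'
      rw [SS_cons, SS_cons]
      simp only [sg, if_true, if_false, Bool.false_eq_true]
      ring
    rw [sum_congr rfl (fun s' _ => h s'), sum_add_distrib, ← mul_sum, ih, Fin.sum_univ_succ,
      sum_const, card_univ, Fintype.card_fun, Fintype.card_bool, Fintype.card_fin, nsmul_eq_mul]
    push_cast
    ring

theorem m4 : ∀ (n : ℕ) (w : Fin n → ℝ), ∑ s, SS w s ^ 4 ≤ 2 ^ n * (3 * (∑ k, w k ^ 2) ^ 2) := by
  intro n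
  induction n with
  | zero => intro w; simp [SS]
  | succ n ih =>
    intro w
    rw [sum_cons]
    have h : ∀ s' : Fin n → Bool, SS w (Fin.cons true s') ^ 4 + SS w (Fin.cons false s') ^ 4 =
        2 * SS (fun k => w k.succ) s' ^ 4 + 12 * w 0 ^ 2 * SS (fun k => w k.succ) s' ^ 2 +
          2 * w 0 ^ 4 := by
      intro s'
      rw [SS_cons, SS_cons]
      simp only [sg, if_true, if_false, Bool.false_eq_true]
      ring
    rw [sum_congr rfl (fun s' _ => h s'), sum_add_distrib, sum_add_distrib, ← mul_sum, ← mul_sum,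
      m2, Fin.sum_univ_succ,
      sum_const, card_univ, Fintype.card_fun, Fintype.card_bool, Fintype.card_fin, nsmul_eq_mul]
    have h1 := ih (fun k => w k.succ)
    have h2 : (0 : ℝ) ≤ w 0 ^ 4 := by positivity
    have h3 : (0 : ℝ) < 2 ^ n := by positivity
    have e : (2 : ℝ) ^ (n + 1) = 2 * 2 ^ n := by ring
    push_cast
    rw [e]
    nlinarith [mul_nonneg h3.le h2]

/-- Paley-Zygmund -/
theorem pz {n : ℕ} (w : Fin n → ℝ) (hq : 0 < ∑ k, w k ^ 2) :
    (3 / 16 : ℝ) * 2 ^ n ≤
      ((univ.filter fun s : Fin n → Bool => (∑ k, w k ^ 2) / 4 ≤ SS w s ^ 2).card : ℝ) := by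
  classical
  obtain ⟨q, hqq⟩ : ∃ q : ℝ, q = ∑ k, w k ^ 2 := ⟨_, rfl⟩
  rw [← hqq] at hq ⊢
  obtain ⟨G, hG⟩ : ∃ G : Finset (Fin n → Bool), G = univ.filter fun s : Fin n → Bool =>
    q / 4 ≤ SS w s ^ 2 := ⟨_, rfl⟩
  rw [← hG]
  have h2 := m2 n w
  have h4 := m4 n w
  rw [← hqq] at h2 h4
  have h2n : (0 : ℝ) < 2 ^ n := by positivity
  -- the sum over the complement
  have h5 : ∑ s ∈ univ.filter (fun s : Fin n → Bool => ¬ q / 4 ≤ SS w s ^ 2), SS w s ^ 2 ≤
      2 ^ n * (q / 4) := by
    calc _ ≤ ∑ s ∈ univ.filter (fun s : Fin n → Bool => ¬ q / 4 ≤ SS w s ^ 2), q / 4 := by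
          refine sum_le_sum (fun s hs => ?_)
          exact (not_le.1 (mem_filter.1 hs).2).le
      _ ≤ ∑ s : Fin n → Bool, q / 4 :=
          sum_le_sum_of_subset_of_nonneg (subset_univ _) (fun _ _ _ => by positivity)
      _ = _ := by
          rw [sum_const, card_univ, Fintype.card_fun, Fintype.card_bool, Fintype.card_fin,
            nsmul_eq_mul]
          push_cast
          ring
  have h6 : ∑ s ∈ G, SS w s ^ 2 + ∑ s ∈ univ.filter (fun s : Fin n → Bool =>
      ¬ q / 4 ≤ SS w s ^ 2), SS w s ^ 2 = 2 ^ n * q := by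
    rw [hG, sum_filter_add_sum_filter_not, h2]
  have h7 : (3 / 4 : ℝ) * (2 ^ n * q) ≤ ∑ s ∈ G, SS w s ^ 2 := by linarith
  have h8 : (∑ s ∈ G, SS w s ^ 2) ^ 2 ≤ (G.card : ℝ) * ∑ s ∈ G, SS w s ^ 4 := by
    have := sq_sum_le_card_mul_sum_sq (s := G) (f := fun s => SS w s ^ 2)
    refine this.trans (le_of_eq ?_)
    congr 1
    refine sum_congr rfl (fun s _ => ?_)
    ring
  have h9 : ∑ s ∈ G, SS w s ^ 4 ≤ 2 ^ n * (3 * q ^ 2) :=
    (sum_le_sum_of_subset_of_nonneg (subset_univ _) (fun _ _ _ => by positivity)).trans h4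
  have h10 : ((3 / 4 : ℝ) * (2 ^ n * q)) ^ 2 ≤ (G.card : ℝ) * (2 ^ n * (3 * q ^ 2)) := by
    calc ((3 / 4 : ℝ) * (2 ^ n * q)) ^ 2 ≤ (∑ s ∈ G, SS w s ^ 2) ^ 2 := by gcongr
      _ ≤ (G.card : ℝ) * ∑ s ∈ G, SS w s ^ 4 := h8
      _ ≤ _ := by gcongr
  have h11 : (2 ^ n * (3 * q ^ 2)) * ((3 / 16 : ℝ) * 2 ^ n) ≤ (2 ^ n * (3 * q ^ 2)) * (G.card : ℝ) := by
    nlinarith [h10]
  exact le_of_mul_le_mul_left h11 (by positivity)

theorem pr_le {Ω : Type} [Fintype Ω] (p p' : Ω → Prop) (h : ∀ x, p x → p' x) : pr p ≤ pr p' := by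
  classical
  unfold pr
  have h1 : (univ.filter p).card ≤ (univ.filter p').card := by
    refine card_le_card (fun x hx => ?_)
    rw [mem_filter] at hx ⊢
    exact ⟨hx.1, h x hx.2⟩
  gcongr

theorem SS_not {n : ℕ} (w : Fin n → ℝ) (s : Fin n → Bool) :
    SS w (fun k => !(s k)) = - SS w s := by
  unfold SS
  rw [← sum_neg_distrib]
  refine sum_congr rfl (fun k _ => ?_)
  cases h : s k <;> simp [sg, h]

theorem pr_pos {n : ℕ} (w : Fin n → ℝ) (p : ℝ → Prop) (hp : ∀ x, p x → ¬ p (-x)) :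
    pr (fun s : Fin n → Bool => p (SS w s)) ≤ 1 / 2 := by
  classical
  unfold pr
  have h1 : (univ.filter (fun s : Fin n → Bool => p (SS w s))).card =
      (univ.filter (fun s : Fin n → Bool => p (- SS w s))).card := by
    refine card_bij (fun s _ => fun k => !(s k)) ?_ ?_ ?_
    · intro s hs
      rw [mem_filter] at hs ⊢
      refine ⟨mem_univ _, ?_⟩
      rw [SS_not, neg_neg]
      exact hs.2
    · intro s _ s' _ h
      funext k
      have := congrFun h k
      simpa using this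
    · intro s hs
      refine ⟨fun k => !(s k), ?_, ?_⟩
      · rw [mem_filter] at hs ⊢
        refine ⟨mem_univ _, ?_⟩
        rw [SS_not]
        exact hs.2
      · funext k; simp
  have h2 : Disjoint (univ.filter (fun s : Fin n → Bool => p (SS w s)))
      (univ.filter (fun s : Fin n → Bool => p (- SS w s))) := by
    rw [disjoint_left]
    intro s hs hs'
    rw [mem_filter] at hs hs'
    exact hp _ hs.2 hs'.2
  have h3 : (univ.filter (fun s : Fin n → Bool => p (SS w s))).card +
      (univ.filter (fun s : Fin n → Bool => p (- SS w s))).card ≤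
        Fintype.card (Fin n → Bool) := by
    rw [← card_union_of_disjoint h2]
    exact card_le_univ _
  rw [← h1] at h3
  have h4 : (0 : ℝ) < Fintype.card (Fin n → Bool) := by exact_mod_cast Fintype.card_pos
  rw [div_le_iff₀ h4]
  have h5 : (((univ.filter (fun s : Fin n → Bool => p (SS w s))).card : ℕ) : ℝ) +
      (((univ.filter (fun s : Fin n → Bool => p (SS w s))).card : ℕ) : ℝ) ≤
      Fintype.card (Fin n → Bool) := by exact_mod_cast h3
  have h6 : (((univ.filter (fun s : Fin n → Bool => p (SS w s))).card : ℕ) : ℝ) ≤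
      1 / 2 * (Fintype.card (Fin n → Bool) : ℝ) := by linarith
  convert h6

end Pool.Agent.W217.RS.SBALLaux

namespace Pool.Agent.W217.RS

open SBALLaux Finset

theorem pSBALL : SBALL := by
  classical
  intro n w a δ hδ hw
  by_cases ha : |a| < δ
  · -- small ball around zero
    have hq : 0 < ∑ k, w k ^ 2 := by
      by_contra h
      have h0 : nrm w = 0 := Real.sqrt_eq_zero_of_nonpos (not_lt.1 h)
      linarith
    have h1 := pz w hq
    have h2 : pr (fun s : Fin n → Bool => |∑ k, w k * sg (s k) - a| < δ) ≤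
        pr (fun s : Fin n → Bool => ¬ (∑ k, w k ^ 2) / 4 ≤ SS w s ^ 2) := by
      apply pr_le
      intro s hs hc
      have h3 : |SS w s| < 2 * δ := by
        have e : SS w s = (∑ k, w k * sg (s k) - a) + a := by unfold SS; ring
        rw [e]
        calc _ ≤ |∑ k, w k * sg (s k) - a| + |a| := abs_add_le _ _
          _ < 2 * δ := by linarith
      have h4 : |SS w s| < nrm w / 2 := by linarith
      have h5 : SS w s ^ 2 < (nrm w / 2) ^ 2 := by
        rw [← sq_abs (SS w s)]
        exact pow_lt_pow_left₀ h4 (abs_nonneg _) (by norm_num)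
      have h6 : (nrm w / 2) ^ 2 = (∑ k, w k ^ 2) / 4 := by
        unfold nrm
        rw [div_pow, Real.sq_sqrt hq.le]
        norm_num
      rw [h6] at h5
      linarith
    refine h2.trans ?_
    unfold pr
    rw [div_le_iff₀ (by exact_mod_cast Fintype.card_pos)]
    have h3 : (univ.filter fun s : Fin n → Bool => (∑ k, w k ^ 2) / 4 ≤ SS w s ^ 2).card +
        (univ.filter fun s : Fin n → Bool => ¬ (∑ k, w k ^ 2) / 4 ≤ SS w s ^ 2).card =
        2 ^ n := by
      rw [card_filter_add_card_filter_not, card_univ, Fintype.card_fun, Fintype.card_bool,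
        Fintype.card_fin]
    have h4 : ((univ.filter fun s : Fin n → Bool => (∑ k, w k ^ 2) / 4 ≤ SS w s ^ 2).card : ℝ) +
        ((univ.filter fun s : Fin n → Bool => ¬ (∑ k, w k ^ 2) / 4 ≤ SS w s ^ 2).card : ℝ) =
        2 ^ n := by exact_mod_cast h3
    have h5 : ((univ.filter fun s : Fin n → Bool => ¬ (∑ k, w k ^ 2) / 4 ≤ SS w s ^ 2).card : ℝ) ≤
        13 / 16 * ((Fintype.card (Fin n → Bool) : ℕ) : ℝ) := by
      rw [Fintype.card_fun, Fintype.card_bool, Fintype.card_fin]
      push_cast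
      linarith
    refine le_of_eq_of_le ?_ h5
    congr!
  · rw [not_lt] at ha
    have h1 : pr (fun s : Fin n → Bool => |∑ k, w k * sg (s k) - a| < δ) ≤ 1 / 2 := by
      rcases le_or_gt 0 a with h0 | h0
      · rw [abs_of_nonneg h0] at ha
        refine le_trans (pr_le _ (fun s => 0 < SS w s) ?_) (pr_pos w (fun x => 0 < x)
          (fun x hx hx' => by linarith))
        intro s hs
        have := (abs_lt.1 hs).1
        show 0 < ∑ k, w k * sg (s k)
        linarith
      · rw [abs_of_neg h0] at ha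
        refine le_trans (pr_le _ (fun s => SS w s < 0) ?_) (pr_pos w (fun x => x < 0)
          (fun x hx hx' => by linarith))
        intro s hs
        have := (abs_lt.1 hs).2
        show ∑ k, w k * sg (s k) < 0
        linarith
    linarith

end Pool.Agent.W217.RS
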