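import Pool.Agent.W217.RS.Stm2

set_option autoImplicit false

noncomputable section

namespace Pool.Agent.W217.RS

namespace ATILaux

theorem rnd_eq (h : ℕ) (y : ℝ) (h1 : |y| ≤ h) : rnd h y = (⌊y⌋ : ℝ) := by
  have h2 := abs_le.1 h1
  have e1 : min (y + h) (2 * h) = y + h := min_eq_left (by linarith [h2.2])
  have e2 : max 0 (y + (h : ℝ)) = y + h := max_eq_right (by linarith [h2.1])
  unfold rnd
  rw [e1, e2]
  have h3 : ((⌊y + (h : ℝ)⌋₊ : ℕ) : ℤ) = ⌊y + (h : ℝ)⌋ := Int.natCast_floor_eq_floor (by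
    linarith [h2.1])
  have h4 : ((⌊y + (h : ℝ)⌋₊ : ℕ) : ℝ) = ((⌊y + (h : ℝ)⌋ : ℤ) : ℝ) := by
    rw [← h3]
    simp
  rw [h4, Int.floor_add_natCast]
  push_cast
  ring

end ATILaux

theorem pATIL : ATIL := by
  intro n L A hL hA
  have hb : (2 : ℝ) ≤ 2 ^ (8 * L) := by
    calc (2 : ℝ) = 2 ^ 1 := by norm_num
      _ ≤ 2 ^ (8 * L) := pow_le_pow_right₀ (by norm_num) (by omega)
  have hbH : (2 : ℝ) ^ (8 * L) ≤ 2 ^ (20 * L) := pow_le_pow_right₀ (by norm_num) (by omega)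
  have hb0 : (0 : ℝ) < 2 ^ (8 * L) := by linarith
  have key : ∀ i < n, ∀ j < n, atil (2 ^ (8 * L)) (2 ^ (20 * L)) A i j =
      (⌊A i j * 2 ^ (8 * L)⌋ : ℝ) ∧ |A i j * 2 ^ (8 * L)| ≤ 2 ^ (8 * L) / 2 := by
    intro i hi j hj
    have h1 : |A i j * 2 ^ (8 * L)| ≤ 2 ^ (8 * L) / 2 := by
      rw [abs_mul, abs_of_pos hb0]
      nlinarith [hA i hi j hj]
    refine ⟨?_, h1⟩
    unfold atil
    have := ATILaux.rnd_eq (2 ^ (20 * L)) (A i j * 2 ^ (8 * L)) (by push_cast; linarith)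
    push_cast at this
    exact this
  refine ⟨fun i hi j hj => ?_, fun i hi j hj => ?_⟩
  · obtain ⟨h1, h2⟩ := key i hi j hj
    refine ⟨⟨_, h1⟩, ?_⟩
    rw [h1]
    have h3 := abs_le.1 h2
    have h4 := Int.floor_le (A i j * 2 ^ (8 * L))
    have h5 := Int.sub_one_lt_floor (A i j * 2 ^ (8 * L))
    rw [abs_le]
    constructor <;> linarith
  · obtain ⟨h1, h2⟩ := key i hi j hj
    rw [h1]
    have e : A i j - (⌊A i j * 2 ^ (8 * L)⌋ : ℝ) / 2 ^ (8 * L) =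
        (A i j * 2 ^ (8 * L) - (⌊A i j * 2 ^ (8 * L)⌋ : ℝ)) / 2 ^ (8 * L) := by
      field_simp
    rw [e, abs_div, abs_of_pos hb0]
    apply div_le_div_of_nonneg_right _ hb0.le
    rw [abs_le]
    have h4 := Int.floor_le (A i j * 2 ^ (8 * L))
    have h5 := Int.sub_one_lt_floor (A i j * 2 ^ (8 * L))
    constructor <;> linarith

end Pool.Agent.W217.RS
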