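import Pool.Agent.W217.RS.Stm2

set_option autoImplicit false

open scoped BigOperators

noncomputable section

namespace Pool.Agent.W217.RS.CHECKaux

open Pool.Agent.W217.RS

theorem okseq {p q : Pr} {s : St} {k : ℕ} {P Q : St → Prop} (k₁ k₂ : ℕ)
    (h : Ok p s k₁ P) (h2 : ∀ t, P t → Ok q t k₂ Q) (hk : k₁ + k₂ ≤ k) : Ok (.seq p q) s k Q :=
  Ok.seq k₁ k₂ (h.mono le_rfl h2) hk

theorem std_fr {n w T : ℕ} {R : Finset ℕ} {s t : St} (h : Std n w s) (hf : Fr T R s t)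
    (hT : 9 < T) (hR : 9 ∉ R) : Std n w t := by
  obtain ⟨h0, h1, h3, h9⟩ := h
  refine ⟨(hf.1 0 (by omega)).trans h0, (hf.1 1 (by omega)).trans h1,
    (hf.1 3 (by omega)).trans h3, ?_⟩
  rw [hf.2 9 hT hR]
  exact h9

theorem mulN_congr {n : ℕ} {f f' g g' : ℕ → ℕ → ℝ} (hf : ∀ i < n, ∀ j < n, f i j = f' i j)
    (hg : ∀ i < n, ∀ j < n, g i j = g' i j) :
    ∀ i < n, ∀ j < n, mulN n f g i j = mulN n f' g' i j := by
  intro i hi j hj
  refine Finset.sum_congr rfl (fun k hk => ?_)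
  rw [Finset.mem_range] at hk
  rw [hf i hi k hk, hg k hk j hj]

theorem intM_congr {n : ℕ} {H : ℝ} {f g : ℕ → ℕ → ℝ} (h : IntM n H f)
    (hf : ∀ i < n, ∀ j < n, g i j = f i j) : IntM n H g := by
  intro i hi j hj
  rw [hf i hi j hj]
  exact h i hi j hj

theorem intM_mono {n : ℕ} {H G : ℝ} {f : ℕ → ℕ → ℝ} (h : IntM n H f) (hG : H ≤ G) :
    IntM n G f := fun i hi j hj => ⟨(h i hi j hj).1, (h i hi j hj).2.trans hG⟩

theorem mulN_int {n : ℕ} {β H : ℝ} {a x : ℕ → ℕ → ℝ} (ha : IntM n β a) (hx : IntM n H x)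
    (hβ : 0 ≤ β) : ∀ i < n, ∀ j < n, (∃ z : ℤ, mulN n a x i j = z) ∧
      |mulN n a x i j| ≤ n * β * H := by
  intro i hi j hj
  constructor
  · have h1 : ∀ k, k < n → ∃ z : ℤ, a i k * x k j = z := by
      intro k hk
      obtain ⟨z1, h1⟩ := (ha i hi k hk).1
      obtain ⟨z2, h2⟩ := (hx k hk j hj).1
      exact ⟨z1 * z2, by rw [h1, h2]; push_cast; ring⟩
    choose! z hz using h1
    refine ⟨∑ k ∈ Finset.range n, z k, ?_⟩
    push_cast
    exact Finset.sum_congr rfl (fun k hk => hz k (Finset.mem_range.1 hk))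
  · calc |mulN n a x i j| ≤ ∑ k ∈ Finset.range n, |a i k * x k j| :=
          Finset.abs_sum_le_sum_abs _ _
      _ ≤ ∑ k ∈ Finset.range n, β * H := by
          refine Finset.sum_le_sum (fun k hk => ?_)
          rw [Finset.mem_range] at hk
          rw [abs_mul]
          exact mul_le_mul (ha i hi k hk).2 (hx k hk j hj).2 (abs_nonneg _) hβ
      _ = n * β * H := by
          rw [Finset.sum_const, Finset.card_range, nsmul_eq_mul]; ring

theorem e_int {n : ℕ} {β H : ℝ} {a x : ℕ → ℕ → ℝ} (ha : IntM n β a) (hx : IntM n H x)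
    (hβ : 1 ≤ β) (hb : ∃ b : ℕ, β = b) (hH : 0 ≤ H) :
    IntM n (2 * β ^ 2 + n * β * H + H)
      (fun k l => (if k = l then 2 * β ^ 2 else 0) - mulN n a x k l) := by
  intro i hi j hj
  obtain ⟨⟨z, hz⟩, h2⟩ := mulN_int ha hx (by linarith) i hi j hj
  obtain ⟨b, hb⟩ := hb
  constructor
  · by_cases hij : i = j
    · refine ⟨2 * (b : ℤ) ^ 2 - z, ?_⟩
      simp only [hij, if_true]
      rw [hij] at hz
      rw [hz, hb]; push_cast; ring
    · refine ⟨- z, ?_⟩
      simp only [hij, if_false]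
      rw [hz]; push_cast; ring
  · have h3 : |(if i = j then 2 * β ^ 2 else 0 : ℝ)| ≤ 2 * β ^ 2 := by
      split_ifs
      · rw [abs_of_nonneg (by positivity)]
      · rw [abs_zero]; positivity
    calc _ ≤ |(if i = j then 2 * β ^ 2 else 0 : ℝ)| + |mulN n a x i j| := abs_sub _ _
      _ ≤ 2 * β ^ 2 + n * β * H := add_le_add h3 h2
      _ ≤ _ := by linarith

theorem cost0 {a c : ℕ} (n w : ℕ) (h : a ≤ c) :
    a * (n + 1) ^ 2 ≤ c * (n + 1) ^ 2 * (w + 1) :=
  (Nat.mul_le_mul_right _ h).trans (Nat.le_mul_of_pos_right _ (Nat.succ_pos w))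

theorem cost1 {a b c : ℕ} (n w : ℕ) (h : a + b ≤ c) :
    a * (n + 1) ^ 2 + b * (n + 1) ^ 2 * (w + 1) ≤ c * (n + 1) ^ 2 * (w + 1) := by
  have h1 : a * (n + 1) ^ 2 ≤ a * (n + 1) ^ 2 * (w + 1) := cost0 n w le_rfl
  have h2 : (a + b) * ((n + 1) ^ 2 * (w + 1)) ≤ c * ((n + 1) ^ 2 * (w + 1)) :=
    Nat.mul_le_mul_right _ h
  linarith

theorem cost2 {a b c : ℕ} (n w : ℕ) (h : a + b ≤ c) :
    a * (n + 1) ^ 2 * (w + 1) + b * (n + 1) ^ 2 * (w + 1) ≤ c * (n + 1) ^ 2 * (w + 1) := by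
  have h2 : (a + b) * ((n + 1) ^ 2 * (w + 1)) ≤ c * ((n + 1) ^ 2 * (w + 1)) :=
    Nat.mul_le_mul_right _ h
  linarith

theorem cost3 {a b c : ℕ} (n w : ℕ) (h : a + b ≤ c) :
    a * (n + 1) + b * (n + 1) ^ 2 * (w + 1) ≤ c * (n + 1) ^ 2 * (w + 1) := by
  have h1 : a * (n + 1) ≤ a * (n + 1) ^ 2 := Nat.mul_le_mul_left _ (by nlinarith)
  exact (Nat.add_le_add_right h1 _).trans (cost1 n w h)

theorem val_R2 (a i j : ℕ) (u : St) : (R2 a i j).val u = u.r a (u.c i) (u.c j) := rfl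

theorem val_R (a : ℕ) (u : St) : (R a).val u = u.r a (u.c 1) (u.c 1) := rfl

theorem val_div (a b : Ex) (u : St) : (a / b).val u = a.val u / b.val u := rfl

theorem val_mul (a b : Ex) (u : St) : (a * b).val u = a.val u * b.val u := rfl

theorem val_add (a b : Ex) (u : St) : (a + b).val u = a.val u + b.val u := rfl

theorem val_sub (a b : Ex) (u : St) : (a - b).val u = a.val u - b.val u := rfl

theorem val_num (k : ℕ) (u : St) : (Ex.num k).val u = k := rfl

end Pool.Agent.W217.RS.CHECKaux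

namespace Pool.Agent.W217.RS

open CHECKaux

open Classical in
theorem pCHECK : MAPR → DIAG → SUMA → PROD → CHECK := by
  intro hM hD hS hP s n w β H ε hstd h8 hsiz h2 h15 h6 h7
  obtain ⟨hbN, hHN, hβ1, hβH, hw1, h2H, hG⟩ := hsiz
  have hβpos : (0 : ℝ) < β := by linarith
  have hβ0 : (0 : ℝ) ≤ β := by linarith
  have hH0 : (0 : ℝ) ≤ H := by linarith
  have hn0 : (0 : ℝ) ≤ n := Nat.cast_nonneg n
  have hGH : 4 * n * H ^ 2 ≤ 2 ^ w := by
    refine le_trans ?_ hG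
    have h1 : H ≤ 2 * β ^ 2 + n * β * H + H := by
      have : 0 ≤ 2 * β ^ 2 + n * β * H := by positivity
      linarith
    gcongr
  -- step 1
  refine okseq (21 * (n + 1) ^ 2) (579 * (n + 1) ^ 2 * (w + 1))
    (hM s n 10 (R2 6 80 81) (s.r 6) hstd.1 ?_) (fun t1 ht1 => ?_) (cost1 n w (by norm_num))
  · intro i _ j _ u _ hu2 hc1 hc2 _
    exact ⟨trivial, by rw [val_R2, hu2 6 (by norm_num), hc1, hc2]⟩
  obtain ⟨f1, g1, v1⟩ := ht1
  have std1 := std_fr hstd f1 (by norm_num) (by decide)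
  -- step 2
  refine okseq (21 * (n + 1) ^ 2) (558 * (n + 1) ^ 2 * (w + 1))
    (hM t1 n 11 (R2 7 80 81) (s.r 7) std1.1 ?_) (fun t2 ht2 => ?_) (cost1 n w (by norm_num))
  · intro i _ j _ u _ hu2 hc1 hc2 _
    exact ⟨trivial, by rw [val_R2, hu2 7 (by norm_num), g1 7 (by norm_num), hc1, hc2]⟩
  obtain ⟨f2, g2, v2⟩ := ht2
  have std2 := std_fr std1 f2 (by norm_num) (by decide)
  -- step 3
  refine okseq (300 * (n + 1) ^ 2 * (w + 1)) (258 * (n + 1) ^ 2 * (w + 1))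
    (hP t2 n w H std2 hw1 ?_ ?_ hGH) (fun t3 ht3 => ?_) (cost2 n w (by norm_num))
  · refine intM_congr (intM_mono h6 hβH) ?_
    intro i hi j hj
    rw [g2 10 (by norm_num), v1 i hi j hj]
  · exact intM_congr h7 v2
  obtain ⟨f3, v3⟩ := ht3
  have std3 := std_fr std2 f3 (by norm_num) (by decide)
  have v3' : ∀ i < n, ∀ j < n, t3.r 12 i j = mulN n (s.r 6) (s.r 7) i j := by
    intro i hi j hj
    rw [v3 i hi j hj]
    refine mulN_congr ?_ v2 i hi j hj
    intro i hi j hj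
    rw [g2 10 (by norm_num), v1 i hi j hj]
  have e3 : ∀ a, a < 80 → a ≠ 10 → a ≠ 11 → a ≠ 12 → t3.r a = s.r a := by
    intro a h1 h2 h3 h4
    rw [f3.2 a h1 (by simp [h4]), g2 a h3, g1 a h2]
  -- step 4
  refine okseq (25 * (n + 1)) (233 * (n + 1) ^ 2 * (w + 1))
    (hD t3 n 12 (R2 12 80 80 - R 8 * R 8)
      (fun i => mulN n (s.r 6) (s.r 7) i i - β * β) std3.1 ?_)
    (fun t4 ht4 => ?_) (cost3 n w (by norm_num))
  · intro i hi u hf hu2 hc1 hii
    refine ⟨⟨trivial, trivial, trivial⟩, ?_⟩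
    rw [val_sub, val_mul, val_R2, val_R, hc1, hii, v3' i hi i hi,
      hf.1 1 (by norm_num), std3.2.1, hu2 8 (by norm_num),
      e3 8 (by norm_num) (by norm_num) (by norm_num) (by norm_num), h8]
  obtain ⟨f4, g4, d4, o4⟩ := ht4
  have std4 := std_fr std3 f4 (by norm_num) (by decide)
  have v4 : ∀ i < n, ∀ j < n, t4.r 12 i j =
      mulN n (s.r 6) (s.r 7) i j - if i = j then β ^ 2 else 0 := by
    intro i hi j hj
    by_cases hij : i = j
    · subst hij
      rw [d4 i hi, if_pos rfl]; ring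
    · rw [o4 i hi j hj hij, v3' i hi j hj, if_neg hij]; ring
  have e4 : ∀ a, a < 80 → a ≠ 10 → a ≠ 11 → a ≠ 12 → t4.r a = s.r a := by
    intro a h1 h2 h3 h4
    rw [g4 a h4, e3 a h1 h2 h3 h4]
  -- step 5
  refine okseq (40 * (n + 1) ^ 2) (193 * (n + 1) ^ 2 * (w + 1))
    (hS t4 n 12 std4.1 std4.2.1 (by norm_num)) (fun t5 ht5 => ?_) (cost1 n w (by norm_num))
  obtain ⟨f5, v5⟩ := ht5
  have std5 := std_fr std4 f5 (by norm_num) (by decide)
  have v5' : t5.r 84 0 0 = ∑ i ∈ Finset.range n, ∑ j ∈ Finset.range n,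
      |mulN n (s.r 6) (s.r 7) i j - if i = j then β ^ 2 else 0| := by
    rw [v5]
    refine Finset.sum_congr rfl (fun i hi => Finset.sum_congr rfl (fun j hj => ?_))
    rw [v4 i (Finset.mem_range.1 hi) j (Finset.mem_range.1 hj)]
  have e5 : ∀ a, a < 80 → a ≠ 10 → a ≠ 11 → a ≠ 12 → t5.r a = s.r a := by
    intro a h1 h2 h3 h4
    rw [f5.2 a h1 (by simp), e4 a h1 h2 h3 h4]
  -- step 6
  refine okseq (P := fun t => t = t5.set (sc 17) (fres n β (s.r 6) (s.r 7)))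
    (6 * (n + 1) ^ 2) (187 * (n + 1) ^ 2 * (w + 1)) ?_ (fun t6 ht6 => ?_)
    (cost1 n w (by norm_num))
  · have hv : (R 8 * R 8).val t5 = β ^ 2 := by
      rw [val_mul, val_R, std5.2.1, e5 8 (by norm_num) (by norm_num) (by norm_num) (by norm_num),
        h8, pow_two]
    refine Ok.asg ⟨trivial, ⟨trivial, trivial⟩, ?_⟩ ?_ ?_
    · rw [show (Ex.val t5 (R 8 * R 8)) = β ^ 2 from hv]
      positivity
    · rw [val_div, hv, val_R, std5.2.1, v5']
      rfl
    · have : (R 84 / (R 8 * R 8)).size = 5 := rfl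
      rw [this]
      nlinarith [Nat.zero_le n]
  have f6 : Fr 80 {17} t5 t6 := by rw [ht6]; exact Fr.set (Or.inr (by simp [sc]))
  have v6 : t6.r 17 0 0 = fres n β (s.r 6) (s.r 7) := by
    rw [ht6, St.set_r]
    simp [sc, std5.2.1]
  have std6 := std_fr std5 f6 (by norm_num) (by decide)
  have e6 : ∀ a, a < 80 → a ≠ 10 → a ≠ 11 → a ≠ 12 → a ≠ 17 → t6.r a = s.r a := by
    intro a h1 h2 h3 h4 h5
    rw [f6.2 a h1 (by simp [h5]), e5 a h1 h2 h3 h4]
  -- step 7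
  refine okseq (40 * (n + 1) ^ 2) (147 * (n + 1) ^ 2 * (w + 1))
    (hS t6 n 7 std6.1 std6.2.1 (by norm_num)) (fun t7 ht7 => ?_) (cost1 n w (by norm_num))
  obtain ⟨f7, v7⟩ := ht7
  have std7 := std_fr std6 f7 (by norm_num) (by decide)
  have e7 : ∀ a, a < 80 → a ≠ 10 → a ≠ 11 → a ≠ 12 → a ≠ 17 → t7.r a = s.r a := by
    intro a h1 h2 h3 h4 h5
    rw [f7.2 a h1 (by simp), e6 a h1 h2 h3 h4 h5]
  rw [e6 7 (by norm_num) (by norm_num) (by norm_num) (by norm_num) (by norm_num)] at v7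
  have v7b : t7.r 17 0 0 = fres n β (s.r 6) (s.r 7) := by
    rw [f7.2 17 (by norm_num) (by simp), v6]
  -- step 8
  refine okseq (P := fun t => t = t7.set (sc 18) (xsum n β (s.r 7)))
    (6 * (n + 1) ^ 2) (141 * (n + 1) ^ 2 * (w + 1)) ?_ (fun t8 ht8 => ?_)
    (cost1 n w (by norm_num))
  · have hv : (R 8).val t7 = β := by
      rw [val_R, std7.2.1, e7 8 (by norm_num) (by norm_num) (by norm_num) (by norm_num)
        (by norm_num), h8]
    refine Ok.asg ⟨trivial, trivial, ?_⟩ ?_ ?_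
    · rw [show (Ex.val t7 (R 8)) = β from hv]
      positivity
    · rw [val_div, hv, val_R, std7.2.1, v7]
      rfl
    · have : (R 84 / R 8).size = 3 := rfl
      rw [this]
      nlinarith [Nat.zero_le n]
  have f8 : Fr 80 {18} t7 t8 := by rw [ht8]; exact Fr.set (Or.inr (by simp [sc]))
  have v8 : t8.r 18 0 0 = xsum n β (s.r 7) := by
    rw [ht8, St.set_r]
    simp [sc, std7.2.1]
  have std8 := std_fr std7 f8 (by norm_num) (by decide)
  have e8 : ∀ a, a < 80 → a ≠ 10 → a ≠ 11 → a ≠ 12 → a ≠ 17 → a ≠ 18 → t8.r a = s.r a := by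
    intro a h1 h2 h3 h4 h5 h6
    rw [f8.2 a h1 (by simp [h6]), e7 a h1 h2 h3 h4 h5]
  have v8b : t8.r 17 0 0 = fres n β (s.r 6) (s.r 7) := by
    rw [f8.2 17 (by norm_num) (by simp), v7b]
  -- step 9
  refine okseq (P := fun t => t = t8.set (sc 17) (etot n β (s.r 6) (s.r 7)))
    (8 * (n + 1) ^ 2) (133 * (n + 1) ^ 2 * (w + 1)) ?_ (fun t9 ht9 => ?_)
    (cost1 n w (by norm_num))
  · have hv : (R 8).val t8 = β := by
      rw [val_R, std8.2.1, e8 8 (by norm_num) (by norm_num) (by norm_num) (by norm_num)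
        (by norm_num) (by norm_num), h8]
    refine Ok.asg ⟨trivial, ⟨⟨trivial, trivial, ?_⟩, trivial⟩⟩ ?_ ?_
    · rw [show (Ex.val t8 (R 8)) = β from hv]
      positivity
    · rw [val_add, val_mul, val_div, hv, val_R, val_R, val_R, std8.2.1, v8, v8b,
        e8 15 (by norm_num) (by norm_num) (by norm_num) (by norm_num)
        (by norm_num) (by norm_num), h15]
      rfl
    · have : (R 17 + R 15 / R 8 * R 18).size = 7 := rfl
      rw [this]
      nlinarith [Nat.zero_le n]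
  have f9 : Fr 80 {17} t8 t9 := by rw [ht9]; exact Fr.set (Or.inr (by simp [sc]))
  have v9 : t9.r 17 0 0 = etot n β (s.r 6) (s.r 7) := by
    rw [ht9, St.set_r]
    simp [sc, std8.2.1]
  have std9 := std_fr std8 f9 (by norm_num) (by decide)
  have v9b : t9.r 18 0 0 = xsum n β (s.r 7) := by
    rw [f9.2 18 (by norm_num) (by simp), v8]
  have e9 : ∀ a, a < 80 → a ≠ 10 → a ≠ 11 → a ≠ 12 → a ≠ 17 → a ≠ 18 → t9.r a = s.r a := by
    intro a h1 h2 h3 h4 h5 h6
    rw [f9.2 a h1 (by simp [h5]), e8 a h1 h2 h3 h4 h5 h6]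
  have F9 : Fr 80 {10, 11, 12, 14, 17, 18} s t9 := by
    have m : ∀ {R : Finset ℕ} {u v : St}, R ⊆ {10, 11, 12, 14, 17, 18} → Fr 80 R u v →
        Fr 80 {10, 11, 12, 14, 17, 18} u v := fun hR h => h.mono le_rfl (fun a _ ha => hR ha)
    exact (m (by decide) f1).trans <| (m (by decide) f2).trans <| (m (by decide) f3).trans <|
      (m (by decide) f4).trans <| (m (by decide) f5).trans <| (m (by decide) f6).trans <|
      (m (by decide) f7).trans <| (m (by decide) f8).trans (m (by decide) f9)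
  have h14 : t9.r 14 0 0 = s.r 14 0 0 := by
    rw [e9 14 (by norm_num) (by norm_num) (by norm_num) (by norm_num) (by norm_num)
      (by norm_num)]
  have w17 : (R 17).val t9 = etot n β (s.r 6) (s.r 7) := by rw [val_R, std9.2.1, v9]
  have w18 : (R 18).val t9 = xsum n β (s.r 7) := by rw [val_R, std9.2.1, v9b]
  have w2 : (R 2).val t9 = ε := by
    rw [val_R, std9.2.1, e9 2 (by norm_num) (by norm_num) (by norm_num) (by norm_num)
      (by norm_num) (by norm_num), h2]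
  have whalf : (Ex.num 1 / Ex.num 2).val t9 = 1 / 2 := by
    rw [val_div, val_num, val_num]; norm_num
  -- step 10
  have hno : ¬ Acc n β (s.r 6) (s.r 7) ε → Ok .skip t9 18
      (fun t => Fr 80 {10, 11, 12, 14, 17, 18} s t ∧
        t.r 14 0 0 = if Acc n β (s.r 6) (s.r 7) ε then 1 else s.r 14 0 0) := by
    intro h
    refine Ok.skip ⟨F9, ?_⟩ (by norm_num)
    rw [if_neg h, h14]
  have hcost : 30 ≤ 133 * (n + 1) ^ 2 * (w + 1) := by
    have h1 : 1 ≤ (n + 1) ^ 2 := Nat.one_le_pow _ _ (by omega)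
    have h3 : 133 * 1 * 1 ≤ 133 * (n + 1) ^ 2 * (w + 1) :=
      Nat.mul_le_mul (Nat.mul_le_mul_left _ h1) (by omega)
    omega
  refine Ok.mono (k := 30) ?_ hcost (fun _ h => h)
  refine Ok.ifle 18 trivial ⟨trivial, trivial, ?_⟩ ?_ ?_ ?_
  · rw [show (Ex.val t9 (Ex.num 2)) = 2 by rw [val_num]; norm_num]
    norm_num
  · intro hc1
    rw [w17, whalf] at hc1
    refine Ok.ifle 12 trivial trivial ?_ ?_ ?_
    · intro hc2
      rw [w17, w2] at hc2
      refine Ok.ifle 4 ⟨trivial, trivial⟩ trivial ?_ ?_ ?_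
      · intro hc3
        rw [val_mul, w17, w18, w2] at hc3
        have hacc : Acc n β (s.r 6) (s.r 7) ε := ⟨hc1, hc2, hc3⟩
        refine Ok.asg trivial ⟨?_, ?_⟩ ?_
        · exact F9.trans (Fr.set (Or.inr (by simp [sc])))
        · rw [if_pos hacc, St.set_r]
          simp [sc, std9.2.1, val_num]
        · show 1 + 1 ≤ 4
          norm_num
      · intro hc3
        rw [val_mul, w17, w18, w2] at hc3
        refine Ok.skip ⟨F9, ?_⟩ (by norm_num)
        rw [if_neg (fun h => hc3 h.2.2), h14]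
      · show 3 + 1 + 1 + 4 ≤ 12
        norm_num
    · intro hc2
      rw [w17, w2] at hc2
      refine Ok.skip ⟨F9, ?_⟩ (by norm_num)
      rw [if_neg (fun h => hc2 h.2.1), h14]
    · show 1 + 1 + 1 + 12 ≤ 18
      norm_num
  · intro hc1
    rw [w17, whalf] at hc1
    exact hno (fun h => hc1 h.1)
  · show 1 + 3 + 1 + 18 ≤ 30
    norm_num

end Pool.Agent.W217.RS
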