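import Pool.Agent.W217.RS.Stm2

set_option autoImplicit false

open scoped BigOperators

noncomputable section

namespace Pool.Agent.W217.RS.CONVaux

open Pool.Agent.W217.RS

theorem nrm_eq {n : ℕ} (v : Fin n → ℝ) : nrm v = ‖(WithLp.toLp 2 v : EuclideanSpace ℝ (Fin n))‖ := by
  rw [EuclideanSpace.norm_eq, nrm]
  congr 1
  exact Finset.sum_congr rfl fun i _ => by simp

theorem nrm_nonneg {n : ℕ} (v : Fin n → ℝ) : 0 ≤ nrm v := Real.sqrt_nonneg _

theorem nrm_add {n : ℕ} (u v : Fin n → ℝ) : nrm (u + v) ≤ nrm u + nrm v := by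
  simp only [nrm_eq]
  exact norm_add_le (WithLp.toLp 2 u : EuclideanSpace ℝ (Fin n)) (WithLp.toLp 2 v)

theorem nrm_neg {n : ℕ} (v : Fin n → ℝ) : nrm (-v) = nrm v := by
  simp [nrm]

theorem nrm_sub {n : ℕ} (u v : Fin n → ℝ) : nrm (u - v) ≤ nrm u + nrm v := by
  rw [sub_eq_add_neg]
  exact (nrm_add _ _).trans (by rw [nrm_neg])

theorem up_add {n : ℕ} {A B : Matrix (Fin n) (Fin n) ℝ} {c d : ℝ} (hA : Up A c) (hB : Up B d) :
    Up (A + B) (c + d) := fun v => by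
  rw [Matrix.add_mulVec, add_mul]
  exact (nrm_add _ _).trans (add_le_add (hA v) (hB v))

theorem up_sub {n : ℕ} {A B : Matrix (Fin n) (Fin n) ℝ} {c d : ℝ} (hA : Up A c) (hB : Up B d) :
    Up (A - B) (c + d) := fun v => by
  rw [Matrix.sub_mulVec, add_mul]
  exact (nrm_sub _ _).trans (add_le_add (hA v) (hB v))

theorem up_mono {n : ℕ} {A : Matrix (Fin n) (Fin n) ℝ} {c d : ℝ} (hA : Up A c) (h : c ≤ d) :
    Up A d := fun v => (hA v).trans (mul_le_mul_of_nonneg_right h (nrm_nonneg v))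

theorem up_one {n : ℕ} : Up (1 : Matrix (Fin n) (Fin n) ℝ) 1 := fun v => by simp

theorem asum_eq (n : ℕ) (A : ℕ → ℕ → ℝ) : ∑ i, ∑ j, |toM n A i j| = asum n A := by
  unfold asum
  rw [Finset.sum_range]
  exact Finset.sum_congr rfl fun i _ => by rw [Finset.sum_range]; rfl

/-- the product in terms of matrices -/
theorem mulN_eq (n : ℕ) (f g : ℕ → ℕ → ℝ) (i j : Fin n) :
    mulN n f g i j = (toM n f * toM n g) i j := by
  rw [Matrix.mul_apply, mulN, Finset.sum_range]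
  rfl

/-- the numerical sequence -/
def ee (δ η : ℝ) : ℕ → ℝ
  | 0 => 1 - δ
  | k + 1 => ee δ η k ^ 2 + η

theorem ee_nonneg {δ η : ℝ} (hδ : δ ≤ 1) (hη : 0 ≤ η) (k : ℕ) : 0 ≤ ee δ η k := by
  cases k with
  | zero => simp only [ee]; linarith
  | succ k => simp only [ee]; positivity

end Pool.Agent.W217.RS.CONVaux

namespace Pool.Agent.W217.RS

open CONVaux

theorem pCONV : ATIL → NUMS → SMALL → UPSUM → ENTR → LOWT → FIRST → CSTEP → CONV := by
  intro hATIL hNUMS hSMALL hUPSUM hENTR hLOWT hFIRST hCSTEP n L A ε σ hn hL hσ hσ1 hε hε1 hA hlow hP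
  -- numbers
  obtain ⟨P, hPdef⟩ : ∃ P : ℝ, P = 2 ^ L := ⟨_, rfl⟩
  have hβP : (2 : ℝ) ^ (8 * L) = P ^ 8 := by rw [hPdef, ← pow_mul, mul_comm]
  have hHP : (2 : ℝ) ^ (20 * L) = P ^ 20 := by rw [hPdef, ← pow_mul, mul_comm]
  have hn1 : (1 : ℝ) ≤ n := by exact_mod_cast hn
  have hσε : 0 < σ * ε := mul_pos hσ hε
  have hnP : (n : ℝ) ≤ P * (σ * ε) / 100 := by
    rw [← hPdef, div_le_iff₀ hσε] at hP
    linarith
  have hσε1 : σ * ε ≤ 1 := by nlinarith
  have hP100 : 100 ≤ P := by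
    have h0 : 0 < P := by rw [hPdef]; positivity
    nlinarith
  have hP0 : 0 < P := by linarith
  have hnP' : (n : ℝ) ≤ P / 100 := by nlinarith
  have hnσ : (n : ℝ) ≤ P * σ / 100 := by
    have : P * (σ * ε) ≤ P * σ := by nlinarith [mul_pos hP0 hσ]
    linarith
  have hσP : 100 ≤ P * σ := by linarith
  -- β
  obtain ⟨β, hβ⟩ : ∃ β : ℝ, β = P ^ 8 := ⟨_, rfl⟩
  have hβ1 : 1 ≤ β := by rw [hβ]; exact one_le_pow₀ (by linarith)
  have hβ0 : 0 < β := by linarith
  have hP2 : 1 ≤ P ^ 2 := one_le_pow₀ (by linarith)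
  have hP5 : 1 ≤ P ^ 5 := one_le_pow₀ (by linarith)
  have hP7 : 1 ≤ P ^ 7 := one_le_pow₀ (by linarith)
  -- η
  obtain ⟨η, hη⟩ : ∃ η : ℝ, η = n / β := ⟨_, rfl⟩
  have hη0 : 0 < η := by rw [hη]; positivity
  have hηP : η ≤ σ / (100 * P ^ 7) := by
    rw [hη, hβ, div_le_div_iff₀ (by positivity) (by positivity)]
    have : (n : ℝ) * (100 * P ^ 7) ≤ (P * σ / 100) * (100 * P ^ 7) :=
      mul_le_mul_of_nonneg_right hnσ (by positivity)
    calc (n : ℝ) * (100 * P ^ 7) ≤ (P * σ / 100) * (100 * P ^ 7) := this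
      _ = σ * P ^ 8 := by ring
  have hησ : η ≤ σ / 100 := hηP.trans (by
    apply div_le_div_of_nonneg_left hσ.le (by norm_num)
    nlinarith)
  -- the matrices
  set a : ℕ → ℕ → ℝ := atil (2 ^ (8 * L)) (2 ^ (20 * L)) A with ha
  have hAent : ∀ i < n, ∀ j < n, |A i j| ≤ 1 / 2 := by
    intro i hi j hj
    refine le_trans ?_ hA
    unfold asum
    refine le_trans ?_ (Finset.single_le_sum (f := fun i => ∑ j ∈ Finset.range n, |A i j|)
      (fun i _ => Finset.sum_nonneg fun j _ => abs_nonneg _) (Finset.mem_range.2 hi))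
    exact Finset.single_le_sum (f := fun j => |A i j|) (fun j _ => abs_nonneg _)
      (Finset.mem_range.2 hj)
  obtain ⟨hint, hclose⟩ := hATIL n L A hL hAent
  rw [← ha] at hint hclose
  rw [hβP, ← hβ] at hclose
  set A2 : Matrix (Fin n) (Fin n) ℝ := toM n fun i j => a i j / β with hA2
  have hD : Up (toM n A - A2) η := by
    have := hSMALL n (toM n A - A2) (1 / β) (by positivity) (by
      intro i j
      rw [Matrix.sub_apply]
      exact hclose i i.2 j j.2)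
    rw [hη, div_eq_mul_one_div]
    exact this
  have hUpA : Up (toM n A) (1 / 2) := up_mono (hUPSUM n (toM n A)) (by rw [asum_eq]; exact hA)
  have hA2eq : A2 = toM n A - (toM n A - A2) := by abel
  have hUp2 : Up A2 1 := by
    rw [hA2eq]
    exact up_mono (up_sub hUpA hD) (by linarith)
  have hLow2 : Low A2 (σ / 2) := by
    intro v
    have h1 := hlow v
    have h2 : nrm ((toM n A).mulVec v) ≤ nrm (A2.mulVec v) + η * nrm v := by
      have h3 : (toM n A).mulVec v = A2.mulVec v + (toM n A - A2).mulVec v := by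
        rw [← Matrix.add_mulVec]; congr 1; abel
      rw [h3]
      exact (nrm_add _ _).trans (add_le_add le_rfl (hD v))
    have h4 := nrm_nonneg v
    nlinarith
  obtain ⟨hU, hLowT, hInv⟩ := hLOWT n A2 (σ / 2) (by positivity) hLow2
  have hfirst := hFIRST n A2 (σ / 2) (by positivity) (by linarith) hUp2 hLowT
  -- the numerical sequence
  obtain ⟨δ, hδ⟩ : ∃ δ : ℝ, δ = (σ / 2) ^ 2 / 2 := ⟨_, rfl⟩
  rw [← hδ] at hfirst
  have hδ0 : 0 < δ := by rw [hδ]; positivity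
  have hδ1 : δ ≤ 1 := by rw [hδ]; nlinarith
  have hηδ : η ≤ δ / 4 := by
    refine hηP.trans ?_
    rw [hδ, div_le_iff₀ (by positivity)]
    have h1 : 100 * P ^ 2 ≤ P ^ 7 := by
      have : (100 : ℝ) ≤ P ^ 5 := le_trans hP100 (le_self_pow₀ (by linarith) (by norm_num))
      calc 100 * P ^ 2 ≤ P ^ 5 * P ^ 2 := mul_le_mul_of_nonneg_right this (by positivity)
        _ = P ^ 7 := by ring
    have h2 : 100 * 100 ≤ (P * σ) * P := by nlinarith
    nlinarith [mul_pos hσ hσ, mul_pos hP0 hσ, mul_le_mul_of_nonneg_left h1 hσ.le]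
  have hη16 : η ≤ 1 / 16 := by linarith
  have hk1 : 1 ≤ 4 * (3 / 2) ^ (4 * L) * δ := by
    have h1 : P ^ 2 ≤ (3 / 2 : ℝ) ^ (4 * L) := by
      rw [hPdef, ← pow_mul, mul_comm L 2, pow_mul, pow_mul]
      exact pow_le_pow_left₀ (by norm_num) (by norm_num) L
    have h2 : 1 ≤ 4 * P ^ 2 * δ := by
      rw [hδ]
      nlinarith
    exact h2.trans (by
      apply mul_le_mul_of_nonneg_right _ hδ0.le
      linarith)
  have he0 : ∀ k, 0 ≤ ee δ η k := fun k => ee_nonneg hδ1 hη0.le k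
  obtain ⟨he1, he2⟩ := hNUMS (ee δ η) η δ (4 * L) he0 (fun k _ => le_rfl) hη0 hδ0 hηδ hη16 hδ1
    le_rfl hk1
  -- the iteration
  have hHβ : 4 / (σ / 2) * β ≤ (2 : ℝ) ^ (20 * L) := by
    rw [hHP, hβ]
    have h1 : 4 / (σ / 2) ≤ P := by
      rw [div_le_iff₀ (by positivity)]
      nlinarith
    calc 4 / (σ / 2) * P ^ 8 ≤ P * P ^ 8 := mul_le_mul_of_nonneg_right h1 (by positivity)
      _ = P ^ 9 := by ring
      _ ≤ P ^ 20 := pow_le_pow_right₀ (by linarith) (by norm_num)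
  have hiter : ∀ k, Up (1 - A2 * (toM n fun i j => xseq n β (2 ^ (20 * L)) a k i j / β))
      (ee δ η k) := by
    intro k
    induction k with
    | zero =>
      have : (toM n fun i j => xseq n β (2 ^ (20 * L)) a 0 i j / β) = A2.transpose := by
        ext i j
        rfl
      rw [this]
      exact hfirst
    | succ k ih =>
      have := hCSTEP n β (2 ^ (20 * L)) (σ / 2) (ee δ η k) a (xseq n β (2 ^ (20 * L)) a k) hn hβ1
        ⟨2 ^ (20 * L), by push_cast; rfl⟩ (by positivity) hHβ hUp2 hLow2 ih (he0 k) (he1 k)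
      rw [← hη] at this
      exact this
  -- the final matrix
  obtain ⟨x, hx⟩ : ∃ x : ℕ → ℕ → ℝ, x = xseq n β (2 ^ (20 * L)) a (128 * L) := ⟨_, rfl⟩
  obtain ⟨X, hX⟩ : ∃ X : Matrix (Fin n) (Fin n) ℝ, X = toM n fun i j => x i j / β := ⟨_, rfl⟩
  have hE : Up (1 - A2 * X) (3 * η) := by
    rw [hX, hx]
    refine up_mono (hiter (128 * L)) ?_
    have h1 := he2 (8 * L) (128 * L) (by omega)
    have h2 : 1 / (2 : ℝ) ^ (8 * L) ≤ η := by
      rw [hβP, ← hβ, hη]
      exact div_le_div_of_nonneg_right hn1 hβ0.le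
    linarith
  have hXup : Up X (4 / σ) := by
    intro v
    have h1 : X.mulVec v = A2⁻¹.mulVec (v - (1 - A2 * X).mulVec v) := by
      have h2 : v - (1 - A2 * X).mulVec v = (A2 * X).mulVec v := by
        rw [Matrix.sub_mulVec, Matrix.one_mulVec]
        abel
      rw [h2, Matrix.mulVec_mulVec, ← Matrix.mul_assoc,
        Matrix.nonsing_inv_mul _ ((Matrix.isUnit_iff_isUnit_det _).1 hU), Matrix.one_mul]
    rw [h1]
    have h3 := hInv (v - (1 - A2 * X).mulVec v)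
    have h4 : nrm (v - (1 - A2 * X).mulVec v) ≤ nrm v + 3 * η * nrm v :=
      (nrm_sub _ _).trans (add_le_add le_rfl (hE v))
    have h5 := nrm_nonneg v
    have h6 : nrm (v - (1 - A2 * X).mulVec v) ≤ 2 * nrm v := by nlinarith
    refine h3.trans ?_
    have h7 : 1 / (σ / 2) * nrm (v - (1 - A2 * X).mulVec v) ≤ 1 / (σ / 2) * (2 * nrm v) :=
      mul_le_mul_of_nonneg_left h6 (by positivity)
    refine h7.trans (le_of_eq ?_)
    field_simp
    ring
  -- the sums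
  have hfres : fres n β a x ≤ 3 * n ^ 3 / β := by
    unfold fres
    rw [div_le_iff₀ (by positivity)]
    have h1 : ∀ i ∈ Finset.range n, ∀ j ∈ Finset.range n,
        |mulN n a x i j - if i = j then β ^ 2 else 0| ≤ 3 * η * β ^ 2 := by
      intro i hi j hj
      rw [Finset.mem_range] at hi hj
      have h2 := hENTR n (1 - A2 * X) (3 * η) hE ⟨i, hi⟩ ⟨j, hj⟩
      have h3 : mulN n a x i j = β ^ 2 * (A2 * X) ⟨i, hi⟩ ⟨j, hj⟩ := by
        rw [Matrix.mul_apply, mulN, Finset.sum_range, Finset.mul_sum]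
        refine Finset.sum_congr rfl fun k _ => ?_
        rw [hX, hA2]
        simp only [toM]
        field_simp
      have h4 : (mulN n a x i j - if i = j then β ^ 2 else 0) =
          -(β ^ 2 * (1 - A2 * X) ⟨i, hi⟩ ⟨j, hj⟩) := by
        rw [h3, Matrix.sub_apply, Matrix.one_apply]
        by_cases hij : i = j
        · subst hij; simp
          ring
        · have : (⟨i, hi⟩ : Fin n) ≠ ⟨j, hj⟩ := fun h => hij (by simpa using h)
          simp [hij]
      rw [h4, abs_neg, abs_mul, abs_of_nonneg (by positivity : 0 ≤ β ^ 2)]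
      nlinarith [sq_nonneg β]
    have h5 : ∑ i ∈ Finset.range n, ∑ j ∈ Finset.range n,
        |mulN n a x i j - if i = j then β ^ 2 else 0| ≤ n * (n * (3 * η * β ^ 2)) := by
      refine (Finset.sum_le_sum fun i hi => Finset.sum_le_sum fun j hj => h1 i hi j hj).trans ?_
      simp
    refine h5.trans (le_of_eq ?_)
    rw [hη]
    field_simp
  have hxsum : xsum n β x ≤ 4 * n ^ 2 / σ := by
    unfold xsum
    rw [div_le_iff₀ hβ0]
    have h1 : ∀ i ∈ Finset.range n, ∀ j ∈ Finset.range n, |x i j| ≤ 4 / σ * β := by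
      intro i hi j hj
      rw [Finset.mem_range] at hi hj
      have h2 := hENTR n X (4 / σ) hXup ⟨i, hi⟩ ⟨j, hj⟩
      rw [hX] at h2
      simp only [toM] at h2
      rwa [abs_div, abs_of_pos hβ0, div_le_iff₀ hβ0] at h2
    refine (Finset.sum_le_sum fun i hi => Finset.sum_le_sum fun j hj => h1 i hi j hj).trans ?_
    simp only [Finset.sum_const, Finset.card_range, nsmul_eq_mul]
    refine le_of_eq ?_
    ring
  have hfres0 : 0 ≤ fres n β a x := by unfold fres; positivity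
  have hxsum0 : 0 ≤ xsum n β x := by unfold xsum; positivity
  have hetot : etot n β a x ≤ 7 * n ^ 3 / (β * σ) := by
    unfold etot
    have h1 : (n : ℝ) / β * xsum n β x ≤ n / β * (4 * n ^ 2 / σ) :=
      mul_le_mul_of_nonneg_left hxsum (by positivity)
    have h2 : 3 * (n : ℝ) ^ 3 / β ≤ 3 * n ^ 3 / (β * σ) := by
      apply div_le_div_of_nonneg_left (by positivity) (by positivity)
      nlinarith
    calc fres n β a x + n / β * xsum n β x
        ≤ 3 * n ^ 3 / (β * σ) + n / β * (4 * n ^ 2 / σ) := by linarith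
      _ = 7 * n ^ 3 / (β * σ) := by field_simp; ring
  have hetot0 : 0 ≤ etot n β a x := by unfold etot; positivity
  -- the conclusion
  have hn3 : (n : ℝ) ^ 3 ≤ (P * (σ * ε) / 100) ^ 3 := pow_le_pow_left₀ (by positivity) hnP 3
  have hn5 : (n : ℝ) ^ 5 ≤ (P * (σ * ε) / 100) ^ 5 := pow_le_pow_left₀ (by positivity) hnP 5
  have hε3 : ε ^ 3 ≤ ε := by
    calc ε ^ 3 = ε * ε ^ 2 := by ring
      _ ≤ ε * 1 := mul_le_mul_of_nonneg_left (pow_le_one₀ hε.le hε1.le) hε.le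
      _ = ε := mul_one _
  have hε5 : ε ^ 5 ≤ ε := by
    calc ε ^ 5 = ε * ε ^ 4 := by ring
      _ ≤ ε * 1 := mul_le_mul_of_nonneg_left (pow_le_one₀ hε.le hε1.le) hε.le
      _ = ε := mul_one _
  have hσ2 : σ ^ 2 ≤ 1 := pow_le_one₀ hσ.le hσ1
  have hσ3 : σ ^ 3 ≤ 1 := pow_le_one₀ hσ.le hσ1
  have hmain1 : 7 * (n : ℝ) ^ 3 / (β * σ) ≤ ε / 2 := by
    rw [hβ, div_le_iff₀ (by positivity)]
    have h1 : 7 * (n : ℝ) ^ 3 ≤ 7 * (P * (σ * ε) / 100) ^ 3 := by linarith
    refine h1.trans ?_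
    have h2 : 7 * (P * (σ * ε) / 100) ^ 3 = 7 / 10 ^ 6 * P ^ 3 * σ * (σ ^ 2 * ε ^ 3) := by ring
    rw [h2]
    have h3 : σ ^ 2 * ε ^ 3 ≤ ε := by nlinarith [pow_pos hε 3]
    have h4 : P ^ 3 ≤ P ^ 8 := pow_le_pow_right₀ (by linarith) (by norm_num)
    calc 7 / 10 ^ 6 * P ^ 3 * σ * (σ ^ 2 * ε ^ 3) ≤ 7 / 10 ^ 6 * P ^ 3 * σ * ε :=
          mul_le_mul_of_nonneg_left h3 (by positivity)
      _ ≤ 1 / 2 * P ^ 8 * σ * ε := by
          apply mul_le_mul_of_nonneg_right _ hε.le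
          apply mul_le_mul_of_nonneg_right _ hσ.le
          nlinarith [pow_pos hP0 3]
      _ = ε / 2 * (P ^ 8 * σ) := by ring
  have hmain2 : 7 * (n : ℝ) ^ 3 / (β * σ) * (4 * n ^ 2 / σ) ≤ ε := by
    have h0 : 7 * (n : ℝ) ^ 3 / (β * σ) * (4 * n ^ 2 / σ) = 28 * n ^ 5 / (β * σ ^ 2) := by
      field_simp
      ring
    rw [h0, hβ, div_le_iff₀ (by positivity)]
    have h1 : 28 * (n : ℝ) ^ 5 ≤ 28 * (P * (σ * ε) / 100) ^ 5 := by linarith
    refine h1.trans ?_
    have h2 : 28 * (P * (σ * ε) / 100) ^ 5 = 28 / 10 ^ 10 * P ^ 5 * σ ^ 2 * (σ ^ 3 * ε ^ 5) := by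
      ring
    rw [h2]
    have h3 : σ ^ 3 * ε ^ 5 ≤ ε := by nlinarith [pow_pos hε 5]
    have h4 : P ^ 5 ≤ P ^ 8 := pow_le_pow_right₀ (by linarith) (by norm_num)
    calc 28 / 10 ^ 10 * P ^ 5 * σ ^ 2 * (σ ^ 3 * ε ^ 5) ≤ 28 / 10 ^ 10 * P ^ 5 * σ ^ 2 * ε :=
          mul_le_mul_of_nonneg_left h3 (by positivity)
      _ ≤ 1 * P ^ 8 * σ ^ 2 * ε := by
          apply mul_le_mul_of_nonneg_right _ hε.le
          apply mul_le_mul_of_nonneg_right _ (by positivity)
          nlinarith [pow_pos hP0 5]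
      _ = ε * (P ^ 8 * σ ^ 2) := by ring
  have hgoal : Acc n β a x ε := by
    refine ⟨by linarith, by linarith, ?_⟩
    calc etot n β a x * xsum n β x ≤ 7 * n ^ 3 / (β * σ) * (4 * n ^ 2 / σ) :=
          mul_le_mul hetot hxsum hxsum0 (by positivity)
      _ ≤ ε := hmain2
  unfold AccL xlev
  rw [← ha]
  rw [hx, hβ, ← hβP] at hgoal
  exact hgoal

end Pool.Agent.W217.RS
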