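import Pool.Agent.W217.RS.Stm2

set_option autoImplicit false

open scoped BigOperators

noncomputable section

namespace Pool.Agent.W217.RS

namespace CSTEPaux

theorem nrm_eq {n : ℕ} (v : Fin n → ℝ) : nrm v = ‖(WithLp.toLp 2 v : EuclideanSpace ℝ (Fin n))‖ := by
  rw [EuclideanSpace.norm_eq]
  unfold nrm
  congr 1
  apply Finset.sum_congr rfl
  intro i _
  rw [Real.norm_eq_abs, sq_abs]

theorem nrm_nonneg {n : ℕ} (v : Fin n → ℝ) : 0 ≤ nrm v := Real.sqrt_nonneg _

theorem nrm_sub {n : ℕ} (v w : Fin n → ℝ) : nrm (v - w) ≤ nrm v + nrm w := by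
  rw [nrm_eq, nrm_eq, nrm_eq, WithLp.toLp_sub]
  exact norm_sub_le _ _

theorem nrm_add {n : ℕ} (v w : Fin n → ℝ) : nrm (v + w) ≤ nrm v + nrm w := by
  rw [nrm_eq, nrm_eq, nrm_eq, WithLp.toLp_add]
  exact norm_add_le _ _

theorem up_sub {n : ℕ} {A B : Matrix (Fin n) (Fin n) ℝ} {c d : ℝ} (hA : Up A c) (hB : Up B d) :
    Up (A - B) (c + d) := by
  intro v
  rw [Matrix.sub_mulVec, add_mul]
  exact (nrm_sub _ _).trans (add_le_add (hA v) (hB v))

theorem up_add {n : ℕ} {A B : Matrix (Fin n) (Fin n) ℝ} {c d : ℝ} (hA : Up A c) (hB : Up B d) :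
    Up (A + B) (c + d) := by
  intro v
  rw [Matrix.add_mulVec, add_mul]
  exact (nrm_add _ _).trans (add_le_add (hA v) (hB v))

theorem up_mul {n : ℕ} {A B : Matrix (Fin n) (Fin n) ℝ} {c d : ℝ} (hc : 0 ≤ c) (hA : Up A c)
    (hB : Up B d) : Up (A * B) (c * d) := by
  intro v
  rw [← Matrix.mulVec_mulVec, mul_assoc]
  exact (hA _).trans (mul_le_mul_of_nonneg_left (hB v) hc)

theorem up_mono {n : ℕ} {A : Matrix (Fin n) (Fin n) ℝ} {c d : ℝ} (hA : Up A c) (h : c ≤ d) :
    Up A d := fun v => (hA v).trans (mul_le_mul_of_nonneg_right h (nrm_nonneg _))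

theorem up_one {n : ℕ} : Up (1 : Matrix (Fin n) (Fin n) ℝ) 1 := by
  intro v
  rw [Matrix.one_mulVec, one_mul]

theorem rnd_close (H y : ℝ) (hy : |y| ≤ H) : |rnd H y - y| ≤ 1 := by
  obtain ⟨h1, h2⟩ := abs_le.1 hy
  have e1 : max 0 (min (y + H) (2 * H)) = y + H := by
    rw [min_eq_left (by linarith), max_eq_right (by linarith)]
  unfold rnd
  rw [e1]
  have h3 := Nat.floor_le (show 0 ≤ y + H by linarith)
  have h4 := Nat.lt_floor_add_one (y + H)
  rw [abs_le]
  constructor <;> linarith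

theorem nwt_arg {n : ℕ} (β : ℝ) (hβ : 0 < β) (a x : ℕ → ℕ → ℝ) (i j : Fin n) :
    mulN n x (fun k l => (if k = l then 2 * β ^ 2 else 0) - mulN n a x k l) i j / β ^ 2 =
      β * ((toM n fun i j => x i j / β) *
        (2 - (toM n fun i j => a i j / β) * (toM n fun i j => x i j / β))) i j := by
  rw [Matrix.mul_apply]
  unfold mulN
  rw [Finset.sum_range, Finset.mul_sum, Finset.sum_div]
  apply Finset.sum_congr rfl
  intro k _
  have h2 : (2 : Matrix (Fin n) (Fin n) ℝ) k j = if k = j then 2 else 0 := by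
    rw [Matrix.ofNat_apply]
    by_cases h : k = j <;> simp [h]
  rw [Matrix.sub_apply, Matrix.mul_apply, h2]
  unfold toM
  simp only []
  rw [Finset.sum_range]
  have h3 : ∑ l : Fin n, a k l / β * (x l j / β) = (∑ l : Fin n, a k l * x l j) / β ^ 2 := by
    rw [Finset.sum_div]
    apply Finset.sum_congr rfl
    intro l _
    field_simp
  rw [h3]
  by_cases h : k = j
  · rw [if_pos h, if_pos (by rw [h])]
    field_simp
  · rw [if_neg h, if_neg (fun h' => h (Fin.ext h'))]
    field_simp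
    ring

end CSTEPaux

open CSTEPaux in
theorem pCSTEP : SMALL → ENTR → LOWT → CSTEP := by
  intro hS hEn hL n β H σ e a x hn hβ hH hσ hσH hA1 hA2 hE he0 he1
  have hβ0 : 0 < β := by linarith
  set A := toM n fun i j => a i j / β with hA
  set X := toM n fun i j => x i j / β with hX
  obtain ⟨hu, _, hinv⟩ := hL n A σ hσ hA2
  have hdet : IsUnit A.det := (Matrix.isUnit_iff_isUnit_det _).1 hu
  set E := 1 - A * X with hEd
  have hX1 : X = A⁻¹ * (1 - E) := by
    rw [hEd, sub_sub_cancel, ← mul_assoc, Matrix.nonsing_inv_mul _ hdet, one_mul]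
  have h1σ : 0 ≤ 1 / σ := by positivity
  have uX : Up X (2 / σ) := by
    rw [hX1]
    refine up_mono (up_mul h1σ hinv (up_sub up_one hE)) ?_
    rw [div_mul_eq_mul_div, one_mul]
    exact div_le_div_of_nonneg_right (by linarith) hσ.le
  set Y := X * (2 - A * X) with hY
  have h2E : 2 - A * X = 1 + E := by
    rw [hEd]
    have : (2 : Matrix (Fin n) (Fin n) ℝ) = 1 + 1 := one_add_one_eq_two.symm
    rw [this]; abel
  have uY : Up Y (4 / σ) := by
    rw [hY, h2E]
    refine up_mono (up_mul (by positivity) uX (up_add up_one hE)) ?_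
    rw [div_mul_eq_mul_div]
    exact div_le_div_of_nonneg_right (by linarith) hσ.le
  have hYe := hEn n Y (4 / σ) uY
  set N := toM n fun i j => nwt n β H a x i j / β with hN
  have hD : ∀ i j, |(N - Y) i j| ≤ 1 / β := by
    intro i j
    have e1 : nwt n β H a x i j = rnd H (β * Y i j) := by
      unfold nwt
      rw [nwt_arg β hβ0 a x i j]
    have e2 : |β * Y i j| ≤ H := by
      rw [abs_mul, abs_of_pos hβ0]
      calc β * |Y i j| ≤ β * (4 / σ) := mul_le_mul_of_nonneg_left (hYe i j) hβ0.le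
        _ = 4 / σ * β := mul_comm _ _
        _ ≤ H := hσH
    have e3 := rnd_close H (β * Y i j) e2
    have e4 : (N - Y) i j = (rnd H (β * Y i j) - β * Y i j) / β := by
      rw [Matrix.sub_apply, hN]
      show nwt n β H a x i j / β - Y i j = _
      rw [e1]
      field_simp
    rw [e4, abs_div, abs_of_pos hβ0]
    exact div_le_div_of_nonneg_right e3 hβ0.le
  have uD : Up (N - Y) (n * (1 / β)) := hS n _ _ (by positivity) hD
  have e6 : A * Y = (1 - E) * (1 + E) := by
    rw [hY, h2E, ← mul_assoc, hEd, sub_sub_cancel]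
  have e5 : 1 - A * N = E * E - A * (N - Y) := by
    have e7 : E * E = 1 - (1 - E) * (1 + E) := by noncomm_ring
    have e8 : A * (N - Y) = A * N - A * Y := mul_sub _ _ _
    rw [e8, e6, e7]
    abel
  rw [e5]
  refine up_mono (up_sub (up_mul he0 hE hE) (up_mul zero_le_one hA1 uD)) ?_
  apply le_of_eq
  ring

end Pool.Agent.W217.RS
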