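import Pool.Agent.W217.RS.Stm2

set_option autoImplicit false

/-!
# Evaluation on the diagonal
-/

noncomputable section

namespace Pool.Agent.W217.RS

namespace DIAGaux

/-- the invariant of the loop -/
def Inv (s : St) (d : ℕ) (F : ℕ → ℝ) (l : ℕ) (t : St) : Prop :=
  Fr 80 {d} s t ∧ (∀ a, a ≠ d → t.r a = s.r a) ∧ (∀ i < l, t.r d i i = F i) ∧
    ∀ i j, (i ≠ j ∨ l ≤ i) → t.r d i j = s.r d i j

theorem inv_zero (s : St) (d : ℕ) (F : ℕ → ℝ) : Inv s d F 0 (s.setc 80 0) :=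
  ⟨Fr.setc le_rfl, fun _ _ => rfl, fun i hi => absurd hi (Nat.not_lt_zero i), fun _ _ _ => rfl⟩

theorem inv_succ {s t : St} {d l : ℕ} {F : ℕ → ℝ} (h : Inv s d F l t) (hl : t.c 80 = l) {v : ℝ}
    (hv : v = F l) : Inv s d F (l + 1) ((t.set ⟨d, 80, 80⟩ v).setc 80 (l + 1)) := by
  obtain ⟨h1, h2, h3, h4⟩ := h
  refine ⟨(h1.trans (Fr.set (Or.inr (Finset.mem_singleton_self d)))).trans (Fr.setc le_rfl),
    fun a ha => ?_, fun i hi => ?_, fun i j hij => ?_⟩
  · rw [St.setc_r, St.set_r_ne (show a ≠ (⟨d, 80, 80⟩ : Ad).arr from ha)]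
    exact h2 a ha
  · rw [St.setc_r, St.set_r]
    simp only [hl, true_and, and_self]
    by_cases hil : i = l
    · rw [if_pos hil, hil, hv]
    · rw [if_neg hil]
      exact h3 i (by omega)
  · rw [St.setc_r, St.set_r]
    simp only [hl, true_and]
    rw [if_neg (by omega)]
    exact h4 i j (by omega)

end DIAGaux

open DIAGaux in
theorem pDIAG : DIAG := by
  intro s n d e F hn he
  refine Ok.forc n (e.size + 1) (Inv s d F) (by norm_num) hn (inv_zero s d F) ?_ ?_ ?_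
  · intro l hl t h1 h2 h3
    obtain ⟨h4, h5⟩ := he l hl t h3.1 h3.2.1 h1 (h3.2.2.2 l l (Or.inr le_rfl))
    exact Ok.asg h4 ⟨h1, h2, inv_succ h3 h1 h5⟩ le_rfl
  · rintro t - - ⟨h1, h2, h3, h4⟩
    exact ⟨h1, h2, h3, fun i _ j _ hij => h4 i j (Or.inl hij)⟩
  · have h : n * (e.size + 1 + 5) + 3 + (n * 14 + e.size + 17) = (e.size + 20) * (n + 1) := by ring
    omega

end Pool.Agent.W217.RS
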