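import Pool.Agent.W217.RS.Stm2

set_option autoImplicit false

noncomputable section

namespace Pool.Agent.W217.RS

namespace DIGaux

open Finset

theorem tail_step (n : ℕ) (B : ℝ) (d : ℕ → ℕ) (l : ℕ) (hl : l < n) :
    ∑ j ∈ Ico l n, (d j : ℝ) * B ^ (n - 1 - j) =
      (d l : ℝ) * B ^ (n - 1 - l) + ∑ j ∈ Ico (l + 1) n, (d j : ℝ) * B ^ (n - 1 - j) := by
  rw [Finset.sum_eq_sum_Ico_succ_bot hl]

theorem tail_nonneg (n : ℕ) (B : ℝ) (hB : 0 ≤ B) (d : ℕ → ℕ) (l : ℕ) :
    0 ≤ ∑ j ∈ Ico l n, (d j : ℝ) * B ^ (n - 1 - j) :=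
  Finset.sum_nonneg fun j _ => by positivity

theorem tail_le (n : ℕ) (B : ℝ) (hB : 0 ≤ B) (d : ℕ → ℕ)
    (hd : ∀ j < n, (d j : ℝ) ≤ B - 1) : ∀ k : ℕ, k ≤ n →
    ∑ j ∈ Ico (n - k) n, (d j : ℝ) * B ^ (n - 1 - j) ≤ B ^ k - 1 := by
  intro k
  induction k with
  | zero => intro _; simp
  | succ k ih =>
    intro hk
    rw [tail_step n B d (n - (k + 1)) (by omega)]
    have e1 : n - (k + 1) + 1 = n - k := by omega
    have e2 : n - 1 - (n - (k + 1)) = k := by omega
    rw [e1, e2]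
    have h1 := ih (by omega)
    have h2 : (d (n - (k + 1)) : ℝ) * B ^ k ≤ (B - 1) * B ^ k :=
      mul_le_mul_of_nonneg_right (hd _ (by omega)) (by positivity)
    calc (d (n - (k + 1)) : ℝ) * B ^ k + ∑ j ∈ Ico (n - k) n, (d j : ℝ) * B ^ (n - 1 - j)
        ≤ (B - 1) * B ^ k + (B ^ k - 1) := add_le_add h2 h1
      _ = B ^ (k + 1) - 1 := by ring

theorem digit (n : ℕ) (B : ℝ) (hB : 1 ≤ B) (d : ℕ → ℕ)
    (hd : ∀ j < n, (d j : ℝ) ≤ B - 1) (l : ℕ) (hl : l < n) :
    (∑ j ∈ Ico l n, (d j : ℝ) * B ^ (n - 1 - j)) < B * B ^ (n - 1 - l) ∧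
    ⌊(∑ j ∈ Ico l n, (d j : ℝ) * B ^ (n - 1 - j)) / B ^ (n - 1 - l)⌋₊ = d l := by
  have hB0 : (0 : ℝ) < B := by linarith
  have hW : (0 : ℝ) < B ^ (n - 1 - l) := by positivity
  have h1 := tail_le n B hB0.le d hd (n - 1 - l) (by omega)
  have e1 : n - (n - 1 - l) = l + 1 := by omega
  rw [e1] at h1
  have h2 := tail_nonneg n B hB0.le d (l + 1)
  rw [tail_step n B d l hl]
  constructor
  · have h3 : (d l : ℝ) * B ^ (n - 1 - l) ≤ (B - 1) * B ^ (n - 1 - l) :=
      mul_le_mul_of_nonneg_right (hd _ hl) hW.le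
    nlinarith
  · rw [Nat.floor_eq_iff (by positivity)]
    constructor
    · rw [le_div_iff₀ hW]
      linarith
    · rw [div_lt_iff₀ hW]
      nlinarith

theorem sub_val (a b : Ex) (s : St) : (a - b).val s = a.val s - b.val s := rfl

theorem div_val (a b : Ex) (s : St) : (a / b).val s = a.val s / b.val s := rfl

theorem R_val (a : ℕ) (s : St) : (R a).val s = s.r a (s.c 1) (s.c 1) := rfl

theorem num_val (k : ℕ) (s : St) : (Ex.num k).val s = k := rfl

/-- The invariant. -/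
def Inv (s : St) (n w i : ℕ) (d : ℕ → ℕ) (l : ℕ) (t : St) : Prop :=
  (∀ k < 81, t.c k = s.c k) ∧ (∀ a < 90, a ≠ 12 → t.r a = s.r a) ∧
    (∀ m, m ≠ i → t.r 12 m = s.r 12 m) ∧
    (∀ j < l, t.r 12 i j = (d j : ℝ) - 2 ^ w / 2) ∧
    t.r 91 0 0 = ((2 : ℝ) ^ w) ^ (n - l) ∧
    t.r 90 0 0 = ∑ j ∈ Ico l n, (d j : ℝ) * ((2 : ℝ) ^ w) ^ (n - 1 - j)

end DIGaux

open DIGaux in
theorem pDIG : FLOOR → DIG := by
  intro hF s n w i d hstd hw h80 hd h85 h90
  obtain ⟨c0, c1, c3, r9⟩ := hstd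
  have hB : (1 : ℝ) ≤ (2 : ℝ) ^ w := one_le_pow₀ (by norm_num)
  have hB0 : (0 : ℝ) < (2 : ℝ) ^ w := by positivity
  have hd' : ∀ j < n, (d j : ℝ) ≤ (2 : ℝ) ^ w - 1 := by
    intro j hj
    have h1 : d j + 1 ≤ 2 ^ w := hd j hj
    have h2 : ((d j + 1 : ℕ) : ℝ) ≤ ((2 ^ w : ℕ) : ℝ) := by exact_mod_cast h1
    push_cast at h2
    linarith
  refine Ok.seq 2 (n * ((40 * (w + 1) + 10) + 5) + 3) ?_ (by nlinarith [Nat.zero_le (n * w)])
  refine Ok.asg trivial ?_ (by simp [R, Ex.size])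
  refine Ok.forc n (40 * (w + 1) + 10) (Inv s n w i d) (by norm_num) (by simpa using c0) ?_ ?_ ?_
    le_rfl
  · refine ⟨?_, ?_, ?_, ?_, ?_, ?_⟩
    · intro k hk
      rw [St.setc_c, if_neg (by omega), St.set_c]
    · intro a ha ha12
      rw [St.setc_r, St.set_r_ne (by simp only [sc]; omega)]
    · intro m _
      rw [St.setc_r, St.set_r_ne (by simp only [sc]; omega)]
    · intro j hj
      omega
    · rw [St.setc_r, St.set_r]
      simp only [sc, c1, R_val]
      simp [h85]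
    · rw [St.setc_r, St.set_r_ne (by simp only [sc]; omega), h90, Finset.range_eq_Ico]
  · intro l hl t ht81 ht0 ⟨i1, i2, i3, i4, i5, i6⟩
    have t1 : t.c 1 = 0 := by rw [i1 1 (by norm_num), c1]
    have t3 : t.c 3 = w := by rw [i1 3 (by norm_num), c3]
    have t80 : t.c 80 = i := by rw [i1 80 (by norm_num), h80]
    have t9 : t.r 9 0 0 = 2 ^ w := by rw [i2 9 (by norm_num) (by norm_num), r9]
    obtain ⟨g1, g2⟩ := digit n ((2 : ℝ) ^ w) hB d hd' l hl
    have hW : (0 : ℝ) < ((2 : ℝ) ^ w) ^ (n - 1 - l) := by positivity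
    refine Ok.seq 4 (40 * (w + 1) + 6) ?_ (by omega)
    refine Ok.asg ?_ ?_ (by simp [R, Ex.size, HDiv.hDiv, Div.div])
    · refine ⟨trivial, trivial, ?_⟩
      rw [R_val, t1, t9]
      exact hB0.ne'
    set t' : St := t.set (sc 91) ((R 91 / R 9).val t) with ht'
    have hv : (R 91 / R 9).val t = ((2 : ℝ) ^ w) ^ (n - 1 - l) := by
      rw [div_val, R_val, R_val, t1, t9, i5]
      have e : n - l = (n - 1 - l) + 1 := by omega
      rw [e, pow_succ]
      field_simp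
    have c' : t'.c = t.c := rfl
    have r91' : t'.r 91 0 0 = ((2 : ℝ) ^ w) ^ (n - 1 - l) := by
      rw [ht', St.set_r]
      simp only [sc, t1]
      simp [hv]
    have r' : ∀ a, a ≠ 91 → t'.r a = t.r a := fun a ha => St.set_r_ne ha
    refine Ok.seq (40 * (w + 1)) 6 ?_ (by omega)
    refine (hF t' n w _ _ ⟨by rw [c', ht0], by rw [c', t1], by rw [c', t3],
      by rw [r' 9 (by norm_num), t9]⟩ rfl r91' hW ?_ ?_).mono le_rfl ?_
    · rw [r' 90 (by norm_num), i6]
      exact tail_nonneg n _ hB0.le d l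
    · rw [r' 90 (by norm_num), i6]
      exact g1
    · intro u ⟨⟨f1, f2⟩, f3, f4, f5⟩
      rw [r' 90 (by norm_num), i6, g2] at f4 f5
      have u1 : u.c 1 = 0 := by rw [f1 1 (by norm_num), c', t1]
      have u80 : u.c 80 = i := by rw [f1 80 (by norm_num), c', t80]
      have u81 : u.c 81 = l := by rw [f1 81 (by norm_num), c', ht81]
      have u9 : u.r 9 0 0 = 2 ^ w := by
        rw [f2 9 (by norm_num) (by simp), r' 9 (by norm_num), t9]
      refine Ok.asg ?_ ?_ (by simp [R, Ex.size, HDiv.hDiv, Div.div, HSub.hSub, Sub.sub])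
      · refine ⟨trivial, trivial, trivial, ?_⟩
        rw [num_val]
        norm_num
      have hv2 : (R 92 - R 9 / Ex.num 2).val u = (d l : ℝ) - 2 ^ w / 2 := by
        rw [sub_val, div_val, R_val, R_val, num_val, u1, f4, u9]
        norm_num
      rw [hv2]
      refine ⟨?_, ?_, ?_, ?_, ?_, ?_, ?_, ?_⟩
      · rw [St.set_c, u81]
      · rw [St.set_c, f1 0 (by norm_num), c', ht0]
      · intro k hk
        rw [St.setc_c, if_neg (by omega), St.set_c, f1 k (by omega), c', i1 k hk]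
      · intro a ha ha12
        rw [St.setc_r, St.set_r_ne (by simpa using ha12), f2 a ha (by simp), r' a (by omega),
          i2 a ha ha12]
      · intro m hm
        funext j
        rw [St.setc_r, St.set_r, if_neg (by simp only [u80]; tauto), f2 12 (by norm_num) (by simp),
          r' 12 (by norm_num), i3 m hm]
      · intro j hj
        rw [St.setc_r, St.set_r]
        by_cases hjl : j = l
        · rw [if_pos ⟨rfl, u80.symm, by rw [hjl]; exact u81.symm⟩, hjl]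
        · rw [if_neg (by simp only [u81]; tauto), f2 12 (by norm_num) (by simp),
            r' 12 (by norm_num), i4 j (by omega)]
      · rw [St.setc_r, St.set_r_ne (by norm_num), f3]
        congr 1
        omega
      · rw [St.setc_r, St.set_r_ne (by norm_num), f5, tail_step n _ d l hl]
        ring
  · intro t _ _ ⟨i1, i2, i3, i4, _, _⟩
    exact ⟨i1, i2, i3, i4⟩

end Pool.Agent.W217.RS
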