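import Pool.Agent.W217.RS.Stm2

set_option autoImplicit false

noncomputable section

namespace Pool.Agent.W217.RS

theorem pENTR : ENTR := by
  intro n A c h i j
  have h1 := h (Pi.single j 1)
  have h2 : nrm (Pi.single j (1 : ℝ) : Fin n → ℝ) = 1 := by
    unfold nrm
    rw [Finset.sum_eq_single j]
    · simp
    · intro b _ hb
      simp [Pi.single_eq_of_ne hb]
    · intro hj
      exact absurd (Finset.mem_univ j) hj
  have h3 : |A i j| ≤ nrm (A.mulVec (Pi.single j 1)) := by
    unfold nrm
    rw [← Real.sqrt_sq_eq_abs]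
    apply Real.sqrt_le_sqrt
    have h4 : (A.mulVec (Pi.single j 1)) i = A i j := by simp
    calc A i j ^ 2 = (A.mulVec (Pi.single j 1)) i ^ 2 := by rw [h4]
      _ ≤ _ := Finset.single_le_sum (f := fun i => (A.mulVec (Pi.single j 1)) i ^ 2)
          (fun i _ => sq_nonneg _) (Finset.mem_univ i)
  rw [h2, mul_one] at h1
  exact h3.trans h1

end Pool.Agent.W217.RS
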