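import Pool.Agent.W217.RS.Stm2

set_option autoImplicit false

open scoped BigOperators

noncomputable section

namespace Pool.Agent.W217.RS

namespace FINAaux

theorem main_bound (n S ε : ℝ) (hn : 2 ≤ n) (hS0 : 0 ≤ S) (hS : S ≤ n ^ 4) (hε : 0 < ε)
    (hε1 : ε < 1) :
    0 ≤ 1 + Real.log (n * (1 + S / (1 / (n * n ^ 3))) / ε) ∧
    1 + Real.log (n * (1 + S / (1 / (n * n ^ 3))) / ε) ≤ 12 * Real.log (n / ε) := by
  have hn0 : 0 < n := by linarith
  have e1 : S / (1 / (n * n ^ 3)) = S * n ^ 4 := by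
    field_simp
  rw [e1]
  have h1 : S * n ^ 4 ≤ n ^ 8 := by
    calc S * n ^ 4 ≤ n ^ 4 * n ^ 4 := mul_le_mul_of_nonneg_right hS (by positivity)
      _ = n ^ 8 := by ring
  have h0 : 0 ≤ S * n ^ 4 := by positivity
  have h2 : 1 + S * n ^ 4 ≤ n ^ 9 := by
    have : 1 ≤ n ^ 8 := one_le_pow₀ (by linarith)
    calc 1 + S * n ^ 4 ≤ n ^ 8 + n ^ 8 := add_le_add this h1
      _ = 2 * n ^ 8 := by ring
      _ ≤ n * n ^ 8 := mul_le_mul_of_nonneg_right hn (by positivity)
      _ = n ^ 9 := by ring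
  have h3 : n * (1 + S * n ^ 4) / ε ≤ (n / ε) ^ 10 := by
    rw [div_pow, div_le_div_iff₀ hε (by positivity)]
    have h4 : ε ^ 10 ≤ ε := by
      have : ε ^ 10 ≤ ε ^ 1 := pow_le_pow_of_le_one hε.le hε1.le (by norm_num)
      simpa using this
    calc n * (1 + S * n ^ 4) * ε ^ 10 ≤ n * n ^ 9 * ε := by
          apply mul_le_mul _ h4 (by positivity) (by positivity)
          exact mul_le_mul_of_nonneg_left h2 hn0.le
      _ = n ^ 10 * ε := by ring
  have h5 : 1 ≤ n * (1 + S * n ^ 4) / ε := by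
    rw [le_div_iff₀ hε]
    nlinarith
  have h6 : Real.log (n * (1 + S * n ^ 4) / ε) ≤ 10 * Real.log (n / ε) := by
    have := Real.log_le_log (by linarith) h3
    rw [Real.log_pow] at this
    exact_mod_cast this
  have h7 : 0 ≤ Real.log (n * (1 + S * n ^ 4) / ε) := Real.log_nonneg h5
  have h8 : 2 ≤ n / ε := by
    rw [le_div_iff₀ hε]; nlinarith
  have h9 : Real.log 2 ≤ Real.log (n / ε) := Real.log_le_log (by norm_num) h8
  have h10 := Real.log_two_gt_d9
  constructor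
  · linarith
  · linarith

end FINAaux

open FINAaux in
theorem pFINA : SOLVE → GOOD → LOWI → FINA := by
  intro hS hG hL
  obtain ⟨C, hC⟩ := hS
  refine ⟨pMain, fun n => if 2 ≤ n then Good n else ∅, C * 1728, 3, ?_, ?_, ?_⟩
  · intro n
    by_cases h : 2 ≤ n
    · simp only [if_pos h]; exact hG.1 n
    · simp only [if_neg h]; exact MeasurableSet.empty
  · refine hG.2.congr' ?_
    filter_upwards [Filter.eventually_ge_atTop 2] with n hn
    rw [if_pos hn]
  · intro n A hA b ε hε hε1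
    by_cases h : 2 ≤ n
    swap
    · simp only [if_neg h] at hA
      exact absurd hA (Set.notMem_empty _)
    simp only [if_pos h] at hA
    obtain ⟨hdet, hA1, hA2⟩ := hA
    have hn0 : (0 : ℝ) < n := by
      have : 0 < n := by omega
      exact_mod_cast this
    have hn2 : (2 : ℝ) ≤ n := by exact_mod_cast h
    have hlow := hL n (Matrix.of A) ((n : ℝ) ^ 3) hdet (by positivity) hA2 (by omega)
    obtain ⟨t, m, h1, h2, h3, h4⟩ := hC n (Matrix.of A) b ε _ (by omega) hε hε1 (by positivity) hlow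
    refine ⟨t, m, h1, ?_, h3⟩
    have hS4 : ∑ i, ∑ j, |Matrix.of A i j| ≤ (n : ℝ) ^ 4 := by
      calc ∑ i, ∑ j, |Matrix.of A i j| ≤ ∑ i : Fin n, ∑ j : Fin n, (n : ℝ) ^ 2 :=
            Finset.sum_le_sum fun i _ => Finset.sum_le_sum fun j _ => hA1 i j
        _ = (n : ℝ) ^ 4 := by
            simp only [Finset.sum_const, Finset.card_univ, Fintype.card_fin, nsmul_eq_mul]
            ring
    have hS0 : 0 ≤ ∑ i, ∑ j, |Matrix.of A i j| :=
      Finset.sum_nonneg fun i _ => Finset.sum_nonneg fun j _ => abs_nonneg _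
    obtain ⟨b0, b1⟩ := main_bound n _ ε hn2 hS0 hS4 hε hε1
    have b2 := pow_le_pow_left₀ b0 b1 3
    calc (m : ℝ) ≤ C * (n : ℝ) ^ 2 *
          (1 + Real.log (n * (1 + (∑ i, ∑ j, |Matrix.of A i j|) / (1 / (n * (n : ℝ) ^ 3))) / ε)) ^ 3 := h2
      _ ≤ C * (n : ℝ) ^ 2 * (12 * Real.log (n / ε)) ^ 3 :=
          mul_le_mul_of_nonneg_left b2 (by positivity)
      _ = C * 1728 * (n : ℝ) ^ 2 * Real.log (n / ε) ^ 3 := by ring

end Pool.Agent.W217.RS
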