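import Pool.Agent.W217.RS.Stm2

set_option autoImplicit false

open scoped BigOperators

noncomputable section

namespace Pool.Agent.W217.RS

namespace FINBaux

theorem cube_le_exp (v : ℝ) (hv : 0 ≤ v) : v ^ 3 ≤ 6 * Real.exp v := by
  have h := Real.sum_le_exp_of_nonneg hv 4
  simp only [Finset.sum_range_succ, Finset.sum_range_zero, Nat.factorial] at h
  norm_num at h
  nlinarith [sq_nonneg v, pow_nonneg hv 3]

theorem main_bound (n S ε κ q : ℝ) (hn : 1 ≤ n) (hS0 : 0 ≤ S) (hq : 0 ≤ q) (hκ : 1 ≤ κ)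
    (hS : S ≤ n ^ 2 * n ^ q * κ) (hε : 0 < ε) (hε1 : ε < 1) :
    0 ≤ 1 + Real.log (n * (1 + S) / ε) ∧
    (1 + Real.log (n * (1 + S) / ε)) ^ 3 ≤
      4 * ((3 + q) ^ 3 + 6) * (κ * (1 + Real.log (n / ε)) ^ 3) := by
  have hn0 : 0 < n := by linarith
  have hnq : 1 ≤ n ^ q := Real.one_le_rpow hn hq
  have hn2 : 1 ≤ n ^ 2 := one_le_pow₀ hn
  have hκ0 : 0 < κ := by linarith
  have h1 : 1 + S ≤ 2 * (n ^ 2 * n ^ q * κ) := by
    have : 1 ≤ n ^ 2 * n ^ q * κ := by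
      have := one_le_mul_of_one_le_of_one_le hn2 hnq
      exact one_le_mul_of_one_le_of_one_le this hκ
    linarith
  have h2 : n * (1 + S) / ε ≤ 2 * (n ^ 3 * n ^ q * κ) / ε := by
    apply div_le_div_of_nonneg_right _ hε.le
    calc n * (1 + S) ≤ n * (2 * (n ^ 2 * n ^ q * κ)) := mul_le_mul_of_nonneg_left h1 hn0.le
      _ = _ := by ring
  have h3 : 1 ≤ n * (1 + S) / ε := by
    rw [le_div_iff₀ hε]
    nlinarith
  have h4 : 0 ≤ Real.log (n * (1 + S) / ε) := Real.log_nonneg h3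
  have h5 := Real.log_le_log (by linarith) h2
  have hnq0 : 0 < n ^ q := by positivity
  have h6 : Real.log (2 * (n ^ 3 * n ^ q * κ) / ε) =
      Real.log 2 + 3 * Real.log n + q * Real.log n + Real.log κ - Real.log ε := by
    rw [Real.log_div (by positivity) hε.ne', Real.log_mul (by norm_num) (by positivity),
      Real.log_mul (by positivity) hκ0.ne', Real.log_mul (by positivity) hnq0.ne', Real.log_pow,
      Real.log_rpow hn0]
    push_cast
    ring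
  have h7 : Real.log (n / ε) = Real.log n - Real.log ε := Real.log_div hn0.ne' hε.ne'
  have h8 : 0 ≤ Real.log n := Real.log_nonneg hn
  have h9 : Real.log ε ≤ 0 := Real.log_nonpos hε.le hε1.le
  have h10 : 0 ≤ Real.log κ := Real.log_nonneg hκ
  have h11 := Real.log_two_lt_d9
  set l := Real.log (n / ε) with hl
  have hl0 : 0 ≤ l := by rw [h7]; linarith
  set v := Real.log κ with hv
  have h12 : 1 + Real.log (n * (1 + S) / ε) ≤ (3 + q) * (1 + l) + v := by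
    rw [h7]
    rw [h6] at h5
    nlinarith
  have h13 : 0 ≤ 1 + Real.log (n * (1 + S) / ε) := by linarith
  refine ⟨h13, ?_⟩
  have h14 := pow_le_pow_left₀ h13 h12 3
  have hu0 : 0 ≤ (3 + q) * (1 + l) := by positivity
  set u := (3 + q) * (1 + l) with hu
  have h15 : (u + v) ^ 3 ≤ 4 * (u ^ 3 + v ^ 3) := by
    nlinarith [mul_nonneg (add_nonneg hu0 h10) (sq_nonneg (u - v))]
  have h16 : v ^ 3 ≤ 6 * κ := by
    have := cube_le_exp v h10
    rw [hv, Real.exp_log hκ0] at this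
    exact this
  have h17 : (1 : ℝ) ≤ (1 + l) ^ 3 := one_le_pow₀ (by linarith)
  have h18 : u ^ 3 = (3 + q) ^ 3 * (1 + l) ^ 3 := by rw [hu]; ring
  have h19 : u ^ 3 ≤ (3 + q) ^ 3 * (κ * (1 + l) ^ 3) := by
    rw [h18]
    apply mul_le_mul_of_nonneg_left _ (by positivity)
    nlinarith
  have h20 : 6 * κ ≤ 6 * (κ * (1 + l) ^ 3) := by nlinarith
  calc (1 + Real.log (n * (1 + S) / ε)) ^ 3 ≤ (u + v) ^ 3 := h14
    _ ≤ 4 * (u ^ 3 + v ^ 3) := h15
    _ ≤ 4 * ((3 + q) ^ 3 * (κ * (1 + l) ^ 3) + 6 * (κ * (1 + l) ^ 3)) := by linarith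
    _ = 4 * ((3 + q) ^ 3 + 6) * (κ * (1 + l) ^ 3) := by ring

end FINBaux

open FINBaux in
theorem pFINB : SOLVE → KAPPA → FINB := by
  intro hS hK
  obtain ⟨C, hC⟩ := hS
  refine ⟨pMain, fun p hp => ⟨C * (4 * ((3 + 1 / p) ^ 3 + 6)), ?_⟩⟩
  intro n A b ε hn hdet hε hε1
  obtain ⟨σ, hσ, hlow, hκ, hb⟩ := hK n p A hn hp hdet
  obtain ⟨t, m, h1, h2, h3, h4⟩ := hC n A b ε σ hn hε hε1 hσ hlow
  refine ⟨t, m, h1, ?_, h4⟩
  have hS0 : 0 ≤ (∑ i, ∑ j, |A i j|) / σ :=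
    div_nonneg (Finset.sum_nonneg fun i _ => Finset.sum_nonneg fun j _ => abs_nonneg _) hσ.le
  have hn1 : (1 : ℝ) ≤ n := by exact_mod_cast hn
  obtain ⟨b0, b1⟩ := main_bound n _ ε (kappa p A) (1 / p) hn1 hS0 (by positivity) hκ hb hε hε1
  calc (m : ℝ) ≤ C * (n : ℝ) ^ 2 *
        (1 + Real.log (n * (1 + (∑ i, ∑ j, |A i j|) / σ) / ε)) ^ 3 := h2
    _ ≤ C * (n : ℝ) ^ 2 * (4 * ((3 + 1 / p) ^ 3 + 6) *
        (kappa p A * (1 + Real.log (n / ε)) ^ 3)) := mul_le_mul_of_nonneg_left b1 (by positivity)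
    _ = C * (4 * ((3 + 1 / p) ^ 3 + 6)) * (n : ℝ) ^ 2 * kappa p A *
        (1 + Real.log (n / ε)) ^ 3 := by ring

end Pool.Agent.W217.RS
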