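import Pool.Agent.W217.RS.Stm2

set_option autoImplicit false

/-!
# The first residual
-/

namespace Pool.Agent.W217.RS.FIRSTaux

open Pool.Agent.W217.RS Matrix

theorem nrm_sq {n : ℕ} (v : Fin n → ℝ) : nrm v ^ 2 = v ⬝ᵥ v := by
  unfold nrm
  rw [Real.sq_sqrt (Finset.sum_nonneg fun i _ => sq_nonneg _)]
  unfold dotProduct
  exact Finset.sum_congr rfl fun i _ => sq _

theorem nrm_nonneg {n : ℕ} (v : Fin n → ℝ) : 0 ≤ nrm v := Real.sqrt_nonneg _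

theorem main {n : ℕ} (A : Matrix (Fin n) (Fin n) ℝ) (σ : ℝ) (h0 : 0 ≤ σ) (h1 : σ ≤ 1)
    (hU : Up A 1) (hL : Low A.transpose σ) (v : Fin n → ℝ) :
    nrm ((1 - A * A.transpose).mulVec v) ≤ (1 - σ ^ 2 / 2) * nrm v := by
  have e1 : (1 - A * A.transpose).mulVec v = v - A.mulVec (A.transpose.mulVec v) := by
    rw [Matrix.sub_mulVec, Matrix.one_mulVec, Matrix.mulVec_mulVec]
  have hw : v ⬝ᵥ A.mulVec (A.transpose.mulVec v) =
      A.transpose.mulVec v ⬝ᵥ A.transpose.mulVec v := by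
    rw [Matrix.dotProduct_mulVec, ← Matrix.mulVec_transpose]
  have hu := hU (A.transpose.mulVec v)
  have hl := hL v
  rw [one_mul] at hu
  generalize hwd : A.transpose.mulVec v = w at *
  have hu2 : A.mulVec w ⬝ᵥ A.mulVec w ≤ w ⬝ᵥ w := by
    rw [← nrm_sq, ← nrm_sq]
    exact pow_le_pow_left₀ (nrm_nonneg _) hu 2
  have hl2 : σ ^ 2 * nrm v ^ 2 ≤ w ⬝ᵥ w := by
    rw [← nrm_sq, ← mul_pow]
    exact pow_le_pow_left₀ (mul_nonneg h0 (nrm_nonneg _)) hl 2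
  have e2 : nrm ((1 - A * A.transpose).mulVec v) ^ 2 =
      nrm v ^ 2 - 2 * (w ⬝ᵥ w) + A.mulVec w ⬝ᵥ A.mulVec w := by
    rw [nrm_sq, nrm_sq, e1]
    simp only [sub_dotProduct, dotProduct_sub, hw, dotProduct_comm (A.mulVec w) v]
    ring
  have h3 : nrm ((1 - A * A.transpose).mulVec v) ^ 2 ≤ ((1 - σ ^ 2 / 2) * nrm v) ^ 2 := by
    rw [e2]
    have h4 : 0 ≤ (σ ^ 2 / 2) ^ 2 * nrm v ^ 2 := by positivity
    nlinarith
  have h5 : σ ^ 2 ≤ 1 := by nlinarith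
  exact le_of_sq_le_sq h3 (mul_nonneg (by linarith) (nrm_nonneg _))

end Pool.Agent.W217.RS.FIRSTaux

namespace Pool.Agent.W217.RS

theorem pFIRST : FIRST := fun _ A σ h0 h1 hU hL v => FIRSTaux.main A σ h0 h1 hU hL v

end Pool.Agent.W217.RS
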