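import Pool.Agent.W217.RS.Stm2

set_option autoImplicit false

/-!
# Bisection
-/

noncomputable section

namespace Pool.Agent.W217.RS

namespace FLOORaux

theorem val_R {s : St} (h : s.c 1 = 0) (a : ℕ) : (R a).val s = s.r a 0 0 := by
  simp [R, Ex.val, St.get, h]

theorem val_num {s : St} (k : ℕ) : (Ex.num k).val s = k := rfl

theorem val_add {s : St} (a b : Ex) : (a + b).val s = a.val s + b.val s := rfl

theorem val_sub {s : St} (a b : Ex) : (a - b).val s = a.val s - b.val s := rfl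

theorem val_mul {s : St} (a b : Ex) : (a * b).val s = a.val s * b.val s := rfl

theorem val_div {s : St} (a b : Ex) : (a / b).val s = a.val s / b.val s := rfl

theorem set_sc {s : St} (h : s.c 1 = 0) (a b : ℕ) (v : ℝ) :
    (s.set (sc a) v).r b 0 0 = if b = a then v else s.r b 0 0 := by
  rw [St.set_r]
  simp [sc, h]

/-- the invariant -/
def Inv (s : St) (w : ℕ) (x W : ℝ) (k : ℕ) (t : St) : Prop :=
  Fr 90 ∅ s t ∧ t.c 1 = 0 ∧ t.r 91 0 0 = W ∧ t.r 93 0 0 = 2 ^ (w - k) ∧
    (∃ m : ℕ, t.r 92 0 0 = 2 ^ (w - k) * m) ∧ 0 ≤ t.r 90 0 0 ∧ t.r 90 0 0 < 2 ^ (w - k) * W ∧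
    t.r 92 0 0 * W + t.r 90 0 0 = x

theorem Inv.setc {s : St} {w : ℕ} {x W : ℝ} {k : ℕ} {t : St} (h : Inv s w x W k t) (v : ℕ) :
    Inv s w x W k (t.setc 90 v) := by
  obtain ⟨h1, h2, h3, h4, h5, h6, h7, h8⟩ := h
  refine ⟨h1.trans (Fr.setc le_rfl), ?_, h3, h4, h5, h6, h7, h8⟩
  rw [St.setc_c, if_neg (by norm_num), h2]

theorem fr_sc {s : St} {a : ℕ} {v : ℝ} (h : 90 ≤ a) : Fr 90 ∅ s (s.set (sc a) v) :=
  Fr.set (Or.inl h)

theorem body {s : St} {w : ℕ} {x W : ℝ} {k : ℕ} (hk : k < w) {t : St} (hc : t.c 90 = k)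
    (hw : t.c 3 = w) (hi : Inv s w x W k t) :
    Ok (.seq (.asg (sc 93) (R 93 / .num 2)) <|
      .ifle (R 93 * R 91) (R 90)
        (.seq (.asg (sc 90) (R 90 - R 93 * R 91)) (.asg (sc 92) (R 92 + R 93))) .skip) t 19
      (fun u => u.c 90 = k ∧ u.c 3 = w ∧ Inv s w x W (k + 1) (u.setc 90 (k + 1))) := by
  obtain ⟨h1, h2, h3, h4, ⟨m, h5⟩, h6, h7, h8⟩ := hi
  have hpow : (2 : ℝ) ^ (w - k) = 2 * 2 ^ (w - (k + 1)) := by
    rw [← pow_succ']
    congr 1
    omega
  set V : ℝ := 2 ^ (w - (k + 1)) with hV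
  have hV0 : 0 < V := by positivity
  refine Ok.seq 4 15 (Ok.asg ?_ ?_ ?_) (by norm_num)
  · exact ⟨trivial, trivial, by rw [val_num]; norm_num⟩
  · set t1 : St := t.set (sc 93) ((R 93 / .num 2 : Ex).val t) with ht1
    have c1 : t1.c 1 = 0 := by rw [ht1, St.set_c, h2]
    have r93 : t1.r 93 0 0 = V := by
      rw [ht1, set_sc h2, if_pos rfl, val_div, val_R h2, val_num, h4, hpow]
      push_cast
      ring
    have r91 : t1.r 91 0 0 = W := by rw [ht1, set_sc h2, if_neg (by norm_num), h3]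
    have r90 : t1.r 90 0 0 = t.r 90 0 0 := by rw [ht1, set_sc h2, if_neg (by norm_num)]
    have r92 : t1.r 92 0 0 = t.r 92 0 0 := by rw [ht1, set_sc h2, if_neg (by norm_num)]
    have f1 : Fr 90 ∅ s t1 := h1.trans (fr_sc (by norm_num))
    refine Ok.ifle 10 ?_ trivial ?_ ?_ ?_
    · exact ⟨trivial, trivial⟩
    · intro hle
      rw [val_mul, val_R c1, val_R c1, val_R c1, r93, r91, r90] at hle
      refine Ok.seq 6 4 (Ok.asg ?_ ?_ ?_) (by norm_num)
      · exact ⟨trivial, trivial, trivial⟩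
      · set t2 : St := t1.set (sc 90) ((R 90 - R 93 * R 91 : Ex).val t1) with ht2
        have c2 : t2.c 1 = 0 := by rw [ht2, St.set_c, c1]
        have q90 : t2.r 90 0 0 = t.r 90 0 0 - V * W := by
          rw [ht2, set_sc c1, if_pos rfl, val_sub, val_mul, val_R c1, val_R c1, val_R c1, r93, r91,
            r90]
        have q91 : t2.r 91 0 0 = W := by rw [ht2, set_sc c1, if_neg (by norm_num), r91]
        have q92 : t2.r 92 0 0 = t.r 92 0 0 := by rw [ht2, set_sc c1, if_neg (by norm_num), r92]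
        have q93 : t2.r 93 0 0 = V := by rw [ht2, set_sc c1, if_neg (by norm_num), r93]
        have f2 : Fr 90 ∅ s t2 := f1.trans (fr_sc (by norm_num))
        refine Ok.asg ⟨trivial, trivial⟩ ?_ (le_of_eq rfl)
        set t3 : St := t2.set (sc 92) ((R 92 + R 93 : Ex).val t2) with ht3
        have c3 : t3.c 1 = 0 := by rw [ht3, St.set_c, c2]
        have p90 : t3.r 90 0 0 = t.r 90 0 0 - V * W := by
          rw [ht3, set_sc c2, if_neg (by norm_num), q90]
        have p91 : t3.r 91 0 0 = W := by rw [ht3, set_sc c2, if_neg (by norm_num), q91]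
        have p92 : t3.r 92 0 0 = t.r 92 0 0 + V := by
          rw [ht3, set_sc c2, if_pos rfl, val_add, val_R c2, val_R c2, q92, q93]
        have p93 : t3.r 93 0 0 = V := by rw [ht3, set_sc c2, if_neg (by norm_num), q93]
        have f3 : Fr 90 ∅ s t3 := f2.trans (fr_sc (by norm_num))
        refine ⟨hc, hw, Inv.setc ⟨f3, c3, p91, p93, ⟨2 * m + 1, ?_⟩, ?_, ?_, ?_⟩ _⟩
        · rw [p92, h5, hpow]
          push_cast
          ring
        · rw [p90]
          linarith
        · rw [p90]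
          rw [hpow] at h7
          linarith
        · rw [p90, p92, ← h8]
          ring
      · exact le_of_eq rfl
    · intro hle
      rw [val_mul, val_R c1, val_R c1, val_R c1, r93, r91, r90, not_le] at hle
      refine Ok.skip ?_ (by norm_num)
      refine ⟨hc, hw, Inv.setc ⟨f1, c1, r91, r93, ⟨2 * m, ?_⟩, ?_, ?_, ?_⟩ _⟩
      · rw [r92, h5, hpow]
        push_cast
        ring
      · rw [r90]
        exact h6
      · rw [r90]
        exact hle
      · rw [r90, r92, h8]
    · exact le_of_eq rfl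
  · exact le_of_eq rfl

end FLOORaux

open FLOORaux in
theorem pFLOOR : FLOOR := by
  intro s n w x W hs hx hW hW0 hx0 hxW
  obtain ⟨hn, h1, hw, h9⟩ := hs
  unfold pFloor
  refine Ok.seq 2 (24 * w + 5) (Ok.asg trivial ?_ ?_) (by omega)
  · set t1 : St := s.set (sc 92) ((Ex.num 0).val s) with ht1
    have c1 : t1.c 1 = 0 := by rw [ht1, St.set_c, h1]
    have f1 : Fr 90 ∅ s t1 := fr_sc (by norm_num)
    have r92 : t1.r 92 0 0 = 0 := by
      rw [ht1, set_sc h1, if_pos rfl, val_num]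
      norm_num
    have r90 : t1.r 90 0 0 = x := by rw [ht1, set_sc h1, if_neg (by norm_num), hx]
    have r91 : t1.r 91 0 0 = W := by rw [ht1, set_sc h1, if_neg (by norm_num), hW]
    have r9 : t1.r 9 0 0 = 2 ^ w := by rw [ht1, set_sc h1, if_neg (by norm_num), h9]
    refine Ok.seq 2 (24 * w + 3) (Ok.asg trivial ?_ ?_) (by omega)
    · set t2 : St := t1.set (sc 93) ((R 9).val t1) with ht2
      have c2 : t2.c 1 = 0 := by rw [ht2, St.set_c, c1]
      have f2 : Fr 90 ∅ s t2 := f1.trans (fr_sc (by norm_num))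
      have q92 : t2.r 92 0 0 = 0 := by rw [ht2, set_sc c1, if_neg (by norm_num), r92]
      have q90 : t2.r 90 0 0 = x := by rw [ht2, set_sc c1, if_neg (by norm_num), r90]
      have q91 : t2.r 91 0 0 = W := by rw [ht2, set_sc c1, if_neg (by norm_num), r91]
      have q93 : t2.r 93 0 0 = 2 ^ w := by rw [ht2, set_sc c1, if_pos rfl, val_R c1, r9]
      have cw : t2.c 3 = w := by rw [f2.1 3 (by norm_num), hw]
      refine Ok.forc w 19 (Inv s w x W) (by norm_num) cw ?_ ?_ ?_ (by omega)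
      · refine Inv.setc ⟨f2, c2, q91, ?_, ⟨0, ?_⟩, ?_, ?_, ?_⟩ 0
        · rw [q93, Nat.sub_zero]
        · rw [q92]
          simp
        · rw [q90]
          exact hx0
        · rw [q90, Nat.sub_zero]
          exact hxW
        · rw [q92, q90]
          ring
      · intro l hl t ht1 ht2 hi
        exact body hl ht1 ht2 hi
      · intro t _ _ hi
        obtain ⟨g1, g2, g3, g4, ⟨m, g5⟩, g6, g7, g8⟩ := hi
        rw [Nat.sub_self, pow_zero, one_mul] at g5 g7
        have hfl : ⌊x / W⌋₊ = m := by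
          rw [Nat.floor_eq_iff (by positivity)]
          rw [g5] at g8
          constructor
          · rw [le_div_iff₀ hW0]
            linarith
          · rw [div_lt_iff₀ hW0]
            linarith
        refine ⟨g1, g3, ?_, ?_⟩
        · rw [hfl, g5]
        · rw [hfl, ← g8, g5]
          ring
    · simp [R, Ex.size]
  · simp [Ex.size]

end Pool.Agent.W217.RS
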