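import Pool.Agent.W217.RS.Stm2

set_option autoImplicit false
open MeasureTheory ProbabilityTheory Set Matrix
open scoped ENNReal

namespace Pool.Agent.W217.RS.GDETaux

/-- product measures and absolute continuity -/
lemma pi_ac {α : Type} [MeasurableSpace α] (μ ν : Measure α) [SigmaFinite μ] [SigmaFinite ν]
    (h : μ ≪ ν) (n : ℕ) : Measure.pi (fun _ : Fin n => μ) ≪ Measure.pi (fun _ : Fin n => ν) := by
  induction n with
  | zero =>
    have : Measure.pi (fun _ : Fin 0 => μ) = Measure.pi (fun _ : Fin 0 => ν) := by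
      rw [Measure.pi_of_empty, Measure.pi_of_empty]
    rw [this]
  | succ n ih =>
    have h1 := (measurePreserving_piFinSuccAbove (fun _ : Fin (n+1) => μ) 0).symm
    have h2 := (measurePreserving_piFinSuccAbove (fun _ : Fin (n+1) => ν) 0).symm
    rw [← h1.map_eq, ← h2.map_eq]
    exact (h.prod ih).map (MeasurableEquiv.measurable _)

lemma gm_ac (n : ℕ) : gauss n ≪ (volume : Measure (Fin n → Fin n → ℝ)) := by
  refine pi_ac _ _ ?_ n
  exact pi_ac _ _ (gaussianReal_absolutelyContinuous 0 one_ne_zero) n

lemma ae_det_ne (n : ℕ) : ∀ᵐ G ∂(gauss n), (Matrix.of G).det ≠ 0 := by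
  refine gm_ac n ?_
  let L : ℝ →ₗ[ℝ] (Fin n → Fin n → ℝ) :=
    { toFun := fun s i j => s * (1 : Matrix (Fin n) (Fin n) ℝ) i j
      map_add' := by intro a b; ext i j; simp [add_mul]
      map_smul' := by intro c a; ext i j; simp [mul_assoc] }
  have hcont : Continuous (fun G : Fin n → Fin n → ℝ => (Matrix.of G).det) := by
    refine Continuous.matrix_det ?_
    exact (continuous_id : Continuous (fun G : Fin n → Fin n → ℝ => G))
  have hs : MeasurableSet {G : Fin n → Fin n → ℝ | (Matrix.of G).det ≠ 0} :=
    (hcont.measurable (measurableSet_singleton 0)).compl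
  refine ae_mem_of_ae_add_linearMap_mem L volume volume hs ?_
  intro G
  have hfin : {s : ℝ | ¬ (G + L s ∈ {G : Fin n → Fin n → ℝ | (Matrix.of G).det ≠ 0})}.Finite := by
    have hsub : {s : ℝ | ¬ (G + L s ∈ {G : Fin n → Fin n → ℝ | (Matrix.of G).det ≠ 0})} ⊆
        {s : ℝ | (-(Matrix.of G)).charpoly.IsRoot s} := by
      intro s hs
      simp only [mem_setOf_eq, ne_eq, not_not] at hs
      simp only [mem_setOf_eq, Polynomial.IsRoot, Matrix.eval_charpoly]
      rw [← hs]
      congr 1
      ext i j
      simp [L, Matrix.scalar_apply, Matrix.diagonal_apply, Matrix.one_apply]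
      ring
    refine Set.Finite.subset ?_ hsub
    exact Polynomial.finite_setOf_isRoot (Matrix.charpoly_monic _).ne_zero
  rw [ae_iff]
  exact hfin.measure_zero _

end Pool.Agent.W217.RS.GDETaux

namespace Pool.Agent.W217.RS

/-- Gaussian matrices are almost surely invertible. -/
theorem pGDET : GDET := by
  intro n
  have h := GDETaux.ae_det_ne n
  rw [ae_iff] at h
  simpa using h

end Pool.Agent.W217.RS
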