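import Pool.Agent.W217.RS.Stm2

set_option autoImplicit false

namespace Pool.Agent.W217.RS

namespace GOODaux

open MeasureTheory ProbabilityTheory

instance (n : ℕ) : IsProbabilityMeasure (gauss n) := by
  unfold gauss
  infer_instance

/-- the marginals of the entries -/
theorem marg (n : ℕ) (i j : Fin n) :
    MeasurePreserving (fun A : Fin n → Fin n → ℝ => A i j) (gauss n) (gaussianReal 0 1) := by
  have h1 : MeasurePreserving (fun v : Fin n → ℝ => v j)
      (Measure.pi fun _ : Fin n => gaussianReal 0 1) (gaussianReal 0 1) :=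
    measurePreserving_eval (fun _ : Fin n => gaussianReal 0 1) j
  have h2 : MeasurePreserving (fun A : Fin n → Fin n → ℝ => A i) (gauss n)
      (Measure.pi fun _ : Fin n => gaussianReal 0 1) :=
    measurePreserving_eval (fun _ : Fin n => Measure.pi fun _ : Fin n => gaussianReal 0 1) i
  exact h1.comp h2

theorem gauss_tail (c : ℝ) (hc : 0 < c) :
    gaussianReal 0 1 {x : ℝ | c < |x|} ≤ ENNReal.ofReal (1 / c ^ 2) := by
  have h := meas_ge_le_variance_div_sq (μ := gaussianReal 0 1) (X := id)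
    (memLp_id_gaussianReal 2) hc
  have h1 : Var[id; gaussianReal 0 1] = 1 := by
    rw [variance_id_gaussianReal]; simp
  have h2 : ∫ x, id x ∂gaussianReal 0 1 = 0 := by
    simp only [id]
    exact integral_id_gaussianReal
  rw [h1] at h
  refine le_trans (measure_mono ?_) h
  intro x hx
  have h3 : c < |x| := hx
  show c ≤ |id x - ∫ x, id x ∂gaussianReal 0 1|
  rw [h2, sub_zero]
  exact h3.le

theorem entry_bd (n : ℕ) (i j : Fin n) (c : ℝ) (hc : 0 < c) :
    gauss n {A | c < |A i j|} ≤ ENNReal.ofReal (1 / c ^ 2) := by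
  have h1 : MeasurableSet {x : ℝ | c < |x|} := by
    apply measurableSet_lt measurable_const
    fun_prop
  have h2 := (marg n i j).measure_preimage h1.nullMeasurableSet
  have h3 : (fun A : Fin n → Fin n → ℝ => A i j) ⁻¹' {x : ℝ | c < |x|} = {A | c < |A i j|} := rfl
  rw [h3] at h2
  rw [h2]
  exact gauss_tail c hc

theorem cont_det (n : ℕ) : Continuous (fun A : Fin n → Fin n → ℝ => (Matrix.of A).det) :=
  Continuous.matrix_det (show Continuous (fun A : Fin n → Fin n → ℝ => Matrix.of A) from continuous_id)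

theorem cont_adj (n : ℕ) (i j : Fin n) :
    Continuous (fun A : Fin n → Fin n → ℝ => (Matrix.of A).adjugate i j) :=
  (Continuous.matrix_adjugate
    (show Continuous (fun A : Fin n → Fin n → ℝ => Matrix.of A) from continuous_id)).matrix_elem i j

theorem inv_eq (n : ℕ) (A : Fin n → Fin n → ℝ) (i j : Fin n) :
    (Matrix.of A)⁻¹ i j = ((Matrix.of A).det)⁻¹ * (Matrix.of A).adjugate i j := by
  rw [Matrix.inv_def, Ring.inverse_eq_inv']
  rfl

theorem meas_good (n : ℕ) : MeasurableSet (Good n) := by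
  have h1 : Measurable (fun A : Fin n → Fin n → ℝ => (Matrix.of A).det) := (cont_det n).measurable
  have h2 : ∀ i j, Measurable (fun A : Fin n → Fin n → ℝ => (Matrix.of A)⁻¹ i j) := by
    intro i j
    have : (fun A : Fin n → Fin n → ℝ => (Matrix.of A)⁻¹ i j) =
        fun A => ((Matrix.of A).det)⁻¹ * (Matrix.of A).adjugate i j := by
      funext A
      exact inv_eq n A i j
    rw [this]
    exact h1.inv.mul (cont_adj n i j).measurable
  have h3 : Good n = {A : Fin n → Fin n → ℝ | (Matrix.of A).det ≠ 0} ∩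
      ((⋂ i, ⋂ j, {A : Fin n → Fin n → ℝ | |A i j| ≤ (n : ℝ) ^ 2}) ∩
      ⋂ i, ⋂ j, {A : Fin n → Fin n → ℝ | |(Matrix.of A)⁻¹ i j| ≤ (n : ℝ) ^ 3}) := by
    ext A
    simp only [Good, Set.mem_ofPred_eq, Set.mem_inter_iff, Set.mem_iInter]
  rw [h3]
  refine MeasurableSet.inter ?_ (MeasurableSet.inter ?_ ?_)
  · exact (measurableSet_eq_fun h1 measurable_const).compl
  · refine MeasurableSet.iInter fun i => MeasurableSet.iInter fun j => ?_
    apply measurableSet_le _ measurable_const
    exact ((measurable_pi_apply j).comp (measurable_pi_apply i)).abs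
  · refine MeasurableSet.iInter fun i => MeasurableSet.iInter fun j => ?_
    exact measurableSet_le (h2 i j).abs measurable_const

theorem bad_bd (hD : GDET) (hI : GINV) (n : ℕ) (hn : 1 ≤ n) :
    gauss n (Good n)ᶜ ≤ ENNReal.ofReal (1 / n + 1 / n) := by
  have hnr : (0 : ℝ) < n := by exact_mod_cast hn
  have hnr1 : (1 : ℝ) ≤ n := by exact_mod_cast hn
  set τ : ℝ := 1 / (n : ℝ) ^ 3 with hτ
  have hτ0 : 0 ≤ τ := by positivity
  have hsub : (Good n)ᶜ ⊆ {A | (Matrix.of A).det = 0} ∪
      ((⋃ i : Fin n, ⋃ j : Fin n, {A | (Matrix.of A).adjugate j i ≠ 0 ∧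
        |(Matrix.of A).det| ≤ τ * |(Matrix.of A).adjugate j i|}) ∪
      (⋃ i : Fin n, ⋃ j : Fin n, {A | (n : ℝ) ^ 2 < |A i j|})) := by
    intro A hA
    by_contra hcon
    rw [Set.mem_union, Set.mem_union, not_or, not_or] at hcon
    obtain ⟨c1, c2, c3⟩ := hcon
    apply hA
    have c1' : (Matrix.of A).det ≠ 0 := c1
    refine ⟨c1', ?_, ?_⟩
    · intro i j
      by_contra h
      push Not at h
      exact c3 (Set.mem_iUnion.2 ⟨i, Set.mem_iUnion.2 ⟨j, h⟩⟩)
    · intro j i
      by_contra h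
      push Not at h
      apply c2
      refine Set.mem_iUnion.2 ⟨i, Set.mem_iUnion.2 ⟨j, ?_⟩⟩
      rw [inv_eq, abs_mul, abs_inv] at h
      have hd : 0 < |(Matrix.of A).det| := abs_pos.2 c1'
      have h3 : (n : ℝ) ^ 3 * |(Matrix.of A).det| < |(Matrix.of A).adjugate j i| := by
        have h4 : (n : ℝ) ^ 3 < |(Matrix.of A).adjugate j i| / |(Matrix.of A).det| := by
          rw [div_eq_inv_mul]; exact h
        rwa [lt_div_iff₀ hd] at h4
      refine ⟨?_, ?_⟩
      · intro h0
        rw [h0, abs_zero] at h3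
        have : 0 ≤ (n : ℝ) ^ 3 * |(Matrix.of A).det| := by positivity
        linarith
      · rw [hτ, one_div, ← div_eq_inv_mul, le_div_iff₀ (by positivity)]
        linarith
  refine (measure_mono hsub).trans ?_
  refine (measure_union_le _ _).trans ?_
  rw [hD n, zero_add]
  refine (measure_union_le _ _).trans ?_
  rw [ENNReal.ofReal_add (by positivity) (by positivity)]
  have key : ∀ (S : Fin n → Fin n → Set (Fin n → Fin n → ℝ)) (x : ℝ), 0 ≤ x →
      (∀ i j, gauss n (S i j) ≤ ENNReal.ofReal x) → (n : ℝ) ^ 2 * x ≤ 1 / n →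
      gauss n (⋃ i, ⋃ j, S i j) ≤ ENNReal.ofReal (1 / n) := by
    intro S x hx hS hnx
    calc gauss n (⋃ i, ⋃ j, S i j) ≤ ∑ i, gauss n (⋃ j, S i j) := measure_iUnion_fintype_le _ _
      _ ≤ ∑ i, ∑ j, gauss n (S i j) := Finset.sum_le_sum fun i _ => measure_iUnion_fintype_le _ _
      _ ≤ ∑ i : Fin n, ∑ j : Fin n, ENNReal.ofReal x :=
          Finset.sum_le_sum fun i _ => Finset.sum_le_sum fun j _ => hS i j
      _ = ENNReal.ofReal ((n : ℝ) ^ 2 * x) := by
          rw [Finset.sum_const, Finset.sum_const, Finset.card_univ, Fintype.card_fin]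
          rw [← ENNReal.ofReal_nsmul, ← ENNReal.ofReal_nsmul]
          congr 1
          rw [nsmul_eq_mul, nsmul_eq_mul]; ring
      _ ≤ ENNReal.ofReal (1 / n) := ENNReal.ofReal_le_ofReal hnx
  refine add_le_add ?_ ?_
  · refine key _ τ hτ0 (fun i j => hI n i j τ hτ0) ?_
    rw [hτ]
    have : (n : ℝ) ^ 2 * (1 / (n : ℝ) ^ 3) = 1 / n := by field_simp
    rw [this]
  · refine key _ (1 / ((n : ℝ) ^ 2) ^ 2) (by positivity) (fun i j => entry_bd n i j _ (by positivity)) ?_
    have h1 : (n : ℝ) ^ 2 * (1 / ((n : ℝ) ^ 2) ^ 2) = 1 / (n : ℝ) ^ 2 := by field_simp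
    rw [h1]
    apply one_div_le_one_div_of_le hnr
    nlinarith

end GOODaux

open MeasureTheory in
theorem pGOOD : GDET → GINV → GOOD := by
  intro hD hI
  refine ⟨GOODaux.meas_good, ?_⟩
  have hlim : Filter.Tendsto (fun n : ℕ => 1 - ENNReal.ofReal (1 / (n : ℝ) + 1 / n)) Filter.atTop
      (nhds 1) := by
    have h1 : Filter.Tendsto (fun n : ℕ => (1 / (n : ℝ) + 1 / n)) Filter.atTop (nhds 0) := by
      have h2 := tendsto_one_div_atTop_nhds_zero_nat (𝕜 := ℝ)
      simpa using h2.add h2
    have h3 : Filter.Tendsto (fun n : ℕ => ENNReal.ofReal (1 / (n : ℝ) + 1 / n)) Filter.atTop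
        (nhds 0) := by
      have := (ENNReal.continuous_ofReal.tendsto 0).comp h1
      simpa [Function.comp_def] using this
    have h4 := ENNReal.Tendsto.sub (tendsto_const_nhds (x := (1 : ENNReal)) (f := Filter.atTop)) h3
      (Or.inl ENNReal.one_ne_top)
    simpa using h4
  refine tendsto_of_tendsto_of_tendsto_of_le_of_le' hlim tendsto_const_nhds ?_ ?_
  · filter_upwards [Filter.eventually_ge_atTop 1] with n hn
    have h1 := GOODaux.bad_bd hD hI n hn
    have h2 : gauss n (Good n) = 1 - gauss n (Good n)ᶜ := by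
      have h3 := prob_compl_eq_one_sub (μ := gauss n) (GOODaux.meas_good n).compl
      rwa [compl_compl] at h3
    rw [h2]
    exact tsub_le_tsub_left h1 1
  · filter_upwards with n
    exact prob_le_one

end Pool.Agent.W217.RS
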