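import Pool.Agent.W217.RS.Stm2

set_option autoImplicit false

open scoped BigOperators

noncomputable section

namespace Pool.Agent.W217.RS

namespace INITaux

theorem asg_sc {a : ℕ} {e : Ex} {s : St} {k : ℕ} {Q : St → Prop} (hd : e.Def s)
    (hk : e.size + 1 ≤ k)
    (hQ : ∀ t : St, t.c = s.c → (∀ b, b ≠ a → t.r b = s.r b) →
      t.r a (s.c 1) (s.c 1) = e.val s → Q t) : Ok (.asg (sc a) e) s k Q :=
  Ok.asg hd (hQ _ rfl (fun _ hb => St.set_r_ne hb) (by simp [St.set_r, sc])) hk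

theorem cnt_i {i : ℕ} {e : Nx} {s : St} {k : ℕ} {Q : St → Prop}
    (hk : e.size + 1 ≤ k)
    (hQ : ∀ t : St, (∀ j, j ≠ i → t.c j = s.c j) → t.c i = e.val s → t.r = s.r → Q t) :
    Ok (.cnt i e) s k Q :=
  Ok.cnt (hQ _ (fun j hj => by simp [St.setc_c, hj]) (by simp [St.setc_c]) rfl) hk

theorem R_val {a : ℕ} {s : St} : (R a).val s = s.r a (s.c 1) (s.c 1) := rfl

theorem R2_val {a i j : ℕ} {s : St} : (R2 a i j).val s = s.r a (s.c i) (s.c j) := rfl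

theorem add_val {a b : Ex} {s : St} : (a + b).val s = a.val s + b.val s := rfl

theorem mul_val {a b : Ex} {s : St} : (a * b).val s = a.val s * b.val s := rfl

theorem div_val {a b : Ex} {s : St} : (a / b).val s = a.val s / b.val s := rfl

theorem wl {n : ℕ} {s₀ : St} (_hn : 1 ≤ n) (h1 : s₀.c 1 = 0) (h15 : s₀.r 15 0 0 = n) :
    ∀ (d L : ℕ) (t : St), n < L + d → 1 ≤ L → 2 ^ L ≤ 2 * n → t.c 2 = L → t.r 16 0 0 = 2 ^ L →
      (∀ i, i ≠ 2 → t.c i = s₀.c i) → (∀ a, a ≠ 16 → t.r a = s₀.r a) →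
      Ok (.wle (R 16) (R 15) (
        .seq (.cnt 2 (.add (.var 2) (.num 1))) <| .asg (sc 16) (R 16 * .num 2))) t (11 * d + 3)
        (fun u => (∀ i, i ≠ 2 → u.c i = s₀.c i) ∧ (∀ a, a ≠ 16 → u.r a = s₀.r a) ∧
          ∃ L : ℕ, u.c 2 = L ∧ 1 ≤ L ∧ u.r 16 0 0 = 2 ^ L ∧ n < 2 ^ L ∧ 2 ^ L ≤ 2 * n) := by
  intro d
  induction d with
  | zero =>
    intro L t hd hL hL2 hc2 h16 hc hr
    have e1 : t.c 1 = 0 := by rw [hc 1 (by norm_num), h1]
    have e2 : t.r 15 0 0 = n := by rw [hr 15 (by norm_num), h15]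
    have hlt : n < 2 ^ L := lt_trans (by omega) (Nat.lt_two_pow_self)
    refine ⟨t, _, .wleF trivial trivial ?_, ?_, hc, hr, L, hc2, hL, h16, hlt, hL2⟩
    · rw [R_val, R_val, e1, e2, h16, not_le]
      exact_mod_cast hlt
    · simp only [R, Ex.size]
      omega
  | succ d ih =>
    intro L t hd hL hL2 hc2 h16 hc hr
    have e1 : t.c 1 = 0 := by rw [hc 1 (by norm_num), h1]
    have e2 : t.r 15 0 0 = n := by rw [hr 15 (by norm_num), h15]
    by_cases hlt : n < 2 ^ L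
    · refine ⟨t, _, .wleF trivial trivial ?_, ?_, hc, hr, L, hc2, hL, h16, hlt, hL2⟩
      · rw [R_val, R_val, e1, e2, h16, not_le]
        exact_mod_cast hlt
      · simp only [R, Ex.size]
        omega
    · have hb : Ok (.seq (.cnt 2 (.add (.var 2) (.num 1))) <| .asg (sc 16) (R 16 * .num 2)) t 8
          (fun u => u.c 2 = L + 1 ∧ u.r 16 0 0 = 2 ^ (L + 1) ∧
            (∀ i, i ≠ 2 → u.c i = s₀.c i) ∧ (∀ a, a ≠ 16 → u.r a = s₀.r a)) := by
        refine Ok.seq 4 4 (cnt_i le_rfl fun u hu1 hu2 hu3 => ?_) le_rfl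
        refine asg_sc ⟨trivial, trivial⟩ le_rfl fun v hv1 hv2 hv3 => ?_
        have e3 : u.c 1 = 0 := by rw [hu1 1 (by norm_num), e1]
        refine ⟨?_, ?_, ?_, ?_⟩
        · rw [hv1, hu2]
          simp [Nx.val, hc2]
        · rw [e3, mul_val, R_val, e3, hu3, h16] at hv3
          rw [hv3, pow_succ]
          simp [Ex.val]
        · intro i hi
          rw [hv1, hu1 i hi, hc i hi]
        · intro a ha
          rw [hv2 a ha, hu3, hr a ha]
      obtain ⟨u, k, hrun, hk, g2, g16, gc, gr⟩ := hb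
      obtain ⟨v, l, hrun2, hl, hv⟩ := ih (L + 1) u (by omega) (by omega)
        (by rw [pow_succ]; omega) g2 g16 gc gr
      refine ⟨v, _, .wleT trivial trivial ?_ hrun hrun2, ?_, hv⟩
      · rw [R_val, R_val, e1, e2, h16]
        exact_mod_cast not_lt.mp hlt
      · simp only [R, Ex.size]
        omega

theorem len {n : ℕ} {s₀ : St} (h0 : s₀.c 0 = n) (h1 : s₀.c 1 = 0) (h15 : s₀.r 15 0 0 = 0) :
    Ok (forc 80 0 (.asg (sc 15) (R 15 + .num 1))) s₀ (n * 9 + 3)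
      (fun u => (∀ i, i ≠ 80 → u.c i = s₀.c i) ∧ (∀ a, a ≠ 15 → u.r a = s₀.r a) ∧
        u.r 15 0 0 = n) := by
  refine Ok.forc n 4 (fun l t => t.r 15 0 0 = l ∧ (∀ i, i ≠ 80 → t.c i = s₀.c i) ∧
    ∀ a, a ≠ 15 → t.r a = s₀.r a) (by norm_num) h0 ?_ ?_ ?_ le_rfl
  · refine ⟨by simpa using h15, fun i hi => ?_, fun a _ => rfl⟩
    simp [St.setc_c, hi]
  · rintro l hl t ht80 ht0 ⟨i1, i2, i3⟩
    have e1 : t.c 1 = 0 := by rw [i2 1 (by norm_num), h1]
    refine asg_sc ⟨trivial, trivial⟩ le_rfl fun v hv1 hv2 hv3 => ?_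
    refine ⟨by rw [hv1, ht80], by rw [hv1, ht0], ?_, ?_, ?_⟩
    · rw [e1, add_val, R_val, e1, i1] at hv3
      simp [hv3, Ex.val]
    · intro i hi
      rw [St.setc_c, if_neg hi, hv1, i2 i hi]
    · intro a ha
      rw [St.setc_r, hv2 a ha, i3 a ha]
  · rintro t - - ⟨i1, i2, i3⟩
    exact ⟨i2, i3, i1⟩

end INITaux

open INITaux in
theorem pINIT : SUMA → MAPR → INIT := by
  intro hS hM s n h0 h1 hn hpos
  have hN : n + 1 ≤ (n + 1) ^ 2 := by nlinarith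
  refine Ok.seq (40 * (n + 1) ^ 2) (360 * (n + 1) ^ 2)
    ((hS s n 0 h0 h1 (by norm_num)).mono le_rfl ?_) (by omega)
  rintro t1 ⟨⟨f1c, f1r⟩, h84⟩
  refine Ok.seq 4 (300 * (n + 1) ^ 2) (asg_sc ⟨trivial, trivial⟩ le_rfl ?_) (by omega)
  intro t2 c2 r2 v2
  have e1 : t1.c 1 = 0 := by rw [f1c 1 (by norm_num), h1]
  rw [e1, mul_val, R_val, e1, h84] at v2
  have v2' : t2.r 4 0 0 = 2 * asum n (s.r 0) := by rw [v2]; simp [Ex.val, asum]
  have k2 : ∀ i < 80, t2.c i = s.c i := fun i hi => by rw [c2, f1c i hi]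
  have g2 : ∀ a < 80, a ≠ 4 → t2.r a = s.r a := fun a ha h4 => by
    rw [r2 a h4, f1r a ha (by simp)]
  refine Ok.seq (23 * (n + 1) ^ 2) (200 * (n + 1) ^ 2) ((hM t2 n 5 (R2 0 80 81 / R 4)
    (scl n (s.r 0)) (by rw [k2 0 (by norm_num), h0]) ?_).mono le_rfl ?_) (by omega)
  · intro i hi j hj u hu hur h80 h81 _
    have w1 : u.c 1 = 0 := by rw [hu.1 1 (by norm_num), k2 1 (by norm_num), h1]
    have w4 : (R 4).val u = 2 * asum n (s.r 0) := by
      rw [R_val, w1, hur 4 (by norm_num), v2']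
    refine ⟨⟨trivial, trivial, ?_⟩, ?_⟩
    · rw [w4]
      positivity
    · rw [div_val, w4, R2_val, h80, h81, hur 0 (by norm_num), g2 0 (by norm_num) (by norm_num)]
      rfl
  rintro t3 ⟨⟨k3, -⟩, r3, v3⟩
  refine Ok.seq 2 (190 * (n + 1) ^ 2) (asg_sc trivial le_rfl ?_) (by omega)
  intro t4 c4 r4 v4
  have w3 : t3.c 1 = 0 := by rw [k3 1 (by norm_num), k2 1 (by norm_num), h1]
  have v4' : t4.r 15 0 0 = 0 := by rw [w3] at v4; rw [v4]; simp [Ex.val]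
  refine Ok.seq (n * 9 + 3) (180 * (n + 1) ^ 2) ((len (n := n) (s₀ := t4)
    (by rw [c4, k3 0 (by norm_num), k2 0 (by norm_num), h0]) (by rw [c4, w3]) v4').mono
    le_rfl ?_) (by omega)
  rintro t5 ⟨k5, r5, v5⟩
  refine Ok.seq 2 (170 * (n + 1) ^ 2) (cnt_i le_rfl ?_) (by omega)
  intro t6 k6 v6 r6
  refine Ok.seq 2 (160 * (n + 1) ^ 2) (asg_sc trivial le_rfl ?_) (by omega)
  intro t7 c7 r7 v7
  have w6 : t6.c 1 = 0 := by
    rw [k6 1 (by norm_num), k5 1 (by norm_num), c4, w3]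
  have w7 : t7.c 1 = 0 := by rw [c7, w6]
  have v7' : t7.r 16 0 0 = 2 ^ 1 := by rw [w6] at v7; rw [v7]; simp [Ex.val]
  refine Ok.seq (11 * n + 3) 2 ((wl (n := n) (s₀ := t7) hn w7
    (by rw [r7 15 (by norm_num), r6, v5]) n 1 t7 (by omega) le_rfl (by omega)
    (by rw [c7, v6]; rfl) v7' (fun _ _ => rfl) (fun _ _ => rfl)).mono le_rfl ?_) (by omega)
  rintro t8 ⟨k8, r8, L, l1, l2, l3, l4, l5⟩
  refine asg_sc trivial le_rfl ?_
  intro t9 c9 r9 v9
  have w8 : t8.c 1 = 0 := by rw [k8 1 (by norm_num), w7]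
  have hc : ∀ i < 2, t9.c i = s.c i := fun i hi => by
    rw [c9, k8 i (by omega), c7, k6 i (by omega), k5 i (by omega), c4, k3 i (by omega),
      k2 i (by omega)]
  have hr : ∀ a, a ≠ 14 → a ≠ 15 → a ≠ 16 → t9.r a = t3.r a := fun a h1 h2 h3 => by
    rw [r9 a h1, r8 a h3, r7 a h3, r6, r5 a h2, r4 a h2]
  refine ⟨hc, ?_, ?_, ?_, ?_, ?_, L, ?_, l2, ?_, l4, l5⟩
  · intro a ha ha'
    simp only [Finset.mem_insert, Finset.mem_singleton, not_or] at ha'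
    obtain ⟨m1, m2, m3, m4, m5⟩ := ha'
    rw [hr a m3 m4 m5, r3 a m2, g2 a (by omega) m1]
  · rw [hr 4 (by norm_num) (by norm_num) (by norm_num), r3 4 (by norm_num), v2']
  · intro i hi j hj
    rw [hr 5 (by norm_num) (by norm_num) (by norm_num), v3 i hi j hj]
  · rw [w8] at v9
    rw [v9]
    simp [Ex.val]
  · rw [r9 15 (by norm_num), r8 15 (by norm_num), r7 15 (by norm_num), r6, v5]
  · rw [c9, l1]
  · rw [r9 16 (by norm_num), l3]

end Pool.Agent.W217.RS
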