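import Pool.Agent.W217.RS.Stm2

set_option autoImplicit false

open scoped BigOperators

noncomputable section

namespace Pool.Agent.W217.RS.ITERaux

open Pool.Agent.W217.RS

/-- rounding gives integers of absolute value at most `H`. -/
theorem rnd_int (h : ℕ) (y : ℝ) : (∃ z : ℤ, rnd (h : ℝ) y = z) ∧ |rnd (h : ℝ) y| ≤ (h : ℝ) := by
  have hh : (0 : ℝ) ≤ (h : ℝ) := Nat.cast_nonneg h
  constructor
  · refine ⟨((⌊max 0 (min (y + (h : ℝ)) (2 * (h : ℝ)))⌋₊ : ℕ) : ℤ) - (h : ℤ), ?_⟩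
    unfold rnd
    push_cast
    rfl
  · unfold rnd
    have h1 : (0 : ℝ) ≤ max 0 (min (y + (h : ℝ)) (2 * (h : ℝ))) := le_max_left _ _
    have h2 : (⌊max 0 (min (y + (h : ℝ)) (2 * (h : ℝ)))⌋₊ : ℝ) ≤
        max 0 (min (y + (h : ℝ)) (2 * (h : ℝ))) := Nat.floor_le h1
    have h3 : max 0 (min (y + (h : ℝ)) (2 * (h : ℝ))) ≤ 2 * (h : ℝ) :=
      max_le (by linarith) (min_le_right _ _)
    have h4 : (0 : ℝ) ≤ (⌊max 0 (min (y + (h : ℝ)) (2 * (h : ℝ)))⌋₊ : ℝ) := Nat.cast_nonneg _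
    rw [abs_le]
    constructor <;> linarith

theorem mulN_congr {n : ℕ} {f f' g g' : ℕ → ℕ → ℝ}
    (hf : ∀ i < n, ∀ j < n, f i j = f' i j) (hg : ∀ i < n, ∀ j < n, g i j = g' i j) :
    ∀ i < n, ∀ j < n, mulN n f g i j = mulN n f' g' i j := by
  intro i hi j hj
  unfold mulN
  refine Finset.sum_congr rfl fun k hk => ?_
  have hk' : k < n := Finset.mem_range.mp hk
  rw [hf i hi k hk', hg k hk' j hj]

theorem nwt_congr {n : ℕ} {β H : ℝ} {a x x' : ℕ → ℕ → ℝ}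
    (hx : ∀ i < n, ∀ j < n, x i j = x' i j) :
    ∀ i < n, ∀ j < n, nwt n β H a x i j = nwt n β H a x' i j := by
  intro i hi j hj
  unfold nwt
  have h1 : ∀ k < n, ∀ l < n,
      (fun k l => (if k = l then 2 * β ^ 2 else 0) - mulN n a x k l) k l =
      (fun k l => (if k = l then 2 * β ^ 2 else 0) - mulN n a x' k l) k l := by
    intro k hk l hl
    have := mulN_congr (f := a) (f' := a) (fun _ _ _ _ => rfl) hx k hk l hl
    simp only [this]
  rw [mulN_congr hx h1 i hi j hj]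

theorem xseq_int {n : ℕ} {β : ℝ} {h : ℕ} {a : ℕ → ℕ → ℝ} (hβ : β ≤ (h : ℝ))
    (ha : IntM n β a) (k : ℕ) : IntM n (h : ℝ) (xseq n β (h : ℝ) a k) := by
  cases k with
  | zero =>
    intro i hi j hj
    obtain ⟨h1, h2⟩ := ha j hj i hi
    exact ⟨h1, h2.trans hβ⟩
  | succ k =>
    intro i hi j hj
    exact rnd_int h _

end Pool.Agent.W217.RS.ITERaux

namespace Pool.Agent.W217.RS

open ITERaux

theorem pITER : NEWT → ITER := by
  intro hN s n w β H hStd h8 h20 hSiz hInt h7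
  obtain ⟨hc0, hc1, hc3, h9⟩ := hStd
  obtain ⟨hb, ⟨h, hh⟩, hβ1, hβH, hw, h2H, h4⟩ := hSiz
  subst hh
  have hSiz' : Siz n w β (h : ℝ) := ⟨hb, ⟨h, rfl⟩, hβ1, hβH, hw, h2H, h4⟩
  unfold pIter
  refine Ok.forc w (1500 * (n + 1) ^ 2 * (w + 1))
    (fun k t => Fr 70 {7, 10, 11, 12, 13, 19} s t ∧
      ∀ i < n, ∀ j < n, t.r 7 i j = xseq n β (h : ℝ) (s.r 6) k i j)
    (by norm_num) hc3 ?_ ?_ ?_ ?_
  · refine ⟨Fr.setc le_rfl, ?_⟩
    intro i hi j hj
    simpa [xseq] using h7 i hi j hj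
  · intro l hl t ht70 ht3 ⟨hFr, hx⟩
    have e6 : t.r 6 = s.r 6 := hFr.2 6 (by norm_num) (by decide)
    have e8 : t.r 8 = s.r 8 := hFr.2 8 (by norm_num) (by decide)
    have e9 : t.r 9 = s.r 9 := hFr.2 9 (by norm_num) (by decide)
    have e20 : t.r 20 = s.r 20 := hFr.2 20 (by norm_num) (by decide)
    have c0 : t.c 0 = s.c 0 := hFr.1 0 (by norm_num)
    have c1 : t.c 1 = s.c 1 := hFr.1 1 (by norm_num)
    have c3 : t.c 3 = s.c 3 := hFr.1 3 (by norm_num)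
    have hIt : IntM n (h : ℝ) (t.r 7) := by
      intro i hi j hj
      rw [hx i hi j hj]
      exact xseq_int hβH hInt l i hi j hj
    have key := hN t n w β (h : ℝ) ⟨c0.trans hc0, c1.trans hc1, c3.trans hc3, by rw [e9]; exact h9⟩
      (by rw [e8]; exact h8) (by rw [e20]; exact h20) hSiz' (by rw [e6]; exact hInt) hIt
    refine key.mono le_rfl ?_
    intro u ⟨hFu, hu⟩
    refine ⟨?_, ?_, ?_, ?_⟩
    · rw [hFu.1 70 (by norm_num)]; exact ht70
    · rw [hFu.1 3 (by norm_num)]; exact ht3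
    · refine hFr.trans ((hFu.mono (T' := 70) (R' := {7, 10, 11, 12, 13, 19}) (by norm_num)
        (fun a _ ha => ha)).trans (Fr.setc le_rfl))
    · intro i hi j hj
      show (u.setc 70 (l + 1)).r 7 i j = _
      rw [St.setc_r, hu i hi j hj, e6]
      show _ = nwt n β (h : ℝ) (s.r 6) (xseq n β (h : ℝ) (s.r 6) l) i j
      exact nwt_congr hx i hi j hj
  · intro t _ _ hInv
    exact hInv
  · have h1 : 1 ≤ (n + 1) ^ 2 := Nat.one_le_pow _ _ (Nat.succ_pos _)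
    have h2 : w * (w + 1) ≤ (w + 1) ^ 2 := by nlinarith
    have h3 : 5 * w + 3 ≤ 8 * (w + 1) ^ 2 := by nlinarith
    calc w * (1500 * (n + 1) ^ 2 * (w + 1) + 5) + 3
        = 1500 * (n + 1) ^ 2 * (w * (w + 1)) + (5 * w + 3) := by ring
      _ ≤ 1500 * (n + 1) ^ 2 * (w + 1) ^ 2 + 8 * (w + 1) ^ 2 :=
        Nat.add_le_add (Nat.mul_le_mul_left _ h2) h3
      _ ≤ 1500 * (n + 1) ^ 2 * (w + 1) ^ 2 + 100 * (n + 1) ^ 2 * (w + 1) ^ 2 := by
        apply Nat.add_le_add_left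
        apply Nat.mul_le_mul_right
        nlinarith
      _ = 1600 * (n + 1) ^ 2 * (w + 1) ^ 2 := by ring

end Pool.Agent.W217.RS
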