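import Pool.Agent.W217.RS.Stm2

set_option autoImplicit false

/-!
# RS-KAPPA: the averaged condition number and the extreme singular values
-/

open scoped BigOperators

noncomputable section

namespace Pool.Agent.W217.RS

namespace KAPPAaux

open Module InnerProductSpace

section

variable {n : ℕ} (T : EuclideanSpace ℝ (Fin n) →ₗ[ℝ] EuclideanSpace ℝ (Fin n))

theorem fr : finrank ℝ (EuclideanSpace ℝ (Fin n)) = n := finrank_euclideanSpace_fin

theorem norm_sq_eq (v : EuclideanSpace ℝ (Fin n)) :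
    ‖v‖ ^ 2 = ∑ i, (inner ℝ v (T.isSymmetric_adjoint_comp_self.eigenvectorBasis fr i)) ^ 2 := by
  rw [← real_inner_self_eq_norm_sq,
    ← OrthonormalBasis.sum_inner_mul_inner (T.isSymmetric_adjoint_comp_self.eigenvectorBasis fr) v v]
  refine Finset.sum_congr rfl fun i _ => ?_
  rw [real_inner_comm v, sq]

theorem norm_map_sq_eq (v : EuclideanSpace ℝ (Fin n)) :
    ‖T v‖ ^ 2 = ∑ i : Fin n, T.singularValues i ^ 2 *
      (inner ℝ v (T.isSymmetric_adjoint_comp_self.eigenvectorBasis fr i)) ^ 2 := by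
  have h1 : ‖T v‖ ^ 2 = inner ℝ ((LinearMap.adjoint T ∘ₗ T) v) v := by
    rw [← real_inner_self_eq_norm_sq, LinearMap.comp_apply, LinearMap.adjoint_inner_left]
  rw [h1, ← OrthonormalBasis.sum_inner_mul_inner
    (T.isSymmetric_adjoint_comp_self.eigenvectorBasis fr) _ v]
  refine Finset.sum_congr rfl fun i _ => ?_
  have h2 := T.isSymmetric_adjoint_comp_self v
    (T.isSymmetric_adjoint_comp_self.eigenvectorBasis fr i)
  rw [h2, LinearMap.IsSymmetric.apply_eigenvectorBasis, T.sq_singularValues_fin fr i]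
  simp only [inner_smul_right, RCLike.ofReal_real_eq_id, id_eq]
  rw [real_inner_comm v]
  ring

theorem lower (hn : 1 ≤ n) (v : EuclideanSpace ℝ (Fin n)) :
    T.singularValues (n - 1) * ‖v‖ ≤ ‖T v‖ := by
  refine le_of_sq_le_sq ?_ (norm_nonneg _)
  rw [mul_pow, norm_map_sq_eq T v, norm_sq_eq T v, Finset.mul_sum]
  refine Finset.sum_le_sum fun i _ => ?_
  refine mul_le_mul_of_nonneg_right ?_ (sq_nonneg _)
  exact pow_le_pow_left₀ (T.singularValues_nonneg _) (T.singularValues_antitone (by omega)) 2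

theorem upper (v : EuclideanSpace ℝ (Fin n)) :
    ‖T v‖ ≤ T.singularValues 0 * ‖v‖ := by
  refine le_of_sq_le_sq ?_ (mul_nonneg (T.singularValues_nonneg _) (norm_nonneg _))
  rw [mul_pow, norm_map_sq_eq T v, norm_sq_eq T v, Finset.mul_sum]
  refine Finset.sum_le_sum fun i _ => ?_
  refine mul_le_mul_of_nonneg_right ?_ (sq_nonneg _)
  exact pow_le_pow_left₀ (T.singularValues_nonneg _) (T.singularValues_antitone (by omega)) 2

end

variable {n : ℕ}

theorem nrm_eq (v : Fin n → ℝ) : nrm v = ‖WithLp.toLp 2 v‖ := by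
  rw [EuclideanSpace.norm_eq, nrm]
  simp

theorem lin_eq (A : Matrix (Fin n) (Fin n) ℝ) (v : Fin n → ℝ) :
    lin A (WithLp.toLp 2 v) = WithLp.toLp 2 (A.mulVec v) := by
  rw [lin]
  rfl

theorem nrm_mulVec (A : Matrix (Fin n) (Fin n) ℝ) (v : Fin n → ℝ) :
    nrm (A.mulVec v) = ‖lin A (WithLp.toLp 2 v)‖ := by
  rw [nrm_eq, lin_eq]

theorem low (hn : 1 ≤ n) (A : Matrix (Fin n) (Fin n) ℝ) :
    Low A ((lin A).singularValues (n - 1)) := by
  intro v
  rw [nrm_mulVec, nrm_eq]
  exact lower (lin A) hn _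

theorem abs_le_nrm (v : Fin n → ℝ) (i : Fin n) : |v i| ≤ nrm v := by
  rw [nrm]
  refine Real.le_sqrt_of_sq_le ?_
  rw [sq_abs]
  exact Finset.single_le_sum (f := fun i => v i ^ 2) (fun j _ => sq_nonneg _) (Finset.mem_univ i)

theorem entry (A : Matrix (Fin n) (Fin n) ℝ) (i j : Fin n) :
    |A i j| ≤ (lin A).singularValues 0 := by
  have h1 : A.mulVec (Pi.single j 1) i = A i j := by simp
  have h2 : nrm (Pi.single j 1 : Fin n → ℝ) = 1 := by
    rw [nrm, Finset.sum_eq_single j]
    · simp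
    · intro k _ hk
      simp [Pi.single_eq_of_ne hk]
    · simp
  calc |A i j| = |A.mulVec (Pi.single j 1) i| := by rw [h1]
    _ ≤ nrm (A.mulVec (Pi.single j 1)) := abs_le_nrm _ i
    _ ≤ (lin A).singularValues 0 * nrm (Pi.single j 1 : Fin n → ℝ) := by
      rw [nrm_mulVec, nrm_eq]
      exact upper (lin A) _
    _ = (lin A).singularValues 0 := by rw [h2, mul_one]

theorem inj (A : Matrix (Fin n) (Fin n) ℝ) (hA : A.det ≠ 0) : Function.Injective (lin A) := by
  rw [← LinearMap.ker_eq_bot, LinearMap.ker_eq_bot']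
  intro m hm
  have h1 : A.mulVec (WithLp.ofLp m) = 0 := by
    have h2 := lin_eq A (WithLp.ofLp m)
    rw [WithLp.toLp_ofLp, hm] at h2
    have h3 := congrArg WithLp.ofLp h2
    simpa using h3.symm
  have h2 := Matrix.eq_zero_of_mulVec_eq_zero hA h1
  have h3 := congrArg (WithLp.toLp 2) h2
  simpa using h3

end KAPPAaux

open KAPPAaux in
theorem pKAPPA : KAPPA := by
  intro n p A hn hp hA
  set T := lin A with hT
  have hpos : ∀ i < n, 0 < T.singularValues i := by
    have h1 := (T.injective_iff_forall_lt_finrank_singularValues_pos).1 (inj A hA)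
    intro i hi
    exact h1 i (by rw [finrank_euclideanSpace_fin]; exact hi)
  set σ := T.singularValues (n - 1) with hσ
  have hσ0 : 0 < σ := hpos _ (by omega)
  have hn0 : (0 : ℝ) < n := by exact_mod_cast (by omega : 0 < n)
  have hratio : ∀ i : Fin n, 1 ≤ T.singularValues i / σ := by
    intro i
    rw [one_le_div hσ0]
    exact T.singularValues_antitone (by omega)
  have hterm : ∀ i : Fin n, 1 ≤ (T.singularValues i / σ) ^ p := fun i =>
    Real.one_le_rpow (hratio i) hp.le
  have hsum1 : (n : ℝ) ≤ ∑ i : Fin n, (T.singularValues i / σ) ^ p := by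
    calc (n : ℝ) = ∑ _i : Fin n, (1 : ℝ) := by simp
      _ ≤ _ := Finset.sum_le_sum fun i _ => hterm i
  have havg : 1 ≤ 1 / (n : ℝ) * ∑ i : Fin n, (T.singularValues i / σ) ^ p := by
    rw [one_div_mul_eq_div, one_le_div hn0]
    exact hsum1
  have hk : kappa p A = (1 / (n : ℝ) * ∑ i : Fin n, (T.singularValues i / σ) ^ p) ^ (1 / p) := rfl
  refine ⟨σ, hσ0, low hn A, ?_, ?_⟩
  · rw [hk]
    exact Real.one_le_rpow havg (by positivity)
  · have h1 : ∑ i, ∑ j, |A i j| ≤ (n : ℝ) ^ 2 * T.singularValues 0 := by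
      calc ∑ i, ∑ j, |A i j| ≤ ∑ _i : Fin n, ∑ _j : Fin n, T.singularValues 0 :=
            Finset.sum_le_sum fun i _ => Finset.sum_le_sum fun j _ => entry A i j
        _ = (n : ℝ) ^ 2 * T.singularValues 0 := by
            simp only [Finset.sum_const, Finset.card_univ, Fintype.card_fin, nsmul_eq_mul]
            ring
    have h2 : T.singularValues 0 / σ ≤ (n : ℝ) ^ (1 / p) * kappa p A := by
      have h0 : (0 : ℝ) ≤ T.singularValues 0 / σ :=
        div_nonneg (T.singularValues_nonneg _) hσ0.le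
      have h3 : (T.singularValues 0 / σ) ^ p ≤ ∑ i : Fin n, (T.singularValues i / σ) ^ p := by
        have := Finset.single_le_sum (f := fun i : Fin n => (T.singularValues i / σ) ^ p)
          (fun i _ => (zero_le_one.trans (hterm i))) (Finset.mem_univ (⟨0, by omega⟩ : Fin n))
        simpa using this
      have h4 : (n : ℝ) ^ (1 / p) * kappa p A =
          (∑ i : Fin n, (T.singularValues i / σ) ^ p) ^ (1 / p) := by
        rw [hk, ← Real.mul_rpow hn0.le (by linarith)]
        congr 1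
        field_simp
      rw [h4]
      calc T.singularValues 0 / σ = ((T.singularValues 0 / σ) ^ p) ^ (1 / p) := by
            rw [one_div, Real.rpow_rpow_inv h0 hp.ne']
        _ ≤ _ := Real.rpow_le_rpow (Real.rpow_nonneg h0 _) h3 (by positivity)
    calc (∑ i, ∑ j, |A i j|) / σ ≤ ((n : ℝ) ^ 2 * T.singularValues 0) / σ :=
          div_le_div_of_nonneg_right h1 hσ0.le
      _ = (n : ℝ) ^ 2 * (T.singularValues 0 / σ) := by ring
      _ ≤ (n : ℝ) ^ 2 * ((n : ℝ) ^ (1 / p) * kappa p A) :=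
          mul_le_mul_of_nonneg_left h2 (by positivity)
      _ = _ := by ring

end Pool.Agent.W217.RS
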