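import Pool.Agent.W217.RS.Stm2

set_option autoImplicit false

/-!
# The computations of a level
-/

open scoped BigOperators

noncomputable section

namespace Pool.Agent.W217.RS

namespace LEVELaux

theorem mulN_congr {n : ℕ} {f f' g g' : ℕ → ℕ → ℝ} (hf : ∀ i < n, ∀ j < n, f i j = f' i j)
    (hg : ∀ i < n, ∀ j < n, g i j = g' i j) : ∀ i < n, ∀ j < n, mulN n f g i j = mulN n f' g' i j := by
  intro i hi j hj
  unfold mulN
  refine Finset.sum_congr rfl fun k hk => ?_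
  have hk := Finset.mem_range.1 hk
  rw [hf i hi k hk, hg k hk j hj]

theorem nwt_congr {n : ℕ} {β H : ℝ} {a a' x x' : ℕ → ℕ → ℝ} (ha : ∀ i < n, ∀ j < n, a i j = a' i j)
    (hx : ∀ i < n, ∀ j < n, x i j = x' i j) :
    ∀ i < n, ∀ j < n, nwt n β H a x i j = nwt n β H a' x' i j := by
  intro i hi j hj
  unfold nwt
  rw [mulN_congr hx (g' := (fun k l => (if k = l then 2 * β ^ 2 else 0) - mulN n a' x' k l)) ?_ i hi j hj]
  intro k hk l hl
  show (if k = l then 2 * β ^ 2 else 0) - mulN n a x k l = (if k = l then 2 * β ^ 2 else 0) - mulN n a' x' k l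
  rw [mulN_congr ha hx k hk l hl]

theorem xseq_congr {n : ℕ} {β H : ℝ} {a a' : ℕ → ℕ → ℝ} (ha : ∀ i < n, ∀ j < n, a i j = a' i j) :
    ∀ k, ∀ i < n, ∀ j < n, xseq n β H a k i j = xseq n β H a' k i j := by
  intro k
  induction k with
  | zero => intro i hi j hj; exact ha j hj i hi
  | succ k ih => exact nwt_congr ha ih

theorem fres_congr {n : ℕ} {β : ℝ} {a a' x x' : ℕ → ℕ → ℝ} (ha : ∀ i < n, ∀ j < n, a i j = a' i j)
    (hx : ∀ i < n, ∀ j < n, x i j = x' i j) : fres n β a x = fres n β a' x' := by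
  unfold fres
  congr 1
  refine Finset.sum_congr rfl fun i hi => Finset.sum_congr rfl fun j hj => ?_
  rw [mulN_congr ha hx i (Finset.mem_range.1 hi) j (Finset.mem_range.1 hj)]

theorem xsum_congr {n : ℕ} {β : ℝ} {x x' : ℕ → ℕ → ℝ}
    (hx : ∀ i < n, ∀ j < n, x i j = x' i j) : xsum n β x = xsum n β x' := by
  unfold xsum
  congr 1
  refine Finset.sum_congr rfl fun i hi => Finset.sum_congr rfl fun j hj => ?_
  rw [hx i (Finset.mem_range.1 hi) j (Finset.mem_range.1 hj)]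

theorem acc_congr {n : ℕ} {β ε : ℝ} {a a' x x' : ℕ → ℕ → ℝ} (ha : ∀ i < n, ∀ j < n, a i j = a' i j)
    (hx : ∀ i < n, ∀ j < n, x i j = x' i j) : Acc n β a x ε ↔ Acc n β a' x' ε := by
  unfold Acc etot
  rw [fres_congr ha hx, xsum_congr hx]

theorem rnd_int {H : ℝ} (hH : ∃ h : ℕ, H = h) (y : ℝ) :
    (∃ z : ℤ, rnd H y = z) ∧ |rnd H y| ≤ H := by
  obtain ⟨h, rfl⟩ := hH
  have h0 : (0 : ℝ) ≤ h := Nat.cast_nonneg h
  constructor
  · exact ⟨(⌊max 0 (min (y + h) (2 * h))⌋₊ : ℤ) - (h : ℤ), by unfold rnd; push_cast; ring⟩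
  · have h1 : (0 : ℝ) ≤ (⌊max 0 (min (y + h) (2 * (h : ℝ)))⌋₊ : ℝ) := Nat.cast_nonneg _
    have h2 : (⌊max 0 (min (y + h) (2 * (h : ℝ)))⌋₊ : ℝ) ≤ 2 * h :=
      (Nat.floor_le (le_max_left _ _)).trans (max_le (by linarith) (min_le_right _ _))
    unfold rnd
    rw [abs_le]
    constructor <;> linarith

theorem xseq_int {n : ℕ} {β H : ℝ} (hH : ∃ h : ℕ, H = h) {a : ℕ → ℕ → ℝ} {w : ℕ} (hw : 1 ≤ w) :
    IntM n H (xseq n β H a w) := by
  obtain ⟨k, rfl⟩ := Nat.exists_eq_succ_of_ne_zero (by omega : w ≠ 0)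
  intro i _ j _
  exact rnd_int hH _

theorem intM_congr {n : ℕ} {H : ℝ} {x x' : ℕ → ℕ → ℝ} (hx : ∀ i < n, ∀ j < n, x i j = x' i j)
    (h : IntM n H x') : IntM n H x := by
  intro i hi j hj
  rw [hx i hi j hj]
  exact h i hi j hj

end LEVELaux

open LEVELaux

theorem pLEVEL : PAR → START → ITER → CHECK → SIZ → ATIL → LEVEL := by
  intro hPAR hSTART hITER hCHECK hSIZ hATIL s n L ε h0 h1 h2 hn hL hnL h16 h15 hε hA
  set w : ℕ := 128 * L with hw
  set β : ℝ := 2 ^ (8 * L) with hβ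
  set H : ℝ := 2 ^ (20 * L) with hH
  have hS : Siz n w β H := hSIZ n L hL hnL
  obtain ⟨hIA, -⟩ := hATIL n L (s.r 5) hL hA
  have hwpos : 1 ≤ w := hS.2.2.2.2.1
  have hHnat : ∃ h : ℕ, H = h := hS.2.1
  have hH0 : 0 ≤ H := by positivity
  have hHw : 2 * H < 2 ^ w := hS.2.2.2.2.2.1
  -- cost
  have hcost : 100 + (250 * (n + 1) ^ 2 * (w + 1) + (1600 * (n + 1) ^ 2 * (w + 1) ^ 2 +
      (600 * (n + 1) ^ 2 * (w + 1) + (4 + 4)))) ≤ 10 ^ 8 * (n + 1) ^ 2 * L ^ 2 := by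
    have e1 : w + 1 ≤ 129 * L := by omega
    have e2 : (w + 1) ^ 2 ≤ (129 * L) ^ 2 := Nat.pow_le_pow_left e1 2
    have e3 : 1 ≤ (w + 1) := by omega
    have e4 : (w + 1) ≤ (w + 1) ^ 2 := by nlinarith
    have e5 : 1 ≤ (n + 1) ^ 2 := Nat.one_le_pow _ _ (by omega)
    have e6 : (n + 1) ^ 2 * (w + 1) ≤ (n + 1) ^ 2 * (129 * L) ^ 2 :=
      Nat.mul_le_mul_left _ (e4.trans e2)
    have e7 : (n + 1) ^ 2 * (w + 1) ^ 2 ≤ (n + 1) ^ 2 * (129 * L) ^ 2 :=
      Nat.mul_le_mul_left _ e2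
    have e8 : 1 ≤ (n + 1) ^ 2 * (w + 1) ^ 2 := Nat.mul_pos e5 (by positivity)
    have e9 : (n + 1) ^ 2 * (129 * L) ^ 2 = 16641 * ((n + 1) ^ 2 * L ^ 2) := by ring
    have e10 : 10 ^ 8 * (n + 1) ^ 2 * L ^ 2 = 100000000 * ((n + 1) ^ 2 * L ^ 2) := by ring
    have e11 : 250 * (n + 1) ^ 2 * (w + 1) = 250 * ((n + 1) ^ 2 * (w + 1)) := by ring
    have e12 : 600 * (n + 1) ^ 2 * (w + 1) = 600 * ((n + 1) ^ 2 * (w + 1)) := by ring
    have e13 : 1600 * (n + 1) ^ 2 * (w + 1) ^ 2 = 1600 * ((n + 1) ^ 2 * (w + 1) ^ 2) := by ring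
    rw [e10, e11, e12, e13]
    rw [e9] at e6 e7
    omega
  refine Ok.seq 100 (250 * (n + 1) ^ 2 * (w + 1) + (1600 * (n + 1) ^ 2 * (w + 1) ^ 2 +
      (600 * (n + 1) ^ 2 * (w + 1) + (4 + 4)))) ?_ hcost
  refine (hPAR s L h1 h2 h16).mono le_rfl ?_
  rintro t1 ⟨c1, c13, r1, r18, r120, r19⟩
  have hStd1 : Std n w t1 := ⟨by rw [c1 0 (by norm_num)]; exact h0,
    by rw [c1 1 (by norm_num)]; exact h1, c13, r19⟩
  have r15 : t1.r 5 = s.r 5 := r1 5 (by norm_num) (by norm_num) (by norm_num)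
  refine Ok.seq _ _ ?_ le_rfl
  refine (hSTART t1 n w β H hStd1 r18 r120 hH0 hHw).mono le_rfl ?_
  rintro t2 ⟨f2, a2, x2⟩
  rw [r15] at a2
  have hStd2 : Std n w t2 := ⟨by rw [f2.1 0 (by norm_num)]; exact hStd1.1,
    by rw [f2.1 1 (by norm_num)]; exact hStd1.2.1, by rw [f2.1 3 (by norm_num)]; exact hStd1.2.2.1,
    by rw [f2.2 9 (by norm_num) (by decide)]; exact hStd1.2.2.2⟩
  have r28 : t2.r 8 0 0 = β := by rw [f2.2 8 (by norm_num) (by decide)]; exact r18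
  have r220 : t2.r 20 0 0 = H := by rw [f2.2 20 (by norm_num) (by decide)]; exact r120
  have hI2 : IntM n β (t2.r 6) := intM_congr a2 hIA
  refine Ok.seq _ _ ?_ le_rfl
  refine (hITER t2 n w β H hStd2 r28 r220 hS hI2 x2).mono le_rfl ?_
  rintro t3 ⟨f3, x3⟩
  have r36 : t3.r 6 = t2.r 6 := f3.2 6 (by norm_num) (by decide)
  have hStd3 : Std n w t3 := ⟨by rw [f3.1 0 (by norm_num)]; exact hStd2.1,
    by rw [f3.1 1 (by norm_num)]; exact hStd2.2.1, by rw [f3.1 3 (by norm_num)]; exact hStd2.2.2.1,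
    by rw [f3.2 9 (by norm_num) (by decide)]; exact hStd2.2.2.2⟩
  have r38 : t3.r 8 0 0 = β := by rw [f3.2 8 (by norm_num) (by decide)]; exact r28
  have r32 : t3.r 2 0 0 = ε := by
    rw [f3.2 2 (by norm_num) (by decide), f2.2 2 (by norm_num) (by decide),
      r1 2 (by norm_num) (by norm_num) (by norm_num)]
    exact hε
  have r315 : t3.r 15 0 0 = n := by
    rw [f3.2 15 (by norm_num) (by decide), f2.2 15 (by norm_num) (by decide),
      r1 15 (by norm_num) (by norm_num) (by norm_num)]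
    exact h15
  have hI3 : IntM n β (t3.r 6) := by rw [r36]; exact hI2
  have hX3 : IntM n H (t3.r 7) := intM_congr x3 (xseq_int hHnat hwpos)
  have ha : ∀ i < n, ∀ j < n, t3.r 6 i j = atil β H (s.r 5) i j := by
    rw [r36]; exact a2
  have hx : ∀ i < n, ∀ j < n, t3.r 7 i j = xlev n L (s.r 5) i j := by
    intro i hi j hj
    rw [x3 i hi j hj]
    exact xseq_congr a2 w i hi j hj
  refine Ok.seq _ _ ?_ le_rfl
  refine (hCHECK t3 n w β H ε hStd3 r38 hS r32 r315 hI3 hX3).mono le_rfl ?_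
  rintro t4 ⟨f4, x4⟩
  have hcc : ∀ i < 70, i ≠ 3 → t4.c i = s.c i := by
    intro i hi hi3
    rw [f4.1 i (by omega), f3.1 i (by omega), f2.1 i (by omega), c1 i hi3]
  have hrr : ∀ a < 70, a ∉ chg → t4.r a = s.r a := by
    intro a ha hc
    simp only [chg, Finset.mem_insert, Finset.mem_singleton, not_or] at hc
    rw [f4.2 a (by omega) (by simp; omega), f3.2 a (by omega) (by simp; omega),
      f2.2 a (by omega) (by simp; omega), r1 a (by omega) (by omega) (by omega)]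
  have r416 : t4.r 16 0 0 = 2 ^ L := by
    rw [f4.2 16 (by norm_num) (by decide), f3.2 16 (by norm_num) (by decide),
      f2.2 16 (by norm_num) (by decide), r1 16 (by norm_num) (by norm_num) (by norm_num)]
    exact h16
  have r48 : t4.r 8 0 0 = β := by rw [f4.2 8 (by norm_num) (by decide)]; exact r38
  have r47 : t4.r 7 = t3.r 7 := f4.2 7 (by norm_num) (by decide)
  have r314 : t3.r 14 0 0 = s.r 14 0 0 := by
    rw [f3.2 14 (by norm_num) (by decide), f2.2 14 (by norm_num) (by decide),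
      r1 14 (by norm_num) (by norm_num) (by norm_num)]
  have c41 : t4.c 1 = 0 := by rw [hcc 1 (by norm_num) (by norm_num)]; exact h1
  refine Ok.seq 4 4 (Ok.cnt ?_ (by simp [Nx.size])) le_rfl
  refine Ok.asg ?_ ?_ ?_
  · exact ⟨trivial, trivial⟩
  · refine ⟨?_, ?_, ?_, ?_, ?_, ?_, ?_⟩
    · intro i hi
      rw [St.set_c, St.setc_c, if_neg (by omega), hcc i (by omega) (by omega)]
    · rw [St.set_c, St.setc_c, if_pos rfl]
      simp only [Nx.val]
      rw [hcc 2 (by norm_num) (by norm_num), h2]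
    · intro a ha hc
      have h16' : a ≠ 16 := by
        rintro rfl
        exact hc (by decide)
      rw [St.set_r_ne (by simpa [sc] using h16'), St.setc_r]
      exact hrr a ha hc
    · rw [St.set_r, if_pos]
      · show (t4.setc 2 _).get ⟨16, 1, 1⟩ * ((2 : ℕ) : ℝ) = _
        simp only [St.get, St.setc_r, St.setc_c]
        rw [if_neg (by norm_num), c41, r416]
        push_cast
        ring
      · simp only [sc, St.setc_c]
        rw [if_neg (by norm_num), c41]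
        simp
    · rw [St.set_r_ne (by simp [sc]), St.setc_r]
      exact r48
    · intro i hi j hj
      rw [St.set_r_ne (by simp [sc]), St.setc_r, r47]
      exact hx i hi j hj
    · rw [St.set_r_ne (by simp [sc]), St.setc_r, x4, r314]
      have hiff : Acc n β (t3.r 6) (t3.r 7) ε ↔ AccL n L (s.r 5) ε := acc_congr ha hx
      by_cases h : AccL n L (s.r 5) ε
      · rw [if_pos h, if_pos (hiff.2 h)]
      · rw [if_neg h, if_neg fun h' => h (hiff.1 h')]
  · show (Ex.op .mul (R 16) (.num 2)).size + 1 ≤ 4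
    simp [Ex.size, R]

end Pool.Agent.W217.RS
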