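import Pool.Agent.W217.RS.Stm2

set_option autoImplicit false

/-!
# Matrices bounded below: condition numbers
-/

namespace Pool.Agent.W217.RS

theorem pLOWI : SMALL → LOWI := by
  intro hS n A K hdet hK hA hn v
  have hn' : (0 : ℝ) < n := by exact_mod_cast hn
  have h1 := hS n A⁻¹ K hK.le hA (A.mulVec v)
  rw [Matrix.mulVec_mulVec, Matrix.nonsing_inv_mul _ (isUnit_iff_ne_zero.2 hdet),
    Matrix.one_mulVec] at h1
  rw [div_mul_eq_mul_div, one_mul, div_le_iff₀ (mul_pos hn' hK), mul_comm (nrm (A.mulVec v))]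
  exact h1

end Pool.Agent.W217.RS
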