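import Pool.Agent.W217.RS.Stm2

set_option autoImplicit false

/-!
# Matrices bounded below: the inverse and the transposed matrix
-/

namespace Pool.Agent.W217.RS.LOWTaux

open Pool.Agent.W217.RS

theorem nrm_nonneg {n : ℕ} (v : Fin n → ℝ) : 0 ≤ nrm v := Real.sqrt_nonneg _

theorem nrm_sq {n : ℕ} (v : Fin n → ℝ) : nrm v * nrm v = ∑ i, v i ^ 2 :=
  Real.mul_self_sqrt (Finset.sum_nonneg fun i _ => sq_nonneg (v i))

theorem eq_zero {n : ℕ} (v : Fin n → ℝ) (h : nrm v = 0) : v = 0 := by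
  have h1 := nrm_sq v
  rw [h, mul_zero] at h1
  funext i
  have h2 := (Finset.sum_eq_zero_iff_of_nonneg (fun i _ => sq_nonneg (v i))).1 h1.symm i
    (Finset.mem_univ i)
  exact pow_eq_zero_iff (two_ne_zero) |>.1 h2

theorem unit {n : ℕ} (A : Matrix (Fin n) (Fin n) ℝ) (σ : ℝ) (hσ : 0 < σ) (h : Low A σ) :
    IsUnit A := by
  rw [← Matrix.mulVec_injective_iff_isUnit]
  intro x y hxy
  have h1 : A.mulVec (x - y) = 0 := by
    rw [Matrix.mulVec_sub]
    exact sub_eq_zero.2 hxy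
  have h2 := h (x - y)
  have h3 : nrm (A.mulVec (x - y)) = 0 := by
    rw [h1]
    unfold nrm
    simp
  rw [h3] at h2
  have h4 : nrm (x - y) = 0 := by
    have h5 := nrm_nonneg (x - y)
    nlinarith
  exact sub_eq_zero.1 (eq_zero _ h4)

end Pool.Agent.W217.RS.LOWTaux

namespace Pool.Agent.W217.RS

open LOWTaux

theorem pLOWT : LOWT := by
  intro n A σ hσ h
  have hu := unit A σ hσ h
  have hdet : IsUnit A.det := (Matrix.isUnit_iff_isUnit_det A).1 hu
  have hinv : Up A⁻¹ (1 / σ) := by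
    intro v
    have h1 := h (A⁻¹.mulVec v)
    rw [Matrix.mulVec_mulVec, Matrix.mul_nonsing_inv _ hdet, Matrix.one_mulVec] at h1
    rw [div_mul_eq_mul_div, one_mul, le_div_iff₀ hσ, mul_comm]
    exact h1
  refine ⟨hu, ?_, hinv⟩
  intro v
  have h1 : nrm v * nrm v ≤ nrm (A⁻¹.mulVec v) * nrm (A.transpose.mulVec v) := by
    have h2 : ∑ i, v i ^ 2 = ∑ i, (A⁻¹.mulVec v) i * (A.transpose.mulVec v) i := by
      have h3 : A.mulVec (A⁻¹.mulVec v) = v := by
        rw [Matrix.mulVec_mulVec, Matrix.mul_nonsing_inv _ hdet, Matrix.one_mulVec]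
      have h4 : (A⁻¹.mulVec v) ⬝ᵥ (A.transpose.mulVec v) = v ⬝ᵥ v := by
        rw [Matrix.mulVec_transpose, dotProduct_comm, ← Matrix.dotProduct_mulVec, h3]
      have h5 : v ⬝ᵥ v = ∑ i, v i ^ 2 := by
        unfold dotProduct
        exact Finset.sum_congr rfl (fun i _ => (sq (v i)).symm)
      rw [← h5, ← h4]
      rfl
    rw [nrm_sq, h2]
    exact Real.sum_mul_le_sqrt_mul_sqrt _ _ _
  have h2 := hinv v
  rcases eq_or_lt_of_le (nrm_nonneg v) with h0 | h0
  · rw [← h0, mul_zero]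
    exact nrm_nonneg _
  · have h3 : nrm v * nrm v ≤ (1 / σ * nrm v) * nrm (A.transpose.mulVec v) :=
      h1.trans (mul_le_mul_of_nonneg_right h2 (nrm_nonneg _))
    have h4 : nrm v * (σ * nrm v) ≤ nrm v * nrm (A.transpose.mulVec v) := by
      calc nrm v * (σ * nrm v) = σ * (nrm v * nrm v) := by ring
        _ ≤ σ * ((1 / σ * nrm v) * nrm (A.transpose.mulVec v)) :=
          mul_le_mul_of_nonneg_left h3 hσ.le
        _ = nrm v * nrm (A.transpose.mulVec v) := by
          field_simp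
    exact le_of_mul_le_mul_left h4 h0

end Pool.Agent.W217.RS
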