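import Pool.Agent.W217.RS.Stm2

set_option autoImplicit false

open scoped BigOperators

noncomputable section

namespace Pool.Agent.W217.RS

namespace MACHaux

theorem mulN_congr {n : ℕ} {f f' g g' : ℕ → ℕ → ℝ} (hf : ∀ i < n, ∀ j < n, f i j = f' i j)
    (hg : ∀ i < n, ∀ j < n, g i j = g' i j) {i j : ℕ} (hi : i < n) (hj : j < n) :
    mulN n f g i j = mulN n f' g' i j := by
  unfold mulN
  refine Finset.sum_congr rfl fun k hk => ?_
  have hk := Finset.mem_range.mp hk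
  rw [hf i hi k hk, hg k hk j hj]

theorem nwt_congr {n : ℕ} {β H : ℝ} {a a' x x' : ℕ → ℕ → ℝ}
    (ha : ∀ i < n, ∀ j < n, a i j = a' i j) (hx : ∀ i < n, ∀ j < n, x i j = x' i j)
    {i j : ℕ} (hi : i < n) (hj : j < n) :
    nwt n β H a x i j = nwt n β H a' x' i j := by
  unfold nwt
  rw [mulN_congr hx (fun k hk l hl => ?_) hi hj]
  rw [mulN_congr ha hx hk hl]

theorem xseq_congr {n : ℕ} {β H : ℝ} {a a' : ℕ → ℕ → ℝ}
    (ha : ∀ i < n, ∀ j < n, a i j = a' i j) (k : ℕ) :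
    ∀ i < n, ∀ j < n, xseq n β H a k i j = xseq n β H a' k i j := by
  induction k with
  | zero => intro i hi j hj; exact ha j hj i hi
  | succ k ih => intro i hi j hj; exact nwt_congr ha ih hi hj

theorem atil_congr {n : ℕ} {β H : ℝ} {A A' : ℕ → ℕ → ℝ}
    (hA : ∀ i < n, ∀ j < n, A i j = A' i j) :
    ∀ i < n, ∀ j < n, atil β H A i j = atil β H A' i j := by
  intro i hi j hj
  unfold atil
  rw [hA i hi j hj]

theorem fres_congr {n : ℕ} {β : ℝ} {a a' x x' : ℕ → ℕ → ℝ}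
    (ha : ∀ i < n, ∀ j < n, a i j = a' i j) (hx : ∀ i < n, ∀ j < n, x i j = x' i j) :
    fres n β a x = fres n β a' x' := by
  unfold fres
  congr 1
  refine Finset.sum_congr rfl fun i hi => Finset.sum_congr rfl fun j hj => ?_
  rw [mulN_congr ha hx (Finset.mem_range.mp hi) (Finset.mem_range.mp hj)]

theorem xsum_congr {n : ℕ} {β : ℝ} {x x' : ℕ → ℕ → ℝ}
    (hx : ∀ i < n, ∀ j < n, x i j = x' i j) : xsum n β x = xsum n β x' := by
  unfold xsum
  congr 1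
  refine Finset.sum_congr rfl fun i hi => Finset.sum_congr rfl fun j hj => ?_
  rw [hx i (Finset.mem_range.mp hi) j (Finset.mem_range.mp hj)]

theorem Acc_congr {n : ℕ} {β ε : ℝ} {a a' x x' : ℕ → ℕ → ℝ}
    (ha : ∀ i < n, ∀ j < n, a i j = a' i j) (hx : ∀ i < n, ∀ j < n, x i j = x' i j) :
    Acc n β a x ε ↔ Acc n β a' x' ε := by
  unfold Acc etot
  rw [fres_congr ha hx, xsum_congr hx]

theorem xlev_congr {n L : ℕ} {A A' : ℕ → ℕ → ℝ} (hA : ∀ i < n, ∀ j < n, A i j = A' i j) :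
    ∀ i < n, ∀ j < n, xlev n L A i j = xlev n L A' i j := by
  unfold xlev
  exact xseq_congr (atil_congr hA) _

theorem AccL_congr {n L : ℕ} {ε : ℝ} {A A' : ℕ → ℕ → ℝ}
    (hA : ∀ i < n, ∀ j < n, A i j = A' i j) : AccL n L A ε ↔ AccL n L A' ε := by
  unfold AccL
  exact Acc_congr (atil_congr hA) (xlev_congr hA)

/-- The invariant of the main loop. -/
def Inv (n : ℕ) (ε m : ℝ) (A : ℕ → ℕ → ℝ) (b : ℕ → ℕ → ℝ) (L : ℕ) (t : St) : Prop :=
  t.c 0 = n ∧ t.c 1 = 0 ∧ t.c 2 = L ∧ t.r 16 0 0 = 2 ^ L ∧ t.r 15 0 0 = n ∧ t.r 2 0 0 = ε ∧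
    (∀ i < n, ∀ j < n, t.r 5 i j = A i j) ∧ t.r 4 0 0 = m ∧ t.r 1 = b ∧ t.r 14 0 0 = 0

/-- The state after the main loop. -/
def Fin' (n : ℕ) (ε m : ℝ) (A : ℕ → ℕ → ℝ) (b : ℕ → ℕ → ℝ) (t : St) : Prop :=
  t.c 0 = n ∧ t.c 1 = 0 ∧ t.r 4 0 0 = m ∧ t.r 1 = b ∧ ∃ L : ℕ, 1 ≤ L ∧ AccL n L A ε ∧
    t.r 8 0 0 = 2 ^ (8 * L) ∧ ∀ i < n, ∀ j < n, t.r 7 i j = xlev n L A i j

theorem loop (hL : LEVEL) {n L₁ : ℕ} {ε m : ℝ} {A b : ℕ → ℕ → ℝ} (hn : 1 ≤ n)
    (hA : ∀ i < n, ∀ j < n, |A i j| ≤ 1 / 2) (hacc : ∀ L, L₁ ≤ L → AccL n L A ε) :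
    ∀ (d L : ℕ) (t : St), L + d = L₁ → 1 ≤ L → n ≤ 2 ^ L → Inv n ε m A b L t →
      Ok (.wle (R 14) (.num 0) pLevel) t
        ((d + 1) * (10 ^ 8 * (n + 1) ^ 2 * L₁ ^ 2 + 3) + 3) (Fin' n ε m A b) := by
  intro d
  induction d with
  | zero =>
    intro L t hd hL1 hnL ⟨h0, h1, h2, h16, h15, hr2, h5, h4, hb, h14⟩
    obtain ⟨u, k, hrun, hk, hu1, hu2, hu3, hu16, hu8, hu7, hu14⟩ :=
      hL t n L ε h0 h1 h2 hn hL1 hnL h16 h15 hr2 (by
        intro i hi j hj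
        rw [h5 i hi j hj]
        exact hA i hi j hj)
    have hac : AccL n L (t.r 5) ε := (AccL_congr h5).mpr (hacc L (by omega))
    rw [if_pos hac] at hu14
    refine ⟨u, _, .wleT trivial trivial ?_ hrun (.wleF trivial trivial ?_), ?_, ?_⟩
    · simp [R, Ex.val, St.get, h1, h14]
    · simp [R, Ex.val, St.get, hu1 1 (by norm_num), h1, hu14]
    · simp only [R, Ex.size]
      have : L = L₁ := by omega
      subst this
      omega
    · refine ⟨by rw [hu1 0 (by norm_num), h0], by rw [hu1 1 (by norm_num), h1], ?_, ?_, L, hL1,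
        hacc L (by omega), hu8, ?_⟩
      · rw [hu3 4 (by norm_num) (by decide), h4]
      · rw [hu3 1 (by norm_num) (by decide), hb]
      · intro i hi j hj
        rw [hu7 i hi j hj]
        exact xlev_congr h5 i hi j hj
  | succ d ih =>
    intro L t hd hL1 hnL ⟨h0, h1, h2, h16, h15, hr2, h5, h4, hb, h14⟩
    obtain ⟨u, k, hrun, hk, hu1, hu2, hu3, hu16, hu8, hu7, hu14⟩ :=
      hL t n L ε h0 h1 h2 hn hL1 hnL h16 h15 hr2 (by
        intro i hi j hj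
        rw [h5 i hi j hj]
        exact hA i hi j hj)
    have hk' : k ≤ 10 ^ 8 * (n + 1) ^ 2 * L₁ ^ 2 := by
      refine hk.trans (Nat.mul_le_mul_left _ (Nat.pow_le_pow_left ?_ 2))
      omega
    by_cases hac : AccL n L (t.r 5) ε
    · rw [if_pos hac] at hu14
      refine ⟨u, _, .wleT trivial trivial ?_ hrun (.wleF trivial trivial ?_), ?_, ?_⟩
      · simp [R, Ex.val, St.get, h1, h14]
      · simp [R, Ex.val, St.get, hu1 1 (by norm_num), h1, hu14]
      · simp only [R, Ex.size]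
        nlinarith
      · refine ⟨by rw [hu1 0 (by norm_num), h0], by rw [hu1 1 (by norm_num), h1], ?_, ?_, L, hL1,
          (AccL_congr h5).mp hac, hu8, ?_⟩
        · rw [hu3 4 (by norm_num) (by decide), h4]
        · rw [hu3 1 (by norm_num) (by decide), hb]
        · intro i hi j hj
          rw [hu7 i hi j hj]
          exact xlev_congr h5 i hi j hj
    · rw [if_neg hac, h14] at hu14
      obtain ⟨v, l, hrun2, hl, hv⟩ := ih (L + 1) u (by omega) (by omega)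
        (hnL.trans (Nat.pow_le_pow_right (by norm_num) (by omega)))
        ⟨by rw [hu1 0 (by norm_num), h0], by rw [hu1 1 (by norm_num), h1], hu2, hu16,
          by rw [hu3 15 (by norm_num) (by decide), h15],
          by rw [hu3 2 (by norm_num) (by decide), hr2],
          by rw [hu3 5 (by norm_num) (by decide)]; exact h5,
          by rw [hu3 4 (by norm_num) (by decide), h4],
          by rw [hu3 1 (by norm_num) (by decide), hb], hu14⟩
      refine ⟨v, _, .wleT trivial trivial ?_ hrun hrun2, ?_, hv⟩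
      · simp [R, Ex.val, St.get, h1, h14]
      · simp only [R, Ex.size]
        nlinarith

theorem scl_le {n : ℕ} {A : ℕ → ℕ → ℝ} (h : 0 < asum n A) :
    ∀ i < n, ∀ j < n, |scl n A i j| ≤ 1 / 2 := by
  intro i hi j hj
  unfold scl
  rw [abs_div, abs_of_pos (show 0 < 2 * asum n A by linarith), div_le_iff₀ (by linarith)]
  have h1 : |A i j| ≤ ∑ j ∈ Finset.range n, |A i j| :=
    Finset.single_le_sum (f := fun j => |A i j|) (fun _ _ => abs_nonneg _)
      (Finset.mem_range.mpr hj)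
  have h2 : ∑ j ∈ Finset.range n, |A i j| ≤ asum n A :=
    Finset.single_le_sum (f := fun i => ∑ j ∈ Finset.range n, |A i j|)
      (fun _ _ => Finset.sum_nonneg fun _ _ => abs_nonneg _) (Finset.mem_range.mpr hi)
  linarith

end MACHaux

open MACHaux in
theorem pMACH : INIT → LEVEL → OUT → MACH := by
  intro hI hL hO s n L₁ ε h0 h1 hn hpos hε hacc hL1 hnL1
  have hN : 1 ≤ (n + 1) ^ 2 := Nat.one_le_pow _ _ (by omega)
  refine Ok.seq (400 * (n + 1) ^ 2) (L₁ * (10 ^ 8 * (n + 1) ^ 2 * L₁ ^ 2 + 3) + 3 +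
    60 * (n + 1) ^ 2) ?_ ?_
  · refine (hI s n h0 h1 hn hpos).mono le_rfl ?_
    rintro t ⟨ht1, ht2, ht4, ht5, ht14, ht15, L, hc2, hLpos, ht16, hnL, hLn⟩
    have hLL : L ≤ L₁ := by
      have : (2 : ℕ) ^ L ≤ 2 ^ L₁ := hLn.trans hnL1
      exact (Nat.pow_le_pow_iff_right (by norm_num)).mp this
    refine Ok.seq (L₁ * (10 ^ 8 * (n + 1) ^ 2 * L₁ ^ 2 + 3) + 3) (60 * (n + 1) ^ 2) ?_ le_rfl
    have hl := loop (m := 2 * asum n (s.r 0)) (b := s.r 1) hL hn (scl_le hpos) hacc (L₁ - L) L t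
      (by omega) hLpos hnL.le
      ⟨by rw [ht1 0 (by norm_num), h0], by rw [ht1 1 (by norm_num), h1], hc2, ht16, ht15,
        by rw [ht2 2 (by norm_num) (by decide), hε], ht5, ht4,
        by rw [ht2 1 (by norm_num) (by decide)], ht14⟩
    refine hl.mono ?_ ?_
    · refine Nat.add_le_add_right (Nat.mul_le_mul_right _ ?_) _
      omega
    · rintro u ⟨hu0, hu1, hu4, hub, L', hL', hac, hu8, hu7⟩
      refine (hO u n hu0 hu1 (by rw [hu8]; positivity) (by rw [hu4]; positivity)).mono le_rfl ?_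
      intro v hv
      refine ⟨L', hL', hac, fun i hi => ?_⟩
      rw [hv i hi, hu8, hu4, hub]
      congr 1
      refine Finset.sum_congr rfl fun j hj => ?_
      rw [hu7 i hi j (Finset.mem_range.mp hj)]
  · have h3 : 1 ≤ L₁ ^ 3 := Nat.one_le_pow _ _ (by omega)
    have h4 : L₁ ≤ L₁ ^ 3 := by
      calc L₁ = L₁ ^ 1 := (pow_one _).symm
        _ ≤ L₁ ^ 3 := Nat.pow_le_pow_right (by omega) (by norm_num)
    have e1 : L₁ * (10 ^ 8 * (n + 1) ^ 2 * L₁ ^ 2 + 3) = 10 ^ 8 * ((n + 1) ^ 2 * L₁ ^ 3) + 3 * L₁ := by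
      ring
    have h5 : L₁ ^ 3 ≤ (n + 1) ^ 2 * L₁ ^ 3 := Nat.le_mul_of_pos_left _ (by omega)
    have h6 : (n + 1) ^ 2 ≤ (n + 1) ^ 2 * L₁ ^ 3 := Nat.le_mul_of_pos_right _ (by omega)
    have e2 : 10 ^ 9 * (n + 1) ^ 2 * L₁ ^ 3 = 10 ^ 9 * ((n + 1) ^ 2 * L₁ ^ 3) := by ring
    rw [e1, e2]
    generalize (n + 1) ^ 2 * L₁ ^ 3 = X at *
    omega

end Pool.Agent.W217.RS
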