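import Pool.Agent.W217.RS.Stm2

set_option autoImplicit false

/-!
# Elementwise evaluation
-/

noncomputable section

namespace Pool.Agent.W217.RS

namespace MAPRaux

/-- the invariant of the outer loop -/
def Inv (s : St) (d n : ℕ) (F : ℕ → ℕ → ℝ) (l : ℕ) (t : St) : Prop :=
  Fr 80 {d} s t ∧ (∀ a, a ≠ d → t.r a = s.r a) ∧ (∀ i < l, ∀ j < n, t.r d i j = F i j) ∧
    ∀ i j, l ≤ i → t.r d i j = s.r d i j

/-- the invariant of the inner loop -/
def InvI (s : St) (d n : ℕ) (F : ℕ → ℕ → ℝ) (l m : ℕ) (t : St) : Prop :=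
  t.c 80 = l ∧ Fr 80 {d} s t ∧ (∀ a, a ≠ d → t.r a = s.r a) ∧
    (∀ i < l, ∀ j < n, t.r d i j = F i j) ∧ (∀ j < m, t.r d l j = F l j) ∧
    ∀ i j, (l < i ∨ (i = l ∧ m ≤ j)) → t.r d i j = s.r d i j

theorem inv_zero (s : St) (d n : ℕ) (F : ℕ → ℕ → ℝ) : Inv s d n F 0 (s.setc 80 0) :=
  ⟨Fr.setc le_rfl, fun _ _ => rfl, fun i hi => absurd hi (Nat.not_lt_zero i), fun _ _ _ => rfl⟩

theorem inv_in {s t : St} {d n l : ℕ} {F : ℕ → ℕ → ℝ} (h : Inv s d n F l t) (hl : t.c 80 = l) :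
    InvI s d n F l 0 (t.setc 81 0) := by
  obtain ⟨h1, h2, h3, h4⟩ := h
  refine ⟨?_, h1.trans (Fr.setc (by norm_num)), h2, h3, fun j hj => absurd hj (Nat.not_lt_zero j),
    fun i j hij => ?_⟩
  · rw [St.setc_c, if_neg (by norm_num)]
    exact hl
  · exact h4 i j (by omega)

theorem inv_out {s t : St} {d n l : ℕ} {F : ℕ → ℕ → ℝ} (h : InvI s d n F l n t) :
    Inv s d n F (l + 1) (t.setc 80 (l + 1)) := by
  obtain ⟨_, h1, h2, h3, h4, h5⟩ := h
  refine ⟨h1.trans (Fr.setc le_rfl), h2, fun i hi j hj => ?_, fun i j hij => ?_⟩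
  · rw [St.setc_r]
    rcases Nat.lt_succ_iff_lt_or_eq.1 hi with h | h
    · exact h3 i h j hj
    · rw [h]
      exact h4 j hj
  · exact h5 i j (Or.inl (by omega))

theorem inv_succ {s t : St} {d n l m : ℕ} {F : ℕ → ℕ → ℝ} (h : InvI s d n F l m t)
    (hm : t.c 81 = m) {v : ℝ} (hv : v = F l m) :
    InvI s d n F l (m + 1) ((t.set ⟨d, 80, 81⟩ v).setc 81 (m + 1)) := by
  obtain ⟨h0, h1, h2, h3, h4, h5⟩ := h
  refine ⟨?_, (h1.trans (Fr.set (Or.inr (Finset.mem_singleton_self d)))).trans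
    (Fr.setc (by norm_num)), fun a ha => ?_, fun i hi j hj => ?_, fun j hj => ?_,
    fun i j hij => ?_⟩
  · rw [St.setc_c, if_neg (by norm_num)]
    exact h0
  · rw [St.setc_r, St.set_r_ne (show a ≠ (⟨d, 80, 81⟩ : Ad).arr from ha)]
    exact h2 a ha
  · rw [St.setc_r, St.set_r]
    simp only [h0, hm, true_and]
    rw [if_neg (by omega)]
    exact h3 i hi j hj
  · rw [St.setc_r, St.set_r]
    simp only [h0, hm, true_and]
    by_cases hjm : j = m
    · rw [if_pos hjm, hjm, hv]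
    · rw [if_neg hjm]
      exact h4 j (by omega)
  · rw [St.setc_r, St.set_r]
    simp only [h0, hm, true_and]
    rw [if_neg (by omega)]
    exact h5 i j (by omega)

end MAPRaux

open MAPRaux in
theorem pMAPR : MAPR := by
  intro s n d e F hn he
  refine Ok.forc n (n * (e.size + 6) + 3) (Inv s d n F) (by norm_num) hn (inv_zero s d n F) ?_ ?_ ?_
  · intro l hl t h1 h2 h3
    refine Ok.forc n (e.size + 1) (InvI s d n F l) (by norm_num) h2 (inv_in h3 h1) ?_ ?_ le_rfl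
    · intro m hm u g1 g2 g3
      obtain ⟨h4, h5⟩ := he l hl m hm u g3.2.1 g3.2.2.1 g3.1 g1
        (g3.2.2.2.2.2 l m (Or.inr ⟨rfl, le_rfl⟩))
      exact Ok.asg h4 ⟨g1, g2, inv_succ g3 g1 h5⟩ le_rfl
    · intro u g1 g2 g3
      exact ⟨g3.1, g2, inv_out g3⟩
  · rintro t - - ⟨h1, h2, h3, h4⟩
    exact ⟨h1, h2, h3⟩
  · have h : n * (n * (e.size + 6) + 3 + 5) + 3 + (n * n * 14 + n * (2 * e.size + 32) +
        e.size + 17) = (e.size + 20) * (n + 1) ^ 2 := by ring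
    omega

end Pool.Agent.W217.RS
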