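import Pool.Agent.W217.RS.Stm2

set_option autoImplicit false

open scoped BigOperators

noncomputable section

namespace Pool.Agent.W217.RS.NEWTaux

open Pool.Agent.W217.RS

theorem okseq {p q : Pr} {s : St} {k : ℕ} {P Q : St → Prop} (k₁ k₂ : ℕ)
    (h : Ok p s k₁ P) (h2 : ∀ t, P t → Ok q t k₂ Q) (hk : k₁ + k₂ ≤ k) : Ok (.seq p q) s k Q :=
  Ok.seq k₁ k₂ (h.mono le_rfl h2) hk

theorem std_fr {n w T : ℕ} {R : Finset ℕ} {s t : St} (h : Std n w s) (hf : Fr T R s t)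
    (hT : 9 < T) (hR : 9 ∉ R) : Std n w t := by
  obtain ⟨h0, h1, h3, h9⟩ := h
  refine ⟨(hf.1 0 (by omega)).trans h0, (hf.1 1 (by omega)).trans h1,
    (hf.1 3 (by omega)).trans h3, ?_⟩
  rw [hf.2 9 hT hR]
  exact h9

theorem mulN_congr {n : ℕ} {f f' g g' : ℕ → ℕ → ℝ} (hf : ∀ i < n, ∀ j < n, f i j = f' i j)
    (hg : ∀ i < n, ∀ j < n, g i j = g' i j) :
    ∀ i < n, ∀ j < n, mulN n f g i j = mulN n f' g' i j := by
  intro i hi j hj
  refine Finset.sum_congr rfl (fun k hk => ?_)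
  rw [Finset.mem_range] at hk
  rw [hf i hi k hk, hg k hk j hj]

theorem intM_congr {n : ℕ} {H : ℝ} {f g : ℕ → ℕ → ℝ} (h : IntM n H f)
    (hf : ∀ i < n, ∀ j < n, g i j = f i j) : IntM n H g := by
  intro i hi j hj
  rw [hf i hi j hj]
  exact h i hi j hj

theorem intM_mono {n : ℕ} {H G : ℝ} {f : ℕ → ℕ → ℝ} (h : IntM n H f) (hG : H ≤ G) :
    IntM n G f := fun i hi j hj => ⟨(h i hi j hj).1, (h i hi j hj).2.trans hG⟩

theorem mulN_int {n : ℕ} {β H : ℝ} {a x : ℕ → ℕ → ℝ} (ha : IntM n β a) (hx : IntM n H x)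
    (hβ : 0 ≤ β) : ∀ i < n, ∀ j < n, (∃ z : ℤ, mulN n a x i j = z) ∧
      |mulN n a x i j| ≤ n * β * H := by
  intro i hi j hj
  constructor
  · have h1 : ∀ k, k < n → ∃ z : ℤ, a i k * x k j = z := by
      intro k hk
      obtain ⟨z1, h1⟩ := (ha i hi k hk).1
      obtain ⟨z2, h2⟩ := (hx k hk j hj).1
      exact ⟨z1 * z2, by rw [h1, h2]; push_cast; ring⟩
    choose! z hz using h1
    refine ⟨∑ k ∈ Finset.range n, z k, ?_⟩
    push_cast
    exact Finset.sum_congr rfl (fun k hk => hz k (Finset.mem_range.1 hk))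
  · calc |mulN n a x i j| ≤ ∑ k ∈ Finset.range n, |a i k * x k j| :=
          Finset.abs_sum_le_sum_abs _ _
      _ ≤ ∑ k ∈ Finset.range n, β * H := by
          refine Finset.sum_le_sum (fun k hk => ?_)
          rw [Finset.mem_range] at hk
          rw [abs_mul]
          exact mul_le_mul (ha i hi k hk).2 (hx k hk j hj).2 (abs_nonneg _) hβ
      _ = n * β * H := by
          rw [Finset.sum_const, Finset.card_range, nsmul_eq_mul]; ring

theorem e_int {n : ℕ} {β H : ℝ} {a x : ℕ → ℕ → ℝ} (ha : IntM n β a) (hx : IntM n H x)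
    (hβ : 1 ≤ β) (hb : ∃ b : ℕ, β = b) (hH : 0 ≤ H) :
    IntM n (2 * β ^ 2 + n * β * H + H)
      (fun k l => (if k = l then 2 * β ^ 2 else 0) - mulN n a x k l) := by
  intro i hi j hj
  obtain ⟨⟨z, hz⟩, h2⟩ := mulN_int ha hx (by linarith) i hi j hj
  obtain ⟨b, hb⟩ := hb
  constructor
  · by_cases hij : i = j
    · refine ⟨2 * (b : ℤ) ^ 2 - z, ?_⟩
      simp only [hij, if_true]
      rw [hij] at hz
      rw [hz, hb]; push_cast; ring
    · refine ⟨- z, ?_⟩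
      simp only [hij, if_false]
      rw [hz]; push_cast; ring
  · have h3 : |(if i = j then 2 * β ^ 2 else 0 : ℝ)| ≤ 2 * β ^ 2 := by
      split_ifs
      · rw [abs_of_nonneg (by positivity)]
      · rw [abs_zero]; positivity
    calc _ ≤ |(if i = j then 2 * β ^ 2 else 0 : ℝ)| + |mulN n a x i j| := abs_sub _ _
      _ ≤ 2 * β ^ 2 + n * β * H := add_le_add h3 h2
      _ ≤ _ := by linarith

theorem cost0 {a c : ℕ} (n w : ℕ) (h : a ≤ c) :
    a * (n + 1) ^ 2 ≤ c * (n + 1) ^ 2 * (w + 1) :=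
  (Nat.mul_le_mul_right _ h).trans (Nat.le_mul_of_pos_right _ (Nat.succ_pos w))

theorem cost1 {a b c : ℕ} (n w : ℕ) (h : a + b ≤ c) :
    a * (n + 1) ^ 2 + b * (n + 1) ^ 2 * (w + 1) ≤ c * (n + 1) ^ 2 * (w + 1) := by
  have h1 : a * (n + 1) ^ 2 ≤ a * (n + 1) ^ 2 * (w + 1) := cost0 n w le_rfl
  have h2 : (a + b) * ((n + 1) ^ 2 * (w + 1)) ≤ c * ((n + 1) ^ 2 * (w + 1)) :=
    Nat.mul_le_mul_right _ h
  linarith

theorem cost2 {a b c : ℕ} (n w : ℕ) (h : a + b ≤ c) :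
    a * (n + 1) ^ 2 * (w + 1) + b * (n + 1) ^ 2 * (w + 1) ≤ c * (n + 1) ^ 2 * (w + 1) := by
  have h2 : (a + b) * ((n + 1) ^ 2 * (w + 1)) ≤ c * ((n + 1) ^ 2 * (w + 1)) :=
    Nat.mul_le_mul_right _ h
  linarith

theorem cost3 {a b c : ℕ} (n w : ℕ) (h : a + b ≤ c) :
    a * (n + 1) + b * (n + 1) ^ 2 * (w + 1) ≤ c * (n + 1) ^ 2 * (w + 1) := by
  have h1 : a * (n + 1) ≤ a * (n + 1) ^ 2 := Nat.mul_le_mul_left _ (by nlinarith)
  exact (Nat.add_le_add_right h1 _).trans (cost1 n w h)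

theorem val_R2 (a i j : ℕ) (u : St) : (R2 a i j).val u = u.r a (u.c i) (u.c j) := rfl

theorem val_R (a : ℕ) (u : St) : (R a).val u = u.r a (u.c 1) (u.c 1) := rfl

theorem val_div (a b : Ex) (u : St) : (a / b).val u = a.val u / b.val u := rfl

theorem val_mul (a b : Ex) (u : St) : (a * b).val u = a.val u * b.val u := rfl

theorem val_add (a b : Ex) (u : St) : (a + b).val u = a.val u + b.val u := rfl

theorem val_sub (a b : Ex) (u : St) : (a - b).val u = a.val u - b.val u := rfl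

theorem val_num (k : ℕ) (u : St) : (Ex.num k).val u = k := rfl

end Pool.Agent.W217.RS.NEWTaux

namespace Pool.Agent.W217.RS

open NEWTaux

theorem pNEWT : MAPR → DIAG → PROD → RNDM → NEWT := by
  intro hM hD hP hR s n w β H hstd h8 h20 hsiz h6 h7
  obtain ⟨hbN, hHN, hβ1, hβH, hw1, h2H, hG⟩ := hsiz
  have hβ0 : (0 : ℝ) ≤ β := by linarith
  have hH0 : (0 : ℝ) ≤ H := by linarith
  have hn0 : (0 : ℝ) ≤ n := Nat.cast_nonneg n
  obtain ⟨G, hGdef⟩ : ∃ G : ℝ, G = 2 * β ^ 2 + n * β * H + H := ⟨_, rfl⟩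
  have hHG : H ≤ G := by
    rw [hGdef]
    have : 0 ≤ 2 * β ^ 2 + n * β * H := by positivity
    linarith
  rw [← hGdef] at hG
  have hGH : 4 * n * H ^ 2 ≤ 2 ^ w := by
    refine le_trans ?_ hG
    gcongr
  -- step 1
  refine okseq (21 * (n + 1) ^ 2) (1479 * (n + 1) ^ 2 * (w + 1))
    (hM s n 10 (R2 6 80 81) (s.r 6) hstd.1 ?_) (fun t1 ht1 => ?_) (cost1 n w (by norm_num))
  · intro i _ j _ u _ hu2 hc1 hc2 _
    exact ⟨trivial, by rw [val_R2, hu2 6 (by norm_num), hc1, hc2]⟩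
  obtain ⟨f1, g1, v1⟩ := ht1
  have std1 := std_fr hstd f1 (by norm_num) (by decide)
  -- step 2
  refine okseq (21 * (n + 1) ^ 2) (1458 * (n + 1) ^ 2 * (w + 1))
    (hM t1 n 11 (R2 7 80 81) (s.r 7) std1.1 ?_) (fun t2 ht2 => ?_) (cost1 n w (by norm_num))
  · intro i _ j _ u _ hu2 hc1 hc2 _
    exact ⟨trivial, by rw [val_R2, hu2 7 (by norm_num), g1 7 (by norm_num), hc1, hc2]⟩
  obtain ⟨f2, g2, v2⟩ := ht2
  have std2 := std_fr std1 f2 (by norm_num) (by decide)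
  -- step 3
  refine okseq (300 * (n + 1) ^ 2 * (w + 1)) (1158 * (n + 1) ^ 2 * (w + 1))
    (hP t2 n w H std2 hw1 ?_ ?_ hGH) (fun t3 ht3 => ?_) (cost2 n w (by norm_num))
  · refine intM_congr (intM_mono h6 hβH) ?_
    intro i hi j hj
    rw [g2 10 (by norm_num), v1 i hi j hj]
  · exact intM_congr h7 v2
  obtain ⟨f3, v3⟩ := ht3
  have std3 := std_fr std2 f3 (by norm_num) (by decide)
  have v3' : ∀ i < n, ∀ j < n, t3.r 12 i j = mulN n (s.r 6) (s.r 7) i j := by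
    intro i hi j hj
    rw [v3 i hi j hj]
    refine mulN_congr ?_ v2 i hi j hj
    intro i hi j hj
    rw [g2 10 (by norm_num), v1 i hi j hj]
  -- step 4
  refine okseq (23 * (n + 1) ^ 2) (1135 * (n + 1) ^ 2 * (w + 1))
    (hM t3 n 11 (.num 0 - R2 12 80 81) (fun i j => - mulN n (s.r 6) (s.r 7) i j) std3.1 ?_)
    (fun t4 ht4 => ?_) (cost1 n w (by norm_num))
  · intro i hi j hj u _ hu2 hc1 hc2 _
    refine ⟨⟨trivial, trivial⟩, ?_⟩
    rw [val_sub, val_num, val_R2, hu2 12 (by norm_num), hc1, hc2, v3' i hi j hj]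
    simp
  obtain ⟨f4, g4, v4⟩ := ht4
  have std4 := std_fr std3 f4 (by norm_num) (by decide)
  have h8t4 : t4.r 8 0 0 = β := by
    rw [g4 8 (by norm_num), f3.2 8 (by norm_num) (by decide), g2 8 (by norm_num),
      g1 8 (by norm_num), h8]
  -- step 5
  refine okseq (27 * (n + 1)) (1108 * (n + 1) ^ 2 * (w + 1))
    (hD t4 n 11 (R2 11 80 80 + .num 2 * (R 8 * R 8))
      (fun i => - mulN n (s.r 6) (s.r 7) i i + 2 * (β * β)) std4.1 ?_)
    (fun t5 ht5 => ?_) (cost3 n w (by norm_num))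
  · intro i hi u hf hu2 hc1 hii
    refine ⟨⟨trivial, trivial, trivial, trivial⟩, ?_⟩
    rw [val_add, val_mul, val_mul, val_num, val_R2, val_R, hc1, hii, v4 i hi i hi,
      hf.1 1 (by norm_num), std4.2.1, hu2 8 (by norm_num), h8t4]
    norm_num
  obtain ⟨f5, g5, d5, o5⟩ := ht5
  have std5 := std_fr std4 f5 (by norm_num) (by decide)
  have v5 : ∀ i < n, ∀ j < n, t5.r 11 i j =
      (if i = j then 2 * β ^ 2 else 0) - mulN n (s.r 6) (s.r 7) i j := by
    intro i hi j hj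
    by_cases hij : i = j
    · subst hij
      rw [d5 i hi, if_pos rfl]; ring
    · rw [o5 i hi j hj hij, v4 i hi j hj, if_neg hij]; ring
  have h7t5 : t5.r 7 = s.r 7 := by
    rw [g5 7 (by norm_num), g4 7 (by norm_num), f3.2 7 (by norm_num) (by decide),
      g2 7 (by norm_num), g1 7 (by norm_num)]
  -- step 6
  refine okseq (21 * (n + 1) ^ 2) (1087 * (n + 1) ^ 2 * (w + 1))
    (hM t5 n 10 (R2 7 80 81) (s.r 7) std5.1 ?_) (fun t6 ht6 => ?_) (cost1 n w (by norm_num))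
  · intro i _ j _ u _ hu2 hc1 hc2 _
    exact ⟨trivial, by rw [val_R2, hu2 7 (by norm_num), h7t5, hc1, hc2]⟩
  obtain ⟨f6, g6, v6⟩ := ht6
  have std6 := std_fr std5 f6 (by norm_num) (by decide)
  have v6' : ∀ i < n, ∀ j < n, t6.r 11 i j =
      (fun k l => (if k = l then 2 * β ^ 2 else 0) - mulN n (s.r 6) (s.r 7) k l) i j := by
    intro i hi j hj
    rw [g6 11 (by norm_num), v5 i hi j hj]
  -- step 7
  refine okseq (300 * (n + 1) ^ 2 * (w + 1)) (787 * (n + 1) ^ 2 * (w + 1))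
    (hP t6 n w G std6 hw1 ?_ ?_ hG) (fun t7 ht7 => ?_) (cost2 n w (by norm_num))
  · exact intM_congr (intM_mono h7 hHG) v6
  · rw [hGdef]
    exact intM_congr (e_int h6 h7 hβ1 hbN hH0) v6'
  obtain ⟨f7, v7⟩ := ht7
  have std7 := std_fr std6 f7 (by norm_num) (by decide)
  have h8t7 : t7.r 8 0 0 = β := by
    rw [f7.2 8 (by norm_num) (by decide), g6 8 (by norm_num), g5 8 (by norm_num), h8t4]
  have v7' : ∀ i < n, ∀ j < n, t7.r 12 i j = mulN n (s.r 7)
      (fun k l => (if k = l then 2 * β ^ 2 else 0) - mulN n (s.r 6) (s.r 7) k l) i j := by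
    intro i hi j hj
    rw [v7 i hi j hj]
    exact mulN_congr v6 v6' i hi j hj
  -- step 8
  refine okseq (25 * (n + 1) ^ 2) (762 * (n + 1) ^ 2 * (w + 1))
    (hM t7 n 13 (R2 12 80 81 / (R 8 * R 8)) (fun i j => mulN n (s.r 7)
      (fun k l => (if k = l then 2 * β ^ 2 else 0) - mulN n (s.r 6) (s.r 7) k l) i j / β ^ 2)
      std7.1 ?_) (fun t8 ht8 => ?_) (cost1 n w (by norm_num))
  · intro i hi j hj u hf hu2 hc1 hc2 _
    have hv : (R 8 * R 8).val u = β * β := by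
      rw [val_mul, val_R, hf.1 1 (by norm_num), std7.2.1, hu2 8 (by norm_num), h8t7]
    refine ⟨⟨trivial, ⟨trivial, trivial⟩, ?_⟩, ?_⟩
    · rw [show (Ex.val u (R 8 * R 8)) = β * β from hv]
      have : 0 < β := by linarith
      positivity
    · rw [val_div, hv, val_R2, hu2 12 (by norm_num), hc1, hc2, v7' i hi j hj, pow_two]
  obtain ⟨f8, g8, v8⟩ := ht8
  have std8 := std_fr std7 f8 (by norm_num) (by decide)
  have h20t8 : t8.r 20 0 0 = H := by
    rw [g8 20 (by norm_num), f7.2 20 (by norm_num) (by decide), g6 20 (by norm_num),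
      g5 20 (by norm_num), g4 20 (by norm_num), f3.2 20 (by norm_num) (by decide),
      g2 20 (by norm_num), g1 20 (by norm_num), h20]
  -- step 9
  refine okseq (120 * (n + 1) ^ 2 * (w + 1)) (642 * (n + 1) ^ 2 * (w + 1))
    (hR t8 n w H std8 h20t8 hH0 h2H) (fun t9 ht9 => ?_) (cost2 n w (by norm_num))
  obtain ⟨f9, v9⟩ := ht9
  have std9 := std_fr std8 f9 (by norm_num) (by decide)
  have v9' : ∀ i < n, ∀ j < n, t9.r 19 i j = nwt n β H (s.r 6) (s.r 7) i j := by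
    intro i hi j hj
    rw [v9 i hi j hj, v8 i hi j hj]
    rfl
  -- step 10
  refine (hM t9 n 7 (R2 19 80 81) (nwt n β H (s.r 6) (s.r 7)) std9.1 ?_).mono ?_ ?_
  · intro i hi j hj u _ hu2 hc1 hc2 _
    exact ⟨trivial, by rw [val_R2, hu2 19 (by norm_num), hc1, hc2, v9' i hi j hj]⟩
  · have : (R2 19 80 81).size = 1 := rfl
    rw [this]
    exact cost0 n w (by norm_num)
  · rintro t ⟨f10, g10, v10⟩
    refine ⟨?_, v10⟩
    have m : ∀ {R : Finset ℕ} {u v : St}, R ⊆ {7, 10, 11, 12, 13, 19} → Fr 80 R u v →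
        Fr 80 {7, 10, 11, 12, 13, 19} u v := fun hR h => h.mono le_rfl (fun a _ ha => hR ha)
    exact (m (by decide) f1).trans <| (m (by decide) f2).trans <| (m (by decide) f3).trans <|
      (m (by decide) f4).trans <| (m (by decide) f5).trans <| (m (by decide) f6).trans <|
      (m (by decide) f7).trans <| (m (by decide) f8).trans <| (m (by decide) f9).trans
      (m (by decide) f10)

end Pool.Agent.W217.RS
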