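import Pool.Agent.W217.RS.Stm2

set_option autoImplicit false

noncomputable section

namespace Pool.Agent.W217.RS

theorem pNUMS : NUMS := by
  intro e η δ k₁ h0 h1 hη hδ h2 h3 h4 h5 h6
  have hpow : ∀ k : ℕ, (1 : ℝ) ≤ (3 / 2) ^ k := fun k => one_le_pow₀ (by norm_num)
  have hd : ∀ k : ℕ, δ ≤ (3 / 2) ^ k * δ := fun k => le_mul_of_one_le_left hδ.le (hpow k)
  have claim : ∀ k, e k ≤ 3 / 4 ∨ e k ≤ 1 - (3 / 2) ^ k * δ := by
    intro k
    induction k with
    | zero => right; simpa using h5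
    | succ k ih =>
      by_cases hk : e k ≤ 3 / 4
      · left
        have := h1 k (by linarith)
        nlinarith [h0 k]
      · rcases ih with ih | ih
        · exact absurd ih hk
        · right
          push Not at hk
          have hdk := hd k
          have hle : e k ≤ 1 := by linarith
          have h7 := h1 k hle
          have h8 : (3 / 2) ^ k * δ ≤ 1 / 4 := by linarith
          rw [pow_succ]
          have h9 : e k ^ 2 ≤ (1 - (3 / 2) ^ k * δ) ^ 2 := pow_le_pow_left₀ (h0 k) ih 2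
          nlinarith
  have hall : ∀ k, e k ≤ 1 := by
    intro k
    rcases claim k with h | h
    · linarith
    · linarith [hd k]
  refine ⟨hall, ?_⟩
  have c1 : ∀ k, k₁ ≤ k → e k ≤ 3 / 4 := by
    intro k hk
    rcases claim k with h | h
    · exact h
    · have h7 : ((3 : ℝ) / 2) ^ k₁ ≤ (3 / 2) ^ k := pow_le_pow_right₀ (by norm_num) hk
      have h8 : ((3 : ℝ) / 2) ^ k₁ * δ ≤ (3 / 2) ^ k * δ := mul_le_mul_of_nonneg_right h7 hδ.le
      linarith
  have c2 : ∀ k, k₁ + 1 ≤ k → e k ≤ 5 / 8 := by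
    intro k hk
    obtain ⟨l, rfl⟩ : ∃ l, k = l + 1 := ⟨k - 1, by omega⟩
    have h7 := c1 l (by omega)
    have h8 := h1 l (hall l)
    nlinarith [h0 l]
  have c3 : ∀ k, k₁ + 2 ≤ k → e k ≤ 1 / 2 := by
    intro k hk
    obtain ⟨l, rfl⟩ : ∃ l, k = l + 1 := ⟨k - 1, by omega⟩
    have h7 := c2 l (by omega)
    have h8 := h1 l (hall l)
    nlinarith [h0 l]
  have c4 : ∀ j, e (k₁ + 2 + j) ≤ 1 / 2 ^ (j + 1) + 2 * η := by
    intro j
    induction j with
    | zero =>
      have := c3 (k₁ + 2 + 0) (by omega)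
      norm_num
      simp only [Nat.add_zero] at this
      linarith
    | succ j ih =>
      have h7 := c3 (k₁ + 2 + j) (by omega)
      have h8 := h1 (k₁ + 2 + j) (hall _)
      have h9 : e (k₁ + 2 + (j + 1)) = e (k₁ + 2 + j + 1) := by congr 1
      rw [h9]
      have h10 : (1 : ℝ) / 2 ^ (j + 1 + 1) = 1 / 2 ^ (j + 1) / 2 := by
        rw [pow_succ _ (j + 1)]
        field_simp
      rw [h10]
      nlinarith [h0 (k₁ + 2 + j)]
  intro m k hk
  obtain ⟨j, rfl⟩ : ∃ j, k = k₁ + 2 + j := ⟨k - (k₁ + 2), by omega⟩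
  refine (c4 j).trans ?_
  have h7 : (1 : ℝ) / 2 ^ (j + 1) ≤ 1 / 2 ^ m :=
    one_div_le_one_div_of_le (by positivity) (pow_le_pow_right₀ (by norm_num) (by omega))
  linarith

end Pool.Agent.W217.RS
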