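import Pool.Agent.W217.RS.Stm2

set_option autoImplicit false

open scoped BigOperators

noncomputable section

namespace Pool.Agent.W217.RS

namespace OFFSaux

/-- the packed constant vector of length `l` -/
def S (W : ℝ) (l : ℕ) : ℝ := ∑ j ∈ Finset.range l, W / 2 * W ^ (l - 1 - j)

theorem S_zero (W : ℝ) : S W 0 = 0 := by simp [S]

theorem S_succ (W : ℝ) (l : ℕ) : S W (l + 1) = S W l * W + W / 2 := by
  unfold S
  rw [Finset.sum_range_succ, Finset.sum_mul]
  have h1 : l + 1 - 1 - l = 0 := by omega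
  rw [h1, pow_zero, mul_one]
  congr 1
  refine Finset.sum_congr rfl fun j hj => ?_
  rw [Finset.mem_range] at hj
  have h2 : l + 1 - 1 - j = l - 1 - j + 1 := by omega
  rw [h2, pow_succ]
  ring

/-- the invariant of the loop -/
def Inv (s : St) (W : ℝ) (l : ℕ) (t : St) : Prop :=
  Fr 80 ∅ s t ∧ t.r 82 = s.r 82 ∧ t.r 83 0 0 = S W l ∧ t.r 85 0 0 = W ^ l

theorem get_r (s : St) (a i j : ℕ) : s.get ⟨a, i, j⟩ = s.r a (s.c i) (s.c j) := rfl

end OFFSaux

open OFFSaux in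
theorem pOFFS : OFFS := by
  intro s n w hs
  obtain ⟨h0, h1, h3, h9⟩ := hs
  set W : ℝ := (2 : ℝ) ^ w with hW
  unfold pOff
  refine Ok.seq 2 (17 * n + 5) (Ok.asg trivial ?_ le_rfl) (by omega)
  refine Ok.seq 2 (17 * n + 3) (Ok.asg trivial ?_ le_rfl) (by omega)
  set s1 := s.set (sc 83) ((Ex.num 0).val s) with hs1
  set s2 := s1.set (sc 85) ((Ex.num 1).val s1) with hs2
  have c2 : s2.c = s.c := rfl
  have f2 : Fr 80 ∅ s s2 :=
    (Fr.set (x := sc 83) (Or.inl (by simp [sc]))).trans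
      (Fr.set (x := sc 85) (Or.inl (by simp [sc])))
  refine Ok.forc n 12 (Inv s W) (by norm_num) (by rw [c2]; exact h0) ?_ ?_ ?_ (by omega)
  · refine ⟨f2.trans (Fr.setc le_rfl), ?_, ?_, ?_⟩
    · rw [St.setc_r, hs2, St.set_r_ne (by simp [sc]), hs1, St.set_r_ne (by simp [sc])]
    · rw [St.setc_r, hs2, St.set_r_ne (by simp [sc]), hs1, St.set_r,
        if_pos ⟨rfl, by simp [sc, h1], by simp [sc, h1]⟩, S_zero]
      simp [Ex.val]
    · rw [St.setc_r, hs2, St.set_r, if_pos ⟨rfl, by simp [sc, hs1, h1], by simp [sc, hs1, h1]⟩,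
        pow_zero]
      simp [Ex.val]
  · intro l hl t ht1 ht2 hI
    obtain ⟨hF, i82, i83, i85⟩ := hI
    have t1 : t.c 1 = 0 := by rw [hF.1 1 (by norm_num), h1]
    have t9 : t.r 9 0 0 = W := by rw [hF.2 9 (by norm_num) (by simp), h9]
    refine Ok.seq 8 4 (Ok.asg ?_ ?_ (by
      show (1 + 1 + 1) + (1 + 1 + 1) + 1 + 1 ≤ 8
      norm_num)) le_rfl
    · show (((True ∧ True) ∧ (True ∧ True ∧ (Ex.num 2).val t ≠ 0)) : Prop)
      simp [Ex.val]
    set v : ℝ := (R 83 * R 9 + R 9 / Ex.num 2).val t with hv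
    have hv1 : v = S W (l + 1) := by
      have h4 : v = t.r 83 (t.c 1) (t.c 1) * t.r 9 (t.c 1) (t.c 1) +
        t.r 9 (t.c 1) (t.c 1) / ((2 : ℕ) : ℝ) := rfl
      rw [h4, t1, i83, t9, S_succ]
      norm_num
    set u := t.set (sc 83) v with hu
    have uc : u.c = t.c := rfl
    have u9 : u.r 9 0 0 = W := by rw [hu, St.set_r_ne (by simp [sc]), t9]
    have u83 : u.r 83 0 0 = S W (l + 1) := by
      rw [hu, St.set_r, if_pos ⟨rfl, by simp [sc, t1], by simp [sc, t1]⟩, hv1]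
    have u85 : u.r 85 0 0 = W ^ l := by rw [hu, St.set_r_ne (by simp [sc]), i85]
    have u82 : u.r 82 = s.r 82 := by rw [hu, St.set_r_ne (by simp [sc]), i82]
    refine Ok.asg ?_ ?_ (by
      show (1 + 1 + 1) + 1 ≤ 4
      norm_num)
    · show ((True ∧ True) : Prop)
      exact ⟨trivial, trivial⟩
    set v' : ℝ := (R 85 * R 9).val u with hv'
    have hv1' : v' = W ^ (l + 1) := by
      have h4 : v' = u.r 85 (u.c 1) (u.c 1) * u.r 9 (u.c 1) (u.c 1) := rfl
      rw [h4, uc, t1, u85, u9, pow_succ]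
    refine ⟨ht1, ht2, ?_, ?_, ?_, ?_⟩
    · exact ((hF.trans (Fr.set (x := sc 83) (Or.inl (by simp [sc])))).trans
        (Fr.set (x := sc 85) (Or.inl (by simp [sc])))).trans (Fr.setc le_rfl)
    · rw [St.setc_r, St.set_r_ne (by simp [sc]), u82]
    · rw [St.setc_r, St.set_r_ne (by simp [sc]), u83]
    · rw [St.setc_r, St.set_r, if_pos ⟨rfl, by simp [sc, uc, t1], by simp [sc, uc, t1]⟩, hv1']
  · intro t _ _ hI
    exact ⟨hI.1, hI.2.1, hI.2.2.1, hI.2.2.2⟩

end Pool.Agent.W217.RS
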