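import Pool.Agent.W217.RS.Stm2

set_option autoImplicit false

noncomputable section

namespace Pool.Agent.W217.RS

namespace OUTaux

open Finset

theorem add_val (a b : Ex) (s : St) : (a + b).val s = a.val s + b.val s := rfl

theorem mul_val (a b : Ex) (s : St) : (a * b).val s = a.val s * b.val s := rfl

theorem div_val (a b : Ex) (s : St) : (a / b).val s = a.val s / b.val s := rfl

theorem R_val (a : ℕ) (s : St) : (R a).val s = s.r a (s.c 1) (s.c 1) := rfl

theorem R2_val (a i j : ℕ) (s : St) : (R2 a i j).val s = s.r a (s.c i) (s.c j) := rfl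

/-- The outer invariant. -/
def Inv (s : St) (n l : ℕ) (t : St) : Prop :=
  t.c 1 = 0 ∧ (∀ a, a ≠ 3 → t.r a = s.r a) ∧
    ∀ i < l, t.r 3 i 0 =
      (∑ j ∈ range n, s.r 7 i j * s.r 1 j 0) / (s.r 8 0 0 * s.r 4 0 0)

/-- The inner invariant. -/
def Inv2 (s t : St) (l m : ℕ) (u : St) : Prop :=
  u.c 80 = l ∧ u.c 1 = 0 ∧ (∀ a, a ≠ 3 → u.r a = s.r a) ∧ (∀ i, i ≠ l → u.r 3 i = t.r 3 i) ∧
    u.r 3 l 0 = ∑ j ∈ range m, s.r 7 l j * s.r 1 j 0

end OUTaux

open OUTaux Finset in
theorem pOUT : OUT := by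
  intro s n c0 c1 h8 h4
  refine Ok.forc n (11 * n + 11) (Inv s n) (by norm_num) c0 ?_ ?_ ?_
    (by nlinarith [Nat.zero_le (n * n)])
  · refine ⟨?_, ?_, ?_⟩
    · rw [St.setc_c, if_neg (by norm_num), c1]
    · intro a _
      rw [St.setc_r]
    · intro i hi
      omega
  · intro l hl t t80 t0 ⟨t1, i2, i3⟩
    refine Ok.seq 2 ((11 * n + 3) + 6) ?_ (by omega)
    refine Ok.asg trivial ?_ (by simp [Ex.size])
    set t' : St := t.set ⟨3, 80, 1⟩ ((Ex.num 0).val t) with ht'
    refine Ok.seq (11 * n + 3) 6 ?_ (by omega)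
    refine Ok.forc n 6 (Inv2 s t l) (by norm_num) (by rw [ht', St.set_c, t0]) ?_ ?_ ?_ (by omega)
    · refine ⟨?_, ?_, ?_, ?_, ?_⟩
      · rw [St.setc_c, if_neg (by norm_num), ht', St.set_c, t80]
      · rw [St.setc_c, if_neg (by norm_num), ht', St.set_c, t1]
      · intro a ha
        rw [St.setc_r, ht', St.set_r_ne ha, i2 a ha]
      · intro i hi
        funext j
        rw [St.setc_r, ht', St.set_r, if_neg (by simp only [t80]; tauto)]
      · rw [St.setc_r, ht', St.set_r, if_pos ⟨rfl, t80.symm, t1.symm⟩]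
        simp [Ex.val]
    · intro m hm u u81 u0 ⟨u80, u1, j3, j4, j5⟩
      refine Ok.asg ⟨trivial, trivial, trivial⟩ ?_
        (by show 1 + (1 + 1 + 1) + 1 + 1 ≤ 6; norm_num)
      have hv : (R2 3 80 1 + R2 7 80 81 * R2 1 81 1).val u =
          ∑ j ∈ range (m + 1), s.r 7 l j * s.r 1 j 0 := by
        rw [add_val, mul_val, R2_val, R2_val, R2_val, u80, u81, u1, j5, j3 7 (by norm_num),
          j3 1 (by norm_num), sum_range_succ]
      rw [hv]
      refine ⟨?_, ?_, ?_, ?_, ?_, ?_, ?_⟩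
      · rw [St.set_c, u81]
      · rw [St.set_c, u0]
      · rw [St.setc_c, if_neg (by norm_num), St.set_c, u80]
      · rw [St.setc_c, if_neg (by norm_num), St.set_c, u1]
      · intro a ha
        rw [St.setc_r, St.set_r_ne ha, j3 a ha]
      · intro i hi
        funext j
        rw [St.setc_r, St.set_r, if_neg (by simp only [u80]; tauto), j4 i hi]
      · rw [St.setc_r, St.set_r, if_pos ⟨rfl, u80.symm, u1.symm⟩]
    · intro u u81 u0 ⟨u80, u1, j3, j4, j5⟩
      refine Ok.asg ⟨trivial, ⟨trivial, trivial⟩, ?_⟩ ?_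
        (by show 1 + (1 + 1 + 1) + 1 + 1 ≤ 6; norm_num)
      · rw [mul_val, R_val, R_val, u1, j3 8 (by norm_num), j3 4 (by norm_num)]
        exact mul_ne_zero h8 h4
      have hv : (R2 3 80 1 / (R 8 * R 4)).val u =
          (∑ j ∈ range n, s.r 7 l j * s.r 1 j 0) / (s.r 8 0 0 * s.r 4 0 0) := by
        rw [div_val, mul_val, R2_val, R_val, R_val, u80, u1, j5, j3 8 (by norm_num),
          j3 4 (by norm_num)]
      rw [hv]
      refine ⟨?_, ?_, ?_, ?_, ?_⟩
      · rw [St.set_c, u80]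
      · rw [St.set_c, u0]
      · rw [St.setc_c, if_neg (by norm_num), St.set_c, u1]
      · intro a ha
        rw [St.setc_r, St.set_r_ne ha, j3 a ha]
      · intro i hi
        rw [St.setc_r, St.set_r]
        by_cases hil : i = l
        · rw [if_pos ⟨rfl, by rw [hil]; exact u80.symm, u1.symm⟩, hil]
        · rw [if_neg (by simp only [u80]; tauto), j4 i hil, i3 i (by omega)]
  · intro t _ _ ⟨_, _, i3⟩
    exact i3

end Pool.Agent.W217.RS
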