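import Pool.Agent.W217.RS.Stm2

/-! # RS-PAR -/

set_option autoImplicit false

noncomputable section

namespace Pool.Agent.W217.RS

namespace PARaux

theorem step (a b c : ℕ) (s : St) (q : Pr) (k : ℕ) (Q : St → Prop) (x y : ℝ) (h1 : s.c 1 = 0)
    (hb : s.r b 0 0 = x) (hc : s.r c 0 0 = y)
    (h : ∀ t : St, t.c = s.c → (∀ d, d ≠ a → t.r d = s.r d) → t.r a 0 0 = x * y → Ok q t k Q) :
    Ok (.seq (.asg (sc a) (R b * R c)) q) s (k + 4) Q := by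
  refine Ok.seq 4 k (Ok.asg ⟨trivial, trivial⟩ (h _ rfl (fun d hd => St.set_r_ne hd) ?_) le_rfl)
    (by omega)
  rw [St.set_r, if_pos ⟨rfl, by show 0 = s.c 1; rw [h1], by show 0 = s.c 1; rw [h1]⟩]
  show s.r b (s.c 1) (s.c 1) * s.r c (s.c 1) (s.c 1) = x * y
  rw [h1, hb, hc]

theorem cp (a b : ℕ) (s : St) (q : Pr) (k : ℕ) (Q : St → Prop) (x : ℝ) (h1 : s.c 1 = 0)
    (hb : s.r b 0 0 = x)
    (h : ∀ t : St, t.c = s.c → (∀ d, d ≠ a → t.r d = s.r d) → t.r a 0 0 = x → Ok q t k Q) :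
    Ok (.seq (.asg (sc a) (R b)) q) s (k + 2) Q := by
  refine Ok.seq 2 k (Ok.asg trivial (h _ rfl (fun d hd => St.set_r_ne hd) ?_) le_rfl)
    (by omega)
  rw [St.set_r, if_pos ⟨rfl, by show 0 = s.c 1; rw [h1], by show 0 = s.c 1; rw [h1]⟩]
  show s.r b (s.c 1) (s.c 1) = x
  rw [h1, hb]

theorem cn1 (i j : ℕ) (s : St) (k : ℕ) (hk : 4 ≤ k) (Q : St → Prop) (x : ℕ) (hj : s.c j = x)
    (h : ∀ t : St, (∀ l, l ≠ i → t.c l = s.c l) → t.r = s.r → t.c i = x + x → Q t) :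
    Ok (.cnt i (.add (.var j) (.var j))) s k Q := by
  refine Ok.cnt (h _ (fun l hl => ?_) rfl ?_) hk
  · rw [St.setc_c, if_neg hl]
  · rw [St.setc_c, if_pos rfl]
    show s.c j + s.c j = x + x
    rw [hj]

theorem cn (i j : ℕ) (s : St) (q : Pr) (k : ℕ) (Q : St → Prop) (x : ℕ) (hj : s.c j = x)
    (h : ∀ t : St, (∀ l, l ≠ i → t.c l = s.c l) → t.r = s.r → t.c i = x + x → Ok q t k Q) :
    Ok (.seq (.cnt i (.add (.var j) (.var j))) q) s (k + 4) Q :=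
  Ok.seq 4 k (cn1 i j s 4 le_rfl _ x hj h) (by omega)

end PARaux

open PARaux in
theorem pPAR : PAR := by
  intro s L h1 h2 h16
  refine Ok.mono (k := 62) ?_ (by norm_num) (fun t ht => ht)
  refine step 8 16 16 s _ 58 _ _ _ h1 h16 h16 fun s1 c1 r1 v1 => ?_
  refine step 8 8 8 s1 _ 54 _ _ _ (by rw [c1, h1]) v1 v1 fun s2 c2 r2 v2 => ?_
  refine cp 20 8 s2 _ 52 _ _ (by rw [c2, c1, h1]) v2 fun s3 c3 r3 v3 => ?_
  refine step 8 8 8 s3 _ 48 _ _ _ (by rw [c3, c2, c1, h1]) ((congrFun (congrFun (r3 8 (by norm_num)) 0) 0).trans v2) ((congrFun (congrFun (r3 8 (by norm_num)) 0) 0).trans v2) fun s4 c4 r4 v4 => ?_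
  refine step 9 8 8 s4 _ 44 _ _ _ (by rw [c4, c3, c2, c1, h1]) v4 v4 fun s5 c5 r5 v5 => ?_
  refine step 20 20 9 s5 _ 40 _ _ _ (by rw [c5, c4, c3, c2, c1, h1])
    ((congrFun (congrFun ((r5 20 (by norm_num)).trans (r4 20 (by norm_num))) 0) 0).trans v3) v5
    fun s6 c6 r6 v6 => ?_
  refine step 9 9 9 s6 _ 36 _ _ _ (by rw [c6, c5, c4, c3, c2, c1, h1])
    ((congrFun (congrFun (r6 9 (by norm_num)) 0) 0).trans v5)
    ((congrFun (congrFun (r6 9 (by norm_num)) 0) 0).trans v5) fun s7 c7 r7 v7 => ?_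
  refine step 9 9 9 s7 _ 32 _ _ _ (by rw [c7, c6, c5, c4, c3, c2, c1, h1]) v7 v7
    fun s8 c8 r8 v8 => ?_
  refine step 9 9 9 s8 _ 28 _ _ _ (by rw [c8, c7, c6, c5, c4, c3, c2, c1, h1]) v8 v8
    fun s9 c9 r9 v9 => ?_
  have hc9 : s9.c = s.c := by rw [c9, c8, c7, c6, c5, c4, c3, c2, c1]
  have hr9 : ∀ a, a ≠ 8 → a ≠ 9 → a ≠ 20 → s9.r a = s.r a := by
    intro a h8 h9 h20
    rw [r9 a h9, r8 a h9, r7 a h9, r6 a h20, r5 a h9, r4 a h8, r3 a h20, r2 a h8, r1 a h8]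
  have h8 : s9.r 8 0 0 = _ := (congrFun (congrFun ((r9 8 (by norm_num)).trans
    ((r8 8 (by norm_num)).trans ((r7 8 (by norm_num)).trans ((r6 8 (by norm_num)).trans
    (r5 8 (by norm_num)))))) 0) 0).trans v4
  have h20 : s9.r 20 0 0 = _ := (congrFun (congrFun ((r9 20 (by norm_num)).trans
    ((r8 20 (by norm_num)).trans (r7 20 (by norm_num)))) 0) 0).trans v6
  refine cn 3 2 s9 _ 24 _ L (by rw [hc9, h2]) fun t1 d1 e1 w1 => ?_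
  refine cn 3 3 t1 _ 20 _ _ w1 fun t2 d2 e2 w2 => ?_
  refine cn 3 3 t2 _ 16 _ _ w2 fun t3 d3 e3 w3 => ?_
  refine cn 3 3 t3 _ 12 _ _ w3 fun t4 d4 e4 w4 => ?_
  refine cn 3 3 t4 _ 8 _ _ w4 fun t5 d5 e5 w5 => ?_
  refine cn 3 3 t5 _ 4 _ _ w5 fun t6 d6 e6 w6 => ?_
  refine cn1 3 3 t6 4 le_rfl _ _ w6 fun t7 d7 e7 w7 => ?_
  have hr : t7.r = s9.r := by rw [e7, e6, e5, e4, e3, e2, e1]
  refine ⟨?_, ?_, ?_, ?_, ?_, ?_⟩
  · intro i hi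
    rw [d7 i hi, d6 i hi, d5 i hi, d4 i hi, d3 i hi, d2 i hi, d1 i hi, hc9]
  · rw [w7]; ring
  · intro a h8 h9 h20
    rw [hr]; exact hr9 a h8 h9 h20
  · rw [hr, h8, mul_comm 8 L, pow_mul]; ring
  · rw [hr, h20, mul_comm 20 L, pow_mul]; ring
  · rw [hr, v9, mul_comm 128 L, pow_mul]; ring

end Pool.Agent.W217.RS
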