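import Pool.Agent.W217.RS.Stm2

set_option autoImplicit false

/-!
# The product of two integer matrices
-/

open scoped BigOperators

noncomputable section

namespace Pool.Agent.W217.RS.PRODaux

open Pool.Agent.W217.RS

theorem mul_int {n : ℕ} {H : ℝ} {f g : ℕ → ℕ → ℝ} (hf : IntM n H f) (hg : IntM n H g)
    {i j : ℕ} (hi : i < n) (hj : j < n) :
    (∃ z : ℤ, mulN n f g i j = z) ∧ |mulN n f g i j| ≤ n * H ^ 2 := by
  have hH : 0 ≤ H := (abs_nonneg _).trans (hf i hi j hj).2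
  constructor
  · choose z hz using fun k : Fin n => (hf i hi k k.2).1
    choose y hy using fun k : Fin n => (hg k k.2 j hj).1
    refine ⟨∑ k : Fin n, z k * y k, ?_⟩
    unfold mulN
    rw [Finset.sum_range]
    push_cast
    exact Finset.sum_congr rfl fun k _ => by rw [hz, hy]
  · unfold mulN
    refine (Finset.abs_sum_le_sum_abs _ _).trans ?_
    have h1 : ∀ k ∈ Finset.range n, |f i k * g k j| ≤ H ^ 2 := by
      intro k hk
      have hk' := Finset.mem_range.1 hk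
      rw [abs_mul, pow_two]
      exact mul_le_mul (hf i hi k hk').2 (hg k hk' j hj).2 (abs_nonneg _) hH
    refine (Finset.sum_le_card_nsmul _ _ _ h1).trans ?_
    rw [Finset.card_range, nsmul_eq_mul]

/-- The digits. -/
theorem digit {w n : ℕ} {H R : ℝ} (hw : 1 ≤ w) (hR : ∃ z : ℤ, R = z) (hR2 : |R| ≤ n * H ^ 2)
    (hH : 4 * n * H ^ 2 ≤ 2 ^ w) : ∃ d : ℕ, d < 2 ^ w ∧ (d : ℝ) = R + 2 ^ w / 2 := by
  obtain ⟨z, hz⟩ := hR
  obtain ⟨v, rfl⟩ : ∃ v, w = v + 1 := ⟨w - 1, by omega⟩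
  have h1 : (2 : ℝ) ^ (v + 1) / 2 = 2 ^ v := by rw [pow_succ]; ring
  have h2 : (0 : ℝ) < 2 ^ v := by positivity
  have h3 : (2 : ℝ) ^ (v + 1) = 2 * 2 ^ v := by rw [pow_succ]; ring
  rw [h3] at hH
  have h4 := abs_le.1 hR2
  rw [h1]
  have h5 : (0 : ℤ) ≤ z + 2 ^ v := by
    have : (0 : ℝ) ≤ ((z + 2 ^ v : ℤ) : ℝ) := by
      push_cast
      rw [← hz]
      linarith
    exact_mod_cast this
  obtain ⟨d, hd⟩ := Int.eq_ofNat_of_zero_le h5
  have h6 : (d : ℝ) = R + 2 ^ v := by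
    have : ((z + 2 ^ v : ℤ) : ℝ) = ((d : ℤ) : ℝ) := by rw [hd]
    push_cast at this
    rw [hz]
    exact this.symm
  refine ⟨d, ?_, h6⟩
  have h7 : (d : ℝ) < 2 ^ (v + 1) := by
    rw [h6, h3]
    linarith
  exact_mod_cast h7

theorem std_of {n w T : ℕ} {R : Finset ℕ} {s t : St} (h : Std n w s) (hF : Fr T R s t) (hT : 10 ≤ T)
    (h9 : 9 ∉ R) : Std n w t := by
  obtain ⟨h0, h1, h3, h4⟩ := h
  refine ⟨?_, ?_, ?_, ?_⟩
  · rw [hF.1 0 (by omega), h0]
  · rw [hF.1 1 (by omega), h1]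
  · rw [hF.1 3 (by omega), h3]
  · rw [hF.2 9 (by omega) h9, h4]

theorem cost (n w : ℕ) (hw : 1 ≤ w) : 40 * (n + 1) ^ 2 +
    (40 * (n + 1) + (n * (20 * (n + 1) + 80 * (n + 1) * (w + 1) + 5) + 3)) ≤
      300 * (n + 1) ^ 2 * (w + 1) := by
  have e1 : n * (20 * (n + 1) + 80 * (n + 1) * (w + 1) + 5) ≤
      (n + 1) * (20 * (n + 1) + 80 * (n + 1) * (w + 1) + 5) := Nat.mul_le_mul_right _ (by omega)
  obtain ⟨m, hm⟩ : ∃ m, m = n + 1 := ⟨_, rfl⟩
  obtain ⟨W, hW⟩ : ∃ W, W = w + 1 := ⟨_, rfl⟩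
  rw [← hm, ← hW] at e1 ⊢
  have e2 : m * (20 * m + 80 * m * W + 5) = 20 * m ^ 2 + 80 * (m ^ 2 * W) + 5 * m := by ring
  have e3 : 300 * m ^ 2 * W = 300 * (m ^ 2 * W) := by ring
  have e4 : m ≤ m ^ 2 := Nat.le_self_pow (by norm_num) m
  have e5 : 1 ≤ m := by omega
  have e6 : m ^ 2 * 2 ≤ m ^ 2 * W := Nat.mul_le_mul_left _ (by omega)
  rw [e2] at e1
  rw [e3]
  generalize m ^ 2 * W = Z at *
  generalize m ^ 2 = Y at *
  omega

end Pool.Agent.W217.RS.PRODaux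

namespace Pool.Agent.W217.RS

open PRODaux

theorem pPROD : PACK → OFFS → ROW → DIG → PROD := by
  intro hPACK hOFFS hROW hDIG s n w H hs hw h10 h11 hH
  obtain ⟨R, hRd⟩ : ∃ R : ℕ → ℕ → ℝ, R = mulN n (s.r 10) (s.r 11) := ⟨_, rfl⟩
  have hdig : ∀ i j : ℕ, ∃ d : ℕ, i < n → j < n → d < 2 ^ w ∧ (d : ℝ) = R i j + 2 ^ w / 2 := by
    intro i j
    by_cases h : i < n ∧ j < n
    · obtain ⟨m1, m2⟩ := mul_int h10 h11 h.1 h.2
      obtain ⟨d, hd⟩ := digit hw m1 m2 hH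
      exact ⟨d, fun _ _ => by rw [hRd]; exact hd⟩
    · exact ⟨0, fun h1 h2 => absurd ⟨h1, h2⟩ h⟩
  choose d hd using hdig
  refine Ok.seq (40 * (n + 1) ^ 2) (40 * (n + 1) + (n * (20 * (n + 1) + 80 * (n + 1) * (w + 1) + 5) + 3))
    ((hPACK s n w hs).mono le_rfl ?_) ?_
  swap
  · exact cost n w hw
  rintro t1 ⟨hF1, h82⟩
  have hs1 : Std n w t1 := std_of hs hF1 (by norm_num) (by simp)
  refine Ok.seq (40 * (n + 1)) (n * (20 * (n + 1) + 80 * (n + 1) * (w + 1) + 5) + 3)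
    ((hOFFS t1 n w hs1).mono le_rfl ?_) le_rfl
  rintro t2 ⟨hF2, h82', h83, h85⟩
  have hs2 : Std n w t2 := std_of hs1 hF2 (by norm_num) (by simp)
  have hF : Fr 80 ∅ s t2 := hF1.trans hF2
  refine Ok.forc n (20 * (n + 1) + 80 * (n + 1) * (w + 1))
    (fun l t => (∀ i < 80, t.c i = s.c i) ∧ (∀ a < 80, a ≠ 12 → t.r a = s.r a) ∧
      t.r 82 = t2.r 82 ∧ t.r 83 = t2.r 83 ∧ t.r 85 = t2.r 85 ∧
      ∀ i < l, ∀ j < n, t.r 12 i j = R i j) (by norm_num) hs2.1 ?_ ?_ ?_ le_rfl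
  · refine ⟨?_, ?_, rfl, rfl, rfl, ?_⟩
    · intro i hi
      rw [St.setc_c, if_neg (by omega)]
      exact hF.1 i hi
    · intro a ha _
      exact hF.2 a ha (by simp)
    · intro i hi
      omega
  · intro l hl t ht80 ht0 hInv
    obtain ⟨i1, i2, i3, i4, i5, i6⟩ := hInv
    have hst : Std n w t := by
      obtain ⟨a1, a2, a3, a4⟩ := hs
      refine ⟨ht0, ?_, ?_, ?_⟩
      · rw [i1 1 (by norm_num), a2]
      · rw [i1 3 (by norm_num), a3]
      · rw [i2 9 (by norm_num) (by norm_num), a4]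
    refine Ok.seq (20 * (n + 1)) (80 * (n + 1) * (w + 1)) ((hROW t n w hst).mono le_rfl ?_) le_rfl
    rintro u ⟨u1, u2, u3⟩
    have hsu : Std n w u := by
      obtain ⟨a1, a2, a3, a4⟩ := hst
      refine ⟨?_, ?_, ?_, ?_⟩
      · rw [u1 0 (by norm_num), a1]
      · rw [u1 1 (by norm_num), a2]
      · rw [u1 3 (by norm_num), a3]
      · rw [u2 9 (by norm_num), a4]
    have h90 : u.r 90 0 0 = ∑ j ∈ Finset.range n, (d l j : ℝ) * ((2 : ℝ) ^ w) ^ (n - 1 - j) := by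
      rw [u3, ht80, i4, h83, i3, h82', i2 10 (by norm_num) (by norm_num)]
      have e1 : ∀ k ∈ Finset.range n, s.r 10 l k * t1.r 82 k 0 =
          ∑ j ∈ Finset.range n, s.r 10 l k * s.r 11 k j * ((2 : ℝ) ^ w) ^ (n - 1 - j) := by
        intro k hk
        rw [h82 k (Finset.mem_range.1 hk), Finset.mul_sum]
        exact Finset.sum_congr rfl fun j _ => by ring
      rw [Finset.sum_congr rfl e1, Finset.sum_comm, ← Finset.sum_add_distrib]
      refine Finset.sum_congr rfl fun j hj => ?_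
      rw [(hd l j hl (Finset.mem_range.1 hj)).2, hRd]
      unfold mulN
      rw [← Finset.sum_mul]
      ring
    refine (hDIG u n w l (d l) hsu hw (by rw [u1 80 (by norm_num), ht80])
      (fun j hj => (hd l j hl hj).1) (by rw [u2 85 (by norm_num), i5, h85]) h90).mono le_rfl ?_
    rintro v ⟨v1, v2, v3, v4⟩
    refine ⟨by rw [v1 80 (by norm_num), u1 80 (by norm_num), ht80],
      by rw [v1 0 (by norm_num), u1 0 (by norm_num), ht0], ?_, ?_, ?_, ?_, ?_, ?_⟩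
    · intro i hi
      rw [St.setc_c, if_neg (by omega), v1 i (by omega), u1 i (by omega), i1 i hi]
    · intro a ha ha'
      rw [St.setc_r, v2 a (by omega) ha', u2 a (by omega), i2 a ha ha']
    · rw [St.setc_r, v2 82 (by norm_num) (by norm_num), u2 82 (by norm_num), i3]
    · rw [St.setc_r, v2 83 (by norm_num) (by norm_num), u2 83 (by norm_num), i4]
    · rw [St.setc_r, v2 85 (by norm_num) (by norm_num), u2 85 (by norm_num), i5]
    · intro i hi j hj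
      rw [St.setc_r]
      rcases Nat.lt_succ_iff_lt_or_eq.1 hi with h | h
      · rw [v3 i (by omega), u2 12 (by norm_num)]
        exact i6 i h j hj
      · subst h
        rw [v4 j hj, (hd i j hl hj).2]
        ring
  · rintro t ht80 ht0 ⟨i1, i2, i3, i4, i5, i6⟩
    refine ⟨⟨i1, ?_⟩, ?_⟩
    · intro a ha ha'
      exact i2 a ha (by simpa using ha')
    · intro i hi j hj
      rw [i6 i hi j hj, hRd]

end Pool.Agent.W217.RS
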