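import Pool.Agent.W217.RS.Stm2

set_option autoImplicit false

/-!
# Rounding of a number
-/

noncomputable section

namespace Pool.Agent.W217.RS

namespace RNDaux

theorem val_add (s : St) (a b : Ex) : (a + b).val s = a.val s + b.val s := rfl

theorem val_sub (s : St) (a b : Ex) : (a - b).val s = a.val s - b.val s := rfl

theorem val_R {s : St} (h : s.c 1 = 0) (a : ℕ) : (R a).val s = s.r a 0 0 := by
  show s.r a (s.c 1) (s.c 1) = s.r a 0 0
  rw [h]

theorem set_same {s : St} (h : s.c 1 = 0) (a : ℕ) (v : ℝ) : (s.set (sc a) v).r a 0 0 = v := by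
  rw [St.set_r]
  simp [sc, h]

/-- the assertion between the steps -/
def J (s : St) (x : ℝ) (t : St) : Prop := Fr 90 ∅ s t ∧ t.r 90 0 0 = x

theorem J.one {s t : St} {x : ℝ} (h : J s x t) (h1 : s.c 1 = 0) : t.c 1 = 0 := by
  rw [h.1.1 1 (by norm_num), h1]

theorem J.twenty {s t : St} {x : ℝ} (h : J s x t) : t.r 20 0 0 = s.r 20 0 0 := by
  rw [h.1.2 20 (by norm_num) (Finset.notMem_empty _)]

theorem J.nine {s t : St} {x : ℝ} (h : J s x t) : t.r 9 0 0 = s.r 9 0 0 := by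
  rw [h.1.2 9 (by norm_num) (Finset.notMem_empty _)]

theorem J.set {s t : St} {x : ℝ} (h : J s x t) (h1 : s.c 1 = 0) (v : ℝ) :
    J s v (t.set (sc 90) v) :=
  ⟨h.1.trans (Fr.set (Or.inl le_rfl)), set_same (h.one h1) 90 v⟩

theorem J.std {s t : St} {x : ℝ} (h : J s x t) {n w : ℕ} (hs : Std n w s) : Std n w t := by
  obtain ⟨h1, h2, h3, h4⟩ := hs
  refine ⟨?_, h.one h2, ?_, ?_⟩
  · rw [h.1.1 0 (by norm_num), h1]
  · rw [h.1.1 3 (by norm_num), h3]
  · rw [h.nine, h4]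

end RNDaux

open RNDaux in
theorem pRND : FLOOR → RND := by
  intro hF s n w H hs hH H0 Hw
  have h1 : s.c 1 = 0 := hs.2.1
  set y : ℝ := s.r 94 0 0 with hy
  refine Ok.seq 4 (20 + 40 * (w + 1)) ?_ (by omega)
  refine Ok.asg ⟨trivial, trivial⟩ ?_ le_rfl
  rw [val_add, val_R h1, val_R h1, ← hy, hH]
  have J0 : J s (s.r 90 0 0) s := ⟨Fr.refl, rfl⟩
  have J1 := J0.set h1 (y + H)
  generalize s.set (sc 90) (y + H) = t1 at J1 ⊢
  refine Ok.seq 5 (15 + 40 * (w + 1)) ?_ (by omega)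
  have S2 : Ok (.ifle (.num 0) (R 90) .skip (.asg (sc 90) (.num 0))) t1 5
      (J s (max 0 (y + H))) := by
    refine Ok.ifle 2 trivial trivial (fun hc => ?_) (fun hc => ?_) le_rfl
    · rw [val_R (J1.one h1), J1.2] at hc
      have hc' : (0 : ℝ) ≤ y + H := by simpa [Ex.val] using hc
      refine Ok.skip ?_ (by norm_num)
      rw [max_eq_right hc']
      exact J1
    · rw [val_R (J1.one h1), J1.2] at hc
      have hc' : ¬ (0 : ℝ) ≤ y + H := by simpa [Ex.val] using hc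
      refine Ok.asg trivial ?_ le_rfl
      rw [max_eq_left (not_le.1 hc').le]
      have := J1.set h1 (((0 : ℕ) : ℝ))
      simpa [Ex.val] using this
  refine S2.mono le_rfl fun t2 J2 => ?_
  clear S2
  refine Ok.seq 9 (6 + 40 * (w + 1)) ?_ (by omega)
  have S3 : Ok (.ifle (R 90) (R 20 + R 20) .skip (.asg (sc 90) (R 20 + R 20))) t2 9
      (J s (min (max 0 (y + H)) (2 * H))) := by
    have e1 : (R 20 + R 20 : Ex).val t2 = 2 * H := by
      rw [val_add, val_R (J2.one h1), J2.twenty, hH]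
      ring
    refine Ok.ifle 4 trivial ⟨trivial, trivial⟩ (fun hc => ?_) (fun hc => ?_) le_rfl
    · rw [val_R (J2.one h1), J2.2, e1] at hc
      refine Ok.skip ?_ (by norm_num)
      rw [min_eq_left hc]
      exact J2
    · rw [val_R (J2.one h1), J2.2, e1] at hc
      refine Ok.asg ⟨trivial, trivial⟩ ?_ le_rfl
      rw [min_eq_right (not_le.1 hc).le, e1]
      exact J2.set h1 _
  refine S3.mono le_rfl fun t3 J3 => ?_
  clear S3
  have hx : min (max 0 (y + H)) (2 * H) = max 0 (min (y + H) (2 * H)) := by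
    rw [min_max_distrib_right, min_eq_left (show (0 : ℝ) ≤ 2 * H by linarith)]
  rw [hx] at J3
  set x : ℝ := max 0 (min (y + H) (2 * H)) with hxdef
  have hx0 : 0 ≤ x := le_max_left _ _
  have hx1 : x ≤ 2 * H := max_le (by linarith) (min_le_right _ _)
  refine Ok.seq 2 (4 + 40 * (w + 1)) ?_ (by omega)
  refine Ok.asg trivial ?_ le_rfl
  have J4 : J s x (t3.set (sc 91) ((Ex.num 1).val t3)) :=
    ⟨J3.1.trans (Fr.set (Or.inl (by norm_num [sc]))), by
      rw [St.set_r_ne (show (90 : ℕ) ≠ (sc 91).arr by norm_num [sc])]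
      exact J3.2⟩
  have e4 : (t3.set (sc 91) ((Ex.num 1).val t3)).r 91 0 0 = 1 := by
    rw [set_same (J3.one h1)]
    simp [Ex.val]
  generalize t3.set (sc 91) ((Ex.num 1).val t3) = t4 at J4 e4 ⊢
  refine Ok.seq (40 * (w + 1)) 4 ?_ (by omega)
  refine (hF t4 n w x 1 (J4.std hs) J4.2 e4 one_pos hx0 (by linarith)).mono le_rfl ?_
  rintro t5 ⟨F5, -, e5, -⟩
  have J5 : J s (t5.r 90 0 0) t5 := ⟨J4.1.trans F5, rfl⟩
  refine Ok.asg ⟨trivial, trivial⟩ ⟨J5.1.trans (Fr.set (Or.inl (by norm_num [sc]))), ?_⟩ le_rfl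
  rw [set_same (J5.one h1), val_sub, val_R (J5.one h1), val_R (J5.one h1), e5, J5.twenty, hH,
    div_one]
  rfl

end Pool.Agent.W217.RS
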