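import Pool.Agent.W217.RS.Stm2

set_option autoImplicit false

open scoped BigOperators

noncomputable section

namespace Pool.Agent.W217.RS.RNDMaux

open Pool.Agent.W217.RS

theorem okseq {p q : Pr} {s : St} {k : ℕ} {P Q : St → Prop} (k₁ k₂ : ℕ)
    (h : Ok p s k₁ P) (h2 : ∀ t, P t → Ok q t k₂ Q) (hk : k₁ + k₂ ≤ k) : Ok (.seq p q) s k Q :=
  Ok.seq k₁ k₂ (h.mono le_rfl h2) hk

theorem std_fr {n w T : ℕ} {R : Finset ℕ} {s t : St} (h : Std n w s) (hf : Fr T R s t)
    (hT : 9 < T) (hR : 9 ∉ R) : Std n w t := by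
  obtain ⟨h0, h1, h3, h9⟩ := h
  refine ⟨(hf.1 0 (by omega)).trans h0, (hf.1 1 (by omega)).trans h1,
    (hf.1 3 (by omega)).trans h3, ?_⟩
  rw [hf.2 9 hT hR]
  exact h9

end Pool.Agent.W217.RS.RNDMaux

namespace Pool.Agent.W217.RS

open RNDMaux

theorem pRNDM : RND → RNDM := by
  intro hR s n w H hstd h20 hH0 h2H
  obtain ⟨hc0, hc1, hc3, hr9⟩ := hstd
  -- invariant of the inner loop, in row i
  have key : ∀ s' : St, Std n w s' → s'.r 20 0 0 = H → ∀ i, i < n → s'.c 80 = i →
      Ok (forc 81 0 (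
        .seq (.asg (sc 94) (R2 13 80 81)) <| .seq pRnd <| .asg ⟨19, 80, 81⟩ (R 95))) s'
        (n * (80 * (w + 1) + 9) + 3)
        (fun t => Fr 80 {19} s' t ∧ t.c 80 = i ∧ (∀ l, l ≠ i → t.r 19 l = s'.r 19 l) ∧
          ∀ j < n, t.r 19 i j = rnd H (s'.r 13 i j)) := by
    intro s' hstd' h20' i hi h80
    refine Ok.forc n (80 * (w + 1) + 4)
      (fun l t => Fr 80 {19} s' t ∧ t.c 80 = i ∧ (∀ l, l ≠ i → t.r 19 l = s'.r 19 l) ∧
          ∀ j < l, t.r 19 i j = rnd H (s'.r 13 i j)) (by norm_num) hstd'.1 ?_ ?_ ?_ le_rfl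
    · refine ⟨Fr.setc (by norm_num), ?_, ?_, ?_⟩
      · rw [St.setc_c, if_neg (by norm_num)]; exact h80
      · intro l _; rfl
      · intro j hj; omega
    · intro l hl t ht81 _ hinv
      obtain ⟨hF, h80t, hrow, hval⟩ := hinv
      have stdt := std_fr hstd' hF (by norm_num) (by decide)
      have h20t : t.r 20 0 0 = H := by
        rw [hF.2 20 (by norm_num) (by decide)]; exact h20'
      have h13 : t.r 13 = s'.r 13 := hF.2 13 (by norm_num) (by decide)
      refine Ok.seq 2 (80 * (w + 1) + 2) ?_ (by omega)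
      refine Ok.asg trivial ?_ le_rfl
      -- the number in 94
      obtain ⟨t1, ht1⟩ : ∃ t1, t1 = t.set (sc 94) (Ex.val t (R2 13 80 81)) := ⟨_, rfl⟩
      rw [← ht1]
      have F1 : Fr 90 ∅ t t1 := by rw [ht1]; exact Fr.set (Or.inl (by norm_num [sc]))
      have v94 : t1.r 94 0 0 = s'.r 13 i l := by
        rw [ht1, St.set_r, if_pos]
        · show t.r 13 (t.c 80) (t.c 81) = _
          rw [h13, h80t, ht81]
        · refine ⟨rfl, ?_, ?_⟩
          · show 0 = t.c 1
            rw [stdt.2.1]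
          · show 0 = t.c 1
            rw [stdt.2.1]
      have std1 : Std n w t1 := std_fr stdt F1 (by norm_num) (by decide)
      have h20t1 : t1.r 20 0 0 = H := by
        rw [F1.2 20 (by norm_num) (by decide)]; exact h20t
      refine okseq (80 * (w + 1)) 2 (hR t1 n w H std1 h20t1 hH0 h2H) (fun t2 ht2 => ?_) le_rfl
      obtain ⟨F2, v95⟩ := ht2
      have F12 : Fr 90 ∅ t t2 := F1.trans F2
      have c80 : t2.c 80 = i := by rw [F12.1 80 (by norm_num)]; exact h80t
      have c81 : t2.c 81 = l := by rw [F12.1 81 (by norm_num)]; exact ht81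
      have c1 : t2.c 1 = 0 := by rw [F12.1 1 (by norm_num)]; exact stdt.2.1
      have c0 : t2.c 0 = n := by rw [F12.1 0 (by norm_num)]; exact stdt.1
      refine Ok.asg trivial ?_ le_rfl
      have hval2 : Ex.val t2 (R 95) = rnd H (s'.r 13 i l) := by
        show t2.r 95 (t2.c 1) (t2.c 1) = _
        rw [c1, v95, v94]
      rw [hval2]
      have h19 : t2.r 19 = t.r 19 := F12.2 19 (by norm_num) (by decide)
      refine ⟨c81, c0, ?_, ?_, ?_, ?_⟩
      · have a1 : Fr 80 {19} t t2 := F12.mono (by norm_num) (fun a _ ha => by simp at ha)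
        have a2 : Fr 80 {19} t2 (t2.set ⟨19, 80, 81⟩ (rnd H (s'.r 13 i l))) :=
          Fr.set (Or.inr (by simp))
        exact (hF.trans (a1.trans a2)).trans (Fr.setc (by norm_num))
      · rw [St.setc_c, if_neg (by norm_num)]; exact c80
      · intro m hm
        funext j
        rw [St.setc_r, St.set_r, if_neg, h19, hrow m hm]
        rintro ⟨-, h, -⟩
        apply hm
        rw [h]; exact c80
      · intro j hj
        rw [St.setc_r, St.set_r]
        by_cases hjl : j = l
        · rw [if_pos ⟨rfl, c80.symm, hjl.trans c81.symm⟩, hjl]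
        · rw [if_neg, h19, hval j (by omega)]
          rintro ⟨-, -, h⟩
          exact hjl (h.trans c81)
    · rintro t - - ⟨a, b, c, d⟩
      exact ⟨a, b, c, d⟩
  refine Ok.forc n (n * (80 * (w + 1) + 9) + 3)
    (fun l t => Fr 80 {19} s t ∧ ∀ i < l, ∀ j < n, t.r 19 i j = rnd H (s.r 13 i j))
    (by norm_num) hc0 ?_ ?_ ?_ ?_
  · exact ⟨Fr.setc (by norm_num), fun i hi => by omega⟩
  · intro l hl t h80 _ hinv
    obtain ⟨hF, hval⟩ := hinv
    have stdt := std_fr (⟨hc0, hc1, hc3, hr9⟩ : Std n w s) hF (by norm_num) (by decide)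
    have h20t : t.r 20 0 0 = H := by
      rw [hF.2 20 (by norm_num) (by decide)]; exact h20
    have h13 : t.r 13 = s.r 13 := hF.2 13 (by norm_num) (by decide)
    refine (key t stdt h20t l hl h80).mono le_rfl ?_
    rintro u ⟨hF2, h80u, hrow, hv⟩
    refine ⟨h80u, ?_, ?_, ?_⟩
    · rw [hF2.1 0 (by norm_num)]; exact stdt.1
    · exact (hF.trans hF2).trans (Fr.setc (by norm_num))
    · intro i hi j hj
      rw [St.setc_r]
      by_cases hil : i = l
      · rw [hil, hv j hj, h13]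
      · rw [hrow i hil, hval i (by omega) j hj]
  · rintro t - - ⟨a, b⟩
    exact ⟨a, b⟩
  · have h : 120 * (n + 1) ^ 2 * (w + 1) = n * (n * (80 * (w + 1) + 9) + 3 + 5) + 3 +
        (40 * n ^ 2 * w + 31 * n ^ 2 + 240 * n * w + 232 * n + 120 * w + 117) := by ring
    rw [h]
    exact Nat.le_add_right _ _

end Pool.Agent.W217.RS
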