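import Pool.Agent.W217.RS.Stm2

set_option autoImplicit false

/-!
# A packed row of the product
-/

noncomputable section

namespace Pool.Agent.W217.RS

namespace ROWaux

/-- the invariant of the loop -/
def Inv (s : St) (l : ℕ) (t : St) : Prop :=
  (∀ i < 81, t.c i = s.c i) ∧ (∀ a < 90, t.r a = s.r a) ∧
    t.r 90 0 0 = s.r 83 0 0 + ∑ k ∈ Finset.range l, s.r 10 (s.c 80) k * s.r 82 k 0

theorem val_body {t : St} (h1 : t.c 1 = 0) :
    (R 90 + R2 10 80 81 * R2 82 81 1 : Ex).val t =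
      t.r 90 0 0 + t.r 10 (t.c 80) (t.c 81) * t.r 82 (t.c 81) 0 := by
  show t.r 90 (t.c 1) (t.c 1) + t.r 10 (t.c 80) (t.c 81) * t.r 82 (t.c 81) (t.c 1) = _
  rw [h1]

theorem set_same {s : St} (h : s.c 1 = 0) (a : ℕ) (v : ℝ) : (s.set (sc a) v).r a 0 0 = v := by
  rw [St.set_r]
  simp [sc, h]

theorem inv_zero {s t : St} (h1 : s.c 1 = 0) (h2 : ∀ i < 81, t.c i = s.c i)
    (h3 : ∀ a < 90, t.r a = s.r a) (h4 : t.r 90 0 0 = s.r 83 0 0) : Inv s 0 (t.setc 81 0) := by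
  refine ⟨fun i hi => ?_, fun a ha => h3 a ha, ?_⟩
  · rw [St.setc_c, if_neg (by omega)]
    exact h2 i hi
  · rw [St.setc_r, h4]
    simp

theorem inv_succ {s t : St} {l : ℕ} (hs : s.c 1 = 0) (h : Inv s l t) (hl : t.c 81 = l) :
    Inv s (l + 1) ((t.set (sc 90) ((R 90 + R2 10 80 81 * R2 82 81 1 : Ex).val t)).setc 81
      (l + 1)) := by
  obtain ⟨h1, h2, h3⟩ := h
  have ht : t.c 1 = 0 := by rw [h1 1 (by norm_num), hs]
  refine ⟨fun i hi => ?_, fun a ha => ?_, ?_⟩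
  · rw [St.setc_c, if_neg (by omega), St.set_c]
    exact h1 i hi
  · rw [St.setc_r, St.set_r_ne (show a ≠ (sc 90).arr by simp only [sc]; omega)]
    exact h2 a ha
  · rw [St.setc_r, set_same ht, val_body ht, h3, hl, h1 80 (by norm_num), h2 10 (by norm_num),
      h2 82 (by norm_num), Finset.sum_range_succ, add_assoc]

end ROWaux

open ROWaux in
theorem pROW : ROW := by
  intro s n w hs
  have hs1 : s.c 1 = 0 := hs.2.1
  refine Ok.seq 2 (n * (6 + 5) + 3) ?_ (by omega)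
  refine Ok.asg trivial ?_ le_rfl
  refine Ok.forc n 6 (Inv s) (by norm_num) hs.1 ?_ ?_ ?_ le_rfl
  · refine inv_zero hs1 (fun i _ => rfl) (fun a ha => ?_) ?_
    · exact St.set_r_ne (by simp only [sc]; omega)
    · rw [set_same hs1]
      show s.r 83 (s.c 1) (s.c 1) = _
      rw [hs1]
  · intro l hl t h1 h2 h3
    exact Ok.asg ⟨trivial, trivial, trivial⟩ ⟨h1, h2, inv_succ hs1 h3 h1⟩ le_rfl
  · rintro t - - h
    exact h

end Pool.Agent.W217.RS
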