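import Pool.Agent.W217.RS.Stm2

set_option autoImplicit false

/-!
# The size conditions hold
-/

noncomputable section

namespace Pool.Agent.W217.RS

namespace SIZaux

theorem core (T x : ℝ) (hT : 2 ≤ T) (hx0 : 0 ≤ x) (hx : x ≤ T) :
    4 * x * (2 * (T ^ 8) ^ 2 + x * T ^ 8 * T ^ 20 + T ^ 20) ^ 2 ≤ T ^ 128 := by
  have hT1 : 1 ≤ T := by linarith
  have hT0 : 0 ≤ T := by linarith
  have e1 : 2 * (T ^ 8) ^ 2 ≤ T ^ 29 := by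
    calc 2 * (T ^ 8) ^ 2 ≤ T * (T ^ 8) ^ 2 := by gcongr
      _ = T ^ 17 := by ring
      _ ≤ T ^ 29 := pow_le_pow_right₀ hT1 (by norm_num)
  have e2 : x * T ^ 8 * T ^ 20 ≤ T ^ 29 := by
    calc x * T ^ 8 * T ^ 20 ≤ T * T ^ 8 * T ^ 20 := by gcongr
      _ = T ^ 29 := by ring
  have e3 : T ^ 20 ≤ T ^ 29 := pow_le_pow_right₀ hT1 (by norm_num)
  have e4 : 3 ≤ T ^ 2 := by nlinarith
  have e5 : 2 * (T ^ 8) ^ 2 + x * T ^ 8 * T ^ 20 + T ^ 20 ≤ T ^ 31 := by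
    have h29 : 0 ≤ T ^ 29 := by positivity
    calc _ ≤ 3 * T ^ 29 := by linarith
      _ ≤ T ^ 2 * T ^ 29 := by gcongr
      _ = T ^ 31 := by ring
  have e6 : 0 ≤ 2 * (T ^ 8) ^ 2 + x * T ^ 8 * T ^ 20 + T ^ 20 := by positivity
  calc 4 * x * (2 * (T ^ 8) ^ 2 + x * T ^ 8 * T ^ 20 + T ^ 20) ^ 2
      ≤ T ^ 2 * T * (T ^ 31) ^ 2 := by
        have : (4 : ℝ) ≤ T ^ 2 := by nlinarith
        gcongr
    _ = T ^ 65 := by ring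
    _ ≤ T ^ 128 := pow_le_pow_right₀ hT1 (by norm_num)

end SIZaux

theorem pSIZ : SIZ := by
  intro n L hL hn
  have hT : (2 : ℝ) ≤ 2 ^ L := by
    calc (2 : ℝ) = 2 ^ 1 := by norm_num
      _ ≤ 2 ^ L := pow_le_pow_right₀ (by norm_num) hL
  have hT1 : (1 : ℝ) ≤ 2 ^ L := by linarith
  have p8 : (2 : ℝ) ^ (8 * L) = (2 ^ L) ^ 8 := by rw [mul_comm, pow_mul]
  have p20 : (2 : ℝ) ^ (20 * L) = (2 ^ L) ^ 20 := by rw [mul_comm, pow_mul]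
  have p128 : (2 : ℝ) ^ (128 * L) = (2 ^ L) ^ 128 := by rw [mul_comm, pow_mul]
  have hn' : (n : ℝ) ≤ 2 ^ L := by exact_mod_cast hn
  refine ⟨⟨2 ^ (8 * L), by push_cast; rfl⟩, ⟨2 ^ (20 * L), by push_cast; rfl⟩,
    one_le_pow₀ (by norm_num), ?_, by omega, ?_, ?_⟩
  · exact pow_le_pow_right₀ (by norm_num) (by omega)
  · rw [p20, p128]
    calc 2 * ((2 : ℝ) ^ L) ^ 20 ≤ 2 ^ L * (2 ^ L) ^ 20 := by gcongr
      _ = ((2 : ℝ) ^ L) ^ 21 := by ring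
      _ < (2 ^ L) ^ 128 := pow_lt_pow_right₀ (by linarith) (by norm_num)
  · rw [p8, p20, p128]
    exact SIZaux.core (2 ^ L) n hT (Nat.cast_nonneg n) hn'

end Pool.Agent.W217.RS
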