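import Pool.Agent.W217.RS.Stm2

set_option autoImplicit false

namespace Pool.Agent.W217.RS

theorem pSMALL : SMALL := by
  intro n A c hc hA v
  unfold nrm
  have h1 : ∀ i, (A.mulVec v) i ^ 2 ≤ (n : ℝ) * c ^ 2 * ∑ j, v j ^ 2 := by
    intro i
    have h2 : (A.mulVec v) i = ∑ j, A i j * v j := rfl
    rw [h2]
    have h3 := Finset.sum_mul_sq_le_sq_mul_sq Finset.univ (fun j => A i j) v
    have h4 : ∑ j, A i j ^ 2 ≤ (n : ℝ) * c ^ 2 := by
      calc ∑ j, A i j ^ 2 ≤ ∑ _j : Fin n, c ^ 2 := by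
            refine Finset.sum_le_sum fun j _ => ?_
            rw [← sq_abs (A i j)]
            exact pow_le_pow_left₀ (abs_nonneg _) (hA i j) 2
        _ = (n : ℝ) * c ^ 2 := by simp
    exact h3.trans (mul_le_mul_of_nonneg_right h4 (Finset.sum_nonneg fun j _ => sq_nonneg _))
  have h5 : ∑ i, (A.mulVec v) i ^ 2 ≤ ((n : ℝ) * c) ^ 2 * ∑ j, v j ^ 2 := by
    calc ∑ i, (A.mulVec v) i ^ 2 ≤ ∑ _i : Fin n, (n : ℝ) * c ^ 2 * ∑ j, v j ^ 2 :=
          Finset.sum_le_sum fun i _ => h1 i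
      _ = ((n : ℝ) * c) ^ 2 * ∑ j, v j ^ 2 := by
        rw [Finset.sum_const, Finset.card_univ, Fintype.card_fin, nsmul_eq_mul]
        ring
  have h6 : 0 ≤ (n : ℝ) * c := by positivity
  refine (Real.sqrt_le_sqrt h5).trans (le_of_eq ?_)
  rw [Real.sqrt_mul (sq_nonneg _), Real.sqrt_sq h6]

end Pool.Agent.W217.RS
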