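import Pool.Agent.W217.RS.Stm2

set_option autoImplicit false

open scoped BigOperators

noncomputable section

namespace Pool.Agent.W217.RS

namespace SOLVEaux

theorem nrm_smul {n : ℕ} (c : ℝ) (v : Fin n → ℝ) : nrm (c • v) = |c| * nrm v := by
  unfold nrm
  have : ∑ i, (c • v) i ^ 2 = c ^ 2 * ∑ i, v i ^ 2 := by
    rw [Finset.mul_sum]
    refine Finset.sum_congr rfl fun i _ => ?_
    simp [mul_pow]
  rw [this, Real.sqrt_mul (sq_nonneg c), Real.sqrt_sq_eq_abs]

theorem nrm_one_pos {n : ℕ} (hn : 1 ≤ n) : 0 < nrm (fun _ : Fin n => (1 : ℝ)) := by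
  unfold nrm
  apply Real.sqrt_pos.2
  simp
  omega

theorem sig_le {n : ℕ} (A : Matrix (Fin n) (Fin n) ℝ) (σ S : ℝ) (hn : 1 ≤ n) (h1 : Low A σ)
    (h2 : Up A S) : σ ≤ S := by
  have h := (h1 (fun _ => 1)).trans (h2 (fun _ => 1))
  exact le_of_mul_le_mul_right h (nrm_one_pos hn)

theorem inp_r0 {n : ℕ} (A : Matrix (Fin n) (Fin n) ℝ) (b : Fin n → ℝ) (ε : ℝ) (i j : Fin n) :
    (inp A b ε).r 0 i j = A i j := by
  simp [inp]

theorem inp_r1 {n : ℕ} (A : Matrix (Fin n) (Fin n) ℝ) (b : Fin n → ℝ) (ε : ℝ) (i : Fin n) :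
    (inp A b ε).r 1 i 0 = b i := by
  simp [inp]

theorem asum_eq (n : ℕ) (f : ℕ → ℕ → ℝ) : asum n f = ∑ i : Fin n, ∑ j : Fin n, |f i j| := by
  unfold asum
  rw [Finset.sum_range]
  refine Finset.sum_congr rfl fun i _ => ?_
  rw [Finset.sum_range]

/-- choice of the level -/
theorem level (T : ℝ) (hT : 1 ≤ T) : ∃ L : ℕ, 1 ≤ L ∧ 200 * T ≤ 2 ^ L ∧
    (L : ℝ) ≤ 9 * (1 + Real.log T) := by
  have h0 : 0 < 200 * T := by linarith
  refine ⟨⌈Real.logb 2 (200 * T)⌉₊, ?_, ?_, ?_⟩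
  · rw [Nat.one_le_iff_ne_zero, Nat.ne_zero_iff_zero_lt, Nat.ceil_pos]
    apply Real.logb_pos (by norm_num)
    linarith
  · have h1 : Real.logb 2 (200 * T) ≤ (⌈Real.logb 2 (200 * T)⌉₊ : ℝ) := Nat.le_ceil _
    have h2 := (Real.logb_le_iff_le_rpow (by norm_num : (1 : ℝ) < 2) h0).1 h1
    rwa [Real.rpow_natCast] at h2
  · have h1 : (⌈Real.logb 2 (200 * T)⌉₊ : ℝ) < Real.logb 2 (200 * T) + 1 := by
      apply Nat.ceil_lt_add_one
      apply Real.logb_nonneg (by norm_num)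
      linarith
    have h2 : Real.logb 2 (200 * T) = Real.logb 2 200 + Real.logb 2 T := by
      rw [Real.logb_mul (by norm_num) (by linarith)]
    have h3 : Real.logb 2 200 ≤ 8 := by
      rw [Real.logb_le_iff_le_rpow (by norm_num) (by norm_num)]
      have : (2 : ℝ) ^ (8 : ℝ) = 2 ^ (8 : ℕ) := by
        rw [← Real.rpow_natCast]; norm_num
      rw [this]; norm_num
    have h4 : Real.logb 2 T ≤ 9 * Real.log T := by
      rw [Real.logb, div_le_iff₀ (Real.log_pos (by norm_num))]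
      have h5 := Real.log_two_gt_d9
      have h6 := Real.log_nonneg hT
      nlinarith
    linarith

end SOLVEaux

open SOLVEaux in
theorem pSOLVE : MACH → CONV → SOUND → ATIL → UPSUM → LOWT → SOLVE := by
  intro hM hC hS hA hU hL
  refine ⟨2916 * 10 ^ 9, ?_⟩
  intro n A b ε σ hn hε0 hε1 hσ hlow
  set S : ℝ := ∑ i, ∑ j, |A i j| with hSdef
  clear_value S
  have hσS : σ ≤ S := sig_le A σ S hn hlow (hSdef ▸ hU n A)
  have hS0 : 0 < S := lt_of_lt_of_le hσ hσS
  have has : asum n ((inp A b ε).r 0) = S := by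
    rw [asum_eq, hSdef]
    simp_rw [inp_r0]
  set B : ℕ → ℕ → ℝ := scl n ((inp A b ε).r 0) with hBdef
  have hB : ∀ i j : Fin n, B i j = A i j / (2 * S) := by
    intro i j
    simp only [hBdef, scl, has, inp_r0]
  have hBM : toM n B = (1 / (2 * S)) • A := by
    ext i j
    simp only [toM, hB, Matrix.smul_apply, smul_eq_mul]
    ring
  have hasB : asum n B = 1 / 2 := by
    rw [asum_eq]
    simp_rw [hB, abs_div, ← Finset.sum_div]
    rw [← hSdef, abs_of_pos (by linarith : 0 < 2 * S)]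
    field_simp
  have h2S : (0 : ℝ) < 1 / (2 * S) := by positivity
  have hlowB : Low (toM n B) (σ / (2 * S)) := by
    intro v
    rw [hBM, Matrix.smul_mulVec, nrm_smul, abs_of_pos h2S]
    have := mul_le_mul_of_nonneg_left (hlow v) h2S.le
    calc σ / (2 * S) * nrm v = 1 / (2 * S) * (σ * nrm v) := by ring
      _ ≤ _ := this
  have hσ' : 0 < σ / (2 * S) := by positivity
  have hσ'1 : σ / (2 * S) ≤ 1 := by
    rw [div_le_one (by positivity)]
    linarith
  have hn' : (1 : ℝ) ≤ n := by exact_mod_cast hn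
  set T : ℝ := n * (1 + S / σ) / ε with hTdef
  have hSσ : 0 < S / σ := by positivity
  have hT0 : (n : ℝ) * (1 + S / σ) ≤ T := by
    rw [hTdef, le_div_iff₀ hε0]
    have : 0 < (n : ℝ) * (1 + S / σ) := by positivity
    nlinarith
  have hTn : (n : ℝ) ≤ T := by nlinarith
  have hT1 : 1 ≤ T := by linarith
  obtain ⟨L₁, hL1, hL2, hL3⟩ := level T hT1
  have hacc : ∀ L, L₁ ≤ L → AccL n L B ε := by
    intro L hL
    have hL' : 1 ≤ L := hL1.trans hL
    apply hC n L B ε (σ / (2 * S)) hn hL' hσ' hσ'1 hε0 hε1 hasB.le hlowB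
    have h1 : (2 : ℝ) ^ L₁ ≤ 2 ^ L := pow_le_pow_right₀ (by norm_num) hL
    have h2 : 100 * (n : ℝ) / (σ / (2 * S) * ε) ≤ 200 * T := by
      have h3 : 100 * (n : ℝ) / (σ / (2 * S) * ε) = 200 * (n * (S / σ) / ε) := by
        field_simp
        ring
      rw [h3, hTdef]
      have : (n : ℝ) * (S / σ) / ε ≤ n * (1 + S / σ) / ε := by
        gcongr
        linarith
      linarith
    linarith
  have h2n : 2 * n ≤ 2 ^ L₁ := by
    have : (2 : ℝ) * n ≤ 2 ^ L₁ := by linarith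
    exact_mod_cast this
  have hr2 : (inp A b ε).r 2 0 0 = ε := by simp [inp]
  obtain ⟨t, m, hrun, hm, L, hLL, hAcc, hout⟩ := hM (inp A b ε) n L₁ ε (by simp [inp])
    (by simp [inp]) hn (by rw [has]; exact hS0) hr2 hacc hL1 h2n
  have hβ : (1 : ℝ) ≤ 2 ^ (8 * L) := one_le_pow₀ (by norm_num)
  have hβ0 : (0 : ℝ) < 2 ^ (8 * L) := by positivity
  have hBent : ∀ i < n, ∀ j < n, |B i j| ≤ 1 / 2 := by
    intro i hi j hj
    rw [← hasB]
    unfold asum
    refine le_trans ?_ (Finset.single_le_sum (f := fun i => ∑ j ∈ Finset.range n, |B i j|)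
      (fun i _ => Finset.sum_nonneg fun j _ => abs_nonneg _) (Finset.mem_range.2 hi))
    exact Finset.single_le_sum (f := fun j => |B i j|)
      (fun j _ => abs_nonneg _) (Finset.mem_range.2 hj)
  have hat := (hA n L B hLL hBent).2
  have hsound := hS n (2 ^ (8 * L)) ε B (atil (2 ^ (8 * L)) (2 ^ (20 * L)) B) (xlev n L B) hn hβ
    hε0 hasB.le hat hAcc b
  obtain ⟨hs1, hs2⟩ := hsound
  set X : Matrix (Fin n) (Fin n) ℝ := toM n fun i j => xlev n L B i j / 2 ^ (8 * L) with hX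
  have hout' : out n t = (1 / (2 * S)) • X.mulVec b := by
    ext i
    simp only [out, Pi.smul_apply, smul_eq_mul]
    rw [hout i i.2, has, Matrix.mulVec, dotProduct, Finset.sum_range]
    simp_rw [inp_r1]
    rw [Finset.mul_sum, Finset.sum_div]
    apply Finset.sum_congr rfl
    intro j _
    rw [hX, ← hBdef]
    simp only [toM]
    field_simp
  have hunit : IsUnit A := (hL n A σ hσ hlow).1
  refine ⟨t, m, hrun, ?_, ?_, ?_⟩
  · have h1 : (m : ℝ) ≤ 10 ^ 9 * (n + 1) ^ 2 * L₁ ^ 3 := by exact_mod_cast hm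
    have h2 : ((n : ℝ) + 1) ^ 2 ≤ 4 * n ^ 2 := by nlinarith
    have hlog : 0 ≤ Real.log T := Real.log_nonneg hT1
    have h3 : (L₁ : ℝ) ^ 3 ≤ (9 * (1 + Real.log T)) ^ 3 := by
      gcongr
    calc (m : ℝ) ≤ 10 ^ 9 * (n + 1) ^ 2 * L₁ ^ 3 := h1
      _ ≤ 10 ^ 9 * (4 * n ^ 2) * (9 * (1 + Real.log T)) ^ 3 := by gcongr
      _ = _ := by push_cast; ring
  · have h1 : A.mulVec (out n t) = (toM n B).mulVec (X.mulVec b) := by
      rw [hout', hBM, Matrix.smul_mulVec, Matrix.mulVec_smul]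
    rw [h1]
    exact hs1
  · have hdet : IsUnit A.det := (Matrix.isUnit_iff_isUnit_det A).1 hunit
    have h1 : (toM n B).mulVec ((2 * S) • A⁻¹.mulVec b) = b := by
      rw [hBM, Matrix.smul_mulVec, Matrix.mulVec_smul, Matrix.mulVec_mulVec,
        Matrix.mul_nonsing_inv A hdet, Matrix.one_mulVec, smul_smul]
      rw [one_div_mul_cancel (by positivity), one_smul]
    have h2 := hs2 _ h1
    have h3 : out n t - A⁻¹.mulVec b = (1 / (2 * S)) • (X.mulVec b - (2 * S) • A⁻¹.mulVec b) := by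
      rw [hout', smul_sub, smul_smul, one_div_mul_cancel (by positivity), one_smul]
    rw [h3, nrm_smul, abs_of_pos h2S]
    rw [nrm_smul, abs_of_pos (by positivity)] at h2
    have h4 := mul_le_mul_of_nonneg_left h2 h2S.le
    calc _ ≤ 1 / (2 * S) * (ε * (2 * S * nrm (A⁻¹.mulVec b))) := h4
      _ = _ := by field_simp

end Pool.Agent.W217.RS
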