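import Pool.Agent.W217.RS.Stm2

set_option autoImplicit false

open scoped BigOperators

noncomputable section

namespace Pool.Agent.W217.RS

namespace SOUNDaux

theorem nrm_eq {n : ℕ} (v : Fin n → ℝ) : nrm v = ‖(WithLp.toLp 2 v : EuclideanSpace ℝ (Fin n))‖ := by
  rw [EuclideanSpace.norm_eq]
  unfold nrm
  congr 1
  apply Finset.sum_congr rfl
  intro i _
  rw [Real.norm_eq_abs, sq_abs]

theorem nrm_nonneg {n : ℕ} (v : Fin n → ℝ) : 0 ≤ nrm v := Real.sqrt_nonneg _

theorem nrm_add {n : ℕ} (v w : Fin n → ℝ) : nrm (v + w) ≤ nrm v + nrm w := by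
  rw [nrm_eq, nrm_eq, nrm_eq, WithLp.toLp_add]
  exact norm_add_le _ _

theorem nrm_neg {n : ℕ} (v : Fin n → ℝ) : nrm (-v) = nrm v := by
  rw [nrm_eq, nrm_eq, WithLp.toLp_neg]
  exact norm_neg _

theorem nrm_sub {n : ℕ} (v w : Fin n → ℝ) : nrm (v - w) ≤ nrm v + nrm w := by
  rw [sub_eq_add_neg]
  exact (nrm_add _ _).trans (by rw [nrm_neg])

theorem eq_zero_of_nrm {n : ℕ} (v : Fin n → ℝ) (h : nrm v ≤ 0) : v = 0 := by
  rw [nrm_eq] at h
  have h2 := norm_le_zero_iff.1 h
  funext i
  have := congrArg (fun w : EuclideanSpace ℝ (Fin n) => w i) h2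
  simpa using this

theorem Up.add {n : ℕ} {A B : Matrix (Fin n) (Fin n) ℝ} {c d : ℝ} (hA : Up A c) (hB : Up B d) :
    Up (A + B) (c + d) := by
  intro v
  rw [Matrix.add_mulVec, add_mul]
  exact (nrm_add _ _).trans (add_le_add (hA v) (hB v))

theorem Up.mul {n : ℕ} {A B : Matrix (Fin n) (Fin n) ℝ} {c d : ℝ} (hc : 0 ≤ c) (hA : Up A c)
    (hB : Up B d) : Up (A * B) (c * d) := by
  intro v
  rw [← Matrix.mulVec_mulVec, mul_assoc]
  exact (hA _).trans (mul_le_mul_of_nonneg_left (hB v) hc)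

theorem resid {n : ℕ} (β : ℝ) (hβ : 0 < β) (a x : ℕ → ℕ → ℝ) :
    ∑ i, ∑ j, |((toM n fun i j => a i j / β) * (toM n fun i j => x i j / β) - 1) i j| =
      fres n β a x := by
  unfold fres
  rw [Finset.sum_div, Finset.sum_range]
  apply Finset.sum_congr rfl
  intro i _
  rw [Finset.sum_div, Finset.sum_range]
  apply Finset.sum_congr rfl
  intro j _
  have h2 : (0 : ℝ) < β ^ 2 := by positivity
  have h1 : ((toM n fun i j => a i j / β) * (toM n fun i j => x i j / β) - 1) i j =
      (mulN n a x i j - if (i : ℕ) = (j : ℕ) then β ^ 2 else 0) / β ^ 2 := by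
    rw [Matrix.sub_apply, Matrix.mul_apply, Matrix.one_apply]
    unfold mulN toM
    rw [Finset.sum_range, sub_div, Finset.sum_div]
    congr 1
    · apply Finset.sum_congr rfl
      intro k _
      field_simp
    · by_cases h : i = j
      · rw [if_pos h, if_pos (by rw [h]), div_self h2.ne']
      · rw [if_neg h, if_neg (fun h' => h (Fin.ext h')), zero_div]
  rw [h1, abs_div, abs_of_pos h2]

theorem xsum_eq {n : ℕ} (β : ℝ) (hβ : 0 < β) (x : ℕ → ℕ → ℝ) :
    ∑ i, ∑ j, |(toM n fun i j => x i j / β) i j| = xsum n β x := by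
  unfold xsum
  rw [Finset.sum_div, Finset.sum_range]
  apply Finset.sum_congr rfl
  intro i _
  rw [Finset.sum_div, Finset.sum_range]
  apply Finset.sum_congr rfl
  intro j _
  unfold toM
  rw [abs_div, abs_of_pos hβ]

theorem asum_eq {n : ℕ} (A : ℕ → ℕ → ℝ) : ∑ i, ∑ j, |(toM n A) i j| = asum n A := by
  unfold asum
  rw [Finset.sum_range]
  apply Finset.sum_congr rfl
  intro i _
  rw [Finset.sum_range]
  rfl

end SOUNDaux

open SOUNDaux in
theorem pSOUND : SMALL → UPSUM → SOUND := by
  intro hS hU n β ε A a x hn hβ hε hA hAa hacc b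
  have hβ0 : 0 < β := by linarith
  set A' := toM n A with hA'
  set A2 := toM n fun i j => a i j / β with hA2
  set X := toM n fun i j => x i j / β with hX
  obtain ⟨h1, h2, h3⟩ := hacc
  have k1 : Up (A2 * X - 1) (fres n β a x) := by
    have := hU n (A2 * X - 1)
    rw [hA2, hX, resid β hβ0 a x] at this
    exact this
  have k2 : Up X (xsum n β x) := by
    have := hU n X
    rw [hX, xsum_eq β hβ0 x] at this
    exact this
  have k3 : Up (A' - A2) (n * (1 / β)) := by
    apply hS n _ _ (by positivity)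
    intro i j
    exact hAa i i.2 j j.2
  have hx0 : 0 ≤ xsum n β x := by
    unfold xsum
    have : 0 ≤ ∑ i ∈ Finset.range n, ∑ j ∈ Finset.range n, |x i j| :=
      Finset.sum_nonneg fun i _ => Finset.sum_nonneg fun j _ => abs_nonneg _
    positivity
  have hf0 : 0 ≤ fres n β a x := by
    unfold fres
    have : 0 ≤ ∑ i ∈ Finset.range n, ∑ j ∈ Finset.range n,
      |mulN n a x i j - if i = j then β ^ 2 else 0| :=
      Finset.sum_nonneg fun i _ => Finset.sum_nonneg fun j _ => abs_nonneg _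
    positivity
  have k4 : Up (A' * X - 1) (etot n β a x) := by
    have e1 : A' * X - 1 = (A2 * X - 1) + (A' - A2) * X := by
      rw [sub_mul]; abel
    have e2 : etot n β a x = fres n β a x + n * (1 / β) * xsum n β x := by
      unfold etot; ring
    rw [e1, e2]
    exact Up.add k1 (Up.mul (by positivity) k3 k2)
  have hfirst : ∀ b : Fin n → ℝ, nrm (A'.mulVec (X.mulVec b) - b) ≤ etot n β a x * nrm b := by
    intro b
    have := k4 b
    rw [Matrix.sub_mulVec, ← Matrix.mulVec_mulVec, Matrix.one_mulVec] at this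
    exact this
  refine ⟨(hfirst b).trans (mul_le_mul_of_nonneg_right h2 (nrm_nonneg _)), ?_⟩
  intro y hy
  -- lower bound for `A' X`
  have hlow : ∀ v : Fin n → ℝ, nrm v ≤ 2 * nrm ((A' * X).mulVec v) := by
    intro v
    have e1 := hfirst v
    have e2 : nrm v ≤ nrm (A'.mulVec (X.mulVec v) - v) + nrm (A'.mulVec (X.mulVec v)) := by
      have : v = -(A'.mulVec (X.mulVec v) - v) + A'.mulVec (X.mulVec v) := by abel
      calc nrm v = nrm (-(A'.mulVec (X.mulVec v) - v) + A'.mulVec (X.mulVec v)) := by rw [← this]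
        _ ≤ nrm (-(A'.mulVec (X.mulVec v) - v)) + nrm (A'.mulVec (X.mulVec v)) := nrm_add _ _
        _ = _ := by rw [nrm_neg]
    rw [← Matrix.mulVec_mulVec]
    have e3 : etot n β a x * nrm v ≤ 1 / 2 * nrm v := mul_le_mul_of_nonneg_right h1 (nrm_nonneg _)
    linarith
  have hunit : IsUnit (A' * X) := by
    rw [← Matrix.mulVec_injective_iff_isUnit]
    intro v w hvw
    have : (A' * X).mulVec (v - w) = 0 := by
      rw [Matrix.mulVec_sub, sub_eq_zero]; exact hvw
    have h5 := hlow (v - w)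
    rw [this] at h5
    have h6 : nrm (0 : Fin n → ℝ) = 0 := by unfold nrm; simp
    rw [h6, mul_zero] at h5
    exact sub_eq_zero.1 (eq_zero_of_nrm _ h5)
  have hunitA : IsUnit A' := by
    rw [Matrix.isUnit_iff_isUnit_det] at hunit ⊢
    rw [Matrix.det_mul] at hunit
    exact isUnit_of_mul_isUnit_left hunit
  have hinv : ∀ u : Fin n → ℝ, nrm u ≤ 2 * xsum n β x * nrm (A'.mulVec u) := by
    intro u
    have hdet : IsUnit (A' * X).det := (Matrix.isUnit_iff_isUnit_det _).1 hunit
    set v := (A' * X)⁻¹.mulVec (A'.mulVec u) with hv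
    have e1 : (A' * X).mulVec v = A'.mulVec u := by
      rw [hv, Matrix.mulVec_mulVec, Matrix.mul_nonsing_inv _ hdet, Matrix.one_mulVec]
    have e2 : X.mulVec v = u := by
      have hinj := (Matrix.mulVec_injective_iff_isUnit (A := A')).2 hunitA
      apply hinj
      rw [← e1, ← Matrix.mulVec_mulVec]
    have e3 := hlow v
    rw [e1] at e3
    calc nrm u = nrm (X.mulVec v) := by rw [e2]
      _ ≤ xsum n β x * nrm v := k2 v
      _ ≤ xsum n β x * (2 * nrm (A'.mulVec u)) := mul_le_mul_of_nonneg_left e3 hx0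
      _ = _ := by ring
  have hb : nrm b ≤ 1 / 2 * nrm y := by
    rw [← hy]
    have := hU n A' y
    rw [hA', asum_eq] at this
    exact this.trans (mul_le_mul_of_nonneg_right hA (nrm_nonneg _))
  have e1 : A'.mulVec (X.mulVec b - y) = A'.mulVec (X.mulVec b) - b := by
    rw [Matrix.mulVec_sub, hy]
  have hn0 := nrm_nonneg y
  have he0 : 0 ≤ etot n β a x := by
    unfold etot; positivity
  calc nrm (X.mulVec b - y) ≤ 2 * xsum n β x * nrm (A'.mulVec (X.mulVec b - y)) := hinv _
    _ ≤ 2 * xsum n β x * (etot n β a x * nrm b) := by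
        rw [e1]
        exact mul_le_mul_of_nonneg_left (hfirst b) (by positivity)
    _ ≤ 2 * xsum n β x * (etot n β a x * (1 / 2 * nrm y)) := by
        apply mul_le_mul_of_nonneg_left _ (by positivity)
        exact mul_le_mul_of_nonneg_left hb he0
    _ = etot n β a x * xsum n β x * nrm y := by ring
    _ ≤ ε * nrm y := mul_le_mul_of_nonneg_right h3 hn0

end Pool.Agent.W217.RS
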