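import Pool.Agent.W217.RS.Stm2

set_option autoImplicit false

open scoped BigOperators

noncomputable section

namespace Pool.Agent.W217.RS.STARTaux

open Pool.Agent.W217.RS

theorem okseq {p q : Pr} {s : St} {k : ℕ} {P Q : St → Prop} (k₁ k₂ : ℕ)
    (h : Ok p s k₁ P) (h2 : ∀ t, P t → Ok q t k₂ Q) (hk : k₁ + k₂ ≤ k) : Ok (.seq p q) s k Q :=
  Ok.seq k₁ k₂ (h.mono le_rfl h2) hk

theorem std_fr {n w T : ℕ} {R : Finset ℕ} {s t : St} (h : Std n w s) (hf : Fr T R s t)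
    (hT : 9 < T) (hR : 9 ∉ R) : Std n w t := by
  obtain ⟨h0, h1, h3, h9⟩ := h
  refine ⟨(hf.1 0 (by omega)).trans h0, (hf.1 1 (by omega)).trans h1,
    (hf.1 3 (by omega)).trans h3, ?_⟩
  rw [hf.2 9 hT hR]
  exact h9

theorem cost0 {a c : ℕ} (n w : ℕ) (h : a ≤ c) :
    a * (n + 1) ^ 2 ≤ c * (n + 1) ^ 2 * (w + 1) :=
  (Nat.mul_le_mul_right _ h).trans (Nat.le_mul_of_pos_right _ (Nat.succ_pos w))

theorem cost1 {a b c : ℕ} (n w : ℕ) (h : a + b ≤ c) :
    a * (n + 1) ^ 2 + b * (n + 1) ^ 2 * (w + 1) ≤ c * (n + 1) ^ 2 * (w + 1) := by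
  have h1 : a * (n + 1) ^ 2 ≤ a * (n + 1) ^ 2 * (w + 1) := cost0 n w le_rfl
  have h2 : (a + b) * ((n + 1) ^ 2 * (w + 1)) ≤ c * ((n + 1) ^ 2 * (w + 1)) :=
    Nat.mul_le_mul_right _ h
  linarith

theorem cost2 {a b c : ℕ} (n w : ℕ) (h : a + b ≤ c) :
    a * (n + 1) ^ 2 * (w + 1) + b * (n + 1) ^ 2 * (w + 1) ≤ c * (n + 1) ^ 2 * (w + 1) := by
  have h2 : (a + b) * ((n + 1) ^ 2 * (w + 1)) ≤ c * ((n + 1) ^ 2 * (w + 1)) :=
    Nat.mul_le_mul_right _ h
  linarith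

theorem cost3 {a b c : ℕ} (n w : ℕ) (h : a + b ≤ c) :
    a * (n + 1) + b * (n + 1) ^ 2 * (w + 1) ≤ c * (n + 1) ^ 2 * (w + 1) := by
  have h1 : a * (n + 1) ≤ a * (n + 1) ^ 2 := Nat.mul_le_mul_left _ (by nlinarith)
  exact (Nat.add_le_add_right h1 _).trans (cost1 n w h)

theorem val_R2 (a i j : ℕ) (u : St) : (R2 a i j).val u = u.r a (u.c i) (u.c j) := rfl

theorem val_R (a : ℕ) (u : St) : (R a).val u = u.r a (u.c 1) (u.c 1) := rfl

theorem val_div (a b : Ex) (u : St) : (a / b).val u = a.val u / b.val u := rfl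

theorem val_mul (a b : Ex) (u : St) : (a * b).val u = a.val u * b.val u := rfl

theorem val_add (a b : Ex) (u : St) : (a + b).val u = a.val u + b.val u := rfl

theorem val_sub (a b : Ex) (u : St) : (a - b).val u = a.val u - b.val u := rfl

theorem val_num (k : ℕ) (u : St) : (Ex.num k).val u = k := rfl

end Pool.Agent.W217.RS.STARTaux

namespace Pool.Agent.W217.RS

open STARTaux

theorem pSTART : MAPR → RNDM → START := by
  intro hM hR s n w β H hstd h8 h20 hH0 h2H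
  -- step 1
  refine okseq (23 * (n + 1) ^ 2) (227 * (n + 1) ^ 2 * (w + 1))
    (hM s n 13 (R2 5 80 81 * R 8) (fun i j => s.r 5 i j * β) hstd.1 ?_) (fun t1 ht1 => ?_)
    (cost1 n w (by norm_num))
  · intro i _ j _ u hf hu2 hc1 hc2 _
    refine ⟨⟨trivial, trivial⟩, ?_⟩
    rw [val_mul, val_R2, val_R, hu2 5 (by norm_num), hu2 8 (by norm_num), hc1, hc2,
      hf.1 1 (by norm_num), hstd.2.1, h8]
  obtain ⟨f1, g1, v1⟩ := ht1
  have std1 := std_fr hstd f1 (by norm_num) (by decide)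
  have h20t1 : t1.r 20 0 0 = H := by rw [g1 20 (by norm_num), h20]
  -- step 2
  refine okseq (120 * (n + 1) ^ 2 * (w + 1)) (107 * (n + 1) ^ 2 * (w + 1))
    (hR t1 n w H std1 h20t1 hH0 h2H) (fun t2 ht2 => ?_) (cost2 n w (by norm_num))
  obtain ⟨f2, v2⟩ := ht2
  have std2 := std_fr std1 f2 (by norm_num) (by decide)
  have v2' : ∀ i < n, ∀ j < n, t2.r 19 i j = atil β H (s.r 5) i j := by
    intro i hi j hj
    rw [v2 i hi j hj, v1 i hi j hj]
    rfl
  -- step 3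
  refine okseq (21 * (n + 1) ^ 2) (86 * (n + 1) ^ 2 * (w + 1))
    (hM t2 n 6 (R2 19 80 81) (atil β H (s.r 5)) std2.1 ?_) (fun t3 ht3 => ?_)
    (cost1 n w (by norm_num))
  · intro i hi j hj u _ hu2 hc1 hc2 _
    exact ⟨trivial, by rw [val_R2, hu2 19 (by norm_num), hc1, hc2, v2' i hi j hj]⟩
  obtain ⟨f3, g3, v3⟩ := ht3
  have std3 := std_fr std2 f3 (by norm_num) (by decide)
  -- step 4
  refine (hM t3 n 7 (R2 19 81 80) (fun i j => atil β H (s.r 5) j i) std3.1 ?_).mono ?_ ?_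
  · intro i hi j hj u _ hu2 hc1 hc2 _
    exact ⟨trivial, by rw [val_R2, hu2 19 (by norm_num), hc1, hc2, g3 19 (by norm_num),
      v2' j hj i hi]⟩
  · have : (R2 19 81 80).size = 1 := rfl
    rw [this]
    exact cost0 n w (by norm_num)
  · rintro t ⟨f4, g4, v4⟩
    have v6 : ∀ i < n, ∀ j < n, t.r 6 i j = atil β H (s.r 5) i j := by
      intro i hi j hj
      rw [g4 6 (by norm_num), v3 i hi j hj]
    refine ⟨?_, v6, ?_⟩
    · have m : ∀ {R : Finset ℕ} {u v : St}, R ⊆ {6, 7, 13, 19} → Fr 80 R u v →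
          Fr 80 {6, 7, 13, 19} u v := fun hR h => h.mono le_rfl (fun a _ ha => hR ha)
      exact (m (by decide) f1).trans <| (m (by decide) f2).trans <| (m (by decide) f3).trans
        (m (by decide) f4)
    · intro i hi j hj
      rw [v4 i hi j hj, v6 j hj i hi]

end Pool.Agent.W217.RS
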