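import Pool.Agent.W217.RS.Stm2

set_option autoImplicit false

noncomputable section

namespace Pool.Agent.W217.RS.SUMAaux

lemma val_add (a b : Ex) (s : St) : (a + b : Ex).val s = a.val s + b.val s := rfl

lemma val_sub (a b : Ex) (s : St) : (a - b : Ex).val s = a.val s - b.val s := rfl

lemma size_add (a b : Ex) : (a + b : Ex).size = a.size + b.size + 1 := rfl

lemma size_sub (a b : Ex) : (a - b : Ex).size = a.size + b.size + 1 := rfl

lemma val_R (a : ℕ) (s : St) (h : s.c 1 = 0) : (R a).val s = s.r a 0 0 := by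
  simp [R, Ex.val, St.get, h]

lemma val_R2 (a i j : ℕ) (s : St) : (R2 a i j).val s = s.r a (s.c i) (s.c j) := rfl

end Pool.Agent.W217.RS.SUMAaux

namespace Pool.Agent.W217.RS

open SUMAaux

theorem pSUMA : SUMA := by
  intro s n a h0 h1 ha
  unfold pSumAbs
  refine Ok.seq 2 (12 * n ^ 2 + 8 * n + 3) ?_ (by nlinarith)
  refine Ok.asg trivial ?_ (by simp [Ex.size])
  refine Ok.forc n (12 * n + 3) (fun l t => Fr 80 ∅ s t ∧
    t.r 84 0 0 = ∑ i ∈ Finset.range l, ∑ j ∈ Finset.range n, |s.r a i j|) (by norm_num) ?_ ?_ ?_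
    ?_ (by nlinarith)
  · simpa using h0
  · refine ⟨?_, ?_⟩
    · refine Fr.trans (t := s.set (sc 84) ((Ex.num 0).val s)) (Fr.set (Or.inl (by simp [sc]))) ?_
      exact Fr.setc (by norm_num)
    · simp [St.set_r, sc, h1, Ex.val]
  · intro l hl t ht1 ht2 ⟨hF, hv⟩
    have c0 : t.c 0 = n := (hF.1 0 (by norm_num)).trans h0
    have c1 : t.c 1 = 0 := (hF.1 1 (by norm_num)).trans h1
    refine Ok.forc n 7 (fun m u => Fr 80 ∅ s u ∧ u.c 80 = l ∧
      u.r 84 0 0 = (∑ i ∈ Finset.range l, ∑ j ∈ Finset.range n, |s.r a i j|) +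
        ∑ j ∈ Finset.range m, |s.r a l j|) (by norm_num) c0 ?_ ?_ ?_ (by omega)
    · refine ⟨hF.trans (Fr.setc (by norm_num)), ?_, ?_⟩
      · rw [St.setc_c]; simp [ht1]
      · simpa using hv
    · intro m hm u hu1 hu2 ⟨hF2, hc, hv2⟩
      have d1 : u.c 1 = 0 := (hF2.1 1 (by norm_num)).trans h1
      have hra : u.r a = s.r a := hF2.2 a ha (by simp)
      have e1 : (R2 a 80 81).val u = s.r a l m := by
        rw [val_R2, hc, hu1, hra]
      have e2 : (Ex.num 0).val u = 0 := by simp [Ex.val]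
      have key : ∀ v : ℝ, v = u.r 84 0 0 + |s.r a l m| →
          ((u.set (sc 84) v).c 81 = m ∧ (u.set (sc 84) v).c 0 = n ∧
          (Fr 80 ∅ s ((u.set (sc 84) v).setc 81 (m + 1)) ∧
            ((u.set (sc 84) v).setc 81 (m + 1)).c 80 = l ∧
            ((u.set (sc 84) v).setc 81 (m + 1)).r 84 0 0 =
              (∑ i ∈ Finset.range l, ∑ j ∈ Finset.range n, |s.r a i j|) +
              ∑ j ∈ Finset.range (m + 1), |s.r a l j|)) := by
        intro v hv'
        refine ⟨hu1, hu2, ?_, ?_, ?_⟩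
        · exact (hF2.trans (Fr.set (Or.inl (by simp [sc])))).trans (Fr.setc (by norm_num))
        · rw [St.setc_c]; simp [hc]
        · rw [St.setc_r, St.set_r, Finset.sum_range_succ, hv', hv2]
          simp [sc, d1]
          ring
      refine Ok.ifle 4 trivial trivial ?_ ?_ (by simp [Ex.size, R2])
      · intro hle
        rw [e1, e2] at hle
        refine Ok.asg ⟨trivial, trivial⟩ ?_ (by simp [size_add, R, R2, Ex.size])
        exact key _ (by rw [val_add, val_R _ _ d1, e1, abs_of_nonneg hle])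
      · intro hle
        rw [e1, e2] at hle
        refine Ok.asg ⟨trivial, trivial⟩ ?_ (by simp [size_sub, R, R2, Ex.size])
        exact key _ (by
          rw [val_sub, val_R _ _ d1, e1, abs_of_neg (not_le.mp hle)]
          ring)
    · intro u hu1 hu2 ⟨hF2, hc, hv2⟩
      refine ⟨hc, (hF2.1 0 (by norm_num)).trans h0, hF2.trans (Fr.setc (by norm_num)), ?_⟩
      rw [St.setc_r, Finset.sum_range_succ]
      exact hv2
  · intro t _ _ h
    exact h

end Pool.Agent.W217.RS
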