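import Pool.Agent.W217.RS.Stm2

namespace Pool.Agent.W217.RS

namespace UPSUMaux

theorem nrm_nonneg {n : ℕ} (v : Fin n → ℝ) : 0 ≤ nrm v := Real.sqrt_nonneg _

theorem nrm_le_sum {n : ℕ} (v : Fin n → ℝ) : nrm v ≤ ∑ i, |v i| := by
  unfold nrm
  have h0 : 0 ≤ ∑ i, |v i| := Finset.sum_nonneg fun i _ => abs_nonneg _
  rw [Real.sqrt_le_left h0]
  have h1 : ∑ i, v i ^ 2 = ∑ i, |v i| * |v i| := by
    refine Finset.sum_congr rfl fun i _ => ?_
    rw [abs_mul_abs_self, sq]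
  rw [h1, sq, Finset.sum_mul]
  refine Finset.sum_le_sum fun i _ => ?_
  exact mul_le_mul_of_nonneg_left
    (Finset.single_le_sum (f := fun j => |v j|) (fun j _ => abs_nonneg _) (Finset.mem_univ i))
    (abs_nonneg _)

theorem abs_le_nrm {n : ℕ} (v : Fin n → ℝ) (j : Fin n) : |v j| ≤ nrm v := by
  unfold nrm
  refine Real.abs_le_sqrt ?_
  exact Finset.single_le_sum (f := fun j => v j ^ 2) (fun j _ => sq_nonneg _) (Finset.mem_univ j)

end UPSUMaux

open UPSUMaux in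
theorem pUPSUM : UPSUM := by
  intro n A v
  refine (nrm_le_sum _).trans ?_
  rw [Finset.sum_mul]
  refine Finset.sum_le_sum fun i _ => ?_
  have h1 : A.mulVec v i = ∑ j, A i j * v j := rfl
  rw [h1, Finset.sum_mul]
  refine (Finset.abs_sum_le_sum_abs _ _).trans ?_
  refine Finset.sum_le_sum fun j _ => ?_
  rw [abs_mul]
  exact mul_le_mul_of_nonneg_left (abs_le_nrm v j) (abs_nonneg _)

end Pool.Agent.W217.RS
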