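import Pool.Agent.W217.RS.Stm2

set_option autoImplicit false

/-!
# Anti-concentration of a Gaussian linear form
-/

noncomputable section

namespace Pool.Agent.W217.RS

namespace ANTIaux

open MeasureTheory ProbabilityTheory

theorem pdf_le (x : ℝ) : gaussianPDF 0 1 x ≤ ENNReal.ofReal (1 / 2) := by
  unfold gaussianPDF
  apply ENNReal.ofReal_le_ofReal
  unfold gaussianPDFReal
  have h1 : (2 : ℝ) ≤ √(2 * Real.pi * ((1 : NNReal) : ℝ)) := by
    rw [Real.le_sqrt (by norm_num) (by positivity)]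
    have := Real.pi_gt_three
    push_cast
    linarith
  have h2 : (√(2 * Real.pi * ((1 : NNReal) : ℝ)))⁻¹ ≤ 1 / 2 := by
    rw [← one_div]
    exact one_div_le_one_div_of_le (by norm_num) h1
  have h3 : Real.exp (-(x - 0) ^ 2 / (2 * ((1 : NNReal) : ℝ))) ≤ 1 := by
    rw [Real.exp_le_one_iff]
    apply div_nonpos_of_nonpos_of_nonneg
    · have := sq_nonneg (x - 0)
      linarith
    · positivity
  calc _ ≤ (1 / 2 : ℝ) * 1 := by
        apply mul_le_mul h2 h3 (Real.exp_pos _).le (by norm_num)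
    _ = 1 / 2 := by norm_num

theorem gauss_Icc (a τ : ℝ) (hτ : 0 ≤ τ) :
    gaussianReal 0 1 (Set.Icc (a - τ) (a + τ)) ≤ ENNReal.ofReal τ := by
  rw [gaussianReal_of_var_ne_zero _ (by norm_num), withDensity_apply _ measurableSet_Icc]
  calc ∫⁻ x in Set.Icc (a - τ) (a + τ), gaussianPDF 0 1 x
      ≤ ∫⁻ _ in Set.Icc (a - τ) (a + τ), ENNReal.ofReal (1 / 2) :=
        lintegral_mono fun x => pdf_le x
    _ = ENNReal.ofReal (1 / 2) * volume (Set.Icc (a - τ) (a + τ)) := setLIntegral_const _ _
    _ = ENNReal.ofReal τ := by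
        rw [Real.volume_Icc, ← ENNReal.ofReal_mul (by norm_num)]
        congr 1
        ring

theorem slice (b c τ : ℝ) (hc : c ≠ 0) (hτ : 0 ≤ τ) :
    gaussianReal 0 1 {x : ℝ | |x * c + b| ≤ τ * |c|} ≤ ENNReal.ofReal τ := by
  refine le_trans (measure_mono ?_) (gauss_Icc (-b / c) τ hτ)
  intro x hx
  simp only [Set.mem_setOf_eq] at hx
  have h1 : x * c + b = (x - -b / c) * c := by
    field_simp
    ring
  rw [h1, abs_mul] at hx
  have h2 : |x - -b / c| ≤ τ := le_of_mul_le_mul_right hx (abs_pos.2 hc)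
  rw [abs_le] at h2
  exact ⟨by linarith, by linarith⟩

end ANTIaux

open MeasureTheory ProbabilityTheory in
theorem pANTI : ANTI := by
  intro n c j τ hcj hτ
  obtain ⟨m, rfl⟩ : ∃ m, n = m + 1 := ⟨n - 1, by have := j.pos; omega⟩
  set μ : Measure ℝ := gaussianReal 0 1 with hμ
  have hmp := measurePreserving_piFinSuccAbove (fun _ : Fin (m + 1) => μ) j
  set S' : Set (ℝ × (Fin m → ℝ)) :=
    {p | |p.1 * c j + ∑ k, p.2 k * c (j.succAbove k)| ≤ τ * |c j|} with hS'
  have hmeas : MeasurableSet S' := by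
    rw [hS']
    apply measurableSet_le
    · apply Measurable.abs
      apply Measurable.add
      · exact (measurable_fst.mul_const _)
      · apply Finset.measurable_sum
        intro k _
        exact ((measurable_pi_apply k).comp measurable_snd).mul_const _
    · exact measurable_const
  have hpre : {v : Fin (m + 1) → ℝ | |∑ k, v k * c k| ≤ τ * |c j|} =
      (MeasurableEquiv.piFinSuccAbove (fun _ => ℝ) j) ⁻¹' S' := by
    ext v
    simp only [hS', Set.mem_setOf_eq, Set.mem_preimage]
    rw [Fin.sum_univ_succAbove _ j]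
    rfl
  rw [hpre, hmp.measure_preimage hmeas.nullMeasurableSet, Measure.prod_apply_symm hmeas]
  calc ∫⁻ y, μ ((fun x => (x, y)) ⁻¹' S') ∂(Measure.pi fun _ : Fin m => μ)
      ≤ ∫⁻ _, ENNReal.ofReal τ ∂(Measure.pi fun _ : Fin m => μ) := by
        apply lintegral_mono
        intro y
        exact ANTIaux.slice (∑ k, y k * c (j.succAbove k)) (c j) τ hcj hτ
    _ = ENNReal.ofReal τ := by
        rw [lintegral_const, measure_univ, mul_one]

end Pool.Agent.W217.RS
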