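import Pool.Agent.W217.RS.Stm2
set_option autoImplicit false

open MeasureTheory

namespace Pool.Agent.W217.RS

namespace GINVaux

/-- the set of the statement -/
def bad (n : ℕ) (i j : Fin n) (τ : ℝ) : Set (Fin n → Fin n → ℝ) :=
  {A | (Matrix.of A).adjugate j i ≠ 0 ∧
    |(Matrix.of A).det| ≤ τ * |(Matrix.of A).adjugate j i|}

lemma cont_of (n : ℕ) : Continuous fun A : Fin n → Fin n → ℝ => (Matrix.of A : Matrix (Fin n) (Fin n) ℝ) :=
  continuous_id

lemma cont_det (n : ℕ) : Continuous fun A : Fin n → Fin n → ℝ => (Matrix.of A).det :=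
  Continuous.matrix_det (cont_of n)

lemma cont_adj (n : ℕ) (j i : Fin n) :
    Continuous fun A : Fin n → Fin n → ℝ => (Matrix.of A).adjugate j i :=
  (Continuous.matrix_adjugate (cont_of n)).matrix_elem j i

lemma meas_bad (n : ℕ) (i j : Fin n) (τ : ℝ) : MeasurableSet (bad n i j τ) := by
  have h1 : MeasurableSet {A : Fin n → Fin n → ℝ | (Matrix.of A).adjugate j i ≠ 0} :=
    ((measurableSet_singleton (0 : ℝ)).compl).preimage (cont_adj n j i).measurable
  have h2 : MeasurableSet {A : Fin n → Fin n → ℝ |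
      |(Matrix.of A).det| ≤ τ * |(Matrix.of A).adjugate j i|} :=
    measurableSet_le (cont_det n).abs.measurable (continuous_const.mul (cont_adj n j i).abs).measurable
  exact h1.inter h2

/-- the column of cofactors does not depend on the row -/
lemma adj_ins {m : ℕ} (i : Fin (m + 1)) (x : Fin (m + 1) → ℝ) (y : Fin m → Fin (m + 1) → ℝ)
    (k : Fin (m + 1)) :
    (Matrix.of (i.insertNth x y : Fin (m + 1) → Fin (m + 1) → ℝ)).adjugate k i
      = (Matrix.of (i.insertNth (0 : Fin (m + 1) → ℝ) y : Fin (m + 1) → Fin (m + 1) → ℝ)).adjugate k i := by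
  rw [Matrix.adjugate_apply, Matrix.adjugate_apply]
  congr 1
  ext a b
  rw [Matrix.updateRow_apply, Matrix.updateRow_apply]
  by_cases h : a = i
  · rw [if_pos h, if_pos h]
  · rw [if_neg h, if_neg h]
    obtain ⟨a', rfl⟩ := Fin.exists_succAbove_eq h
    simp

lemma det_ins {m : ℕ} (i : Fin (m + 1)) (x : Fin (m + 1) → ℝ) (y : Fin m → Fin (m + 1) → ℝ) :
    (Matrix.of (i.insertNth x y : Fin (m + 1) → Fin (m + 1) → ℝ)).det
      = ∑ k, x k * (Matrix.of
        (i.insertNth (0 : Fin (m + 1) → ℝ) y : Fin (m + 1) → Fin (m + 1) → ℝ)).adjugate k i := by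
  rw [Matrix.det_eq_sum_mul_adjugate_row _ i]
  apply Finset.sum_congr rfl
  intro k _
  rw [adj_ins i x y k]
  simp

end GINVaux

open GINVaux in
theorem pGINV : ANTI → GINV := by
  intro hA n i j τ hτ
  rcases n with _ | m
  · exact i.elim0
  set ν : Measure (Fin (m + 1) → ℝ) :=
    Measure.pi fun _ : Fin (m + 1) => ProbabilityTheory.gaussianReal 0 1 with hν
  show gauss (m + 1) (bad (m + 1) i j τ) ≤ ENNReal.ofReal τ
  have hmp := measurePreserving_piFinSuccAbove (fun _ : Fin (m + 1) => ν) i
  have hmp2 := hmp.symm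
  have hg : gauss (m + 1) = Measure.pi fun _ : Fin (m + 1) => ν := rfl
  rw [hg, ← hmp2.measure_preimage (meas_bad (m + 1) i j τ).nullMeasurableSet]
  rw [Measure.prod_apply_symm (hmp2.measurable (meas_bad (m + 1) i j τ))]
  calc ∫⁻ y : Fin m → Fin (m + 1) → ℝ, ν ((fun x => (x, y)) ⁻¹'
        ((MeasurableEquiv.piFinSuccAbove (fun _ : Fin (m + 1) => Fin (m + 1) → ℝ) i).symm ⁻¹'
          bad (m + 1) i j τ)) ∂(Measure.pi fun _ : Fin m => ν)
      ≤ ∫⁻ _ : Fin m → Fin (m + 1) → ℝ, ENNReal.ofReal τ ∂(Measure.pi fun _ : Fin m => ν) := by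
        apply lintegral_mono
        intro y
        set c : Fin (m + 1) → ℝ := fun k => (Matrix.of
          (i.insertNth (0 : Fin (m + 1) → ℝ) y : Fin (m + 1) → Fin (m + 1) → ℝ)).adjugate k i with hc
        by_cases hj : c j = 0
        · have : ((fun x => (x, y)) ⁻¹'
            ((MeasurableEquiv.piFinSuccAbove (fun _ : Fin (m + 1) => Fin (m + 1) → ℝ) i).symm ⁻¹'
              bad (m + 1) i j τ)) = ∅ := by
            apply Set.eq_empty_of_forall_notMem
            intro x hx
            have h1 : (Matrix.of (i.insertNth x y : Fin (m + 1) → Fin (m + 1) → ℝ)).adjugate j i ≠ 0 :=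
              hx.1
            rw [adj_ins] at h1
            exact h1 hj
          show ν _ ≤ _
          rw [this]
          simp
        · refine le_trans (measure_mono ?_) (hA (m + 1) c j τ hj hτ)
          intro x hx
          have h2 : |(Matrix.of (i.insertNth x y : Fin (m + 1) → Fin (m + 1) → ℝ)).det| ≤
            τ * |(Matrix.of (i.insertNth x y : Fin (m + 1) → Fin (m + 1) → ℝ)).adjugate j i| := hx.2
          rw [adj_ins, det_ins] at h2
          exact h2
    _ = ENNReal.ofReal τ := by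
        rw [lintegral_const, measure_univ, mul_one]

end Pool.Agent.W217.RS
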