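import Pool.Agent.W217.RS.Stm2

set_option autoImplicit false

/-!
Project RS, part PACK: packing of the rows of array 11.
-/

noncomputable section

namespace Pool.Agent.W217.RS.PACKaux

open Pool.Agent.W217.RS

theorem horner (a : ℕ → ℝ) (B : ℝ) (l : ℕ) :
    (∑ j ∈ Finset.range l, a j * B ^ (l - 1 - j)) * B + a l =
      ∑ j ∈ Finset.range (l + 1), a j * B ^ (l + 1 - 1 - j) := by
  rw [Finset.sum_range_succ, Finset.sum_mul, show l + 1 - 1 - l = 0 by omega, pow_zero, mul_one]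
  congr 1
  refine Finset.sum_congr rfl fun j hj => ?_
  have hj' := Finset.mem_range.1 hj
  rw [mul_assoc, ← pow_succ, show l - 1 - j + 1 = l + 1 - 1 - j by omega]

theorem inner (t : St) (n k : ℕ) (B : ℝ) (h0 : t.c 0 = n) (h1 : t.c 1 = 0) (h80 : t.c 80 = k)
    (h9 : t.r 9 0 0 = B) (hz : t.r 82 k 0 = 0) :
    Ok (forc 81 0 (.asg ⟨82, 80, 1⟩ (R2 82 80 1 * R 9 + R2 11 80 81))) t (11 * n + 3)
      (fun u => (∀ i < 81, u.c i = t.c i) ∧ (∀ a, a ≠ 82 → u.r a = t.r a) ∧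
        (∀ i, i ≠ k → u.r 82 i 0 = t.r 82 i 0) ∧
        u.r 82 k 0 = ∑ j ∈ Finset.range n, t.r 11 k j * B ^ (n - 1 - j)) := by
  refine Ok.forc n 6 (fun l u => (∀ i < 81, u.c i = t.c i) ∧ (∀ a, a ≠ 82 → u.r a = t.r a) ∧
        (∀ i, i ≠ k → u.r 82 i 0 = t.r 82 i 0) ∧
        u.r 82 k 0 = ∑ j ∈ Finset.range l, t.r 11 k j * B ^ (l - 1 - j)) (by norm_num) h0
        ?_ ?_ ?_ ?_
  · refine ⟨fun i hi => ?_, fun a _ => rfl, fun i _ => rfl, ?_⟩
    · rw [St.setc_c, if_neg (by omega)]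
    · simpa using hz
  · rintro l hl u hu81 hu0 ⟨i1, i2, i3, i4⟩
    have c1 : u.c 1 = 0 := by rw [i1 1 (by norm_num), h1]
    have c80 : u.c 80 = k := by rw [i1 80 (by norm_num), h80]
    have hv : (R2 82 80 1 * R 9 + R2 11 80 81 : Ex).val u = u.r 82 k 0 * B + t.r 11 k l := by
      have : (R2 82 80 1 * R 9 + R2 11 80 81 : Ex).val u =
          u.r 82 (u.c 80) (u.c 1) * u.r 9 (u.c 1) (u.c 1) + u.r 11 (u.c 80) (u.c 81) := rfl
      rw [this, c1, c80, hu81, i2 9 (by norm_num), i2 11 (by norm_num), h9]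
    refine Ok.asg ⟨⟨trivial, trivial⟩, trivial⟩ ?_ (le_refl 6)
    rw [hv]
    refine ⟨hu81, hu0, ?_, ?_, ?_, ?_⟩
    · intro i hi
      rw [St.setc_c, if_neg (by omega), St.set_c, i1 i hi]
    · intro a ha
      rw [St.setc_r, St.set_r_ne ha, i2 a ha]
    · intro i hi
      rw [St.setc_r, St.set_r, if_neg, i3 i hi]
      rintro ⟨-, h, -⟩
      exact hi (h.trans c80)
    · rw [St.setc_r, St.set_r, if_pos ⟨rfl, c80.symm, c1.symm⟩, i4]
      exact horner (fun j => t.r 11 k j) B l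
  · rintro u _ _ ⟨i1, i2, i3, i4⟩
    exact ⟨i1, i2, i3, i4⟩
  · omega

end Pool.Agent.W217.RS.PACKaux

namespace Pool.Agent.W217.RS

theorem pPACK : PACK := by
  intro s n w hs
  obtain ⟨h0, h1, h3, h9⟩ := hs
  unfold pPack
  refine Ok.forc n (11 * n + 5) (fun k u => (∀ i < 80, u.c i = s.c i) ∧
    (∀ a, a ≠ 82 → u.r a = s.r a) ∧
    ∀ i < k, u.r 82 i 0 = ∑ j ∈ Finset.range n, s.r 11 i j * ((2 : ℝ) ^ w) ^ (n - 1 - j))
    (by norm_num) h0 ?_ ?_ ?_ ?_
  · refine ⟨fun i hi => ?_, fun a _ => rfl, fun i hi => absurd hi (Nat.not_lt_zero _)⟩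
    rw [St.setc_c, if_neg (by omega)]
  · rintro k hk t ht80 ht0 ⟨i1, i2, i3⟩
    refine Ok.seq 2 (11 * n + 3) (Ok.asg trivial ?_ (le_refl 2)) (by omega)
    have c1 : t.c 1 = 0 := by rw [i1 1 (by norm_num), h1]
    refine (PACKaux.inner _ n k ((2 : ℝ) ^ w) ?_ ?_ ?_ ?_ ?_).mono le_rfl ?_
    · rw [St.set_c]; exact ht0
    · rw [St.set_c]; exact c1
    · rw [St.set_c]; exact ht80
    · rw [St.set_r_ne (by norm_num), i2 9 (by norm_num)]; exact h9
    · rw [St.set_r, if_pos ⟨rfl, ht80.symm, c1.symm⟩]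
      simp [Ex.val]
    · rintro u ⟨j1, j2, j3, j4⟩
      refine ⟨?_, ?_, ?_, ?_, ?_⟩
      · rw [j1 80 (by norm_num), St.set_c]; exact ht80
      · rw [j1 0 (by norm_num), St.set_c]; exact ht0
      · intro i hi
        rw [St.setc_c, if_neg (by omega), j1 i (by omega), St.set_c, i1 i hi]
      · intro a ha
        rw [St.setc_r, j2 a ha, St.set_r_ne ha, i2 a ha]
      · intro i hi
        rw [St.setc_r]
        rcases eq_or_ne i k with rfl | hik
        · rw [j4, St.set_r_ne (by norm_num), i2 11 (by norm_num)]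
        · rw [j3 i hik, St.set_r, if_neg, i3 i (by omega)]
          rintro ⟨-, h, -⟩
          exact hik (h.trans ht80)
  · rintro t _ _ ⟨i1, i2, i3⟩
    exact ⟨⟨i1, fun a ha _ => i2 a (by omega)⟩, i3⟩
  · nlinarith

end Pool.Agent.W217.RS
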