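import Pool.Agent.W217.RS.Stm2

/-!
Project RS (helper217), part UPT (helper701): the transposed matrix.
-/

open Matrix Finset

namespace Pool.Agent.W217.RS.UPTaux

theorem nrm_nonneg {n : ℕ} (v : Fin n → ℝ) : 0 ≤ nrm v := Real.sqrt_nonneg _

theorem nrm_sq {n : ℕ} (v : Fin n → ℝ) : nrm v ^ 2 = v ⬝ᵥ v := by
  unfold nrm
  rw [Real.sq_sqrt (Finset.sum_nonneg fun i _ => sq_nonneg _)]
  simp only [dotProduct, sq]

theorem dot_le {n : ℕ} (v w : Fin n → ℝ) : v ⬝ᵥ w ≤ nrm v * nrm w := by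
  unfold nrm
  exact Real.sum_mul_le_sqrt_mul_sqrt _ _ _

end Pool.Agent.W217.RS.UPTaux

namespace Pool.Agent.W217.RS

open UPTaux in
theorem pUPT : UPT := by
  intro n A c hc hA v
  have h1 : nrm (Aᵀ.mulVec v) ^ 2 ≤ c * nrm (Aᵀ.mulVec v) * nrm v := by
    rw [nrm_sq]
    have e : (Aᵀ.mulVec v) ⬝ᵥ (Aᵀ.mulVec v) = (A.mulVec (Aᵀ.mulVec v)) ⬝ᵥ v := by
      rw [dotProduct_mulVec, vecMul_transpose]
    rw [e]
    refine (dot_le _ _).trans ?_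
    exact mul_le_mul_of_nonneg_right (hA _) (nrm_nonneg v)
  rcases (nrm_nonneg (Aᵀ.mulVec v)).eq_or_lt with h0 | h0
  · rw [← h0]; exact mul_nonneg hc (nrm_nonneg v)
  · have h2 : nrm (Aᵀ.mulVec v) * nrm (Aᵀ.mulVec v) ≤ nrm (Aᵀ.mulVec v) * (c * nrm v) := by
      calc nrm (Aᵀ.mulVec v) * nrm (Aᵀ.mulVec v) = nrm (Aᵀ.mulVec v) ^ 2 := (sq _).symm
        _ ≤ c * nrm (Aᵀ.mulVec v) * nrm v := h1
        _ = nrm (Aᵀ.mulVec v) * (c * nrm v) := by ring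
    exact le_of_mul_le_mul_left h2 h0

end Pool.Agent.W217.RS
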